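import Pool.Agent.H52Hex.Ray

/-!
Area of a strictly convex hexagon; generic points.
-/

namespace H52Hex

open scoped BigOperators
open MeasureTheory

/-- a line is a null set -/
private lemma area_line_null (α β γ : ℝ) (h : α ≠ 0 ∨ β ≠ 0) :
    volume {x : ℂ | α * x.re + β * x.im = γ} = 0 := by
  let s : AffineSubspace ℝ ℂ :=
    { carrier := {x : ℂ | α * x.re + β * x.im = γ}
      smul_vsub_vadd_mem' := by
        intro c p₁ p₂ p₃ h1 h2 h3
        simp only [Set.mem_ofPred_eq, vsub_eq_sub, vadd_eq_add, Complex.real_smul, Complex.add_re,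
          Complex.add_im, Complex.mul_re, Complex.mul_im, Complex.ofReal_re, Complex.ofReal_im,
          Complex.sub_re, Complex.sub_im] at h1 h2 h3 ⊢
        linear_combination c * h1 - c * h2 + h3 }
  have hs : s ≠ ⊤ := by
    intro htop
    have hall : ∀ x : ℂ, α * x.re + β * x.im = γ := by
      intro x
      have : x ∈ s := by rw [htop]; exact AffineSubspace.mem_top ℝ ℂ x
      exact this
    have h0 := hall 0
    have h1 := hall 1
    have h2 := hall Complex.I
    simp at h0 h1 h2
    rcases h with h | h
    · apply h; linarith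
    · apply h; linarith
  exact Measure.addHaar_affineSubspace volume s hs

/-- almost every point is generic with respect to a countable set -/
lemma ae_gen {S : Set ℂ} (hS : S.Countable) : ∀ᵐ x : ℂ, Gen S x := by
  unfold Gen
  rw [Filter.eventually_and]
  constructor
  · rw [ae_ball_iff hS]
    intro a _
    rw [ae_iff]
    have h := area_line_null 0 1 a.im (Or.inr one_ne_zero)
    refine measure_mono_null ?_ h
    intro x hx
    simp only [Set.mem_ofPred_eq, not_not] at hx ⊢
    linarith
  · rw [ae_ball_iff hS]
    intro a _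
    rw [ae_ball_iff hS]
    intro b _
    by_cases hab : a = b
    · filter_upwards with x hne
      exact absurd hab hne
    · rw [ae_iff]
      have hne : -(b - a).im ≠ 0 ∨ (b - a).re ≠ 0 := by
        by_contra hcon
        push Not at hcon
        apply hab
        have h1 := hcon.1
        have h2 := hcon.2
        simp only [Complex.sub_re, Complex.sub_im] at h1 h2
        apply Complex.ext <;> linarith
      have h := area_line_null (-(b - a).im) ((b - a).re)
        ((b - a).re * a.im - (b - a).im * a.re) hne
      refine measure_mono_null ?_ h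
      intro x hx
      simp only [Set.mem_ofPred_eq, not_forall, not_not] at hx ⊢
      obtain ⟨_, hx⟩ := hx
      unfold ori cr at hx
      simp only [Complex.sub_re, Complex.sub_im] at hx ⊢
      linarith

/-- generic points are dense -/
lemma exists_gen {S : Set ℂ} (hS : S.Countable) {U : Set ℂ} (hU : IsOpen U) (hne : U.Nonempty) :
    ∃ x ∈ U, Gen S x := by
  have hd : Dense {x : ℂ | Gen S x} := Measure.dense_of_ae (ae_gen hS)
  obtain ⟨x, hx1, hx2⟩ := hd.exists_mem_open hU hne
  exact ⟨x, hx2, hx1⟩

/-- the standard triangle -/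
private lemma area_std : volume {z : ℂ | 0 < z.re ∧ 0 < z.im ∧ z.re + z.im < 1} =
    ENNReal.ofReal (1 / 2) := by
  have h1 : {z : ℂ | 0 < z.re ∧ 0 < z.im ∧ z.re + z.im < 1} =
      Complex.measurableEquivRealProd ⁻¹'
        (regionBetween (fun _ => (0 : ℝ)) (fun x => 1 - x) (Set.Ioo (0 : ℝ) 1)) := by
    ext z
    simp only [regionBetween, Set.mem_preimage, Set.mem_ofPred_eq, Set.mem_Ioo,
      Complex.measurableEquivRealProd_apply]
    constructor
    · rintro ⟨h1, h2, h3⟩
      exact ⟨⟨h1, by linarith⟩, h2, by linarith⟩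
    · rintro ⟨⟨h1, h2⟩, h3, h4⟩
      exact ⟨h1, h3, by linarith⟩
  have hc1 : Continuous fun _ : ℝ => (0 : ℝ) := continuous_const
  have hc2 : Continuous fun x : ℝ => 1 - x := by fun_prop
  have hm : MeasurableSet (regionBetween (fun _ => (0 : ℝ)) (fun x => 1 - x) (Set.Ioo (0 : ℝ) 1)) :=
    measurableSet_regionBetween hc1.measurable hc2.measurable measurableSet_Ioo
  rw [h1, Complex.volume_preserving_equiv_real_prod.measure_preimage hm.nullMeasurableSet]
  have h2 := volume_regionBetween_eq_integral (μ := (volume : Measure ℝ))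
    (f := fun _ => (0 : ℝ)) (g := fun x => 1 - x) (s := Set.Ioo (0 : ℝ) 1)
    ((hc1.integrableOn_Icc (a := 0) (b := 1)).mono_set Set.Ioo_subset_Icc_self)
    ((hc2.integrableOn_Icc (a := 0) (b := 1)).mono_set Set.Ioo_subset_Icc_self)
    measurableSet_Ioo (fun x hx => by
      have := hx.2
      show (0 : ℝ) ≤ 1 - x
      linarith)
  rw [← Measure.volume_eq_prod] at h2
  rw [h2]
  congr 1
  have h3 : ∀ y : ℝ, ((fun x : ℝ => 1 - x) - fun _ : ℝ => (0 : ℝ)) y = 1 - y := by
    intro y; simp
  simp_rw [h3]
  rw [← integral_Ioc_eq_integral_Ioo, ← intervalIntegral.integral_of_le zero_le_one]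
  rw [intervalIntegral.integral_sub (by simp) (by simp)]
  simp
  norm_num

lemma volume_tri {a b c : ℂ} (h : 0 < ori a b c) :
    volume {x : ℂ | InTri x a b c} = ENNReal.ofReal (ori a b c / 2) := by
  set D := ori a b c with hD
  let L : ℂ →ₗ[ℝ] ℂ :=
    { toFun := fun z => z.re • (b - a) + z.im • (c - a)
      map_add' := by intro x y; simp only [Complex.add_re, Complex.add_im]; module
      map_smul' := by
        intro r x
        simp only [Complex.real_smul, Complex.mul_re, Complex.mul_im, Complex.ofReal_re,
          Complex.ofReal_im, RingHom.id_apply]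
        push_cast
        ring }
  have hL : ∀ z, L z = z.re • (b - a) + z.im • (c - a) := fun z => rfl
  have hdet : LinearMap.det L = D := by
    rw [← LinearMap.det_toMatrix Complex.basisOneI, Matrix.det_fin_two]
    simp only [LinearMap.toMatrix_apply, Complex.coe_basisOneI, Complex.coe_basisOneI_repr, hL]
    simp [hD, ori, cr]
    ring
  have hpre : L ⁻¹' {x : ℂ | InTri (a + x) a b c} =
      {z : ℂ | 0 < z.re ∧ 0 < z.im ∧ z.re + z.im < 1} := by
    ext z
    have e1 : ori a b (a + L z) = z.im * D := by
      rw [hL, hD]; unfold ori cr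
      simp only [Complex.real_smul, Complex.add_re, Complex.add_im, Complex.sub_re, Complex.sub_im,
        Complex.mul_re, Complex.mul_im, Complex.ofReal_re, Complex.ofReal_im]
      ring
    have e2 : ori b c (a + L z) = (1 - z.re - z.im) * D := by
      rw [hL, hD]; unfold ori cr
      simp only [Complex.real_smul, Complex.add_re, Complex.add_im, Complex.sub_re, Complex.sub_im,
        Complex.mul_re, Complex.mul_im, Complex.ofReal_re, Complex.ofReal_im]
      ring
    have e3 : ori c a (a + L z) = z.re * D := by
      rw [hL, hD]; unfold ori cr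
      simp only [Complex.real_smul, Complex.add_re, Complex.add_im, Complex.sub_re, Complex.sub_im,
        Complex.mul_re, Complex.mul_im, Complex.ofReal_re, Complex.ofReal_im]
      ring
    simp only [Set.mem_preimage, Set.mem_ofPred_eq, InTri, e1, e2, e3]
    constructor
    · rintro ⟨h1, h2, h3⟩
      have h1' := (mul_pos_iff_of_pos_right h).mp h1
      have h2' := (mul_pos_iff_of_pos_right h).mp h2
      have h3' := (mul_pos_iff_of_pos_right h).mp h3
      exact ⟨h3', h1', by linarith⟩
    · rintro ⟨h1, h2, h3⟩
      refine ⟨mul_pos h2 h, mul_pos (by linarith) h, mul_pos h1 h⟩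
  have h1 := Measure.addHaar_preimage_linearMap (volume : Measure ℂ) (f := L)
    (by rw [hdet]; exact h.ne') {x : ℂ | InTri (a + x) a b c}
  rw [hpre, area_std, hdet] at h1
  have h2 : volume {x : ℂ | InTri (a + x) a b c} = volume {x : ℂ | InTri x a b c} :=
    measure_preimage_add volume a {x : ℂ | InTri x a b c}
  rw [h2] at h1
  have h3 : ENNReal.ofReal D * ENNReal.ofReal |D⁻¹| = 1 := by
    rw [← ENNReal.ofReal_mul h.le, abs_of_pos (inv_pos.mpr h), mul_inv_cancel₀ h.ne',
      ENNReal.ofReal_one]
  calc volume {x : ℂ | InTri x a b c}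
      = ENNReal.ofReal D * ENNReal.ofReal |D⁻¹| * volume {x : ℂ | InTri x a b c} := by
        rw [h3, one_mul]
    _ = ENNReal.ofReal D * ENNReal.ofReal (1 / 2) := by rw [mul_assoc, ← h1]
    _ = ENNReal.ofReal (D / 2) := by
        rw [← ENNReal.ofReal_mul h.le]
        congr 1
        ring

private lemma area_cont (p q : ℂ) : Continuous fun x : ℂ => ori p q x := by
  unfold ori cr
  simp only [Complex.sub_re, Complex.sub_im]
  have h1 := Complex.continuous_re
  have h2 := Complex.continuous_im
  fun_prop

private lemma area_meas (a b c : ℂ) : MeasurableSet {x : ℂ | InTri x a b c} := by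
  apply IsOpen.measurableSet
  have h : {x : ℂ | InTri x a b c} =
      {x : ℂ | 0 < ori a b x} ∩ ({x : ℂ | 0 < ori b c x} ∩ {x : ℂ | 0 < ori c a x}) := by
    ext x
    exact Iff.rfl
  rw [h]
  exact (isOpen_lt continuous_const (area_cont a b)).inter
    ((isOpen_lt continuous_const (area_cont b c)).inter
      (isOpen_lt continuous_const (area_cont c a)))

/-- the shoelace formula -/
lemma volume_hex {v : Fin 6 → ℂ} (hv : SC v) :
    volume (convexHull ℝ (Set.range v)) = ENNReal.ofReal (bd cr v / 2) := by
  classical
  have hcyc : ∀ a b c : ℂ, ori a b c = ori b c a := by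
    intro a b c; unfold ori cr; simp only [Complex.sub_re, Complex.sub_im]; ring
  have p1 : 0 < ori (v 0) (v 1) (v 2) := hv 0 2 (by decide) (by decide)
  have p2 : 0 < ori (v 0) (v 2) (v 3) := by
    rw [hcyc]; exact hv 2 0 (by decide) (by decide)
  have p3 : 0 < ori (v 0) (v 3) (v 4) := by
    rw [hcyc]; exact hv 3 0 (by decide) (by decide)
  have p4 : 0 < ori (v 0) (v 4) (v 5) := by
    rw [hcyc]; exact hv 4 0 (by decide) (by decide)
  have hH : MeasurableSet (convexHull ℝ (Set.range v)) :=
    ((Set.finite_range v).isCompact_convexHull ℝ).isClosed.measurableSet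
  have hae := ae_gen (Set.finite_range v).countable
  have hsum : ∀ᵐ x : ℂ, (convexHull ℝ (Set.range v)).indicator (1 : ℂ → ENNReal) x =
      {x : ℂ | InTri x (v 0) (v 1) (v 2)}.indicator (1 : ℂ → ENNReal) x +
      {x : ℂ | InTri x (v 0) (v 2) (v 3)}.indicator (1 : ℂ → ENNReal) x +
      {x : ℂ | InTri x (v 0) (v 3) (v 4)}.indicator (1 : ℂ → ENNReal) x +
      {x : ℂ | InTri x (v 0) (v 4) (v 5)}.indicator (1 : ℂ → ENNReal) x := by
    filter_upwards [hae] with x hx
    have h := fan_count hv hx
    simp only [Set.indicator_apply, Set.mem_ofPred_eq, Pi.one_apply]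
    split_ifs at h ⊢ <;> first | (exfalso; norm_num at h; done) | simp
  rw [← lintegral_indicator_one hH, lintegral_congr_ae hsum]
  rw [lintegral_add_right _ (measurable_one.indicator (area_meas _ _ _)),
    lintegral_add_right _ (measurable_one.indicator (area_meas _ _ _)),
    lintegral_add_right _ (measurable_one.indicator (area_meas _ _ _)),
    lintegral_indicator_one (area_meas _ _ _), lintegral_indicator_one (area_meas _ _ _),
    lintegral_indicator_one (area_meas _ _ _), lintegral_indicator_one (area_meas _ _ _),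
    volume_tri p1, volume_tri p2, volume_tri p3, volume_tri p4,
    ← ENNReal.ofReal_add (by positivity) (by positivity),
    ← ENNReal.ofReal_add (by positivity) (by positivity),
    ← ENNReal.ofReal_add (by positivity) (by positivity)]
  congr 1
  unfold bd
  rw [Fin.sum_univ_six]
  have e1 : (0 : Fin 6) + 1 = 1 := rfl
  have e2 : (1 : Fin 6) + 1 = 2 := rfl
  have e3 : (2 : Fin 6) + 1 = 3 := rfl
  have e4 : (3 : Fin 6) + 1 = 4 := rfl
  have e5 : (4 : Fin 6) + 1 = 5 := rfl
  have e6 : (5 : Fin 6) + 1 = 0 := rfl
  rw [e1, e2, e3, e4, e5, e6]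
  unfold ori cr
  simp only [Complex.sub_re, Complex.sub_im]
  ring

end H52Hex
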