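import Pool.Agent.H52Hex.BaseGeo

/-!
Every generic point lies in exactly one base tile.
-/

namespace H52Hex

open scoped BigOperators

variable {c : ℕ}

/-! ### Lattice triangles -/

/-- lattice triangles: sector, orientation (true = up), corner -/
abbrev BTri (c : ℕ) := Sec c × Bool × ℕ × ℕ

/-- the three vertices of a lattice triangle, counterclockwise -/
noncomputable def base_vert (τ : BTri c) : Fin 3 → ℂ :=
  if τ.2.1 then
    ![lat c τ.1 τ.2.2.1 τ.2.2.2, lat c τ.1 (τ.2.2.1 + 1) τ.2.2.2, lat c τ.1 τ.2.2.1 (τ.2.2.2 + 1)]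
  else
    ![lat c τ.1 (τ.2.2.1 + 1) τ.2.2.2, lat c τ.1 (τ.2.2.1 + 1) (τ.2.2.2 + 1),
      lat c τ.1 τ.2.2.1 (τ.2.2.2 + 1)]

/-- `x` lies in the open lattice triangle `τ`, in coordinates -/
def base_in (x : ℂ) (τ : BTri c) : Prop :=
  ∃ s t : ℝ, x = lat c τ.1 s t ∧
    if τ.2.1 then (τ.2.2.1 : ℝ) < s ∧ (τ.2.2.2 : ℝ) < t ∧ s + t < τ.2.2.1 + τ.2.2.2 + 1
    else s < τ.2.2.1 + 1 ∧ t < τ.2.2.2 + 1 ∧ (τ.2.2.1 : ℝ) + τ.2.2.2 + 1 < s + t

/-- the six lattice triangles of the tile `T` -/
def base_tri (T : Sec c × ℕ × ℕ) : Fin 6 → BTri c :=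
  if T.2.2 = 0 then
    ![(pv T.1, true, 0, T.2.1), (T.1, true, T.2.1, 0), (T.1, false, T.2.1 - 1, 0),
      (T.1, true, T.2.1 - 1, 0), (pv T.1, true, 0, T.2.1 - 1), (pv T.1, false, 0, T.2.1 - 1)]
  else
    ![(T.1, true, T.2.1, T.2.2), (T.1, false, T.2.1 - 1, T.2.2), (T.1, true, T.2.1 - 1, T.2.2),
      (T.1, false, T.2.1 - 1, T.2.2 - 1), (T.1, true, T.2.1, T.2.2 - 1),
      (T.1, false, T.2.1, T.2.2 - 1)]

/-- which vertex of the triangle is the center of the tile -/
def base_k : Fin 6 → ℕ → Fin 3 := fun i q =>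
  if q = 0 then ![0, 0, 0, 1, 2, 2] i else ![0, 0, 1, 1, 2, 2] i

lemma base_vert_spec [NeZero c] (T : Sec c × ℕ × ℕ) (hp : 1 ≤ T.2.1) (i : Fin 6) :
    ∃ k : Fin 3, lat c T.1 T.2.1 T.2.2 = base_vert (base_tri T i) k ∧
      baseV c T i = base_vert (base_tri T i) (k + 1) ∧
      baseV c T (i + 1) = base_vert (base_tri T i) (k + 2) := by
  obtain ⟨a, p, q⟩ := T
  have hpv := rot_pv a
  have hom := om_ne_zero c
  simp only at hp
  obtain ⟨p, rfl⟩ : ∃ p', p = p' + 1 := ⟨p - 1, by omega⟩
  refine ⟨base_k i q, ?_⟩
  rcases q with _ | q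
  · fin_cases i
    all_goals
      simp [base_k, base_tri, base_vert, baseV, lat, shape0, hpv]
      try (refine ⟨?_, ?_, ?_⟩ <;> (field_simp; try ring))
  · fin_cases i
    all_goals
      simp [base_k, base_tri, base_vert, baseV, lat, shape1]
    all_goals
      refine ⟨?_, ?_⟩ <;> (left; ring)

lemma base_inTri_cyc {x a b c : ℂ} : InTri x a b c ↔ InTri x b c a := by
  unfold InTri
  tauto

lemma base_inTri_vert (x : ℂ) (τ : BTri c) (k : Fin 3) :
    InTri x (base_vert τ k) (base_vert τ (k + 1)) (base_vert τ (k + 2)) ↔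
      InTri x (base_vert τ 0) (base_vert τ 1) (base_vert τ 2) := by
  fin_cases k
  · exact Iff.rfl
  · show InTri x (base_vert τ 1) (base_vert τ 2) (base_vert τ 0) ↔ _
    rw [← base_inTri_cyc]
  · show InTri x (base_vert τ 2) (base_vert τ 0) (base_vert τ 1) ↔ _
    rw [base_inTri_cyc]

/-- coordinates in the frame of a sector -/
lemma base_coord (hc : 1 ≤ c) (a : Sec c) (x : ℂ) : ∃ s t : ℝ, x = lat c a s t := by
  have hel : (el c : ℂ) ≠ 0 := by exact_mod_cast (el_pos hc).ne'
  have hrot := rot_ne_zero a
  have hs := sin_phi_pos hc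
  set y := x / (el c * rot c a) with hy
  have hxy : x = el c * rot c a * y := by
    rw [hy]
    field_simp
  refine ⟨y.re - y.im / Real.sin (phi c) * Real.cos (phi c), y.im / Real.sin (phi c), ?_⟩
  rw [hxy, lat]
  congr 1
  have e1 := om_re c
  have e2 := om_im c
  generalize Real.sin (phi c) = S at *
  generalize Real.cos (phi c) = C at *
  apply Complex.ext
  · simp only [Complex.add_re, Complex.mul_re, Complex.ofReal_re, Complex.ofReal_im, e1, e2]
    ring
  · simp only [Complex.add_im, Complex.mul_im, Complex.ofReal_re, Complex.ofReal_im, e1, e2]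
    field_simp
    ring

lemma base_inTri_iff (hc : 1 ≤ c) (x : ℂ) (τ : BTri c) :
    InTri x (base_vert τ 0) (base_vert τ 1) (base_vert τ 2) ↔ base_in x τ := by
  obtain ⟨a, b, P, Q⟩ := τ
  obtain ⟨s, t, hx⟩ := base_coord hc a x
  have key : (∃ s' t' : ℝ, x = lat c a s' t' ∧
      (if b = true then (P : ℝ) < s' ∧ (Q : ℝ) < t' ∧ s' + t' < P + Q + 1
       else s' < P + 1 ∧ t' < Q + 1 ∧ (P : ℝ) + Q + 1 < s' + t')) ↔
      (if b = true then (P : ℝ) < s ∧ (Q : ℝ) < t ∧ s + t < P + Q + 1
       else s < P + 1 ∧ t < Q + 1 ∧ (P : ℝ) + Q + 1 < s + t) := by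
    constructor
    · rintro ⟨s', t', h, h'⟩
      have hst : s' = s ∧ t' = t := by
        rw [hx] at h
        have h1 := ori_lat hc a 0 0 1 0 s t
        have h2 := ori_lat hc a 0 0 1 0 s' t'
        have h3 := ori_lat hc a 0 0 0 1 s t
        have h4 := ori_lat hc a 0 0 0 1 s' t'
        rw [h] at h1 h3
        constructor
        · linarith
        · linarith
      rw [hst.1, hst.2] at h'
      exact h'
    · intro h
      exact ⟨s, t, hx, h⟩
  unfold base_in
  simp only
  rw [key]
  cases b
  · simp only [base_vert, InTri, Bool.false_eq_true, if_false, Matrix.cons_val_zero,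
      Matrix.cons_val_one, Matrix.cons_val]
    rw [hx, ori_lat hc, ori_lat hc, ori_lat hc]
    constructor
    · rintro ⟨h1, h2, h3⟩
      refine ⟨?_, ?_, ?_⟩ <;> linarith
    · rintro ⟨h1, h2, h3⟩
      refine ⟨?_, ?_, ?_⟩ <;> linarith
  · simp only [base_vert, InTri, if_true, Matrix.cons_val_zero,
      Matrix.cons_val_one, Matrix.cons_val]
    rw [hx, ori_lat hc, ori_lat hc, ori_lat hc]
    constructor
    · rintro ⟨h1, h2, h3⟩
      refine ⟨?_, ?_, ?_⟩ <;> linarith
    · rintro ⟨h1, h2, h3⟩
      refine ⟨?_, ?_, ?_⟩ <;> linarith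

/-- every vertex of a lattice triangle is a lattice node -/
lemma base_vert_mem (τ : BTri c) (k : Fin 3) : base_vert τ k ∈ latSet c := by
  obtain ⟨a, b, P, Q⟩ := τ
  cases b
  · fin_cases k
    · exact ⟨a, P + 1, Q, by simp [base_vert]⟩
    · exact ⟨a, P + 1, Q + 1, by simp [base_vert]⟩
    · exact ⟨a, P, Q + 1, by simp [base_vert]⟩
  · fin_cases k
    · exact ⟨a, P, Q, by simp [base_vert]⟩
    · exact ⟨a, P + 1, Q, by simp [base_vert]⟩
    · exact ⟨a, P, Q + 1, by simp [base_vert]⟩

lemma base_vert_ori (hc : 1 ≤ c) (τ : BTri c) (k : Fin 3) :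
    0 < ori (base_vert τ k) (base_vert τ (k + 1)) (base_vert τ (k + 2)) := by
  obtain ⟨a, b, P, Q⟩ := τ
  cases b
  · fin_cases k
    all_goals
      simp [base_vert]
      rw [ori_lat hc]
      norm_num
  · fin_cases k
    all_goals
      simp [base_vert]
      rw [ori_lat hc]
      norm_num

/-! ### Every generic point lies in exactly one base tile -/

lemma baseV_mem [NeZero c] {T : Sec c × ℕ × ℕ} (hT : IsCtr T) (i : Fin 6) :
    baseV c T i ∈ latSet c := by
  obtain ⟨k, -, h, -⟩ := base_vert_spec T hT.1 i
  rw [h]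
  exact base_vert_mem _ _

lemma base_gen_mono {S S' : Set ℂ} (h : S ⊆ S') {x : ℂ} (hx : Gen S' x) : Gen S x :=
  ⟨fun a ha => hx.1 a (h ha), fun a ha b hb => hx.2 a (h ha) b (h hb)⟩

lemma base_ori_cyc (a b c : ℂ) : ori a b c = ori b c a := by
  unfold ori cr
  simp only [Complex.sub_re, Complex.sub_im]
  ring

lemma base_mem_iff [NeZero c] {x : ℂ} (hx : Gen (latSet c) x) {T : Sec c × ℕ × ℕ} (hT : IsCtr T) :
    x ∈ convexHull ℝ (Set.range (baseV c T)) ↔ ∃ i, base_in x (base_tri T i) := by
  classical
  have hc : 1 ≤ c := NeZero.one_le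
  have hin : ∀ i, InTri x (lat c T.1 T.2.1 T.2.2) (baseV c T i) (baseV c T (i + 1)) ↔
      base_in x (base_tri T i) := by
    intro i
    obtain ⟨k, h1, h2, h3⟩ := base_vert_spec T hT.1 i
    rw [h1, h2, h3, base_inTri_vert, base_inTri_iff hc]
  have hC : ∀ i, 0 < ori (lat c T.1 T.2.1 T.2.2) (baseV c T i) (baseV c T (i + 1)) := by
    intro i
    obtain ⟨k, h1, h2, h3⟩ := base_vert_spec T hT.1 i
    rw [h1, h2, h3]
    exact base_vert_ori hc _ k
  have hvS : ∀ i, baseV c T i ∈ latSet c := baseV_mem hT
  have h1 := bd_sg_hex (base_SC hc T) (x := x)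
    (base_gen_mono (by rintro _ ⟨i, rfl⟩; exact hvS i) hx)
  have h2 := bd_sg_center hC hx ⟨T.1, T.2.1, T.2.2, rfl⟩ hvS
  rw [h1] at h2
  constructor
  · intro h
    rw [if_pos h] at h2
    obtain ⟨i, -, hi⟩ := Finset.exists_ne_zero_of_sum_ne_zero (h2 ▸ one_ne_zero :
      (∑ i : Fin 6, if InTri x (lat c T.1 T.2.1 T.2.2) (baseV c T i) (baseV c T (i + 1))
        then (1 : ℝ) else 0) ≠ 0)
    refine ⟨i, (hin i).mp ?_⟩
    by_contra hn
    exact hi (if_neg hn)
  · rintro ⟨i, hi⟩
    by_contra hn
    rw [if_neg hn] at h2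
    have h3 : (if InTri x (lat c T.1 T.2.1 T.2.2) (baseV c T i) (baseV c T (i + 1))
        then (1 : ℝ) else 0) ≤ ∑ i : Fin 6, if InTri x (lat c T.1 T.2.1 T.2.2) (baseV c T i)
          (baseV c T (i + 1)) then (1 : ℝ) else 0 := by
      apply Finset.single_le_sum (f := fun i : Fin 6 => if InTri x (lat c T.1 T.2.1 T.2.2)
        (baseV c T i) (baseV c T (i + 1)) then (1 : ℝ) else 0)
      · intro j _
        positivity
      · exact Finset.mem_univ i
    rw [← h2, if_pos ((hin i).mpr hi)] at h3
    linarith

/-! ### Decoding -/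

def base_norm (a : Sec c) (P Q : ℕ) : Sec c × ℕ × ℕ := if P = 0 then (nx a, Q, 0) else (a, P, Q)

def base_col (a : Sec c) (P Q : ℕ) : ℕ := if ev a then (P + 2 * Q) % 3 else (Q + 2 * P) % 3

/-- the center of the tile that contains a given lattice triangle -/
def base_dec (τ : BTri c) : Sec c × ℕ × ℕ :=
  if τ.2.1 then
    if base_col τ.1 τ.2.2.1 τ.2.2.2 = 1 then base_norm τ.1 τ.2.2.1 τ.2.2.2
    else if base_col τ.1 (τ.2.2.1 + 1) τ.2.2.2 = 1 then base_norm τ.1 (τ.2.2.1 + 1) τ.2.2.2
    else base_norm τ.1 τ.2.2.1 (τ.2.2.2 + 1)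
  else
    if base_col τ.1 (τ.2.2.1 + 1) τ.2.2.2 = 1 then base_norm τ.1 (τ.2.2.1 + 1) τ.2.2.2
    else if base_col τ.1 (τ.2.2.1 + 1) (τ.2.2.2 + 1) = 1 then
      base_norm τ.1 (τ.2.2.1 + 1) (τ.2.2.2 + 1)
    else base_norm τ.1 τ.2.2.1 (τ.2.2.2 + 1)

lemma base_dec_tri {T : Sec c × ℕ × ℕ} (hT : IsCtr T) (i : Fin 6) :
    base_dec (base_tri T i) = T := by
  obtain ⟨a, p, q⟩ := T
  obtain ⟨hp, hcol⟩ := hT
  simp only at hp hcol
  obtain ⟨p, rfl⟩ : ∃ p', p = p' + 1 := ⟨p - 1, by omega⟩
  have hev := ev_pv a
  rcases q with _ | q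
  · rcases hb : ev a with _ | _
    · rw [hb] at hcol hev
      simp only [Bool.not_false, Bool.false_eq_true, if_false] at hcol hev
      fin_cases i
      all_goals
        simp [base_tri, base_dec, base_col, base_norm, hb, hev]
      all_goals
        try
          split_ifs
          all_goals
            first
            | rfl
            | (exfalso; omega)
            | (simp only [nx_pv])
            | (intro hne; exfalso; omega)
    · rw [hb] at hcol hev
      simp only [Bool.not_true, if_true] at hcol hev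
      fin_cases i
      all_goals
        simp [base_tri, base_dec, base_col, base_norm, hb, hev]
      all_goals
        try
          split_ifs
          all_goals
            first
            | rfl
            | (exfalso; omega)
            | (simp only [nx_pv])
            | (intro hne; exfalso; omega)
  · rcases hb : ev a with _ | _
    · rw [hb] at hcol
      simp only [Bool.false_eq_true, if_false] at hcol
      fin_cases i
      all_goals
        simp [base_tri, base_dec, base_col, base_norm, hb]
      all_goals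
        try
          split_ifs
          all_goals
            first
            | rfl
            | (exfalso; omega)
            | (intro hne; exfalso; omega)
    · rw [hb] at hcol
      simp only [if_true] at hcol
      fin_cases i
      all_goals
        simp [base_tri, base_dec, base_col, base_norm, hb]
      all_goals
        try
          split_ifs
          all_goals
            first
            | rfl
            | (exfalso; omega)
            | (intro hne; exfalso; omega)

lemma base_tri_dec (τ : BTri c) : IsCtr (base_dec τ) ∧ ∃ i, base_tri (base_dec τ) i = τ := by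
  obtain ⟨a, b, P, Q⟩ := τ
  have hev := ev_nx a
  rcases hb : ev a with _ | _
  · rw [hb] at hev
    simp only [Bool.not_false] at hev
    rcases b with _ | _
    · by_cases h1 : base_col a (P + 1) Q = 1
      · have h2 : base_dec (a, false, P, Q) = (a, P + 1, Q) := by
          simp [base_dec, h1, base_norm]
        rw [h2]
        simp only [base_col, hb] at h1
        refine ⟨⟨by simp, by simpa [hb] using h1⟩, ?_⟩
        by_cases hQ : Q = 0
        · subst hQ
          exact ⟨2, by simp [base_tri]⟩
        · exact ⟨1, by simp [base_tri, hQ]⟩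
      · by_cases h3 : base_col a (P + 1) (Q + 1) = 1
        · have h2 : base_dec (a, false, P, Q) = (a, P + 1, Q + 1) := by
            simp [base_dec, h1, h3, base_norm]
          rw [h2]
          simp only [base_col, hb] at h3
          refine ⟨⟨by simp, by simpa [hb] using h3⟩, 3, by simp [base_tri]⟩
        · simp only [base_col, hb, Bool.false_eq_true, if_false] at h1 h3
          have h4 : (Q + 1 + 2 * P) % 3 = 1 := by omega
          have h2 : base_dec (a, false, P, Q) = base_norm a P (Q + 1) := by
            simp [base_dec, base_col, hb, h1, h3]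
          rw [h2]
          by_cases hP : P = 0
          · subst hP
            simp only [base_norm, if_true]
            refine ⟨⟨by simp, ?_⟩, 5, by simp [base_tri]⟩
            simp only [hev, if_true]
            omega
          · simp only [base_norm, if_neg hP]
            refine ⟨⟨by simp only; omega, ?_⟩, 5, by simp [base_tri]⟩
            simpa [hb] using h4
    · by_cases h1 : base_col a P Q = 1
      · have h2 : base_dec (a, true, P, Q) = base_norm a P Q := by
          simp [base_dec, h1]
        rw [h2]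
        simp only [base_col, hb, Bool.false_eq_true, if_false] at h1
        by_cases hP : P = 0
        · subst hP
          simp only [base_norm, if_true]
          refine ⟨⟨by simp only; omega, ?_⟩, 0, by simp [base_tri]⟩
          simp only [hev, if_true]
          omega
        · simp only [base_norm, if_neg hP]
          refine ⟨⟨by simp only; omega, ?_⟩, ?_⟩
          · simpa [hb] using h1
          · by_cases hQ : Q = 0
            · subst hQ
              exact ⟨1, by simp [base_tri]⟩
            · exact ⟨0, by simp [base_tri, hQ]⟩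
      · by_cases h3 : base_col a (P + 1) Q = 1
        · have h2 : base_dec (a, true, P, Q) = (a, P + 1, Q) := by
            simp [base_dec, h1, h3, base_norm]
          rw [h2]
          simp only [base_col, hb, Bool.false_eq_true, if_false] at h3
          refine ⟨⟨by simp, ?_⟩, ?_⟩
          · simpa [hb] using h3
          · by_cases hQ : Q = 0
            · subst hQ
              exact ⟨3, by simp [base_tri]⟩
            · exact ⟨2, by simp [base_tri, hQ]⟩
        · simp only [base_col, hb, Bool.false_eq_true, if_false] at h1 h3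
          have h4 : (Q + 1 + 2 * P) % 3 = 1 := by omega
          have h2 : base_dec (a, true, P, Q) = base_norm a P (Q + 1) := by
            simp [base_dec, base_col, hb, h1, h3]
          rw [h2]
          by_cases hP : P = 0
          · subst hP
            simp only [base_norm, if_true]
            refine ⟨⟨by simp, ?_⟩, 4, by simp [base_tri]⟩
            simp only [hev, if_true]
            omega
          · simp only [base_norm, if_neg hP]
            refine ⟨⟨by simp only; omega, ?_⟩, 4, by simp [base_tri]⟩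
            simpa [hb] using h4
  · rw [hb] at hev
    simp only [Bool.not_true] at hev
    rcases b with _ | _
    · by_cases h1 : base_col a (P + 1) Q = 1
      · have h2 : base_dec (a, false, P, Q) = (a, P + 1, Q) := by
          simp [base_dec, h1, base_norm]
        rw [h2]
        simp only [base_col, hb] at h1
        refine ⟨⟨by simp, by simpa [hb] using h1⟩, ?_⟩
        by_cases hQ : Q = 0
        · subst hQ
          exact ⟨2, by simp [base_tri]⟩
        · exact ⟨1, by simp [base_tri, hQ]⟩
      · by_cases h3 : base_col a (P + 1) (Q + 1) = 1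
        · have h2 : base_dec (a, false, P, Q) = (a, P + 1, Q + 1) := by
            simp [base_dec, h1, h3, base_norm]
          rw [h2]
          simp only [base_col, hb] at h3
          refine ⟨⟨by simp, by simpa [hb] using h3⟩, 3, by simp [base_tri]⟩
        · simp only [base_col, hb, if_true] at h1 h3
          have h4 : (P + 2 * (Q + 1)) % 3 = 1 := by omega
          have h2 : base_dec (a, false, P, Q) = base_norm a P (Q + 1) := by
            simp [base_dec, base_col, hb, h1, h3]
          rw [h2]
          by_cases hP : P = 0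
          · subst hP
            simp only [base_norm, if_true]
            refine ⟨⟨by simp, ?_⟩, 5, by simp [base_tri]⟩
            simp only [hev, Bool.false_eq_true, if_false]
            omega
          · simp only [base_norm, if_neg hP]
            refine ⟨⟨by simp only; omega, ?_⟩, 5, by simp [base_tri]⟩
            simpa [hb] using h4
    · by_cases h1 : base_col a P Q = 1
      · have h2 : base_dec (a, true, P, Q) = base_norm a P Q := by
          simp [base_dec, h1]
        rw [h2]
        simp only [base_col, hb, if_true] at h1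
        by_cases hP : P = 0
        · subst hP
          simp only [base_norm, if_true]
          refine ⟨⟨by simp only; omega, ?_⟩, 0, by simp [base_tri]⟩
          simp only [hev, Bool.false_eq_true, if_false]
          omega
        · simp only [base_norm, if_neg hP]
          refine ⟨⟨by simp only; omega, ?_⟩, ?_⟩
          · simpa [hb] using h1
          · by_cases hQ : Q = 0
            · subst hQ
              exact ⟨1, by simp [base_tri]⟩
            · exact ⟨0, by simp [base_tri, hQ]⟩
      · by_cases h3 : base_col a (P + 1) Q = 1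
        · have h2 : base_dec (a, true, P, Q) = (a, P + 1, Q) := by
            simp [base_dec, h1, h3, base_norm]
          rw [h2]
          simp only [base_col, hb, if_true] at h3
          refine ⟨⟨by simp, ?_⟩, ?_⟩
          · simpa [hb] using h3
          · by_cases hQ : Q = 0
            · subst hQ
              exact ⟨3, by simp [base_tri]⟩
            · exact ⟨2, by simp [base_tri, hQ]⟩
        · simp only [base_col, hb, if_true] at h1 h3
          have h4 : (P + 2 * (Q + 1)) % 3 = 1 := by omega
          have h2 : base_dec (a, true, P, Q) = base_norm a P (Q + 1) := by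
            simp [base_dec, base_col, hb, h1, h3]
          rw [h2]
          by_cases hP : P = 0
          · subst hP
            simp only [base_norm, if_true]
            refine ⟨⟨by simp, ?_⟩, 4, by simp [base_tri]⟩
            simp only [hev, Bool.false_eq_true, if_false]
            omega
          · simp only [base_norm, if_neg hP]
            refine ⟨⟨by simp only; omega, ?_⟩, 4, by simp [base_tri]⟩
            simpa [hb] using h4

/-! ### The lattice triangle of a generic point -/

lemma base_in_pos {x : ℂ} {τ : BTri c} (h : base_in x τ) :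
    ∃ s t : ℝ, x = lat c τ.1 s t ∧ 0 < s ∧ 0 < t ∧ (τ.2.2.1 : ℤ) = ⌊s⌋ ∧ (τ.2.2.2 : ℤ) = ⌊t⌋ ∧
      (τ.2.1 = true ↔ s + t < ⌊s⌋ + ⌊t⌋ + 1) := by
  obtain ⟨a, b, P, Q⟩ := τ
  obtain ⟨s, t, hx, h⟩ := h
  refine ⟨s, t, hx, ?_⟩
  have hP : (0 : ℝ) ≤ P := Nat.cast_nonneg P
  have hQ : (0 : ℝ) ≤ Q := Nat.cast_nonneg Q
  rcases b with _ | _
  · simp only [Bool.false_eq_true, if_false] at h
    obtain ⟨h1, h2, h3⟩ := h
    have e1 : (P : ℤ) = ⌊s⌋ := by
      symm
      rw [Int.floor_eq_iff]
      constructor
      · push_cast; linarith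
      · push_cast; linarith
    have e2 : (Q : ℤ) = ⌊t⌋ := by
      symm
      rw [Int.floor_eq_iff]
      constructor
      · push_cast; linarith
      · push_cast; linarith
    refine ⟨by linarith, by linarith, e1, e2, ?_⟩
    simp only [Bool.false_eq_true, false_iff, not_lt]
    rw [← e1, ← e2]
    push_cast
    linarith
  · simp only [if_true] at h
    obtain ⟨h1, h2, h3⟩ := h
    have e1 : (P : ℤ) = ⌊s⌋ := by
      symm
      rw [Int.floor_eq_iff]
      constructor
      · push_cast; linarith
      · push_cast; linarith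
    have e2 : (Q : ℤ) = ⌊t⌋ := by
      symm
      rw [Int.floor_eq_iff]
      constructor
      · push_cast; linarith
      · push_cast; linarith
    refine ⟨by linarith, by linarith, e1, e2, ?_⟩
    simp only [true_iff]
    rw [← e1, ← e2]
    push_cast
    linarith

lemma base_in_unique [NeZero c] {x : ℂ} {τ τ' : BTri c} (h : base_in x τ) (h' : base_in x τ') :
    τ = τ' := by
  obtain ⟨s, t, hx, hs, ht, h1, h2, h3⟩ := base_in_pos h
  obtain ⟨s', t', hx', hs', ht', h1', h2', h3'⟩ := base_in_pos h'
  obtain ⟨ha, rfl, rfl⟩ := sector_unique hs ht hs' ht' (hx.symm.trans hx')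
  obtain ⟨a, b, P, Q⟩ := τ
  obtain ⟨a', b', P', Q'⟩ := τ'
  simp only at ha h1 h2 h3 h1' h2' h3'
  have e1 : P = P' := by
    have := h1.trans h1'.symm
    exact_mod_cast this
  have e2 : Q = Q' := by
    have := h2.trans h2'.symm
    exact_mod_cast this
  have e3 : b = b' := by
    rw [Bool.eq_iff_iff]
    exact h3.trans h3'.symm
  rw [ha, e1, e2, e3]

lemma base_in_exists [NeZero c] {x : ℂ} (hx : Gen (latSet c) x) : ∃ τ : BTri c, base_in x τ := by
  obtain ⟨a, s, t, hs, ht, rfl⟩ := exists_sector hx
  have hg := coord_gen hs ht hx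
  have hP : 0 ≤ ⌊s⌋ := Int.floor_nonneg.mpr hs.le
  have hQ : 0 ≤ ⌊t⌋ := Int.floor_nonneg.mpr ht.le
  obtain ⟨P, hP'⟩ := Int.eq_ofNat_of_zero_le hP
  obtain ⟨Q, hQ'⟩ := Int.eq_ofNat_of_zero_le hQ
  have eP : ((⌊s⌋ : ℤ) : ℝ) = P := by rw [hP']; simp
  have eQ : ((⌊t⌋ : ℤ) : ℝ) = Q := by rw [hQ']; simp
  have f1 := Int.floor_le s
  have f2 := Int.floor_le t
  have f3 := Int.lt_floor_add_one s
  have f4 := Int.lt_floor_add_one t
  rw [eP] at f1 f3
  rw [eQ] at f2 f4
  have g1 : (P : ℝ) ≠ s := by
    have := (hg P).1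
    exact_mod_cast this.symm
  have g2 : (Q : ℝ) ≠ t := by
    have := (hg Q).2.1
    exact_mod_cast this.symm
  have g3 : (P : ℝ) + Q + 1 ≠ s + t := by
    have := (hg (P + Q + 1)).2.2
    intro h
    apply this
    rw [← h]
    push_cast
    ring
  by_cases h : s + t < P + Q + 1
  · refine ⟨(a, true, P, Q), s, t, rfl, ?_⟩
    simp only [if_true]
    exact ⟨lt_of_le_of_ne f1 g1, lt_of_le_of_ne f2 g2, h⟩
  · refine ⟨(a, false, P, Q), s, t, rfl, ?_⟩
    simp only [Bool.false_eq_true, if_false]
    exact ⟨f3, f4, lt_of_le_of_ne (not_lt.mp h) g3⟩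

theorem base_unique [NeZero c] {x : ℂ} (hx : Gen (latSet c) x) :
    ∃! T : Sec c × ℕ × ℕ, IsCtr T ∧ x ∈ convexHull ℝ (Set.range (baseV c T)) := by
  obtain ⟨τ, hτ⟩ := base_in_exists hx
  obtain ⟨h1, i, h2⟩ := base_tri_dec τ
  refine ⟨base_dec τ, ⟨h1, (base_mem_iff hx h1).mpr ⟨i, by rw [h2]; exact hτ⟩⟩, ?_⟩
  rintro T ⟨hT, hxT⟩
  obtain ⟨j, hj⟩ := (base_mem_iff hx hT).mp hxT
  rw [← base_in_unique hj hτ, base_dec_tri hT]

end H52Hex
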