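import Pool.Agent.H52Hex.Defs

/-!
The sectors: every generic point lies in exactly one open sector.
-/

namespace H52Hex

variable {c : ℕ}

lemma phi_pos (hc : 1 ≤ c) : 0 < phi c := by
  unfold phi
  have : (0 : ℝ) < c := by exact_mod_cast hc
  have := Real.pi_pos
  positivity

lemma phi_le (hc : 1 ≤ c) : phi c ≤ Real.pi / 3 := by
  unfold phi
  have h1 : (1 : ℝ) ≤ c := by exact_mod_cast hc
  have := Real.pi_pos
  apply div_le_div_of_nonneg_left this.le (by norm_num)
  linarith

lemma om_re (c : ℕ) : (om c).re = Real.cos (phi c) := by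
  unfold om
  exact Complex.exp_ofReal_mul_I_re _

lemma om_im (c : ℕ) : (om c).im = Real.sin (phi c) := by
  unfold om
  exact Complex.exp_ofReal_mul_I_im _

lemma sin_phi_pos (hc : 1 ≤ c) : 0 < Real.sin (phi c) := by
  have h1 := phi_pos hc
  have h2 := phi_le hc
  have := Real.pi_pos
  exact Real.sin_pos_of_pos_of_lt_pi h1 (by linarith)

lemma cos_phi_ge (hc : 1 ≤ c) : 1 / 2 ≤ Real.cos (phi c) := by
  rw [← Real.cos_pi_div_three]
  have h1 := phi_pos hc
  have h2 := phi_le hc
  have := Real.pi_pos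
  exact Real.cos_le_cos_of_nonneg_of_le_pi h1.le (by linarith) h2

lemma norm_om (c : ℕ) : ‖om c‖ = 1 := by
  unfold om
  exact Complex.norm_exp_ofReal_mul_I _

lemma om_ne_zero (c : ℕ) : om c ≠ 0 := by
  unfold om
  exact Complex.exp_ne_zero _

lemma sector_om_pow (c n : ℕ) : om c ^ n = Complex.exp ((n * phi c : ℝ) * Complex.I) := by
  unfold om
  rw [← Complex.exp_nat_mul]
  congr 1
  push_cast
  ring

lemma om_pow (hc : 1 ≤ c) : om c ^ (6 * c) = 1 := by
  rw [sector_om_pow]
  have hc' : (c : ℝ) ≠ 0 := by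
    have : (0 : ℝ) < c := by exact_mod_cast hc
    exact this.ne'
  have : (((6 * c : ℕ) : ℝ) * phi c : ℝ) = 2 * Real.pi := by
    unfold phi
    push_cast
    field_simp
    ring
  rw [this]
  push_cast
  exact Complex.exp_two_pi_mul_I

lemma el_pos (hc : 1 ≤ c) : 0 < el c := by
  unfold el
  have := sin_phi_pos hc
  apply Real.sqrt_pos.2
  positivity

lemma el_sq (hc : 1 ≤ c) : el c ^ 2 * Real.sin (phi c) = 1 / 3 := by
  unfold el
  have := sin_phi_pos hc
  rw [Real.sq_sqrt (by positivity)]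
  field_simp

lemma norm_rot (a : Sec c) : ‖rot c a‖ = 1 := by
  unfold rot
  rw [norm_pow, norm_om, one_pow]

lemma rot_ne_zero (a : Sec c) : rot c a ≠ 0 := by
  unfold rot
  exact pow_ne_zero _ (om_ne_zero c)

lemma sector_pow_mod (hc : 1 ≤ c) (n : ℕ) : om c ^ (6 * (n % c)) = om c ^ (6 * n) := by
  have h : 6 * n = (6 * c) * (n / c) + 6 * (n % c) := by
    conv_lhs => rw [← Nat.div_add_mod n c]
    ring
  rw [h, pow_add, pow_mul (om c) (6 * c) (n / c), om_pow hc, one_pow, one_mul]

lemma rot_nx [NeZero c] (a : Sec c) : rot c (nx a) = om c * rot c a := by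
  have hc : 1 ≤ c := Nat.one_le_iff_ne_zero.2 (NeZero.ne c)
  obtain ⟨j, r⟩ := a
  unfold rot nx
  by_cases hr : r = 5
  · subst hr
    simp only [if_true]
    have h1 : (j + 1 : ZMod c).val = (j.val + 1) % c := by
      rw [ZMod.val_add, ZMod.val_one_eq_one_mod, Nat.add_mod_mod]
    rw [h1]
    have h5 : ((5 : Fin 6) : ℕ) = 5 := rfl
    have h0 : ((0 : Fin 6) : ℕ) = 0 := rfl
    rw [h5, h0, add_zero, sector_pow_mod hc, ← pow_succ']
    congr 1
  · rw [if_neg hr]
    have h1 : ((r + 1 : Fin 6) : ℕ) = r.val + 1 := by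
      revert hr; revert r; decide
    simp only [h1]
    rw [← pow_succ']
    congr 1

@[simp] lemma nx_pv (a : Sec c) : nx (pv a) = a := by
  obtain ⟨j, r⟩ := a
  unfold nx pv
  by_cases hr : r = 0
  · subst hr
    simp
  · rw [if_neg hr]
    have h1 : ¬ (r - 1 = 5) := by revert hr; revert r; decide
    simp only [h1, if_false]
    simp

@[simp] lemma pv_nx (a : Sec c) : pv (nx a) = a := by
  obtain ⟨j, r⟩ := a
  unfold nx pv
  by_cases hr : r = 5
  · subst hr
    simp
  · rw [if_neg hr]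
    have h1 : ¬ (r + 1 = 0) := by revert hr; revert r; decide
    simp only [h1, if_false]
    simp

lemma rot_pv [NeZero c] (a : Sec c) : rot c (pv a) = (om c)⁻¹ * rot c a := by
  have h := rot_nx (pv a)
  rw [nx_pv] at h
  rw [h, inv_mul_cancel_left₀ (om_ne_zero c)]

lemma ev_nx (a : Sec c) : ev (nx a) = !ev a := by
  obtain ⟨j, r⟩ := a
  unfold ev nx
  by_cases hr : r = 5
  · subst hr
    simp
  · rw [if_neg hr]
    simp only
    revert hr; revert r; decide

lemma ev_pv (a : Sec c) : ev (pv a) = !ev a := by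
  have h := ev_nx (pv a)
  rw [nx_pv] at h
  rw [h, Bool.not_not]

/-! ### orientation -/

lemma sector_cr_mul (w z1 z2 : ℂ) : cr (w * z1) (w * z2) = Complex.normSq w * cr z1 z2 := by
  unfold cr
  rw [Complex.normSq_apply]
  simp only [Complex.mul_re, Complex.mul_im]
  ring

lemma sector_normSq (hc : 1 ≤ c) (a : Sec c) :
    Complex.normSq (el c * rot c a) * Real.sin (phi c) = 1 / 3 := by
  rw [Complex.normSq_eq_norm_sq, norm_mul, norm_rot, mul_one, Complex.norm_real, Real.norm_eq_abs,
    sq_abs, el_sq hc]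

/-- orientation in sector coordinates -/
lemma ori_lat (hc : 1 ≤ c) (a : Sec c) (s₁ t₁ s₂ t₂ s₃ t₃ : ℝ) :
    ori (lat c a s₁ t₁) (lat c a s₂ t₂) (lat c a s₃ t₃)
      = ((s₂ - s₁) * (t₃ - t₁) - (t₂ - t₁) * (s₃ - s₁)) / 3 := by
  have e1 : ∀ s t : ℝ, lat c a s t - lat c a s₁ t₁ =
      (el c * rot c a) * (((s - s₁ : ℝ) : ℂ) + ((t - t₁ : ℝ) : ℂ) * om c) := by
    intro s t
    unfold lat
    push_cast
    ring
  unfold ori
  rw [e1, e1, sector_cr_mul]
  have e2 : ∀ s t s' t' : ℝ, cr ((s : ℂ) + (t : ℂ) * om c) ((s' : ℂ) + (t' : ℂ) * om c) =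
      (s * t' - t * s') * Real.sin (phi c) := by
    intro s t s' t'
    unfold cr
    simp only [Complex.add_re, Complex.add_im, Complex.mul_re, Complex.mul_im, Complex.ofReal_re,
      Complex.ofReal_im, om_re, om_im]
    ring
  rw [e2]
  have := sector_normSq hc a
  calc Complex.normSq (el c * rot c a) * (((s₂ - s₁) * (t₃ - t₁) - (t₂ - t₁) * (s₃ - s₁)) * Real.sin (phi c))
      = (Complex.normSq (el c * rot c a) * Real.sin (phi c)) * ((s₂ - s₁) * (t₃ - t₁) - (t₂ - t₁) * (s₃ - s₁)) := by ring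
    _ = _ := by rw [this]; ring

/-- a point on ray `a+1` seen from both sides -/
lemma lat_ray [NeZero c] (a : Sec c) (t : ℝ) : lat c a 0 t = lat c (nx a) t 0 := by
  unfold lat
  rw [rot_nx]
  push_cast
  ring

lemma sector_lat_ne (hc : 1 ≤ c) (a : Sec c) {s t s' t' : ℝ} (h : ¬ (s = s' ∧ t = t')) :
    lat c a s t ≠ lat c a s' t' := by
  intro he
  apply h
  have hel : (el c : ℂ) ≠ 0 := by exact_mod_cast (el_pos hc).ne'
  unfold lat at he
  have h1 := mul_left_cancel₀ (mul_ne_zero hel (rot_ne_zero a)) he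
  have h2 := congrArg Complex.im h1
  have h3 := congrArg Complex.re h1
  simp only [Complex.add_re, Complex.add_im, Complex.mul_re, Complex.mul_im, Complex.ofReal_re,
      Complex.ofReal_im, om_re, om_im, zero_mul, add_zero, zero_add, sub_zero] at h2 h3
  have h4 : t = t' := by
    have := sin_phi_pos hc
    exact mul_right_cancel₀ this.ne' h2
  refine ⟨?_, h4⟩
  rw [h4] at h3
  linarith

/-- the sector coordinates of a generic point are generic -/
lemma coord_gen [NeZero c] {a : Sec c} {s t : ℝ} (hs : 0 < s) (ht : 0 < t)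
    (hx : Gen (latSet c) (lat c a s t)) (k : ℤ) : s ≠ k ∧ t ≠ k ∧ s + t ≠ k := by
  have hc : 1 ≤ c := Nat.one_le_iff_ne_zero.2 (NeZero.ne c)
  have hmem : ∀ p q : ℕ, lat c a p q ∈ latSet c := fun p q => ⟨a, p, q, rfl⟩
  refine ⟨?_, ?_, ?_⟩
  · intro hk
    have hk0 : 0 < k := by rw [hk] at hs; exact_mod_cast hs
    obtain ⟨n, rfl⟩ := Int.eq_ofNat_of_zero_le hk0.le
    have h1 := hx.2 _ (hmem n 0) _ (hmem n 1) (sector_lat_ne hc a (by
      rintro ⟨-, h⟩; norm_num at h))
    apply h1
    rw [ori_lat hc, hk]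
    push_cast
    ring
  · intro hk
    have hk0 : 0 < k := by rw [hk] at ht; exact_mod_cast ht
    obtain ⟨n, rfl⟩ := Int.eq_ofNat_of_zero_le hk0.le
    have h1 := hx.2 _ (hmem 0 n) _ (hmem 1 n) (sector_lat_ne hc a (by
      rintro ⟨h, -⟩; norm_num at h))
    apply h1
    rw [ori_lat hc, hk]
    push_cast
    ring
  · intro hk
    have hk0 : 0 < k := by
      have : 0 < s + t := by linarith
      rw [hk] at this; exact_mod_cast this
    obtain ⟨n, rfl⟩ := Int.eq_ofNat_of_zero_le hk0.le
    have h1 := hx.2 _ (hmem n 0) _ (hmem 0 n) (sector_lat_ne hc a (by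
      rintro ⟨h, -⟩
      have : n = 0 := by exact_mod_cast h
      omega))
    apply h1
    rw [ori_lat hc]
    have hk' : s = n - t := by
      have : ((n : ℤ) : ℝ) = (n : ℝ) := by push_cast; rfl
      rw [this] at hk
      linarith
    rw [hk']
    push_cast
    ring

/-- every point off the rays lies in an open sector -/
lemma exists_sector [NeZero c] {x : ℂ} (hx : Gen (latSet c) x) :
    ∃ (a : Sec c) (s t : ℝ), 0 < s ∧ 0 < t ∧ x = lat c a s t := by
  have hc : 1 ≤ c := Nat.one_le_iff_ne_zero.2 (NeZero.ne c)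
  have hφ := phi_pos hc
  have hφ2 := phi_le hc
  have hπ := Real.pi_pos
  have hsin := sin_phi_pos hc
  have hel := el_pos hc
  have hx0 : x ≠ 0 := by
    rintro rfl
    have h1 := hx.1 (lat c (0, 0) (0 : ℕ) (0 : ℕ)) ⟨(0, 0), 0, 0, rfl⟩
    apply h1
    simp [lat]
  set θ := Complex.arg x with hθ
  set k : ℤ := ⌊θ / phi c⌋ with hk
  set θ' := θ - k * phi c with hθ'
  have hθ0 : 0 ≤ θ' := by
    have := Int.floor_le (θ / phi c)
    rw [le_div_iff₀ hφ] at this
    linarith
  have hθ1 : θ' < phi c := by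
    have := Int.lt_floor_add_one (θ / phi c)
    rw [div_lt_iff₀ hφ] at this
    linarith
  -- the sector
  set N : ℕ := (k % (6 * c : ℕ)).toNat with hN
  have h6c : (0 : ℤ) < ((6 * c : ℕ) : ℤ) := by exact_mod_cast (by omega : 0 < 6 * c)
  have hNk : (N : ℤ) = k % ((6 * c : ℕ) : ℤ) := Int.toNat_of_nonneg (Int.emod_nonneg _ h6c.ne')
  have hNlt : N < 6 * c := by
    have := Int.emod_lt_of_pos k h6c
    rw [← hNk] at this
    exact_mod_cast this
  set a : Sec c := (((N / 6 : ℕ) : ZMod c), ⟨N % 6, Nat.mod_lt _ (by norm_num)⟩) with ha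
  have hrot : rot c a = om c ^ N := by
    unfold rot
    have h1 : (((N / 6 : ℕ) : ZMod c)).val = N / 6 := ZMod.val_cast_of_lt (by omega)
    simp only [ha, h1]
    congr 1
    omega
  have homk : om c ^ N = om c ^ k := by
    have h1 : k = N + ((6 * c : ℕ) : ℤ) * (k / ((6 * c : ℕ) : ℤ)) := by
      rw [hNk]; exact (Int.emod_add_mul_ediv k _).symm
    have h2 : om c ^ k = om c ^ ((N : ℤ) + ((6 * c : ℕ) : ℤ) * (k / ((6 * c : ℕ) : ℤ))) := by
      rw [← h1]
    rw [h2, zpow_add₀ (om_ne_zero c), zpow_mul, zpow_natCast, zpow_natCast, om_pow hc, one_zpow, mul_one]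
  have homk' : om c ^ k = Complex.exp ((k * phi c : ℝ) * Complex.I) := by
    unfold om
    rw [← Complex.exp_int_mul]
    congr 1
    push_cast
    ring
  have hxpolar : x = (‖x‖ : ℂ) * (om c ^ k * Complex.exp ((θ' : ℝ) * Complex.I)) := by
    rw [homk', ← Complex.exp_add]
    have : ((k * phi c : ℝ) : ℂ) * Complex.I + ((θ' : ℝ) : ℂ) * Complex.I = (θ : ℂ) * Complex.I := by
      rw [hθ']; push_cast; ring
    rw [this, hθ]
    exact (Complex.norm_mul_exp_arg_mul_I x).symm
  have hdecomp : Complex.exp ((θ' : ℝ) * Complex.I) =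
      ((Real.sin (phi c - θ') / Real.sin (phi c) : ℝ) : ℂ) + ((Real.sin θ' / Real.sin (phi c) : ℝ) : ℂ) * om c := by
    apply Complex.ext
    · rw [Complex.exp_ofReal_mul_I_re]
      simp only [Complex.add_re, Complex.mul_re, Complex.ofReal_re, Complex.ofReal_im, om_re, om_im,
        zero_mul, sub_zero]
      rw [Real.sin_sub]
      field_simp
      ring
    · rw [Complex.exp_ofReal_mul_I_im]
      simp only [Complex.add_im, Complex.mul_im, Complex.ofReal_re, Complex.ofReal_im, om_re, om_im,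
        zero_mul, add_zero, zero_add]
      field_simp
  have hxn : 0 < ‖x‖ := norm_pos_iff.2 hx0
  set s : ℝ := ‖x‖ * Real.sin (phi c - θ') / (el c * Real.sin (phi c)) with hs
  set t : ℝ := ‖x‖ * Real.sin θ' / (el c * Real.sin (phi c)) with ht
  have hxlat : x = lat c a s t := by
    unfold lat
    rw [hrot, homk]
    conv_lhs => rw [hxpolar, hdecomp]
    rw [hs, ht]
    have h1 : (el c : ℂ) ≠ 0 := by exact_mod_cast hel.ne'
    have h2 : ((Real.sin (phi c) : ℝ) : ℂ) ≠ 0 := by exact_mod_cast hsin.ne'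
    push_cast at h2 ⊢
    field_simp
  have hs0 : 0 < s := by
    have : 0 < Real.sin (phi c - θ') := Real.sin_pos_of_pos_of_lt_pi (by linarith) (by linarith)
    rw [hs]; positivity
  have ht0 : 0 < t := by
    have h1 : 0 ≤ Real.sin θ' := Real.sin_nonneg_of_nonneg_of_le_pi hθ0 (by linarith)
    have h2 : 0 ≤ t := by rw [ht]; positivity
    rcases h2.lt_or_eq with h | h
    · exact h
    · exfalso
      have h3 := hx.2 (lat c a (0 : ℕ) (0 : ℕ)) ⟨a, 0, 0, rfl⟩ (lat c a (1 : ℕ) (0 : ℕ)) ⟨a, 1, 0, rfl⟩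
        (sector_lat_ne hc a (by rintro ⟨h, -⟩; norm_num at h))
      apply h3
      rw [hxlat, ori_lat hc, ← h]
      push_cast
      ring
  exact ⟨a, s, t, hs0, ht0, hxlat⟩

lemma sector_no_shift (hc : 1 ≤ c) {D : ℕ} (hD1 : 1 ≤ D) (hD2 : D < 6 * c) {s t s' t' : ℝ}
    (hs : 0 < s) (ht : 0 < t) (hs' : 0 < s') (ht' : 0 < t')
    (h : om c ^ D * ((s : ℂ) + t * om c) = (s' : ℂ) + t' * om c) : False := by
  have hφ := phi_pos hc
  have hsin := sin_phi_pos hc
  have hπ := Real.pi_pos
  have hc' : (0 : ℝ) < c := by exact_mod_cast hc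
  have h3c : (3 * c : ℝ) * phi c = Real.pi := by unfold phi; field_simp
  have hre : (om c ^ D).re = Real.cos (D * phi c) := by
    rw [sector_om_pow]; exact Complex.exp_ofReal_mul_I_re _
  have him : (om c ^ D).im = Real.sin (D * phi c) := by
    rw [sector_om_pow]; exact Complex.exp_ofReal_mul_I_im _
  have h1 := congrArg Complex.im h
  have h2 := congrArg Complex.re h
  simp only [Complex.add_re, Complex.add_im, Complex.mul_re, Complex.mul_im, Complex.ofReal_re,
      Complex.ofReal_im, om_re, om_im, hre, him, zero_mul, add_zero, zero_add, sub_zero] at h1 h2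
  -- Im part
  have e1 : s * Real.sin (D * phi c) + t * Real.sin ((D + 1) * phi c) = t' * Real.sin (phi c) := by
    rw [show ((D : ℝ) + 1) * phi c = D * phi c + phi c by ring, Real.sin_add]
    linarith
  have e2 : s * Real.sin ((D - 1) * phi c) + t * Real.sin (D * phi c) = - (s' * Real.sin (phi c)) := by
    rw [show ((D : ℝ) - 1) * phi c = D * phi c - phi c by ring, Real.sin_sub]
    have hpyth := Real.sin_sq_add_cos_sq (phi c)
    have e3 : s' = Real.cos (D * phi c) * (s + t * Real.cos (phi c)) - Real.sin (D * phi c) * (t * Real.sin (phi c)) - t' * Real.cos (phi c) := by linarith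
    have e4 : t' * Real.sin (phi c) = Real.cos (D * phi c) * (t * Real.sin (phi c)) + Real.sin (D * phi c) * (s + t * Real.cos (phi c)) := by linarith
    rw [e3]
    have e5 : (t' * Real.cos (phi c)) * Real.sin (phi c) = (t' * Real.sin (phi c)) * Real.cos (phi c) := by ring
    rw [sub_mul (_ : ℝ) (t' * Real.cos (phi c)), e5, e4]
    linear_combination (-(t * Real.sin (D * phi c))) * hpyth
  have hD1' : (1 : ℝ) ≤ D := by exact_mod_cast hD1
  rcases Nat.le_total D (3 * c) with hD | hD
  · have hD' : (D : ℝ) ≤ 3 * c := by exact_mod_cast hD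
    have a1 : (D : ℝ) * phi c ≤ Real.pi := by rw [← h3c]; exact mul_le_mul_of_nonneg_right hD' hφ.le
    have a2 : 0 ≤ Real.sin (D * phi c) := Real.sin_nonneg_of_nonneg_of_le_pi (by positivity) a1
    have a3 : 0 ≤ Real.sin ((D - 1) * phi c) := Real.sin_nonneg_of_nonneg_of_le_pi
      (mul_nonneg (by linarith) hφ.le) (by linarith)
    have a4 : 0 < s' * Real.sin (phi c) := mul_pos hs' hsin
    have a5 := mul_nonneg hs.le a3
    have a6 := mul_nonneg ht.le a2
    linarith
  · have hD' : (3 * c : ℝ) ≤ D := by exact_mod_cast hD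
    have hD2' : (D : ℝ) + 1 ≤ 6 * c := by exact_mod_cast hD2
    have a1 : Real.pi ≤ (D : ℝ) * phi c := by rw [← h3c]; exact mul_le_mul_of_nonneg_right hD' hφ.le
    have a2 : ((D : ℝ) + 1) * phi c ≤ 2 * Real.pi := by
      have : (6 * c : ℝ) * phi c = 2 * Real.pi := by rw [← h3c]; ring
      rw [← this]; exact mul_le_mul_of_nonneg_right hD2' hφ.le
    have hneg : ∀ y : ℝ, Real.pi ≤ y → y ≤ 2 * Real.pi → Real.sin y ≤ 0 := by
      intro y hy1 hy2
      have : Real.sin y = - Real.sin (y - Real.pi) := by rw [Real.sin_sub_pi, neg_neg]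
      rw [this]
      have := Real.sin_nonneg_of_nonneg_of_le_pi (x := y - Real.pi) (by linarith) (by linarith)
      linarith
    have a3 := hneg (D * phi c) a1 (by linarith)
    have a4 := hneg (((D : ℝ) + 1) * phi c) (by linarith) a2
    have a5 : 0 < t' * Real.sin (phi c) := mul_pos ht' hsin
    have a6 := mul_nonneg hs.le (neg_nonneg.2 a3)
    have a7 := mul_nonneg ht.le (neg_nonneg.2 a4)
    linarith

/-- open sectors are pairwise disjoint and the coordinates are unique -/
lemma sector_unique [NeZero c] {a a' : Sec c} {s t s' t' : ℝ} (hs : 0 < s) (ht : 0 < t)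
    (hs' : 0 < s') (ht' : 0 < t') (h : lat c a s t = lat c a' s' t') :
    a = a' ∧ s = s' ∧ t = t' := by
  have hc : 1 ≤ c := Nat.one_le_iff_ne_zero.2 (NeZero.ne c)
  have hel : (el c : ℂ) ≠ 0 := by exact_mod_cast (el_pos hc).ne'
  have hlt : ∀ b : Sec c, 6 * b.1.val + b.2.val < 6 * c := by
    intro b
    have h1 := ZMod.val_lt b.1
    have h2 := b.2.2
    omega
  have key : 6 * a.1.val + a.2.val = 6 * a'.1.val + a'.2.val := by
    have h0 : rot c a * ((s : ℂ) + t * om c) = rot c a' * ((s' : ℂ) + t' * om c) := by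
      unfold lat at h
      have : (el c : ℂ) * (rot c a * ((s : ℂ) + t * om c)) = (el c : ℂ) * (rot c a' * ((s' : ℂ) + t' * om c)) := by
        rw [← mul_assoc, ← mul_assoc]; exact h
      exact mul_left_cancel₀ hel this
    unfold rot at h0
    set N := 6 * a.1.val + a.2.val with hN
    set N' := 6 * a'.1.val + a'.2.val with hN'
    rcases lt_trichotomy N N' with hlt' | heq | hgt
    · exfalso
      have e : om c ^ N' = om c ^ N * om c ^ (N' - N) := by rw [← pow_add]; congr 1; omega
      rw [e, mul_assoc] at h0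
      have h1 := mul_left_cancel₀ (pow_ne_zero _ (om_ne_zero c)) h0
      exact sector_no_shift hc (D := N' - N) (by omega) (by have := hlt a'; omega) hs' ht' hs ht h1.symm
    · exact heq
    · exfalso
      have e : om c ^ N = om c ^ N' * om c ^ (N - N') := by rw [← pow_add]; congr 1; omega
      rw [e, mul_assoc] at h0
      have h1 := mul_left_cancel₀ (pow_ne_zero _ (om_ne_zero c)) h0
      exact sector_no_shift hc (D := N - N') (by omega) (by have := hlt a; omega) hs ht hs' ht' h1
  have haa : a = a' := by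
    have h1 := a.2.2
    have h2 := a'.2.2
    have h3 : a.1.val = a'.1.val := by omega
    have h4 : a.2.val = a'.2.val := by omega
    exact Prod.ext (ZMod.val_injective c h3) (Fin.ext h4)
  subst haa
  refine ⟨rfl, ?_⟩
  by_contra hcon
  exact sector_lat_ne hc a hcon h

end H52Hex
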