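import Pool.Agent.H52Hex.Ray
import Pool.Agent.H52Hex.Sector

/-!
Geometry of the base tiles.
-/

namespace H52Hex

open scoped BigOperators

variable {c : ℕ}

/-! ### Geometry of the base tiles -/

private lemma baseGeo_bd (F : ℂ → ℂ → ℝ) (v : Fin 6 → ℂ) :
    bd F v = F (v 0) (v 1) + F (v 1) (v 2) + F (v 2) (v 3) + F (v 3) (v 4) + F (v 4) (v 5)
      + F (v 5) (v 0) := by
  unfold bd
  rw [Fin.sum_univ_six]
  rfl

lemma bd_cr_affine (v : Fin 6 → ℂ) (z w : ℂ) :
    bd cr (fun i => z + w * v i) = ‖w‖ ^ 2 * bd cr v := by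
  rw [baseGeo_bd, baseGeo_bd, Complex.sq_norm, Complex.normSq_apply]
  simp only [cr, Complex.add_re, Complex.add_im, Complex.mul_re, Complex.mul_im]
  ring

lemma per_affine (v : Fin 6 → ℂ) (z w : ℂ) :
    per (fun i => z + w * v i) = ‖w‖ * per v := by
  unfold per
  rw [baseGeo_bd, baseGeo_bd]
  have h : ∀ a b : ℂ, dist (z + w * a) (z + w * b) = ‖w‖ * dist a b := by
    intro a b
    rw [dist_eq_norm, dist_eq_norm, ← norm_mul]
    congr 1
    ring
  simp only [h]
  ring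

private lemma baseGeo_ori (z w a b d : ℂ) :
    ori (z + w * a) (z + w * b) (z + w * d) = ‖w‖ ^ 2 * ori a b d := by
  rw [Complex.sq_norm, Complex.normSq_apply]
  simp only [ori, cr, Complex.add_re, Complex.add_im, Complex.mul_re, Complex.mul_im,
    Complex.sub_re, Complex.sub_im]
  ring

lemma SC_affine {v : Fin 6 → ℂ} (hv : SC v) (z w : ℂ) (hw : w ≠ 0) :
    SC (fun i => z + w * v i) := by
  intro i j h1 h2
  simp only
  rw [baseGeo_ori]
  exact mul_pos (by positivity) (hv i j h1 h2)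

private lemma baseGeo_om (c : ℕ) : om c = ⟨Real.cos (phi c), Real.sin (phi c)⟩ :=
  Complex.ext (om_re c) (om_im c)

private lemma baseGeo_omi (c : ℕ) : (om c)⁻¹ = ⟨Real.cos (phi c), -Real.sin (phi c)⟩ := by
  have h := Real.sin_sq_add_cos_sq (phi c)
  have h1 : om c * ⟨Real.cos (phi c), -Real.sin (phi c)⟩ = 1 := by
    rw [baseGeo_om]
    apply Complex.ext
    · simp only [Complex.mul_re, Complex.one_re]
      linarith [h, sq (Real.sin (phi c)), sq (Real.cos (phi c))]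
    · simp only [Complex.mul_im, Complex.one_im]
      ring
  exact inv_eq_of_mul_eq_one_right h1

private lemma baseGeo_shape0 (c : ℕ) : shape0 c = ![⟨Real.cos (phi c), -Real.sin (phi c)⟩,
    ⟨1, 0⟩, ⟨Real.cos (phi c), Real.sin (phi c)⟩, ⟨Real.cos (phi c) - 1, Real.sin (phi c)⟩,
    ⟨-1, 0⟩, ⟨Real.cos (phi c) - 1, -Real.sin (phi c)⟩] := by
  unfold shape0
  rw [baseGeo_omi, baseGeo_om]
  funext i
  fin_cases i <;> simp <;> apply Complex.ext <;> simp

private lemma baseGeo_shape1 (c : ℕ) : shape1 c = ![⟨1, 0⟩,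
    ⟨Real.cos (phi c), Real.sin (phi c)⟩, ⟨Real.cos (phi c) - 1, Real.sin (phi c)⟩,
    ⟨-1, 0⟩, ⟨-Real.cos (phi c), -Real.sin (phi c)⟩,
    ⟨1 - Real.cos (phi c), -Real.sin (phi c)⟩] := by
  unfold shape1
  rw [baseGeo_om]
  funext i
  fin_cases i <;> simp <;> apply Complex.ext <;> simp

private lemma baseGeo_cos_lt (hc : 1 ≤ c) : Real.cos (phi c) < 1 := by
  have h := Real.sin_sq_add_cos_sq (phi c)
  have hS := sin_phi_pos hc
  nlinarith [sq_nonneg (Real.cos (phi c) - 1)]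

private lemma baseGeo_SC0 (hc : 1 ≤ c) : SC (shape0 c) := by
  have hS := sin_phi_pos hc
  have hC := cos_phi_ge hc
  have hC1 := baseGeo_cos_lt hc
  rw [baseGeo_shape0]
  set C := Real.cos (phi c) with hCd
  set S := Real.sin (phi c) with hSd
  have h1 : 0 < S * (1 - C) := mul_pos hS (by linarith)
  have h2 : 0 < S * C := mul_pos hS (by linarith)
  intro i j hij hij'
  fin_cases i <;> fin_cases j <;> first
    | exact absurd rfl hij
    | exact absurd rfl hij'
    | (simp [ori, cr]; nlinarith)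

private lemma baseGeo_SC1 (hc : 1 ≤ c) : SC (shape1 c) := by
  have hS := sin_phi_pos hc
  have hC := cos_phi_ge hc
  have hC1 := baseGeo_cos_lt hc
  rw [baseGeo_shape1]
  set C := Real.cos (phi c) with hCd
  set S := Real.sin (phi c) with hSd
  have h1 : 0 < S * (1 - C) := mul_pos hS (by linarith)
  have h2 : 0 < S * C := mul_pos hS (by linarith)
  intro i j hij hij'
  fin_cases i <;> fin_cases j <;> first
    | exact absurd rfl hij
    | exact absurd rfl hij'
    | (simp [ori, cr]; nlinarith)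

private lemma baseGeo_w_ne (hc : 1 ≤ c) (a : Sec c) : ((el c : ℂ) * rot c a) ≠ 0 := by
  have h1 := el_pos hc
  have h2 := rot_ne_zero a
  exact mul_ne_zero (by exact_mod_cast h1.ne') h2

private lemma baseGeo_w_norm (hc : 1 ≤ c) (a : Sec c) : ‖((el c : ℂ) * rot c a)‖ = el c := by
  rw [norm_mul, norm_rot, mul_one, Complex.norm_real, Real.norm_of_nonneg (el_pos hc).le]

private lemma baseGeo_baseV (T : Sec c × ℕ × ℕ) : baseV c T = fun i =>
    ((el c : ℂ) * rot c T.1 * ((T.2.1 : ℂ) + T.2.2 * om c)) +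
      ((el c : ℂ) * rot c T.1) * ((if T.2.2 = 0 then shape0 c else shape1 c) i) := by
  funext i
  unfold baseV
  split_ifs <;> ring

lemma base_SC (hc : 1 ≤ c) (T : Sec c × ℕ × ℕ) : SC (baseV c T) := by
  rw [baseGeo_baseV]
  apply SC_affine _ _ _ (baseGeo_w_ne hc T.1)
  split_ifs
  · exact baseGeo_SC0 hc
  · exact baseGeo_SC1 hc

lemma base_area (hc : 1 ≤ c) (T : Sec c × ℕ × ℕ) : bd cr (baseV c T) = 2 := by
  rw [baseGeo_baseV, bd_cr_affine, baseGeo_w_norm hc]
  have hel := el_sq hc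
  have h : bd cr (if T.2.2 = 0 then shape0 c else shape1 c) = 6 * Real.sin (phi c) := by
    split_ifs
    · rw [baseGeo_shape0, baseGeo_bd]
      simp [cr]
      ring
    · rw [baseGeo_shape1, baseGeo_bd]
      simp [cr]
      ring
  rw [h]
  linarith

lemma base_per (hc : 1 ≤ c) (T : Sec c × ℕ × ℕ) : per (baseV c T) = Per c := by
  rw [baseGeo_baseV, per_affine, baseGeo_w_norm hc]
  unfold Per
  congr 1
  have hn := norm_om c
  have hni : ‖(om c)⁻¹‖ = 1 := by rw [norm_inv, hn, inv_one]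
  have h0 := om_ne_zero c
  have e1 : ‖(om c)⁻¹ - 1‖ = ‖om c - 1‖ := by
    have : (om c)⁻¹ - 1 = - ((om c)⁻¹ * (om c - 1)) := by
      field_simp
      ring
    rw [this, norm_neg, norm_mul, hni, one_mul]
  split_ifs
  · unfold per
    rw [baseGeo_bd]
    simp only [shape0, Matrix.cons_val_zero, Matrix.cons_val_one, Matrix.cons_val]
    simp only [dist_eq_norm]
    have a1 : ‖om c - (om c - 1)‖ = 1 := by
      rw [show om c - (om c - 1) = 1 by ring]; simp
    have a2 : ‖om c - 1 - -1‖ = 1 := by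
      rw [show om c - 1 - -1 = om c by ring]; exact hn
    have a3 : ‖-1 - ((om c)⁻¹ - 1)‖ = 1 := by
      rw [show -1 - ((om c)⁻¹ - 1) = - (om c)⁻¹ by ring, norm_neg]; exact hni
    have a4 : ‖(om c)⁻¹ - 1 - (om c)⁻¹‖ = 1 := by
      rw [show (om c)⁻¹ - 1 - (om c)⁻¹ = -1 by ring]; simp
    have a5 : ‖1 - om c‖ = ‖om c - 1‖ := norm_sub_rev _ _
    rw [a1, a2, a3, a4, a5, e1]
    ring
  · unfold per
    rw [baseGeo_bd]
    simp only [shape1, Matrix.cons_val_zero, Matrix.cons_val_one, Matrix.cons_val]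
    simp only [dist_eq_norm]
    have a1 : ‖om c - (om c - 1)‖ = 1 := by
      rw [show om c - (om c - 1) = 1 by ring]; simp
    have a2 : ‖om c - 1 - -1‖ = 1 := by
      rw [show om c - 1 - -1 = om c by ring]; exact hn
    have a3 : ‖-1 - -om c‖ = ‖om c - 1‖ := by
      rw [show -1 - -om c = om c - 1 by ring]
    have a4 : ‖-om c - (1 - om c)‖ = 1 := by
      rw [show -om c - (1 - om c) = -1 by ring]; simp
    have a6 : ‖1 - om c - 1‖ = 1 := by
      rw [show 1 - om c - 1 = - om c by ring, norm_neg]; exact hn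
    have a5 : ‖1 - om c‖ = ‖om c - 1‖ := norm_sub_rev _ _
    rw [a1, a2, a3, a4, a6, a5]
    ring

private lemma baseGeo_shape_norm (hc : 1 ≤ c) (b : Prop) [Decidable b] (i : Fin 6) :
    ‖(if b then shape0 c else shape1 c) i‖ ≤ 1 := by
  have h := Real.sin_sq_add_cos_sq (phi c)
  have hC := cos_phi_ge hc
  set C := Real.cos (phi c) with hCd
  set S := Real.sin (phi c) with hSd
  have key : ∀ z : ℂ, z.re ^ 2 + z.im ^ 2 ≤ 1 → ‖z‖ ≤ 1 := by
    intro z hz
    have h1 : ‖z‖ ^ 2 ≤ 1 := by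
      rw [Complex.sq_norm, Complex.normSq_apply]
      linarith [sq z.re, sq z.im]
    exact (sq_le_one_iff₀ (norm_nonneg z)).mp h1
  split_ifs
  · rw [baseGeo_shape0]
    fin_cases i <;> apply key <;> simp <;> nlinarith
  · rw [baseGeo_shape1]
    fin_cases i <;> apply key <;> simp <;> nlinarith

private lemma baseGeo_ctr_norm (hc : 1 ≤ c) (p q : ℕ) :
    (p : ℝ) ≤ ‖((p : ℂ) + q * om c)‖ ∧ (q : ℝ) ≤ ‖((p : ℂ) + q * om c)‖ := by
  have h := Real.sin_sq_add_cos_sq (phi c)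
  have hC := cos_phi_ge hc
  have hp : (0 : ℝ) ≤ p := Nat.cast_nonneg p
  have hq : (0 : ℝ) ≤ q := Nat.cast_nonneg q
  have hn : ‖((p : ℂ) + q * om c)‖ ^ 2 = (p : ℝ) ^ 2 + 2 * p * q * Real.cos (phi c) + (q : ℝ) ^ 2 := by
    rw [Complex.sq_norm, Complex.normSq_apply, baseGeo_om]
    simp
    nlinarith
  have hpq : 0 ≤ 2 * (p : ℝ) * q * Real.cos (phi c) := by positivity
  constructor
  · apply le_of_sq_le_sq _ (norm_nonneg _)
    rw [hn]
    nlinarith
  · apply le_of_sq_le_sq _ (norm_nonneg _)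
    rw [hn]
    nlinarith

/-- locally finite -/
lemma base_finite [NeZero c] (R : ℝ) :
    {T : Sec c × ℕ × ℕ | (convexHull ℝ (Set.range (baseV c T)) ∩
      Metric.closedBall 0 R).Nonempty}.Finite := by
  have hc : 1 ≤ c := Nat.one_le_iff_ne_zero.mpr (NeZero.ne c)
  have hel := el_pos hc
  obtain ⟨n, hn⟩ := exists_nat_ge ((R + el c) / el c)
  have hfin : (Set.univ ×ˢ (Set.Iic n ×ˢ Set.Iic n) : Set (Sec c × ℕ × ℕ)).Finite :=
    Set.Finite.prod Set.finite_univ ((Set.finite_Iic n).prod (Set.finite_Iic n))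
  refine hfin.subset ?_
  rintro T ⟨x, hx1, hx2⟩
  set z : ℂ := (el c : ℂ) * rot c T.1 * ((T.2.1 : ℂ) + T.2.2 * om c) with hz
  have hsub : convexHull ℝ (Set.range (baseV c T)) ⊆ Metric.closedBall z (el c) := by
    apply convexHull_min _ (convex_closedBall z (el c))
    rintro _ ⟨i, rfl⟩
    rw [baseGeo_baseV, Metric.mem_closedBall, dist_eq_norm]
    simp only
    rw [add_sub_cancel_left, norm_mul, baseGeo_w_norm hc]
    calc el c * _ ≤ el c * 1 := mul_le_mul_of_nonneg_left (baseGeo_shape_norm hc _ i) hel.le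
      _ = el c := mul_one _
  have h1 := hsub hx1
  rw [Metric.mem_closedBall] at h1 hx2
  rw [dist_zero_right] at hx2
  have h2 : ‖z‖ ≤ R + el c := by
    calc ‖z‖ = ‖x - (x - z)‖ := by rw [sub_sub_cancel]
      _ ≤ ‖x‖ + ‖x - z‖ := norm_sub_le _ _
      _ ≤ R + el c := by rw [← dist_eq_norm]; linarith
  have h3 : ‖z‖ = el c * ‖((T.2.1 : ℂ) + T.2.2 * om c)‖ := by
    rw [hz, norm_mul, baseGeo_w_norm hc]
  rw [h3] at h2
  have h4 : ‖((T.2.1 : ℂ) + T.2.2 * om c)‖ ≤ n := by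
    refine le_trans ?_ hn
    rw [le_div_iff₀ hel]
    linarith
  obtain ⟨h5, h6⟩ := baseGeo_ctr_norm hc T.2.1 T.2.2
  refine ⟨Set.mem_univ _, ?_, ?_⟩
  · have : (T.2.1 : ℝ) ≤ n := h5.trans h4
    exact_mod_cast this
  · have : (T.2.2 : ℝ) ≤ n := h6.trans h4
    exact_mod_cast this

end H52Hex
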