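import Mathlib

/-!
Basic definitions for the equal-perimeter unit-area hexagon tilings with many irregular
vertices (problem MP_8e036e_co).
-/

namespace H52Hex

open scoped BigOperators

/-- The cross product of two plane vectors. -/
def cr (z w : ℂ) : ℝ := z.re * w.im - z.im * w.re

/-- Twice the signed area of the triangle `a b c`; positive iff it is counterclockwise. -/
def ori (a b c : ℂ) : ℝ := cr (b - a) (c - a)

/-- The six points `v 0, …, v 5` are the vertices, listed counterclockwise, of a strictly convex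
hexagon: every other vertex lies strictly to the left of each side `v i → v (i+1)`. -/
def SC (v : Fin 6 → ℂ) : Prop :=
  ∀ i j : Fin 6, j ≠ i → j ≠ i + 1 → 0 < ori (v i) (v (i + 1)) (v j)

/-- The sum of `F` over the six directed sides of a hexagon. -/
def bd (F : ℂ → ℂ → ℝ) (v : Fin 6 → ℂ) : ℝ := ∑ i : Fin 6, F (v i) (v (i + 1))

/-- Ray casting: the signed crossing number of the horizontal ray from `x` to the right with the
directed segment from `a` to `b`. -/
noncomputable def sg (x a b : ℂ) : ℝ :=
  if a.im < x.im ∧ x.im < b.im ∧ 0 < ori a b x then 1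
  else if b.im < x.im ∧ x.im < a.im ∧ ori a b x < 0 then -1 else 0

/-- `x` is in general position with respect to the set of points `S`. -/
def Gen (S : Set ℂ) (x : ℂ) : Prop :=
  (∀ a ∈ S, a.im ≠ x.im) ∧ ∀ a ∈ S, ∀ b ∈ S, a ≠ b → ori a b x ≠ 0

/-- `x` lies in the open counterclockwise triangle `a b c`. -/
def InTri (x a b c : ℂ) : Prop := 0 < ori a b x ∧ 0 < ori b c x ∧ 0 < ori c a x

/-! ### The base tiling -/

/-- The `6c` sectors. -/
abbrev Sec (c : ℕ) := ZMod c × Fin 6

/-- The angle of a sector, `2π/(6c)`. -/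
noncomputable def phi (c : ℕ) : ℝ := Real.pi / (3 * c)

/-- Rotation by the angle of one sector. -/
noncomputable def om (c : ℕ) : ℂ := Complex.exp (phi c * Complex.I)

/-- The lattice length: `3 ℓ² sin φ = 1`. -/
noncomputable def el (c : ℕ) : ℝ := Real.sqrt (1 / (3 * Real.sin (phi c)))

/-- The rotation that takes sector `(0,0)` to sector `a`. -/
noncomputable def rot (c : ℕ) (a : Sec c) : ℂ := om c ^ (6 * a.1.val + a.2.val)

/-- The next sector. -/
def nx {c : ℕ} (a : Sec c) : Sec c := if a.2 = 5 then (a.1 + 1, 0) else (a.1, a.2 + 1)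

/-- The previous sector. -/
def pv {c : ℕ} (a : Sec c) : Sec c := if a.2 = 0 then (a.1 - 1, 5) else (a.1, a.2 - 1)

/-- The parity of a sector (true = even). -/
def ev {c : ℕ} (a : Sec c) : Bool := a.2.val % 2 == 0

/-- The point with coordinates `(s,t)` in sector `a`. -/
noncomputable def lat (c : ℕ) (a : Sec c) (s t : ℝ) : ℂ := el c * rot c a * (s + t * om c)

/-- The set of all lattice nodes. -/
def latSet (c : ℕ) : Set ℂ := {z | ∃ (a : Sec c) (p q : ℕ), z = lat c a p q}

/-- `(a, p, q)` is the center of a tile of the base tiling. -/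
def IsCtr {c : ℕ} (T : Sec c × ℕ × ℕ) : Prop :=
  1 ≤ T.2.1 ∧ (if ev T.1 then (T.2.1 + 2 * T.2.2) % 3 = 1 else (T.2.2 + 2 * T.2.1) % 3 = 1)

/-- The shape of a tile centered at a ray point. -/
noncomputable def shape0 (c : ℕ) : Fin 6 → ℂ :=
  ![(om c)⁻¹, 1, om c, om c - 1, -1, (om c)⁻¹ - 1]

/-- The shape of a tile centered inside a sector. -/
noncomputable def shape1 (c : ℕ) : Fin 6 → ℂ :=
  ![1, om c, om c - 1, -1, -om c, 1 - om c]

/-- The vertices of the base tile with center `(a, p, q)`. -/
noncomputable def baseV (c : ℕ) (T : Sec c × ℕ × ℕ) : Fin 6 → ℂ := fun i =>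
  el c * rot c T.1 * ((T.2.1 : ℂ) + T.2.2 * om c + (if T.2.2 = 0 then shape0 c i else shape1 c i))

/-- The common perimeter. -/
noncomputable def Per (c : ℕ) : ℝ := el c * (4 + 2 * ‖om c - 1‖)

/-- The perimeter of a hexagon. -/
noncomputable def per (v : Fin 6 → ℂ) : ℝ := bd (fun a b => dist a b) v

end H52Hex
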