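import Pool.Agent.H52Hex.ExDefs

/-!
Algebraic identities for the system.
-/

namespace H52Hex

set_option linter.unusedSimpArgs false
set_option linter.unusedVariables false

lemma ux_zero (w : ℝ) : ux 0 w = 1 := rfl
lemma uy_zero (w : ℝ) : uy 0 w = 0 := rfl
lemma ux_succ (n : ℕ) (w : ℝ) : ux (n + 1) w = ux n w + w * fu n w := by
  simp only [ux, fu, uy, UX]; ring
lemma uy_succ (n : ℕ) (w : ℝ) :
    uy (n + 1) w = sI w * ux n w + (1 - w * sI w) * uy n w := rfl

lemma sI_mul {w : ℝ} (hw : 0 ≤ w) : sI w * (1 + w) = 2 := by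
  have : (1 + w) ≠ 0 := by positivity
  simp only [sI]; field_simp

lemma u_norm {w : ℝ} (hw : 0 ≤ w) (n : ℕ) : ux n w ^ 2 + w * uy n w ^ 2 = 1 := by
  induction n with
  | zero => simp [ux_zero, uy_zero]
  | succ n ih =>
    have h := sI_mul hw
    rw [ux_succ, uy_succ, fu]
    linear_combination ih + (w * sI w * (ux n w ^ 2 + w * uy n w ^ 2)) * h

lemma u_cross {w : ℝ} (hw : 0 ≤ w) (n : ℕ) :
    ux n w * uy (n + 1) w - ux (n + 1) w * uy n w = sI w := by
  rw [ux_succ, uy_succ, fu]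
  linear_combination (sI w) * u_norm hw n

/-- total area -/
lemma total_id (t : ℝ) (d : D) : gY t d + g10 t d + g11 t d + g12 t d + g13 t d + g14 t d
    + g15 t d + g16 t d + g17 t d + gW t d = 0 := by
  simp only [gY, g10, g11, g12, g13, g14, g15, g16, g17, gW, ee, k0, kp, k11, k13, k20, k21, k23, k24,
    k25, k32, k33, k34, k38, k39, k30, k36, k41, k42, k44, k46, k47, k49, k4A, k4C, pp]
  ring

lemma mom_id (t : ℝ) (d : D) : gY t d + g10 t d + 2 * g11 t d + 2 * g12 t d + 3 * g13 t d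
    + 3 * g14 t d + 3 * g15 t d + 4 * g16 t d + 4 * g17 t d + 4 * gW t d = t * g18 t d := by
  have h23 := u_cross (sq_nonneg t) 2
  have h01 := u_cross (sq_nonneg t) 0
  have e1 := ux_succ 0 (t ^ 2)
  have e2 := ux_succ 1 (t ^ 2)
  have e3 := ux_succ 2 (t ^ 2)
  simp only [gY, g10, g11, g12, g13, g14, g15, g16, g17, gW, g18, ee, bb, k0, kp, k11, k13, k20, k21,
    k23, k24,
    k25, k32, k33, k34, k38, k39, k30, k36, k41, k42, k44, k46, k47, k49, k4A, k4C, pp]
  norm_num [ux_zero, uy_zero] at h23 h01 e1 e2 e3 ⊢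
  linear_combination (d 4 + 3 * d 3 + 3 * d 12 + 2 * d 14) * e1
    + (d 4 + 3 * d 6 + 2 * d 8 + 2 * d 14 + 3 * d 16) * e2
    + (2 * d 8 + 3 * d 10 + 3 * d 18) * e3 - t * (d 0 + 2 * d 19) * h23 - 2 * t * d 1 * h01

end H52Hex
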