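import Pool.Agent.H52Hex.ExLin

/-!
Smoothness of the system and the implicit function theorem.
-/

namespace H52Hex

set_option linter.unusedSimpArgs false
set_option linter.unusedVariables false

open scoped Topology
open Filter

/-- the point of expansion -/
noncomputable def z0 : ℝ × D := (0, d0)

/-- continuously differentiable at `z0` -/
def Sm (f : ℝ × D → ℝ) : Prop := ContDiffAt ℝ 1 f z0

lemma Sm.add {f g : ℝ × D → ℝ} (hf : Sm f) (hg : Sm g) : Sm (fun z => f z + g z) :=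
  ContDiffAt.add hf hg
lemma Sm.sub {f g : ℝ × D → ℝ} (hf : Sm f) (hg : Sm g) : Sm (fun z => f z - g z) :=
  ContDiffAt.sub hf hg
lemma Sm.mul {f g : ℝ × D → ℝ} (hf : Sm f) (hg : Sm g) : Sm (fun z => f z * g z) :=
  ContDiffAt.mul hf hg
lemma Sm.neg {f : ℝ × D → ℝ} (hf : Sm f) : Sm (fun z => - f z) :=
  ContDiffAt.neg hf
lemma Sm.pow {f : ℝ × D → ℝ} (hf : Sm f) (n : ℕ) : Sm (fun z => f z ^ n) :=
  ContDiffAt.pow hf n
lemma Sm.const (c : ℝ) : Sm (fun _ => c) := contDiffAt_const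
lemma Sm.t : Sm (fun z => z.1) := contDiffAt_fst
lemma Sm.d (i : Fin 20) : Sm (fun z => z.2 i) := by
  unfold Sm; fun_prop

lemma Sm.div {f g : ℝ × D → ℝ} (hf : Sm f) (hg : Sm g) (h : g z0 ≠ 0) : Sm (fun z => f z / g z) :=
  ContDiffAt.div hf hg h

lemma Sm.sqrt {f : ℝ × D → ℝ} (hf : Sm f) (h : f z0 ≠ 0) : Sm (fun z => Real.sqrt (f z)) :=
  ContDiffAt.sqrt hf h

lemma Sm.sI : Sm (fun z => sI (z.1 ^ 2)) := by
  unfold H52Hex.sI
  apply Sm.div (Sm.const 2) (Sm.add (Sm.const 1) (Sm.pow Sm.t 2))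
  simp [z0]

lemma Sm.uxy (n : ℕ) : Sm (fun z => ux n (z.1 ^ 2)) ∧ Sm (fun z => uy n (z.1 ^ 2)) := by
  induction n with
  | zero => exact ⟨Sm.const 1, Sm.const 0⟩
  | succ n ih =>
    obtain ⟨h1, h2⟩ := ih
    simp only [ux_succ, uy_succ, fu]
    exact ⟨Sm.add h1 (Sm.mul (Sm.pow Sm.t 2) (Sm.neg (Sm.mul Sm.sI (Sm.add h1 h2)))),
      Sm.add (Sm.mul Sm.sI h1) (Sm.mul (Sm.sub (Sm.const 1) (Sm.mul (Sm.pow Sm.t 2) Sm.sI)) h2)⟩

lemma Sm.ux (n : ℕ) : Sm (fun z => ux n (z.1 ^ 2)) := (Sm.uxy n).1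
lemma Sm.uy (n : ℕ) : Sm (fun z => uy n (z.1 ^ 2)) := (Sm.uxy n).2
lemma Sm.fu (n : ℕ) : Sm (fun z => fu n (z.1 ^ 2)) := by
  unfold H52Hex.fu
  exact Sm.neg (Sm.mul Sm.sI (Sm.add (Sm.ux n) (Sm.uy n)))

lemma Sm.psi {u q : ℝ × D → ℝ} (hu : Sm u) (hq : Sm q) (h : u z0 = 0) :
    Sm (fun z => psi (u z) (q z)) := by
  unfold H52Hex.psi
  apply Sm.div hq (Sm.add (Sm.sqrt (Sm.add (Sm.const 1) (Sm.mul hu hq)) _) (Sm.const 1))
  · rw [h]; norm_num
  · rw [h]; norm_num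

lemma Sm.s0 : Sm (fun z => s0 (z.1 ^ 2)) := by
  unfold H52Hex.s0
  apply Sm.div (Sm.const 2) (Sm.sqrt (Sm.add (Sm.const 1) (Sm.pow Sm.t 2)) _)
  · simp [z0]
  · simp [z0]

lemma Sm.rr (b : ℕ) {f g : ℝ × D → ℝ} (hf : Sm f) (hg : Sm g) :
    Sm (fun z => rr z.1 b (f z) (g z)) := by
  unfold H52Hex.rr
  apply Sm.psi (Sm.pow Sm.t 2) _ (by simp [z0])
  have h2 := Sm.const 2
  have ht := Sm.t
  have hx := Sm.ux b
  have hy := Sm.uy b
  exact (((((h2.mul hx).mul hf)).add ((ht.pow 2).mul (hf.pow 2))).add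
    (((h2.mul ht).mul hy).mul hg)).add ((ht.pow 2).mul (hg.pow 2))

lemma Sm.tt (b : ℕ) {f g : ℝ × D → ℝ} (hf : Sm f) (hg : Sm g) :
    Sm (fun z => tt z.1 b (f z) (g z)) := by
  unfold H52Hex.tt
  apply Sm.mul Sm.s0 (Sm.psi Sm.t _ (by simp [z0]))
  have h2 := Sm.const 2
  have ht := Sm.t
  have hx := Sm.fu b
  have hy := Sm.uy b
  have hy' := Sm.uy (b + 1)
  exact ((((Sm.const 1).add (ht.pow 2)).div (Sm.const 4) (by norm_num))).mul
    ((((h2.mul (hy'.sub hy)).mul hg).add (ht.mul (hg.pow 2))).add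
      (ht.mul (((h2.mul hx).mul hf).add (hf.pow 2))))

/-- smoothness of all components of the system -/
lemma Sm.all :
    Sm (fun z => g0 z.1 z.2) ∧ Sm (fun z => g1 z.1 z.2) ∧ Sm (fun z => g2 z.1 z.2) ∧
    Sm (fun z => g3 z.1 z.2) ∧ Sm (fun z => g4 z.1 z.2) ∧ Sm (fun z => g5 z.1 z.2) ∧
    Sm (fun z => g6 z.1 z.2) ∧ Sm (fun z => g7 z.1 z.2) ∧ Sm (fun z => g8 z.1 z.2) ∧
    Sm (fun z => g9 z.1 z.2) ∧ Sm (fun z => g10 z.1 z.2) ∧ Sm (fun z => g11 z.1 z.2) ∧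
    Sm (fun z => g12 z.1 z.2) ∧ Sm (fun z => g13 z.1 z.2) ∧ Sm (fun z => g14 z.1 z.2) ∧
    Sm (fun z => g15 z.1 z.2) ∧ Sm (fun z => g16 z.1 z.2) ∧ Sm (fun z => g17 z.1 z.2) ∧
    Sm (fun z => g18 z.1 z.2) ∧ Sm (fun z => g19 z.1 z.2) := by
  refine ⟨?_, ?_, ?_, ?_, ?_, ?_, ?_, ?_, ?_, ?_, ?_, ?_, ?_, ?_, ?_, ?_, ?_, ?_, ?_, ?_⟩
  all_goals
    simp only [g0, g1, g2, g3, g4, g5, g6, g7, g8, g9, g10, g11, g12, g13, g14, g15, g16, g17, g18,
      g19, er, et, ee, bb, k0, kp, k11, k13, k20, k21, k23, k24, k25, k32, k33, k34,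
      k38, k39, k30, k36, k41, k42, k44, k46, k47, k49, k4A, k4C, pp, Pt.X, Pt.Y]
    repeat' first
      | exact Sm.const _
      | exact Sm.t
      | exact Sm.d _
      | exact Sm.ux _
      | exact Sm.uy _
      | exact Sm.fu _
      | exact Sm.sI
      | apply Sm.rr
      | apply Sm.tt
      | apply Sm.add
      | apply Sm.sub
      | apply Sm.mul
      | apply Sm.neg

/-- the system as a function of all variables -/
noncomputable def GG (z : ℝ × D) : Fin 20 → ℝ := G z.1 z.2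

lemma GG_smooth : ContDiffAt ℝ 1 GG z0 := by
  rw [contDiffAt_pi]
  obtain ⟨h0, h1, h2, h3, h4, h5, h6, h7, h8, h9, h10, h11, h12, h13, h14, h15, h16, h17, h18, h19⟩ :=
    Sm.all
  intro i
  fin_cases i
  · exact h0
  · exact h1
  · exact h2
  · exact h3
  · exact h4
  · exact h5
  · exact h6
  · exact h7
  · exact h8
  · exact h9
  · exact h10
  · exact h11
  · exact h12
  · exact h13
  · exact h14
  · exact h15
  · exact h16
  · exact h17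
  · exact h18
  · exact h19

/-- the derivative of the system in the direction of the unknowns -/
lemma GG_deriv (v : D) : fderiv ℝ GG z0 ((0 : ℝ), v) = Lin v := by
  have h1 : HasFDerivAt GG (fderiv ℝ GG z0) z0 :=
    (GG_smooth.differentiableAt (by norm_num)).hasFDerivAt
  have h2 : HasDerivAt (fun s : ℝ => z0 + s • ((0 : ℝ), v)) ((0 : ℝ), v) 0 := by
    have := ((hasDerivAt_id (0 : ℝ)).smul_const ((0 : ℝ), v)).const_add z0
    simpa using this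
  have h3 : HasDerivAt (fun s : ℝ => GG (z0 + s • ((0 : ℝ), v))) (fderiv ℝ GG z0 ((0 : ℝ), v)) 0 := by
    have h1' : HasFDerivAt GG (fderiv ℝ GG z0) (z0 + (0 : ℝ) • ((0 : ℝ), v)) := by simpa using h1
    exact h1'.comp_hasDerivAt (0 : ℝ) h2
  have h4 : (fun s : ℝ => GG (z0 + s • ((0 : ℝ), v))) = fun s : ℝ => G 0 d0 + s • Lin v := by
    funext s
    have : z0 + s • ((0 : ℝ), v) = (0, d0 + s • v) := by
      simp [z0]
    rw [this]
    exact G_zero_line d0 v s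
  have h5 : HasDerivAt (fun s : ℝ => G 0 d0 + s • Lin v) (Lin v) 0 := by
    have := ((hasDerivAt_id (0 : ℝ)).smul_const (Lin v)).const_add (G 0 d0)
    simpa using this
  rw [h4] at h3
  exact h3.unique h5

/-- solutions near the base solution -/
theorem exists_sol (p : ℝ × D → Prop) (hp : ∀ᶠ z in 𝓝 z0, p z) :
    ∀ᶠ t in 𝓝 (0 : ℝ), ∃ d, p (t, d) ∧ G t d = 0 := by
  have hs : HasStrictFDerivAt GG (fderiv ℝ GG z0) z0 := GG_smooth.hasStrictFDerivAt (by norm_num)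
  have hf : HasStrictFDerivAt (fun z : ℝ × D => (z.1, GG z))
      ((ContinuousLinearMap.fst ℝ ℝ D).prod (fderiv ℝ GG z0)) z0 :=
    hasStrictFDerivAt_fst.prodMk hs
  have hsurj : LinearMap.range ((ContinuousLinearMap.fst ℝ ℝ D).prod (fderiv ℝ GG z0)).toLinearMap = ⊤ := by
    rw [LinearMap.range_eq_top]
    rintro ⟨a, y⟩
    refine ⟨(a, Inv (y - fderiv ℝ GG z0 (a, 0))), ?_⟩
    have hsplit : ((a, Inv (y - fderiv ℝ GG z0 (a, 0))) : ℝ × D)
        = (a, 0) + ((0 : ℝ), Inv (y - fderiv ℝ GG z0 (a, 0))) := by simp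
    have : fderiv ℝ GG z0 (a, Inv (y - fderiv ℝ GG z0 (a, 0))) = y := by
      rw [hsplit, map_add, GG_deriv, Lin_Inv]
      simp
    simp [this]
  have hmap := hf.map_nhds_eq_of_surj hsurj
  have h0 : ((z0.1, GG z0) : ℝ × (Fin 20 → ℝ)) = (0, 0) := by
    simp [z0, GG, G_d0]
  rw [h0] at hmap
  have hmem : (fun z : ℝ × D => (z.1, GG z)) '' {z | p z} ∈ 𝓝 ((0 : ℝ), (0 : Fin 20 → ℝ)) := by
    rw [← hmap]
    exact image_mem_map hp
  have hc : Tendsto (fun t : ℝ => (t, (0 : Fin 20 → ℝ))) (𝓝 0) (𝓝 (0, 0)) := by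
    have : Continuous (fun t : ℝ => (t, (0 : Fin 20 → ℝ))) := by fun_prop
    exact this.tendsto' _ _ rfl
  filter_upwards [hc hmem] with t ht
  obtain ⟨z, hz, hz'⟩ := ht
  simp only [Prod.mk.injEq] at hz'
  obtain ⟨h1, h2⟩ := hz'
  refine ⟨z.2, ?_, ?_⟩
  · have : (t, z.2) = z := by rw [← h1]
    rw [this]; exact hz
  · rw [← h1]; exact h2

end H52Hex
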