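import Pool.Agent.H52Hex.ExTiles2
import Pool.Agent.H52Hex.ExIFT

/-!
Convexity of the modified tiles near the base solution.
-/

namespace H52Hex

set_option linter.unusedSimpArgs false
set_option linter.unusedVariables false
set_option linter.unusedTactic false
set_option linter.unreachableTactic false

open scoped BigOperators ComplexConjugate Topology
open Filter

variable {c : ℕ}

noncomputable section

def qq (P : Pt) (t : ℝ) : ℝ × ℝ := (P.X t, P.Y t)
def qc (P : Pt) (t : ℝ) : ℝ × ℝ := (P.X t, - P.Y t)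
def qz (P : Pt) (t : ℝ) : ℝ × ℝ := (ux 6 (t ^ 2) * P.X t + t ^ 2 * uy 6 (t ^ 2) * P.Y t,
  uy 6 (t ^ 2) * P.X t - ux 6 (t ^ 2) * P.Y t)

/-- orientation in scaled coordinates -/
def oS (a b c : ℝ × ℝ) : ℝ := (b.1 - a.1) * (c.2 - a.2) - (b.2 - a.2) * (c.1 - a.1)

/-- vertices of the modified tiles in scaled coordinates -/
def W (z : ℝ × D) : Fin 10 → Fin 6 → ℝ × ℝ :=
  ![![qc (k21 z.1 z.2) z.1, qq (k20 z.1 z.2) z.1, qq (k21 z.1 z.2) z.1, qq (k11 z.1 z.2) z.1, qq (kp z.1) z.1, qc (k11 z.1 z.2) z.1],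
    ![qq (k23 z.1 z.2) z.1, qq (k25 z.1 z.2) z.1, qq (k13 z.1 z.2) z.1, qq (k0 z.1) z.1, qq (kp z.1) z.1, qq (k11 z.1 z.2) z.1],
    ![qq (k32 z.1 z.2) z.1, qq (k33 z.1 z.2) z.1, qq (k34 z.1 z.2) z.1, qq (k23 z.1 z.2) z.1, qq (k11 z.1 z.2) z.1, qq (k21 z.1 z.2) z.1],
    ![qq (k38 z.1 z.2) z.1, qq (k39 z.1 z.2) z.1, qz (k38 z.1 z.2) z.1, qz (k25 z.1 z.2) z.1, qq (k13 z.1 z.2) z.1, qq (k25 z.1 z.2) z.1],
    ![qq (k41 z.1) z.1, qq (k42 z.1) z.1, qq (k32 z.1 z.2) z.1, qq (k21 z.1 z.2) z.1, qq (k20 z.1 z.2) z.1, qq (k30 z.1) z.1],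
    ![qq (k46 z.1) z.1, qq (k47 z.1) z.1, qq (k36 z.1) z.1, qq (k24 z.1 z.2) z.1, qq (k23 z.1 z.2) z.1, qq (k34 z.1 z.2) z.1],
    ![qq (k49 z.1) z.1, qq (k4A z.1) z.1, qq (k38 z.1 z.2) z.1, qq (k25 z.1 z.2) z.1, qq (k24 z.1 z.2) z.1, qq (k36 z.1) z.1],
    ![qq (k53 z.1) z.1, qq (k54 z.1) z.1, qq (k44 z.1) z.1, qq (k33 z.1 z.2) z.1, qq (k32 z.1 z.2) z.1, qq (k42 z.1) z.1],
    ![qq (k56 z.1) z.1, qq (k57 z.1) z.1, qq (k46 z.1) z.1, qq (k34 z.1 z.2) z.1, qq (k33 z.1 z.2) z.1, qq (k44 z.1) z.1],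
    ![qq (k5D z.1) z.1, qq (k5E z.1) z.1, qq (k4C z.1) z.1, qq (k39 z.1 z.2) z.1, qq (k38 z.1 z.2) z.1, qq (k4A z.1) z.1]]

end

/-- the vertices at `t = 0` -/
def Wi : Fin 10 → Fin 6 → ℤ × ℤ :=
  ![![(2, -2), (2, 0), (2, 2), (1, 2), (0, 0), (1, -2)],
    ![(2, 6), (2, 10), (1, 6), (0, 0), (0, 0), (1, 2)],
    ![(3, 4), (3, 6), (3, 8), (2, 6), (1, 2), (2, 2)],
    ![(3, 16), (3, 18), (3, 20), (2, 14), (1, 6), (2, 10)],
    ![(4, 2), (4, 4), (3, 4), (2, 2), (2, 0), (3, 0)],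
    ![(4, 12), (4, 14), (3, 12), (2, 8), (2, 6), (3, 8)],
    ![(4, 18), (4, 20), (3, 16), (2, 10), (2, 8), (3, 12)],
    ![(5, 6), (5, 8), (4, 8), (3, 6), (3, 4), (4, 4)],
    ![(5, 12), (5, 14), (4, 12), (3, 8), (3, 6), (4, 8)],
    ![(5, 26), (5, 28), (4, 24), (3, 18), (3, 16), (4, 20)]]

/-- integer orientation -/
def oZ (a b c : ℤ × ℤ) : ℤ := (b.1 - a.1) * (c.2 - a.2) - (b.2 - a.2) * (c.1 - a.1)

/-- degenerate triples -/
def Deg : List (Fin 10 × Fin 6 × Fin 6) :=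
  [(0,0,2),(0,1,0),(2,0,2),(2,1,0),(3,0,2),(3,1,0),(1,2,4),(1,3,0),(1,3,1),(1,3,2),(1,3,5),(1,4,3)]

set_option maxRecDepth 10000 in
lemma oZ_pos : ∀ t : Fin 10, ∀ i j : Fin 6, j ≠ i → j ≠ i + 1 →
    0 < oZ (Wi t i) (Wi t (i + 1)) (Wi t j) ∨ (t, i, j) ∈ Deg := by
  decide

lemma ori_ps (a b e : ℝ × ℝ) : ori (ps c a.1 a.2) (ps c b.1 b.2) (ps c e.1 e.2)
    = el c ^ 2 * tau c * oS a b e := by
  simp only [ori, cr, ps, oS, Complex.sub_re, Complex.sub_im]; ring

lemma ps_conj (P : Pt) : conj (pos c P) = ps c (qc P (tau c)).1 (qc P (tau c)).2 := by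
  apply Complex.ext <;> simp [pos, ps, qc]

lemma ps_zt (hc : 1 ≤ c) (P : Pt) :
    zt c * conj (pos c P) = ps c (qz P (tau c)).1 (qz P (tau c)).2 := by
  rw [zt, om_pow_eq hc 6]
  apply Complex.ext
  · simp only [pos, ps, qz, Complex.mul_re, Complex.conj_re, Complex.conj_im]; ring
  · simp only [pos, ps, qz, Complex.mul_im, Complex.conj_re, Complex.conj_im]; ring

lemma ps_zero : (0 : ℂ) = ps c (qq (k0 (tau c)) (tau c)).1 (qq (k0 (tau c)) (tau c)).2 := by
  apply Complex.ext <;> simp [ps, k0, pp, Pt.X, Pt.Y, qq]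

lemma V_eq_0 (hc : 1 ≤ c) (d : D) (i : Fin 6) : V c (NN c d) 0 i = ps c (W (tau c, d) 0 i).1 (W (tau c, d) 0 i).2 := by
  fin_cases i
  · exact ps_conj _
  · rfl
  · rfl
  · rfl
  · rfl
  · exact ps_conj _

lemma V_eq_1 (hc : 1 ≤ c) (d : D) (i : Fin 6) : V c (NN c d) 1 i = ps c (W (tau c, d) 1 i).1 (W (tau c, d) 1 i).2 := by
  fin_cases i
  · rfl
  · rfl
  · rfl
  · exact ps_zero
  · rfl
  · rfl

lemma V_eq_2 (hc : 1 ≤ c) (d : D) (i : Fin 6) : V c (NN c d) 2 i = ps c (W (tau c, d) 2 i).1 (W (tau c, d) 2 i).2 := by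
  fin_cases i
  · rfl
  · rfl
  · rfl
  · rfl
  · rfl
  · rfl

lemma V_eq_3 (hc : 1 ≤ c) (d : D) (i : Fin 6) : V c (NN c d) 3 i = ps c (W (tau c, d) 3 i).1 (W (tau c, d) 3 i).2 := by
  fin_cases i
  · rfl
  · rfl
  · exact ps_zt hc _
  · exact ps_zt hc _
  · rfl
  · rfl

lemma V_eq_4 (hc : 1 ≤ c) (d : D) (i : Fin 6) : V c (NN c d) 4 i = ps c (W (tau c, d) 4 i).1 (W (tau c, d) 4 i).2 := by
  fin_cases i
  · exact nd_41 hc
  · exact nd_42 hc
  · rfl
  · rfl
  · rfl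
  · exact nd_30 hc

lemma V_eq_5 (hc : 1 ≤ c) (d : D) (i : Fin 6) : V c (NN c d) 5 i = ps c (W (tau c, d) 5 i).1 (W (tau c, d) 5 i).2 := by
  fin_cases i
  · exact nd_46 hc
  · exact nd_47 hc
  · exact nd_36 hc
  · rfl
  · rfl
  · rfl

lemma V_eq_6 (hc : 1 ≤ c) (d : D) (i : Fin 6) : V c (NN c d) 6 i = ps c (W (tau c, d) 6 i).1 (W (tau c, d) 6 i).2 := by
  fin_cases i
  · exact nd_49 hc
  · exact nd_4A hc
  · rfl
  · rfl
  · rfl
  · exact nd_36 hc

lemma V_eq_7 (hc : 1 ≤ c) (d : D) (i : Fin 6) : V c (NN c d) 7 i = ps c (W (tau c, d) 7 i).1 (W (tau c, d) 7 i).2 := by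
  fin_cases i
  · exact nd_53 hc
  · exact nd_54 hc
  · exact nd_44 hc
  · rfl
  · rfl
  · exact nd_42 hc

lemma V_eq_8 (hc : 1 ≤ c) (d : D) (i : Fin 6) : V c (NN c d) 8 i = ps c (W (tau c, d) 8 i).1 (W (tau c, d) 8 i).2 := by
  fin_cases i
  · exact nd_56 hc
  · exact nd_57 hc
  · exact nd_46 hc
  · rfl
  · rfl
  · exact nd_44 hc

lemma V_eq_9 (hc : 1 ≤ c) (d : D) (i : Fin 6) : V c (NN c d) 9 i = ps c (W (tau c, d) 9 i).1 (W (tau c, d) 9 i).2 := by
  fin_cases i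
  · exact nd_5D hc
  · exact nd_5E hc
  · exact nd_4C hc
  · rfl
  · rfl
  · exact nd_4A hc

lemma V_eq (hc : 1 ≤ c) (d : D) (t : Fin 10) (i : Fin 6) :
    V c (NN c d) t i = ps c (W (tau c, d) t i).1 (W (tau c, d) t i).2 := by
  fin_cases t
  · exact V_eq_0 hc d i
  · exact V_eq_1 hc d i
  · exact V_eq_2 hc d i
  · exact V_eq_3 hc d i
  · exact V_eq_4 hc d i
  · exact V_eq_5 hc d i
  · exact V_eq_6 hc d i
  · exact V_eq_7 hc d i
  · exact V_eq_8 hc d i
  · exact V_eq_9 hc d i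

/-- both coordinates are smooth -/
def Sm2 (f : ℝ × D → ℝ × ℝ) : Prop := Sm (fun z => (f z).1) ∧ Sm (fun z => (f z).2)

lemma W_sm_0 (i : Fin 6) : Sm2 (fun z => W z 0 i) := by
  fin_cases i
  · show Sm2 (fun z => qc (k21 z.1 z.2) z.1)
    unfold Sm2
    simp only [qq, qc, qz, k0, kp, k11, k13, k20, k21, k23, k24, k25, k32, k33, k34, k38, k39, k30, k36, k41,
      k42, k44, k46, k47, k49, k4A, k4C, k53, k54, k56, k57, k5D, k5E, pp, Pt.X, Pt.Y]
    constructor <;>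
    repeat' first
      | exact Sm.const _
      | exact Sm.t
      | exact Sm.d _
      | exact Sm.ux _
      | exact Sm.uy _
      | apply Sm.add
      | apply Sm.sub
      | apply Sm.mul
      | apply Sm.neg
      | apply Sm.pow
  · show Sm2 (fun z => qq (k20 z.1 z.2) z.1)
    unfold Sm2
    simp only [qq, qc, qz, k0, kp, k11, k13, k20, k21, k23, k24, k25, k32, k33, k34, k38, k39, k30, k36, k41,
      k42, k44, k46, k47, k49, k4A, k4C, k53, k54, k56, k57, k5D, k5E, pp, Pt.X, Pt.Y]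
    constructor <;>
    repeat' first
      | exact Sm.const _
      | exact Sm.t
      | exact Sm.d _
      | exact Sm.ux _
      | exact Sm.uy _
      | apply Sm.add
      | apply Sm.sub
      | apply Sm.mul
      | apply Sm.neg
      | apply Sm.pow
  · show Sm2 (fun z => qq (k21 z.1 z.2) z.1)
    unfold Sm2
    simp only [qq, qc, qz, k0, kp, k11, k13, k20, k21, k23, k24, k25, k32, k33, k34, k38, k39, k30, k36, k41,
      k42, k44, k46, k47, k49, k4A, k4C, k53, k54, k56, k57, k5D, k5E, pp, Pt.X, Pt.Y]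
    constructor <;>
    repeat' first
      | exact Sm.const _
      | exact Sm.t
      | exact Sm.d _
      | exact Sm.ux _
      | exact Sm.uy _
      | apply Sm.add
      | apply Sm.sub
      | apply Sm.mul
      | apply Sm.neg
      | apply Sm.pow
  · show Sm2 (fun z => qq (k11 z.1 z.2) z.1)
    unfold Sm2
    simp only [qq, qc, qz, k0, kp, k11, k13, k20, k21, k23, k24, k25, k32, k33, k34, k38, k39, k30, k36, k41,
      k42, k44, k46, k47, k49, k4A, k4C, k53, k54, k56, k57, k5D, k5E, pp, Pt.X, Pt.Y]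
    constructor <;>
    repeat' first
      | exact Sm.const _
      | exact Sm.t
      | exact Sm.d _
      | exact Sm.ux _
      | exact Sm.uy _
      | apply Sm.add
      | apply Sm.sub
      | apply Sm.mul
      | apply Sm.neg
      | apply Sm.pow
  · show Sm2 (fun z => qq (kp z.1) z.1)
    unfold Sm2
    simp only [qq, qc, qz, k0, kp, k11, k13, k20, k21, k23, k24, k25, k32, k33, k34, k38, k39, k30, k36, k41,
      k42, k44, k46, k47, k49, k4A, k4C, k53, k54, k56, k57, k5D, k5E, pp, Pt.X, Pt.Y]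
    constructor <;>
    repeat' first
      | exact Sm.const _
      | exact Sm.t
      | exact Sm.d _
      | exact Sm.ux _
      | exact Sm.uy _
      | apply Sm.add
      | apply Sm.sub
      | apply Sm.mul
      | apply Sm.neg
      | apply Sm.pow
  · show Sm2 (fun z => qc (k11 z.1 z.2) z.1)
    unfold Sm2
    simp only [qq, qc, qz, k0, kp, k11, k13, k20, k21, k23, k24, k25, k32, k33, k34, k38, k39, k30, k36, k41,
      k42, k44, k46, k47, k49, k4A, k4C, k53, k54, k56, k57, k5D, k5E, pp, Pt.X, Pt.Y]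
    constructor <;>
    repeat' first
      | exact Sm.const _
      | exact Sm.t
      | exact Sm.d _
      | exact Sm.ux _
      | exact Sm.uy _
      | apply Sm.add
      | apply Sm.sub
      | apply Sm.mul
      | apply Sm.neg
      | apply Sm.pow

lemma W_sm_1 (i : Fin 6) : Sm2 (fun z => W z 1 i) := by
  fin_cases i
  · show Sm2 (fun z => qq (k23 z.1 z.2) z.1)
    unfold Sm2
    simp only [qq, qc, qz, k0, kp, k11, k13, k20, k21, k23, k24, k25, k32, k33, k34, k38, k39, k30, k36, k41,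
      k42, k44, k46, k47, k49, k4A, k4C, k53, k54, k56, k57, k5D, k5E, pp, Pt.X, Pt.Y]
    constructor <;>
    repeat' first
      | exact Sm.const _
      | exact Sm.t
      | exact Sm.d _
      | exact Sm.ux _
      | exact Sm.uy _
      | apply Sm.add
      | apply Sm.sub
      | apply Sm.mul
      | apply Sm.neg
      | apply Sm.pow
  · show Sm2 (fun z => qq (k25 z.1 z.2) z.1)
    unfold Sm2
    simp only [qq, qc, qz, k0, kp, k11, k13, k20, k21, k23, k24, k25, k32, k33, k34, k38, k39, k30, k36, k41,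
      k42, k44, k46, k47, k49, k4A, k4C, k53, k54, k56, k57, k5D, k5E, pp, Pt.X, Pt.Y]
    constructor <;>
    repeat' first
      | exact Sm.const _
      | exact Sm.t
      | exact Sm.d _
      | exact Sm.ux _
      | exact Sm.uy _
      | apply Sm.add
      | apply Sm.sub
      | apply Sm.mul
      | apply Sm.neg
      | apply Sm.pow
  · show Sm2 (fun z => qq (k13 z.1 z.2) z.1)
    unfold Sm2
    simp only [qq, qc, qz, k0, kp, k11, k13, k20, k21, k23, k24, k25, k32, k33, k34, k38, k39, k30, k36, k41,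
      k42, k44, k46, k47, k49, k4A, k4C, k53, k54, k56, k57, k5D, k5E, pp, Pt.X, Pt.Y]
    constructor <;>
    repeat' first
      | exact Sm.const _
      | exact Sm.t
      | exact Sm.d _
      | exact Sm.ux _
      | exact Sm.uy _
      | apply Sm.add
      | apply Sm.sub
      | apply Sm.mul
      | apply Sm.neg
      | apply Sm.pow
  · show Sm2 (fun z => qq (k0 z.1) z.1)
    unfold Sm2
    simp only [qq, qc, qz, k0, kp, k11, k13, k20, k21, k23, k24, k25, k32, k33, k34, k38, k39, k30, k36, k41,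
      k42, k44, k46, k47, k49, k4A, k4C, k53, k54, k56, k57, k5D, k5E, pp, Pt.X, Pt.Y]
    constructor <;>
    repeat' first
      | exact Sm.const _
      | exact Sm.t
      | exact Sm.d _
      | exact Sm.ux _
      | exact Sm.uy _
      | apply Sm.add
      | apply Sm.sub
      | apply Sm.mul
      | apply Sm.neg
      | apply Sm.pow
  · show Sm2 (fun z => qq (kp z.1) z.1)
    unfold Sm2
    simp only [qq, qc, qz, k0, kp, k11, k13, k20, k21, k23, k24, k25, k32, k33, k34, k38, k39, k30, k36, k41,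
      k42, k44, k46, k47, k49, k4A, k4C, k53, k54, k56, k57, k5D, k5E, pp, Pt.X, Pt.Y]
    constructor <;>
    repeat' first
      | exact Sm.const _
      | exact Sm.t
      | exact Sm.d _
      | exact Sm.ux _
      | exact Sm.uy _
      | apply Sm.add
      | apply Sm.sub
      | apply Sm.mul
      | apply Sm.neg
      | apply Sm.pow
  · show Sm2 (fun z => qq (k11 z.1 z.2) z.1)
    unfold Sm2
    simp only [qq, qc, qz, k0, kp, k11, k13, k20, k21, k23, k24, k25, k32, k33, k34, k38, k39, k30, k36, k41,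
      k42, k44, k46, k47, k49, k4A, k4C, k53, k54, k56, k57, k5D, k5E, pp, Pt.X, Pt.Y]
    constructor <;>
    repeat' first
      | exact Sm.const _
      | exact Sm.t
      | exact Sm.d _
      | exact Sm.ux _
      | exact Sm.uy _
      | apply Sm.add
      | apply Sm.sub
      | apply Sm.mul
      | apply Sm.neg
      | apply Sm.pow

lemma W_sm_2 (i : Fin 6) : Sm2 (fun z => W z 2 i) := by
  fin_cases i
  · show Sm2 (fun z => qq (k32 z.1 z.2) z.1)
    unfold Sm2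
    simp only [qq, qc, qz, k0, kp, k11, k13, k20, k21, k23, k24, k25, k32, k33, k34, k38, k39, k30, k36, k41,
      k42, k44, k46, k47, k49, k4A, k4C, k53, k54, k56, k57, k5D, k5E, pp, Pt.X, Pt.Y]
    constructor <;>
    repeat' first
      | exact Sm.const _
      | exact Sm.t
      | exact Sm.d _
      | exact Sm.ux _
      | exact Sm.uy _
      | apply Sm.add
      | apply Sm.sub
      | apply Sm.mul
      | apply Sm.neg
      | apply Sm.pow
  · show Sm2 (fun z => qq (k33 z.1 z.2) z.1)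
    unfold Sm2
    simp only [qq, qc, qz, k0, kp, k11, k13, k20, k21, k23, k24, k25, k32, k33, k34, k38, k39, k30, k36, k41,
      k42, k44, k46, k47, k49, k4A, k4C, k53, k54, k56, k57, k5D, k5E, pp, Pt.X, Pt.Y]
    constructor <;>
    repeat' first
      | exact Sm.const _
      | exact Sm.t
      | exact Sm.d _
      | exact Sm.ux _
      | exact Sm.uy _
      | apply Sm.add
      | apply Sm.sub
      | apply Sm.mul
      | apply Sm.neg
      | apply Sm.pow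
  · show Sm2 (fun z => qq (k34 z.1 z.2) z.1)
    unfold Sm2
    simp only [qq, qc, qz, k0, kp, k11, k13, k20, k21, k23, k24, k25, k32, k33, k34, k38, k39, k30, k36, k41,
      k42, k44, k46, k47, k49, k4A, k4C, k53, k54, k56, k57, k5D, k5E, pp, Pt.X, Pt.Y]
    constructor <;>
    repeat' first
      | exact Sm.const _
      | exact Sm.t
      | exact Sm.d _
      | exact Sm.ux _
      | exact Sm.uy _
      | apply Sm.add
      | apply Sm.sub
      | apply Sm.mul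
      | apply Sm.neg
      | apply Sm.pow
  · show Sm2 (fun z => qq (k23 z.1 z.2) z.1)
    unfold Sm2
    simp only [qq, qc, qz, k0, kp, k11, k13, k20, k21, k23, k24, k25, k32, k33, k34, k38, k39, k30, k36, k41,
      k42, k44, k46, k47, k49, k4A, k4C, k53, k54, k56, k57, k5D, k5E, pp, Pt.X, Pt.Y]
    constructor <;>
    repeat' first
      | exact Sm.const _
      | exact Sm.t
      | exact Sm.d _
      | exact Sm.ux _
      | exact Sm.uy _
      | apply Sm.add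
      | apply Sm.sub
      | apply Sm.mul
      | apply Sm.neg
      | apply Sm.pow
  · show Sm2 (fun z => qq (k11 z.1 z.2) z.1)
    unfold Sm2
    simp only [qq, qc, qz, k0, kp, k11, k13, k20, k21, k23, k24, k25, k32, k33, k34, k38, k39, k30, k36, k41,
      k42, k44, k46, k47, k49, k4A, k4C, k53, k54, k56, k57, k5D, k5E, pp, Pt.X, Pt.Y]
    constructor <;>
    repeat' first
      | exact Sm.const _
      | exact Sm.t
      | exact Sm.d _
      | exact Sm.ux _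
      | exact Sm.uy _
      | apply Sm.add
      | apply Sm.sub
      | apply Sm.mul
      | apply Sm.neg
      | apply Sm.pow
  · show Sm2 (fun z => qq (k21 z.1 z.2) z.1)
    unfold Sm2
    simp only [qq, qc, qz, k0, kp, k11, k13, k20, k21, k23, k24, k25, k32, k33, k34, k38, k39, k30, k36, k41,
      k42, k44, k46, k47, k49, k4A, k4C, k53, k54, k56, k57, k5D, k5E, pp, Pt.X, Pt.Y]
    constructor <;>
    repeat' first
      | exact Sm.const _
      | exact Sm.t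
      | exact Sm.d _
      | exact Sm.ux _
      | exact Sm.uy _
      | apply Sm.add
      | apply Sm.sub
      | apply Sm.mul
      | apply Sm.neg
      | apply Sm.pow

lemma W_sm_3 (i : Fin 6) : Sm2 (fun z => W z 3 i) := by
  fin_cases i
  · show Sm2 (fun z => qq (k38 z.1 z.2) z.1)
    unfold Sm2
    simp only [qq, qc, qz, k0, kp, k11, k13, k20, k21, k23, k24, k25, k32, k33, k34, k38, k39, k30, k36, k41,
      k42, k44, k46, k47, k49, k4A, k4C, k53, k54, k56, k57, k5D, k5E, pp, Pt.X, Pt.Y]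
    constructor <;>
    repeat' first
      | exact Sm.const _
      | exact Sm.t
      | exact Sm.d _
      | exact Sm.ux _
      | exact Sm.uy _
      | apply Sm.add
      | apply Sm.sub
      | apply Sm.mul
      | apply Sm.neg
      | apply Sm.pow
  · show Sm2 (fun z => qq (k39 z.1 z.2) z.1)
    unfold Sm2
    simp only [qq, qc, qz, k0, kp, k11, k13, k20, k21, k23, k24, k25, k32, k33, k34, k38, k39, k30, k36, k41,
      k42, k44, k46, k47, k49, k4A, k4C, k53, k54, k56, k57, k5D, k5E, pp, Pt.X, Pt.Y]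
    constructor <;>
    repeat' first
      | exact Sm.const _
      | exact Sm.t
      | exact Sm.d _
      | exact Sm.ux _
      | exact Sm.uy _
      | apply Sm.add
      | apply Sm.sub
      | apply Sm.mul
      | apply Sm.neg
      | apply Sm.pow
  · show Sm2 (fun z => qz (k38 z.1 z.2) z.1)
    unfold Sm2
    simp only [qq, qc, qz, k0, kp, k11, k13, k20, k21, k23, k24, k25, k32, k33, k34, k38, k39, k30, k36, k41,
      k42, k44, k46, k47, k49, k4A, k4C, k53, k54, k56, k57, k5D, k5E, pp, Pt.X, Pt.Y]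
    constructor <;>
    repeat' first
      | exact Sm.const _
      | exact Sm.t
      | exact Sm.d _
      | exact Sm.ux _
      | exact Sm.uy _
      | apply Sm.add
      | apply Sm.sub
      | apply Sm.mul
      | apply Sm.neg
      | apply Sm.pow
  · show Sm2 (fun z => qz (k25 z.1 z.2) z.1)
    unfold Sm2
    simp only [qq, qc, qz, k0, kp, k11, k13, k20, k21, k23, k24, k25, k32, k33, k34, k38, k39, k30, k36, k41,
      k42, k44, k46, k47, k49, k4A, k4C, k53, k54, k56, k57, k5D, k5E, pp, Pt.X, Pt.Y]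
    constructor <;>
    repeat' first
      | exact Sm.const _
      | exact Sm.t
      | exact Sm.d _
      | exact Sm.ux _
      | exact Sm.uy _
      | apply Sm.add
      | apply Sm.sub
      | apply Sm.mul
      | apply Sm.neg
      | apply Sm.pow
  · show Sm2 (fun z => qq (k13 z.1 z.2) z.1)
    unfold Sm2
    simp only [qq, qc, qz, k0, kp, k11, k13, k20, k21, k23, k24, k25, k32, k33, k34, k38, k39, k30, k36, k41,
      k42, k44, k46, k47, k49, k4A, k4C, k53, k54, k56, k57, k5D, k5E, pp, Pt.X, Pt.Y]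
    constructor <;>
    repeat' first
      | exact Sm.const _
      | exact Sm.t
      | exact Sm.d _
      | exact Sm.ux _
      | exact Sm.uy _
      | apply Sm.add
      | apply Sm.sub
      | apply Sm.mul
      | apply Sm.neg
      | apply Sm.pow
  · show Sm2 (fun z => qq (k25 z.1 z.2) z.1)
    unfold Sm2
    simp only [qq, qc, qz, k0, kp, k11, k13, k20, k21, k23, k24, k25, k32, k33, k34, k38, k39, k30, k36, k41,
      k42, k44, k46, k47, k49, k4A, k4C, k53, k54, k56, k57, k5D, k5E, pp, Pt.X, Pt.Y]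
    constructor <;>
    repeat' first
      | exact Sm.const _
      | exact Sm.t
      | exact Sm.d _
      | exact Sm.ux _
      | exact Sm.uy _
      | apply Sm.add
      | apply Sm.sub
      | apply Sm.mul
      | apply Sm.neg
      | apply Sm.pow

lemma W_sm_4 (i : Fin 6) : Sm2 (fun z => W z 4 i) := by
  fin_cases i
  · show Sm2 (fun z => qq (k41 z.1) z.1)
    unfold Sm2
    simp only [qq, qc, qz, k0, kp, k11, k13, k20, k21, k23, k24, k25, k32, k33, k34, k38, k39, k30, k36, k41,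
      k42, k44, k46, k47, k49, k4A, k4C, k53, k54, k56, k57, k5D, k5E, pp, Pt.X, Pt.Y]
    constructor <;>
    repeat' first
      | exact Sm.const _
      | exact Sm.t
      | exact Sm.d _
      | exact Sm.ux _
      | exact Sm.uy _
      | apply Sm.add
      | apply Sm.sub
      | apply Sm.mul
      | apply Sm.neg
      | apply Sm.pow
  · show Sm2 (fun z => qq (k42 z.1) z.1)
    unfold Sm2
    simp only [qq, qc, qz, k0, kp, k11, k13, k20, k21, k23, k24, k25, k32, k33, k34, k38, k39, k30, k36, k41,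
      k42, k44, k46, k47, k49, k4A, k4C, k53, k54, k56, k57, k5D, k5E, pp, Pt.X, Pt.Y]
    constructor <;>
    repeat' first
      | exact Sm.const _
      | exact Sm.t
      | exact Sm.d _
      | exact Sm.ux _
      | exact Sm.uy _
      | apply Sm.add
      | apply Sm.sub
      | apply Sm.mul
      | apply Sm.neg
      | apply Sm.pow
  · show Sm2 (fun z => qq (k32 z.1 z.2) z.1)
    unfold Sm2
    simp only [qq, qc, qz, k0, kp, k11, k13, k20, k21, k23, k24, k25, k32, k33, k34, k38, k39, k30, k36, k41,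
      k42, k44, k46, k47, k49, k4A, k4C, k53, k54, k56, k57, k5D, k5E, pp, Pt.X, Pt.Y]
    constructor <;>
    repeat' first
      | exact Sm.const _
      | exact Sm.t
      | exact Sm.d _
      | exact Sm.ux _
      | exact Sm.uy _
      | apply Sm.add
      | apply Sm.sub
      | apply Sm.mul
      | apply Sm.neg
      | apply Sm.pow
  · show Sm2 (fun z => qq (k21 z.1 z.2) z.1)
    unfold Sm2
    simp only [qq, qc, qz, k0, kp, k11, k13, k20, k21, k23, k24, k25, k32, k33, k34, k38, k39, k30, k36, k41,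
      k42, k44, k46, k47, k49, k4A, k4C, k53, k54, k56, k57, k5D, k5E, pp, Pt.X, Pt.Y]
    constructor <;>
    repeat' first
      | exact Sm.const _
      | exact Sm.t
      | exact Sm.d _
      | exact Sm.ux _
      | exact Sm.uy _
      | apply Sm.add
      | apply Sm.sub
      | apply Sm.mul
      | apply Sm.neg
      | apply Sm.pow
  · show Sm2 (fun z => qq (k20 z.1 z.2) z.1)
    unfold Sm2
    simp only [qq, qc, qz, k0, kp, k11, k13, k20, k21, k23, k24, k25, k32, k33, k34, k38, k39, k30, k36, k41,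
      k42, k44, k46, k47, k49, k4A, k4C, k53, k54, k56, k57, k5D, k5E, pp, Pt.X, Pt.Y]
    constructor <;>
    repeat' first
      | exact Sm.const _
      | exact Sm.t
      | exact Sm.d _
      | exact Sm.ux _
      | exact Sm.uy _
      | apply Sm.add
      | apply Sm.sub
      | apply Sm.mul
      | apply Sm.neg
      | apply Sm.pow
  · show Sm2 (fun z => qq (k30 z.1) z.1)
    unfold Sm2
    simp only [qq, qc, qz, k0, kp, k11, k13, k20, k21, k23, k24, k25, k32, k33, k34, k38, k39, k30, k36, k41,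
      k42, k44, k46, k47, k49, k4A, k4C, k53, k54, k56, k57, k5D, k5E, pp, Pt.X, Pt.Y]
    constructor <;>
    repeat' first
      | exact Sm.const _
      | exact Sm.t
      | exact Sm.d _
      | exact Sm.ux _
      | exact Sm.uy _
      | apply Sm.add
      | apply Sm.sub
      | apply Sm.mul
      | apply Sm.neg
      | apply Sm.pow

lemma W_sm_5 (i : Fin 6) : Sm2 (fun z => W z 5 i) := by
  fin_cases i
  · show Sm2 (fun z => qq (k46 z.1) z.1)
    unfold Sm2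
    simp only [qq, qc, qz, k0, kp, k11, k13, k20, k21, k23, k24, k25, k32, k33, k34, k38, k39, k30, k36, k41,
      k42, k44, k46, k47, k49, k4A, k4C, k53, k54, k56, k57, k5D, k5E, pp, Pt.X, Pt.Y]
    constructor <;>
    repeat' first
      | exact Sm.const _
      | exact Sm.t
      | exact Sm.d _
      | exact Sm.ux _
      | exact Sm.uy _
      | apply Sm.add
      | apply Sm.sub
      | apply Sm.mul
      | apply Sm.neg
      | apply Sm.pow
  · show Sm2 (fun z => qq (k47 z.1) z.1)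
    unfold Sm2
    simp only [qq, qc, qz, k0, kp, k11, k13, k20, k21, k23, k24, k25, k32, k33, k34, k38, k39, k30, k36, k41,
      k42, k44, k46, k47, k49, k4A, k4C, k53, k54, k56, k57, k5D, k5E, pp, Pt.X, Pt.Y]
    constructor <;>
    repeat' first
      | exact Sm.const _
      | exact Sm.t
      | exact Sm.d _
      | exact Sm.ux _
      | exact Sm.uy _
      | apply Sm.add
      | apply Sm.sub
      | apply Sm.mul
      | apply Sm.neg
      | apply Sm.pow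
  · show Sm2 (fun z => qq (k36 z.1) z.1)
    unfold Sm2
    simp only [qq, qc, qz, k0, kp, k11, k13, k20, k21, k23, k24, k25, k32, k33, k34, k38, k39, k30, k36, k41,
      k42, k44, k46, k47, k49, k4A, k4C, k53, k54, k56, k57, k5D, k5E, pp, Pt.X, Pt.Y]
    constructor <;>
    repeat' first
      | exact Sm.const _
      | exact Sm.t
      | exact Sm.d _
      | exact Sm.ux _
      | exact Sm.uy _
      | apply Sm.add
      | apply Sm.sub
      | apply Sm.mul
      | apply Sm.neg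
      | apply Sm.pow
  · show Sm2 (fun z => qq (k24 z.1 z.2) z.1)
    unfold Sm2
    simp only [qq, qc, qz, k0, kp, k11, k13, k20, k21, k23, k24, k25, k32, k33, k34, k38, k39, k30, k36, k41,
      k42, k44, k46, k47, k49, k4A, k4C, k53, k54, k56, k57, k5D, k5E, pp, Pt.X, Pt.Y]
    constructor <;>
    repeat' first
      | exact Sm.const _
      | exact Sm.t
      | exact Sm.d _
      | exact Sm.ux _
      | exact Sm.uy _
      | apply Sm.add
      | apply Sm.sub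
      | apply Sm.mul
      | apply Sm.neg
      | apply Sm.pow
  · show Sm2 (fun z => qq (k23 z.1 z.2) z.1)
    unfold Sm2
    simp only [qq, qc, qz, k0, kp, k11, k13, k20, k21, k23, k24, k25, k32, k33, k34, k38, k39, k30, k36, k41,
      k42, k44, k46, k47, k49, k4A, k4C, k53, k54, k56, k57, k5D, k5E, pp, Pt.X, Pt.Y]
    constructor <;>
    repeat' first
      | exact Sm.const _
      | exact Sm.t
      | exact Sm.d _
      | exact Sm.ux _
      | exact Sm.uy _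
      | apply Sm.add
      | apply Sm.sub
      | apply Sm.mul
      | apply Sm.neg
      | apply Sm.pow
  · show Sm2 (fun z => qq (k34 z.1 z.2) z.1)
    unfold Sm2
    simp only [qq, qc, qz, k0, kp, k11, k13, k20, k21, k23, k24, k25, k32, k33, k34, k38, k39, k30, k36, k41,
      k42, k44, k46, k47, k49, k4A, k4C, k53, k54, k56, k57, k5D, k5E, pp, Pt.X, Pt.Y]
    constructor <;>
    repeat' first
      | exact Sm.const _
      | exact Sm.t
      | exact Sm.d _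
      | exact Sm.ux _
      | exact Sm.uy _
      | apply Sm.add
      | apply Sm.sub
      | apply Sm.mul
      | apply Sm.neg
      | apply Sm.pow

lemma W_sm_6 (i : Fin 6) : Sm2 (fun z => W z 6 i) := by
  fin_cases i
  · show Sm2 (fun z => qq (k49 z.1) z.1)
    unfold Sm2
    simp only [qq, qc, qz, k0, kp, k11, k13, k20, k21, k23, k24, k25, k32, k33, k34, k38, k39, k30, k36, k41,
      k42, k44, k46, k47, k49, k4A, k4C, k53, k54, k56, k57, k5D, k5E, pp, Pt.X, Pt.Y]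
    constructor <;>
    repeat' first
      | exact Sm.const _
      | exact Sm.t
      | exact Sm.d _
      | exact Sm.ux _
      | exact Sm.uy _
      | apply Sm.add
      | apply Sm.sub
      | apply Sm.mul
      | apply Sm.neg
      | apply Sm.pow
  · show Sm2 (fun z => qq (k4A z.1) z.1)
    unfold Sm2
    simp only [qq, qc, qz, k0, kp, k11, k13, k20, k21, k23, k24, k25, k32, k33, k34, k38, k39, k30, k36, k41,
      k42, k44, k46, k47, k49, k4A, k4C, k53, k54, k56, k57, k5D, k5E, pp, Pt.X, Pt.Y]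
    constructor <;>
    repeat' first
      | exact Sm.const _
      | exact Sm.t
      | exact Sm.d _
      | exact Sm.ux _
      | exact Sm.uy _
      | apply Sm.add
      | apply Sm.sub
      | apply Sm.mul
      | apply Sm.neg
      | apply Sm.pow
  · show Sm2 (fun z => qq (k38 z.1 z.2) z.1)
    unfold Sm2
    simp only [qq, qc, qz, k0, kp, k11, k13, k20, k21, k23, k24, k25, k32, k33, k34, k38, k39, k30, k36, k41,
      k42, k44, k46, k47, k49, k4A, k4C, k53, k54, k56, k57, k5D, k5E, pp, Pt.X, Pt.Y]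
    constructor <;>
    repeat' first
      | exact Sm.const _
      | exact Sm.t
      | exact Sm.d _
      | exact Sm.ux _
      | exact Sm.uy _
      | apply Sm.add
      | apply Sm.sub
      | apply Sm.mul
      | apply Sm.neg
      | apply Sm.pow
  · show Sm2 (fun z => qq (k25 z.1 z.2) z.1)
    unfold Sm2
    simp only [qq, qc, qz, k0, kp, k11, k13, k20, k21, k23, k24, k25, k32, k33, k34, k38, k39, k30, k36, k41,
      k42, k44, k46, k47, k49, k4A, k4C, k53, k54, k56, k57, k5D, k5E, pp, Pt.X, Pt.Y]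
    constructor <;>
    repeat' first
      | exact Sm.const _
      | exact Sm.t
      | exact Sm.d _
      | exact Sm.ux _
      | exact Sm.uy _
      | apply Sm.add
      | apply Sm.sub
      | apply Sm.mul
      | apply Sm.neg
      | apply Sm.pow
  · show Sm2 (fun z => qq (k24 z.1 z.2) z.1)
    unfold Sm2
    simp only [qq, qc, qz, k0, kp, k11, k13, k20, k21, k23, k24, k25, k32, k33, k34, k38, k39, k30, k36, k41,
      k42, k44, k46, k47, k49, k4A, k4C, k53, k54, k56, k57, k5D, k5E, pp, Pt.X, Pt.Y]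
    constructor <;>
    repeat' first
      | exact Sm.const _
      | exact Sm.t
      | exact Sm.d _
      | exact Sm.ux _
      | exact Sm.uy _
      | apply Sm.add
      | apply Sm.sub
      | apply Sm.mul
      | apply Sm.neg
      | apply Sm.pow
  · show Sm2 (fun z => qq (k36 z.1) z.1)
    unfold Sm2
    simp only [qq, qc, qz, k0, kp, k11, k13, k20, k21, k23, k24, k25, k32, k33, k34, k38, k39, k30, k36, k41,
      k42, k44, k46, k47, k49, k4A, k4C, k53, k54, k56, k57, k5D, k5E, pp, Pt.X, Pt.Y]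
    constructor <;>
    repeat' first
      | exact Sm.const _
      | exact Sm.t
      | exact Sm.d _
      | exact Sm.ux _
      | exact Sm.uy _
      | apply Sm.add
      | apply Sm.sub
      | apply Sm.mul
      | apply Sm.neg
      | apply Sm.pow

lemma W_sm_7 (i : Fin 6) : Sm2 (fun z => W z 7 i) := by
  fin_cases i
  · show Sm2 (fun z => qq (k53 z.1) z.1)
    unfold Sm2
    simp only [qq, qc, qz, k0, kp, k11, k13, k20, k21, k23, k24, k25, k32, k33, k34, k38, k39, k30, k36, k41,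
      k42, k44, k46, k47, k49, k4A, k4C, k53, k54, k56, k57, k5D, k5E, pp, Pt.X, Pt.Y]
    constructor <;>
    repeat' first
      | exact Sm.const _
      | exact Sm.t
      | exact Sm.d _
      | exact Sm.ux _
      | exact Sm.uy _
      | apply Sm.add
      | apply Sm.sub
      | apply Sm.mul
      | apply Sm.neg
      | apply Sm.pow
  · show Sm2 (fun z => qq (k54 z.1) z.1)
    unfold Sm2
    simp only [qq, qc, qz, k0, kp, k11, k13, k20, k21, k23, k24, k25, k32, k33, k34, k38, k39, k30, k36, k41,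
      k42, k44, k46, k47, k49, k4A, k4C, k53, k54, k56, k57, k5D, k5E, pp, Pt.X, Pt.Y]
    constructor <;>
    repeat' first
      | exact Sm.const _
      | exact Sm.t
      | exact Sm.d _
      | exact Sm.ux _
      | exact Sm.uy _
      | apply Sm.add
      | apply Sm.sub
      | apply Sm.mul
      | apply Sm.neg
      | apply Sm.pow
  · show Sm2 (fun z => qq (k44 z.1) z.1)
    unfold Sm2
    simp only [qq, qc, qz, k0, kp, k11, k13, k20, k21, k23, k24, k25, k32, k33, k34, k38, k39, k30, k36, k41,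
      k42, k44, k46, k47, k49, k4A, k4C, k53, k54, k56, k57, k5D, k5E, pp, Pt.X, Pt.Y]
    constructor <;>
    repeat' first
      | exact Sm.const _
      | exact Sm.t
      | exact Sm.d _
      | exact Sm.ux _
      | exact Sm.uy _
      | apply Sm.add
      | apply Sm.sub
      | apply Sm.mul
      | apply Sm.neg
      | apply Sm.pow
  · show Sm2 (fun z => qq (k33 z.1 z.2) z.1)
    unfold Sm2
    simp only [qq, qc, qz, k0, kp, k11, k13, k20, k21, k23, k24, k25, k32, k33, k34, k38, k39, k30, k36, k41,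
      k42, k44, k46, k47, k49, k4A, k4C, k53, k54, k56, k57, k5D, k5E, pp, Pt.X, Pt.Y]
    constructor <;>
    repeat' first
      | exact Sm.const _
      | exact Sm.t
      | exact Sm.d _
      | exact Sm.ux _
      | exact Sm.uy _
      | apply Sm.add
      | apply Sm.sub
      | apply Sm.mul
      | apply Sm.neg
      | apply Sm.pow
  · show Sm2 (fun z => qq (k32 z.1 z.2) z.1)
    unfold Sm2
    simp only [qq, qc, qz, k0, kp, k11, k13, k20, k21, k23, k24, k25, k32, k33, k34, k38, k39, k30, k36, k41,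
      k42, k44, k46, k47, k49, k4A, k4C, k53, k54, k56, k57, k5D, k5E, pp, Pt.X, Pt.Y]
    constructor <;>
    repeat' first
      | exact Sm.const _
      | exact Sm.t
      | exact Sm.d _
      | exact Sm.ux _
      | exact Sm.uy _
      | apply Sm.add
      | apply Sm.sub
      | apply Sm.mul
      | apply Sm.neg
      | apply Sm.pow
  · show Sm2 (fun z => qq (k42 z.1) z.1)
    unfold Sm2
    simp only [qq, qc, qz, k0, kp, k11, k13, k20, k21, k23, k24, k25, k32, k33, k34, k38, k39, k30, k36, k41,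
      k42, k44, k46, k47, k49, k4A, k4C, k53, k54, k56, k57, k5D, k5E, pp, Pt.X, Pt.Y]
    constructor <;>
    repeat' first
      | exact Sm.const _
      | exact Sm.t
      | exact Sm.d _
      | exact Sm.ux _
      | exact Sm.uy _
      | apply Sm.add
      | apply Sm.sub
      | apply Sm.mul
      | apply Sm.neg
      | apply Sm.pow

lemma W_sm_8 (i : Fin 6) : Sm2 (fun z => W z 8 i) := by
  fin_cases i
  · show Sm2 (fun z => qq (k56 z.1) z.1)
    unfold Sm2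
    simp only [qq, qc, qz, k0, kp, k11, k13, k20, k21, k23, k24, k25, k32, k33, k34, k38, k39, k30, k36, k41,
      k42, k44, k46, k47, k49, k4A, k4C, k53, k54, k56, k57, k5D, k5E, pp, Pt.X, Pt.Y]
    constructor <;>
    repeat' first
      | exact Sm.const _
      | exact Sm.t
      | exact Sm.d _
      | exact Sm.ux _
      | exact Sm.uy _
      | apply Sm.add
      | apply Sm.sub
      | apply Sm.mul
      | apply Sm.neg
      | apply Sm.pow
  · show Sm2 (fun z => qq (k57 z.1) z.1)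
    unfold Sm2
    simp only [qq, qc, qz, k0, kp, k11, k13, k20, k21, k23, k24, k25, k32, k33, k34, k38, k39, k30, k36, k41,
      k42, k44, k46, k47, k49, k4A, k4C, k53, k54, k56, k57, k5D, k5E, pp, Pt.X, Pt.Y]
    constructor <;>
    repeat' first
      | exact Sm.const _
      | exact Sm.t
      | exact Sm.d _
      | exact Sm.ux _
      | exact Sm.uy _
      | apply Sm.add
      | apply Sm.sub
      | apply Sm.mul
      | apply Sm.neg
      | apply Sm.pow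
  · show Sm2 (fun z => qq (k46 z.1) z.1)
    unfold Sm2
    simp only [qq, qc, qz, k0, kp, k11, k13, k20, k21, k23, k24, k25, k32, k33, k34, k38, k39, k30, k36, k41,
      k42, k44, k46, k47, k49, k4A, k4C, k53, k54, k56, k57, k5D, k5E, pp, Pt.X, Pt.Y]
    constructor <;>
    repeat' first
      | exact Sm.const _
      | exact Sm.t
      | exact Sm.d _
      | exact Sm.ux _
      | exact Sm.uy _
      | apply Sm.add
      | apply Sm.sub
      | apply Sm.mul
      | apply Sm.neg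
      | apply Sm.pow
  · show Sm2 (fun z => qq (k34 z.1 z.2) z.1)
    unfold Sm2
    simp only [qq, qc, qz, k0, kp, k11, k13, k20, k21, k23, k24, k25, k32, k33, k34, k38, k39, k30, k36, k41,
      k42, k44, k46, k47, k49, k4A, k4C, k53, k54, k56, k57, k5D, k5E, pp, Pt.X, Pt.Y]
    constructor <;>
    repeat' first
      | exact Sm.const _
      | exact Sm.t
      | exact Sm.d _
      | exact Sm.ux _
      | exact Sm.uy _
      | apply Sm.add
      | apply Sm.sub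
      | apply Sm.mul
      | apply Sm.neg
      | apply Sm.pow
  · show Sm2 (fun z => qq (k33 z.1 z.2) z.1)
    unfold Sm2
    simp only [qq, qc, qz, k0, kp, k11, k13, k20, k21, k23, k24, k25, k32, k33, k34, k38, k39, k30, k36, k41,
      k42, k44, k46, k47, k49, k4A, k4C, k53, k54, k56, k57, k5D, k5E, pp, Pt.X, Pt.Y]
    constructor <;>
    repeat' first
      | exact Sm.const _
      | exact Sm.t
      | exact Sm.d _
      | exact Sm.ux _
      | exact Sm.uy _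
      | apply Sm.add
      | apply Sm.sub
      | apply Sm.mul
      | apply Sm.neg
      | apply Sm.pow
  · show Sm2 (fun z => qq (k44 z.1) z.1)
    unfold Sm2
    simp only [qq, qc, qz, k0, kp, k11, k13, k20, k21, k23, k24, k25, k32, k33, k34, k38, k39, k30, k36, k41,
      k42, k44, k46, k47, k49, k4A, k4C, k53, k54, k56, k57, k5D, k5E, pp, Pt.X, Pt.Y]
    constructor <;>
    repeat' first
      | exact Sm.const _
      | exact Sm.t
      | exact Sm.d _
      | exact Sm.ux _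
      | exact Sm.uy _
      | apply Sm.add
      | apply Sm.sub
      | apply Sm.mul
      | apply Sm.neg
      | apply Sm.pow

lemma W_sm_9 (i : Fin 6) : Sm2 (fun z => W z 9 i) := by
  fin_cases i
  · show Sm2 (fun z => qq (k5D z.1) z.1)
    unfold Sm2
    simp only [qq, qc, qz, k0, kp, k11, k13, k20, k21, k23, k24, k25, k32, k33, k34, k38, k39, k30, k36, k41,
      k42, k44, k46, k47, k49, k4A, k4C, k53, k54, k56, k57, k5D, k5E, pp, Pt.X, Pt.Y]
    constructor <;>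
    repeat' first
      | exact Sm.const _
      | exact Sm.t
      | exact Sm.d _
      | exact Sm.ux _
      | exact Sm.uy _
      | apply Sm.add
      | apply Sm.sub
      | apply Sm.mul
      | apply Sm.neg
      | apply Sm.pow
  · show Sm2 (fun z => qq (k5E z.1) z.1)
    unfold Sm2
    simp only [qq, qc, qz, k0, kp, k11, k13, k20, k21, k23, k24, k25, k32, k33, k34, k38, k39, k30, k36, k41,
      k42, k44, k46, k47, k49, k4A, k4C, k53, k54, k56, k57, k5D, k5E, pp, Pt.X, Pt.Y]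
    constructor <;>
    repeat' first
      | exact Sm.const _
      | exact Sm.t
      | exact Sm.d _
      | exact Sm.ux _
      | exact Sm.uy _
      | apply Sm.add
      | apply Sm.sub
      | apply Sm.mul
      | apply Sm.neg
      | apply Sm.pow
  · show Sm2 (fun z => qq (k4C z.1) z.1)
    unfold Sm2
    simp only [qq, qc, qz, k0, kp, k11, k13, k20, k21, k23, k24, k25, k32, k33, k34, k38, k39, k30, k36, k41,
      k42, k44, k46, k47, k49, k4A, k4C, k53, k54, k56, k57, k5D, k5E, pp, Pt.X, Pt.Y]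
    constructor <;>
    repeat' first
      | exact Sm.const _
      | exact Sm.t
      | exact Sm.d _
      | exact Sm.ux _
      | exact Sm.uy _
      | apply Sm.add
      | apply Sm.sub
      | apply Sm.mul
      | apply Sm.neg
      | apply Sm.pow
  · show Sm2 (fun z => qq (k39 z.1 z.2) z.1)
    unfold Sm2
    simp only [qq, qc, qz, k0, kp, k11, k13, k20, k21, k23, k24, k25, k32, k33, k34, k38, k39, k30, k36, k41,
      k42, k44, k46, k47, k49, k4A, k4C, k53, k54, k56, k57, k5D, k5E, pp, Pt.X, Pt.Y]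
    constructor <;>
    repeat' first
      | exact Sm.const _
      | exact Sm.t
      | exact Sm.d _
      | exact Sm.ux _
      | exact Sm.uy _
      | apply Sm.add
      | apply Sm.sub
      | apply Sm.mul
      | apply Sm.neg
      | apply Sm.pow
  · show Sm2 (fun z => qq (k38 z.1 z.2) z.1)
    unfold Sm2
    simp only [qq, qc, qz, k0, kp, k11, k13, k20, k21, k23, k24, k25, k32, k33, k34, k38, k39, k30, k36, k41,
      k42, k44, k46, k47, k49, k4A, k4C, k53, k54, k56, k57, k5D, k5E, pp, Pt.X, Pt.Y]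
    constructor <;>
    repeat' first
      | exact Sm.const _
      | exact Sm.t
      | exact Sm.d _
      | exact Sm.ux _
      | exact Sm.uy _
      | apply Sm.add
      | apply Sm.sub
      | apply Sm.mul
      | apply Sm.neg
      | apply Sm.pow
  · show Sm2 (fun z => qq (k4A z.1) z.1)
    unfold Sm2
    simp only [qq, qc, qz, k0, kp, k11, k13, k20, k21, k23, k24, k25, k32, k33, k34, k38, k39, k30, k36, k41,
      k42, k44, k46, k47, k49, k4A, k4C, k53, k54, k56, k57, k5D, k5E, pp, Pt.X, Pt.Y]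
    constructor <;>
    repeat' first
      | exact Sm.const _
      | exact Sm.t
      | exact Sm.d _
      | exact Sm.ux _
      | exact Sm.uy _
      | apply Sm.add
      | apply Sm.sub
      | apply Sm.mul
      | apply Sm.neg
      | apply Sm.pow

lemma W_sm (t : Fin 10) (i : Fin 6) : Sm2 (fun z => W z t i) := by
  fin_cases t
  · exact W_sm_0 i
  · exact W_sm_1 i
  · exact W_sm_2 i
  · exact W_sm_3 i
  · exact W_sm_4 i
  · exact W_sm_5 i
  · exact W_sm_6 i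
  · exact W_sm_7 i
  · exact W_sm_8 i
  · exact W_sm_9 i

lemma W_z0_0 (i : Fin 6) : W z0 0 i = (((Wi 0 i).1 : ℝ), ((Wi 0 i).2 : ℝ)) := by
  fin_cases i
  · show (fun z : ℝ × D => qc (k21 z.1 z.2) z.1) z0 = ((((2, -2) : ℤ × ℤ).1 : ℝ), (((2, -2) : ℤ × ℤ).2 : ℝ))
    simp only [qq, qc, qz, k0, kp, k11, k13, k20, k21, k23, k24, k25, k32, k33, k34, k38, k39, k30, k36, k41,
      k42, k44, k46, k47, k49, k4A, k4C, k53, k54, k56, k57, k5D, k5E, pp, Pt.X, Pt.Y, z0, z2, ux_0, uy_0]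
    norm_num
  · show (fun z : ℝ × D => qq (k20 z.1 z.2) z.1) z0 = ((((2, 0) : ℤ × ℤ).1 : ℝ), (((2, 0) : ℤ × ℤ).2 : ℝ))
    simp only [qq, qc, qz, k0, kp, k11, k13, k20, k21, k23, k24, k25, k32, k33, k34, k38, k39, k30, k36, k41,
      k42, k44, k46, k47, k49, k4A, k4C, k53, k54, k56, k57, k5D, k5E, pp, Pt.X, Pt.Y, z0, z2, ux_0, uy_0]
    norm_num
  · show (fun z : ℝ × D => qq (k21 z.1 z.2) z.1) z0 = ((((2, 2) : ℤ × ℤ).1 : ℝ), (((2, 2) : ℤ × ℤ).2 : ℝ))
    simp only [qq, qc, qz, k0, kp, k11, k13, k20, k21, k23, k24, k25, k32, k33, k34, k38, k39, k30, k36, k41,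
      k42, k44, k46, k47, k49, k4A, k4C, k53, k54, k56, k57, k5D, k5E, pp, Pt.X, Pt.Y, z0, z2, ux_0, uy_0]
    norm_num
  · show (fun z : ℝ × D => qq (k11 z.1 z.2) z.1) z0 = ((((1, 2) : ℤ × ℤ).1 : ℝ), (((1, 2) : ℤ × ℤ).2 : ℝ))
    simp only [qq, qc, qz, k0, kp, k11, k13, k20, k21, k23, k24, k25, k32, k33, k34, k38, k39, k30, k36, k41,
      k42, k44, k46, k47, k49, k4A, k4C, k53, k54, k56, k57, k5D, k5E, pp, Pt.X, Pt.Y, z0, z2, ux_0, uy_0]
    norm_num
  · show (fun z : ℝ × D => qq (kp z.1) z.1) z0 = ((((0, 0) : ℤ × ℤ).1 : ℝ), (((0, 0) : ℤ × ℤ).2 : ℝ))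
    simp only [qq, qc, qz, k0, kp, k11, k13, k20, k21, k23, k24, k25, k32, k33, k34, k38, k39, k30, k36, k41,
      k42, k44, k46, k47, k49, k4A, k4C, k53, k54, k56, k57, k5D, k5E, pp, Pt.X, Pt.Y, z0, z2, ux_0, uy_0]
    norm_num
  · show (fun z : ℝ × D => qc (k11 z.1 z.2) z.1) z0 = ((((1, -2) : ℤ × ℤ).1 : ℝ), (((1, -2) : ℤ × ℤ).2 : ℝ))
    simp only [qq, qc, qz, k0, kp, k11, k13, k20, k21, k23, k24, k25, k32, k33, k34, k38, k39, k30, k36, k41,
      k42, k44, k46, k47, k49, k4A, k4C, k53, k54, k56, k57, k5D, k5E, pp, Pt.X, Pt.Y, z0, z2, ux_0, uy_0]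
    norm_num

lemma W_z0_1 (i : Fin 6) : W z0 1 i = (((Wi 1 i).1 : ℝ), ((Wi 1 i).2 : ℝ)) := by
  fin_cases i
  · show (fun z : ℝ × D => qq (k23 z.1 z.2) z.1) z0 = ((((2, 6) : ℤ × ℤ).1 : ℝ), (((2, 6) : ℤ × ℤ).2 : ℝ))
    simp only [qq, qc, qz, k0, kp, k11, k13, k20, k21, k23, k24, k25, k32, k33, k34, k38, k39, k30, k36, k41,
      k42, k44, k46, k47, k49, k4A, k4C, k53, k54, k56, k57, k5D, k5E, pp, Pt.X, Pt.Y, z0, z2, ux_0, uy_0]
    norm_num
  · show (fun z : ℝ × D => qq (k25 z.1 z.2) z.1) z0 = ((((2, 10) : ℤ × ℤ).1 : ℝ), (((2, 10) : ℤ × ℤ).2 : ℝ))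
    simp only [qq, qc, qz, k0, kp, k11, k13, k20, k21, k23, k24, k25, k32, k33, k34, k38, k39, k30, k36, k41,
      k42, k44, k46, k47, k49, k4A, k4C, k53, k54, k56, k57, k5D, k5E, pp, Pt.X, Pt.Y, z0, z2, ux_0, uy_0]
    norm_num
  · show (fun z : ℝ × D => qq (k13 z.1 z.2) z.1) z0 = ((((1, 6) : ℤ × ℤ).1 : ℝ), (((1, 6) : ℤ × ℤ).2 : ℝ))
    simp only [qq, qc, qz, k0, kp, k11, k13, k20, k21, k23, k24, k25, k32, k33, k34, k38, k39, k30, k36, k41,
      k42, k44, k46, k47, k49, k4A, k4C, k53, k54, k56, k57, k5D, k5E, pp, Pt.X, Pt.Y, z0, z2, ux_0, uy_0]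
    norm_num
  · show (fun z : ℝ × D => qq (k0 z.1) z.1) z0 = ((((0, 0) : ℤ × ℤ).1 : ℝ), (((0, 0) : ℤ × ℤ).2 : ℝ))
    simp only [qq, qc, qz, k0, kp, k11, k13, k20, k21, k23, k24, k25, k32, k33, k34, k38, k39, k30, k36, k41,
      k42, k44, k46, k47, k49, k4A, k4C, k53, k54, k56, k57, k5D, k5E, pp, Pt.X, Pt.Y, z0, z2, ux_0, uy_0]
    norm_num
  · show (fun z : ℝ × D => qq (kp z.1) z.1) z0 = ((((0, 0) : ℤ × ℤ).1 : ℝ), (((0, 0) : ℤ × ℤ).2 : ℝ))
    simp only [qq, qc, qz, k0, kp, k11, k13, k20, k21, k23, k24, k25, k32, k33, k34, k38, k39, k30, k36, k41,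
      k42, k44, k46, k47, k49, k4A, k4C, k53, k54, k56, k57, k5D, k5E, pp, Pt.X, Pt.Y, z0, z2, ux_0, uy_0]
    norm_num
  · show (fun z : ℝ × D => qq (k11 z.1 z.2) z.1) z0 = ((((1, 2) : ℤ × ℤ).1 : ℝ), (((1, 2) : ℤ × ℤ).2 : ℝ))
    simp only [qq, qc, qz, k0, kp, k11, k13, k20, k21, k23, k24, k25, k32, k33, k34, k38, k39, k30, k36, k41,
      k42, k44, k46, k47, k49, k4A, k4C, k53, k54, k56, k57, k5D, k5E, pp, Pt.X, Pt.Y, z0, z2, ux_0, uy_0]
    norm_num

lemma W_z0_2 (i : Fin 6) : W z0 2 i = (((Wi 2 i).1 : ℝ), ((Wi 2 i).2 : ℝ)) := by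
  fin_cases i
  · show (fun z : ℝ × D => qq (k32 z.1 z.2) z.1) z0 = ((((3, 4) : ℤ × ℤ).1 : ℝ), (((3, 4) : ℤ × ℤ).2 : ℝ))
    simp only [qq, qc, qz, k0, kp, k11, k13, k20, k21, k23, k24, k25, k32, k33, k34, k38, k39, k30, k36, k41,
      k42, k44, k46, k47, k49, k4A, k4C, k53, k54, k56, k57, k5D, k5E, pp, Pt.X, Pt.Y, z0, z2, ux_0, uy_0]
    norm_num
  · show (fun z : ℝ × D => qq (k33 z.1 z.2) z.1) z0 = ((((3, 6) : ℤ × ℤ).1 : ℝ), (((3, 6) : ℤ × ℤ).2 : ℝ))
    simp only [qq, qc, qz, k0, kp, k11, k13, k20, k21, k23, k24, k25, k32, k33, k34, k38, k39, k30, k36, k41,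
      k42, k44, k46, k47, k49, k4A, k4C, k53, k54, k56, k57, k5D, k5E, pp, Pt.X, Pt.Y, z0, z2, ux_0, uy_0]
    norm_num
  · show (fun z : ℝ × D => qq (k34 z.1 z.2) z.1) z0 = ((((3, 8) : ℤ × ℤ).1 : ℝ), (((3, 8) : ℤ × ℤ).2 : ℝ))
    simp only [qq, qc, qz, k0, kp, k11, k13, k20, k21, k23, k24, k25, k32, k33, k34, k38, k39, k30, k36, k41,
      k42, k44, k46, k47, k49, k4A, k4C, k53, k54, k56, k57, k5D, k5E, pp, Pt.X, Pt.Y, z0, z2, ux_0, uy_0]
    norm_num
  · show (fun z : ℝ × D => qq (k23 z.1 z.2) z.1) z0 = ((((2, 6) : ℤ × ℤ).1 : ℝ), (((2, 6) : ℤ × ℤ).2 : ℝ))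
    simp only [qq, qc, qz, k0, kp, k11, k13, k20, k21, k23, k24, k25, k32, k33, k34, k38, k39, k30, k36, k41,
      k42, k44, k46, k47, k49, k4A, k4C, k53, k54, k56, k57, k5D, k5E, pp, Pt.X, Pt.Y, z0, z2, ux_0, uy_0]
    norm_num
  · show (fun z : ℝ × D => qq (k11 z.1 z.2) z.1) z0 = ((((1, 2) : ℤ × ℤ).1 : ℝ), (((1, 2) : ℤ × ℤ).2 : ℝ))
    simp only [qq, qc, qz, k0, kp, k11, k13, k20, k21, k23, k24, k25, k32, k33, k34, k38, k39, k30, k36, k41,
      k42, k44, k46, k47, k49, k4A, k4C, k53, k54, k56, k57, k5D, k5E, pp, Pt.X, Pt.Y, z0, z2, ux_0, uy_0]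
    norm_num
  · show (fun z : ℝ × D => qq (k21 z.1 z.2) z.1) z0 = ((((2, 2) : ℤ × ℤ).1 : ℝ), (((2, 2) : ℤ × ℤ).2 : ℝ))
    simp only [qq, qc, qz, k0, kp, k11, k13, k20, k21, k23, k24, k25, k32, k33, k34, k38, k39, k30, k36, k41,
      k42, k44, k46, k47, k49, k4A, k4C, k53, k54, k56, k57, k5D, k5E, pp, Pt.X, Pt.Y, z0, z2, ux_0, uy_0]
    norm_num

lemma W_z0_3 (i : Fin 6) : W z0 3 i = (((Wi 3 i).1 : ℝ), ((Wi 3 i).2 : ℝ)) := by
  fin_cases i
  · show (fun z : ℝ × D => qq (k38 z.1 z.2) z.1) z0 = ((((3, 16) : ℤ × ℤ).1 : ℝ), (((3, 16) : ℤ × ℤ).2 : ℝ))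
    simp only [qq, qc, qz, k0, kp, k11, k13, k20, k21, k23, k24, k25, k32, k33, k34, k38, k39, k30, k36, k41,
      k42, k44, k46, k47, k49, k4A, k4C, k53, k54, k56, k57, k5D, k5E, pp, Pt.X, Pt.Y, z0, z2, ux_0, uy_0]
    norm_num
  · show (fun z : ℝ × D => qq (k39 z.1 z.2) z.1) z0 = ((((3, 18) : ℤ × ℤ).1 : ℝ), (((3, 18) : ℤ × ℤ).2 : ℝ))
    simp only [qq, qc, qz, k0, kp, k11, k13, k20, k21, k23, k24, k25, k32, k33, k34, k38, k39, k30, k36, k41,
      k42, k44, k46, k47, k49, k4A, k4C, k53, k54, k56, k57, k5D, k5E, pp, Pt.X, Pt.Y, z0, z2, ux_0, uy_0]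
    norm_num
  · show (fun z : ℝ × D => qz (k38 z.1 z.2) z.1) z0 = ((((3, 20) : ℤ × ℤ).1 : ℝ), (((3, 20) : ℤ × ℤ).2 : ℝ))
    simp only [qq, qc, qz, k0, kp, k11, k13, k20, k21, k23, k24, k25, k32, k33, k34, k38, k39, k30, k36, k41,
      k42, k44, k46, k47, k49, k4A, k4C, k53, k54, k56, k57, k5D, k5E, pp, Pt.X, Pt.Y, z0, z2, ux_0, uy_0]
    norm_num
  · show (fun z : ℝ × D => qz (k25 z.1 z.2) z.1) z0 = ((((2, 14) : ℤ × ℤ).1 : ℝ), (((2, 14) : ℤ × ℤ).2 : ℝ))
    simp only [qq, qc, qz, k0, kp, k11, k13, k20, k21, k23, k24, k25, k32, k33, k34, k38, k39, k30, k36, k41,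
      k42, k44, k46, k47, k49, k4A, k4C, k53, k54, k56, k57, k5D, k5E, pp, Pt.X, Pt.Y, z0, z2, ux_0, uy_0]
    norm_num
  · show (fun z : ℝ × D => qq (k13 z.1 z.2) z.1) z0 = ((((1, 6) : ℤ × ℤ).1 : ℝ), (((1, 6) : ℤ × ℤ).2 : ℝ))
    simp only [qq, qc, qz, k0, kp, k11, k13, k20, k21, k23, k24, k25, k32, k33, k34, k38, k39, k30, k36, k41,
      k42, k44, k46, k47, k49, k4A, k4C, k53, k54, k56, k57, k5D, k5E, pp, Pt.X, Pt.Y, z0, z2, ux_0, uy_0]
    norm_num
  · show (fun z : ℝ × D => qq (k25 z.1 z.2) z.1) z0 = ((((2, 10) : ℤ × ℤ).1 : ℝ), (((2, 10) : ℤ × ℤ).2 : ℝ))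
    simp only [qq, qc, qz, k0, kp, k11, k13, k20, k21, k23, k24, k25, k32, k33, k34, k38, k39, k30, k36, k41,
      k42, k44, k46, k47, k49, k4A, k4C, k53, k54, k56, k57, k5D, k5E, pp, Pt.X, Pt.Y, z0, z2, ux_0, uy_0]
    norm_num

lemma W_z0_4 (i : Fin 6) : W z0 4 i = (((Wi 4 i).1 : ℝ), ((Wi 4 i).2 : ℝ)) := by
  fin_cases i
  · show (fun z : ℝ × D => qq (k41 z.1) z.1) z0 = ((((4, 2) : ℤ × ℤ).1 : ℝ), (((4, 2) : ℤ × ℤ).2 : ℝ))
    simp only [qq, qc, qz, k0, kp, k11, k13, k20, k21, k23, k24, k25, k32, k33, k34, k38, k39, k30, k36, k41,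
      k42, k44, k46, k47, k49, k4A, k4C, k53, k54, k56, k57, k5D, k5E, pp, Pt.X, Pt.Y, z0, z2, ux_0, uy_0]
    norm_num
  · show (fun z : ℝ × D => qq (k42 z.1) z.1) z0 = ((((4, 4) : ℤ × ℤ).1 : ℝ), (((4, 4) : ℤ × ℤ).2 : ℝ))
    simp only [qq, qc, qz, k0, kp, k11, k13, k20, k21, k23, k24, k25, k32, k33, k34, k38, k39, k30, k36, k41,
      k42, k44, k46, k47, k49, k4A, k4C, k53, k54, k56, k57, k5D, k5E, pp, Pt.X, Pt.Y, z0, z2, ux_0, uy_0]
    norm_num
  · show (fun z : ℝ × D => qq (k32 z.1 z.2) z.1) z0 = ((((3, 4) : ℤ × ℤ).1 : ℝ), (((3, 4) : ℤ × ℤ).2 : ℝ))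
    simp only [qq, qc, qz, k0, kp, k11, k13, k20, k21, k23, k24, k25, k32, k33, k34, k38, k39, k30, k36, k41,
      k42, k44, k46, k47, k49, k4A, k4C, k53, k54, k56, k57, k5D, k5E, pp, Pt.X, Pt.Y, z0, z2, ux_0, uy_0]
    norm_num
  · show (fun z : ℝ × D => qq (k21 z.1 z.2) z.1) z0 = ((((2, 2) : ℤ × ℤ).1 : ℝ), (((2, 2) : ℤ × ℤ).2 : ℝ))
    simp only [qq, qc, qz, k0, kp, k11, k13, k20, k21, k23, k24, k25, k32, k33, k34, k38, k39, k30, k36, k41,
      k42, k44, k46, k47, k49, k4A, k4C, k53, k54, k56, k57, k5D, k5E, pp, Pt.X, Pt.Y, z0, z2, ux_0, uy_0]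
    norm_num
  · show (fun z : ℝ × D => qq (k20 z.1 z.2) z.1) z0 = ((((2, 0) : ℤ × ℤ).1 : ℝ), (((2, 0) : ℤ × ℤ).2 : ℝ))
    simp only [qq, qc, qz, k0, kp, k11, k13, k20, k21, k23, k24, k25, k32, k33, k34, k38, k39, k30, k36, k41,
      k42, k44, k46, k47, k49, k4A, k4C, k53, k54, k56, k57, k5D, k5E, pp, Pt.X, Pt.Y, z0, z2, ux_0, uy_0]
    norm_num
  · show (fun z : ℝ × D => qq (k30 z.1) z.1) z0 = ((((3, 0) : ℤ × ℤ).1 : ℝ), (((3, 0) : ℤ × ℤ).2 : ℝ))
    simp only [qq, qc, qz, k0, kp, k11, k13, k20, k21, k23, k24, k25, k32, k33, k34, k38, k39, k30, k36, k41,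
      k42, k44, k46, k47, k49, k4A, k4C, k53, k54, k56, k57, k5D, k5E, pp, Pt.X, Pt.Y, z0, z2, ux_0, uy_0]
    norm_num

lemma W_z0_5 (i : Fin 6) : W z0 5 i = (((Wi 5 i).1 : ℝ), ((Wi 5 i).2 : ℝ)) := by
  fin_cases i
  · show (fun z : ℝ × D => qq (k46 z.1) z.1) z0 = ((((4, 12) : ℤ × ℤ).1 : ℝ), (((4, 12) : ℤ × ℤ).2 : ℝ))
    simp only [qq, qc, qz, k0, kp, k11, k13, k20, k21, k23, k24, k25, k32, k33, k34, k38, k39, k30, k36, k41,
      k42, k44, k46, k47, k49, k4A, k4C, k53, k54, k56, k57, k5D, k5E, pp, Pt.X, Pt.Y, z0, z2, ux_0, uy_0]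
    norm_num
  · show (fun z : ℝ × D => qq (k47 z.1) z.1) z0 = ((((4, 14) : ℤ × ℤ).1 : ℝ), (((4, 14) : ℤ × ℤ).2 : ℝ))
    simp only [qq, qc, qz, k0, kp, k11, k13, k20, k21, k23, k24, k25, k32, k33, k34, k38, k39, k30, k36, k41,
      k42, k44, k46, k47, k49, k4A, k4C, k53, k54, k56, k57, k5D, k5E, pp, Pt.X, Pt.Y, z0, z2, ux_0, uy_0]
    norm_num
  · show (fun z : ℝ × D => qq (k36 z.1) z.1) z0 = ((((3, 12) : ℤ × ℤ).1 : ℝ), (((3, 12) : ℤ × ℤ).2 : ℝ))
    simp only [qq, qc, qz, k0, kp, k11, k13, k20, k21, k23, k24, k25, k32, k33, k34, k38, k39, k30, k36, k41,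
      k42, k44, k46, k47, k49, k4A, k4C, k53, k54, k56, k57, k5D, k5E, pp, Pt.X, Pt.Y, z0, z2, ux_0, uy_0]
    norm_num
  · show (fun z : ℝ × D => qq (k24 z.1 z.2) z.1) z0 = ((((2, 8) : ℤ × ℤ).1 : ℝ), (((2, 8) : ℤ × ℤ).2 : ℝ))
    simp only [qq, qc, qz, k0, kp, k11, k13, k20, k21, k23, k24, k25, k32, k33, k34, k38, k39, k30, k36, k41,
      k42, k44, k46, k47, k49, k4A, k4C, k53, k54, k56, k57, k5D, k5E, pp, Pt.X, Pt.Y, z0, z2, ux_0, uy_0]
    norm_num
  · show (fun z : ℝ × D => qq (k23 z.1 z.2) z.1) z0 = ((((2, 6) : ℤ × ℤ).1 : ℝ), (((2, 6) : ℤ × ℤ).2 : ℝ))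
    simp only [qq, qc, qz, k0, kp, k11, k13, k20, k21, k23, k24, k25, k32, k33, k34, k38, k39, k30, k36, k41,
      k42, k44, k46, k47, k49, k4A, k4C, k53, k54, k56, k57, k5D, k5E, pp, Pt.X, Pt.Y, z0, z2, ux_0, uy_0]
    norm_num
  · show (fun z : ℝ × D => qq (k34 z.1 z.2) z.1) z0 = ((((3, 8) : ℤ × ℤ).1 : ℝ), (((3, 8) : ℤ × ℤ).2 : ℝ))
    simp only [qq, qc, qz, k0, kp, k11, k13, k20, k21, k23, k24, k25, k32, k33, k34, k38, k39, k30, k36, k41,
      k42, k44, k46, k47, k49, k4A, k4C, k53, k54, k56, k57, k5D, k5E, pp, Pt.X, Pt.Y, z0, z2, ux_0, uy_0]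
    norm_num

lemma W_z0_6 (i : Fin 6) : W z0 6 i = (((Wi 6 i).1 : ℝ), ((Wi 6 i).2 : ℝ)) := by
  fin_cases i
  · show (fun z : ℝ × D => qq (k49 z.1) z.1) z0 = ((((4, 18) : ℤ × ℤ).1 : ℝ), (((4, 18) : ℤ × ℤ).2 : ℝ))
    simp only [qq, qc, qz, k0, kp, k11, k13, k20, k21, k23, k24, k25, k32, k33, k34, k38, k39, k30, k36, k41,
      k42, k44, k46, k47, k49, k4A, k4C, k53, k54, k56, k57, k5D, k5E, pp, Pt.X, Pt.Y, z0, z2, ux_0, uy_0]
    norm_num
  · show (fun z : ℝ × D => qq (k4A z.1) z.1) z0 = ((((4, 20) : ℤ × ℤ).1 : ℝ), (((4, 20) : ℤ × ℤ).2 : ℝ))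
    simp only [qq, qc, qz, k0, kp, k11, k13, k20, k21, k23, k24, k25, k32, k33, k34, k38, k39, k30, k36, k41,
      k42, k44, k46, k47, k49, k4A, k4C, k53, k54, k56, k57, k5D, k5E, pp, Pt.X, Pt.Y, z0, z2, ux_0, uy_0]
    norm_num
  · show (fun z : ℝ × D => qq (k38 z.1 z.2) z.1) z0 = ((((3, 16) : ℤ × ℤ).1 : ℝ), (((3, 16) : ℤ × ℤ).2 : ℝ))
    simp only [qq, qc, qz, k0, kp, k11, k13, k20, k21, k23, k24, k25, k32, k33, k34, k38, k39, k30, k36, k41,
      k42, k44, k46, k47, k49, k4A, k4C, k53, k54, k56, k57, k5D, k5E, pp, Pt.X, Pt.Y, z0, z2, ux_0, uy_0]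
    norm_num
  · show (fun z : ℝ × D => qq (k25 z.1 z.2) z.1) z0 = ((((2, 10) : ℤ × ℤ).1 : ℝ), (((2, 10) : ℤ × ℤ).2 : ℝ))
    simp only [qq, qc, qz, k0, kp, k11, k13, k20, k21, k23, k24, k25, k32, k33, k34, k38, k39, k30, k36, k41,
      k42, k44, k46, k47, k49, k4A, k4C, k53, k54, k56, k57, k5D, k5E, pp, Pt.X, Pt.Y, z0, z2, ux_0, uy_0]
    norm_num
  · show (fun z : ℝ × D => qq (k24 z.1 z.2) z.1) z0 = ((((2, 8) : ℤ × ℤ).1 : ℝ), (((2, 8) : ℤ × ℤ).2 : ℝ))
    simp only [qq, qc, qz, k0, kp, k11, k13, k20, k21, k23, k24, k25, k32, k33, k34, k38, k39, k30, k36, k41,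
      k42, k44, k46, k47, k49, k4A, k4C, k53, k54, k56, k57, k5D, k5E, pp, Pt.X, Pt.Y, z0, z2, ux_0, uy_0]
    norm_num
  · show (fun z : ℝ × D => qq (k36 z.1) z.1) z0 = ((((3, 12) : ℤ × ℤ).1 : ℝ), (((3, 12) : ℤ × ℤ).2 : ℝ))
    simp only [qq, qc, qz, k0, kp, k11, k13, k20, k21, k23, k24, k25, k32, k33, k34, k38, k39, k30, k36, k41,
      k42, k44, k46, k47, k49, k4A, k4C, k53, k54, k56, k57, k5D, k5E, pp, Pt.X, Pt.Y, z0, z2, ux_0, uy_0]
    norm_num

lemma W_z0_7 (i : Fin 6) : W z0 7 i = (((Wi 7 i).1 : ℝ), ((Wi 7 i).2 : ℝ)) := by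
  fin_cases i
  · show (fun z : ℝ × D => qq (k53 z.1) z.1) z0 = ((((5, 6) : ℤ × ℤ).1 : ℝ), (((5, 6) : ℤ × ℤ).2 : ℝ))
    simp only [qq, qc, qz, k0, kp, k11, k13, k20, k21, k23, k24, k25, k32, k33, k34, k38, k39, k30, k36, k41,
      k42, k44, k46, k47, k49, k4A, k4C, k53, k54, k56, k57, k5D, k5E, pp, Pt.X, Pt.Y, z0, z2, ux_0, uy_0]
    norm_num
  · show (fun z : ℝ × D => qq (k54 z.1) z.1) z0 = ((((5, 8) : ℤ × ℤ).1 : ℝ), (((5, 8) : ℤ × ℤ).2 : ℝ))
    simp only [qq, qc, qz, k0, kp, k11, k13, k20, k21, k23, k24, k25, k32, k33, k34, k38, k39, k30, k36, k41,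
      k42, k44, k46, k47, k49, k4A, k4C, k53, k54, k56, k57, k5D, k5E, pp, Pt.X, Pt.Y, z0, z2, ux_0, uy_0]
    norm_num
  · show (fun z : ℝ × D => qq (k44 z.1) z.1) z0 = ((((4, 8) : ℤ × ℤ).1 : ℝ), (((4, 8) : ℤ × ℤ).2 : ℝ))
    simp only [qq, qc, qz, k0, kp, k11, k13, k20, k21, k23, k24, k25, k32, k33, k34, k38, k39, k30, k36, k41,
      k42, k44, k46, k47, k49, k4A, k4C, k53, k54, k56, k57, k5D, k5E, pp, Pt.X, Pt.Y, z0, z2, ux_0, uy_0]
    norm_num
  · show (fun z : ℝ × D => qq (k33 z.1 z.2) z.1) z0 = ((((3, 6) : ℤ × ℤ).1 : ℝ), (((3, 6) : ℤ × ℤ).2 : ℝ))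
    simp only [qq, qc, qz, k0, kp, k11, k13, k20, k21, k23, k24, k25, k32, k33, k34, k38, k39, k30, k36, k41,
      k42, k44, k46, k47, k49, k4A, k4C, k53, k54, k56, k57, k5D, k5E, pp, Pt.X, Pt.Y, z0, z2, ux_0, uy_0]
    norm_num
  · show (fun z : ℝ × D => qq (k32 z.1 z.2) z.1) z0 = ((((3, 4) : ℤ × ℤ).1 : ℝ), (((3, 4) : ℤ × ℤ).2 : ℝ))
    simp only [qq, qc, qz, k0, kp, k11, k13, k20, k21, k23, k24, k25, k32, k33, k34, k38, k39, k30, k36, k41,
      k42, k44, k46, k47, k49, k4A, k4C, k53, k54, k56, k57, k5D, k5E, pp, Pt.X, Pt.Y, z0, z2, ux_0, uy_0]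
    norm_num
  · show (fun z : ℝ × D => qq (k42 z.1) z.1) z0 = ((((4, 4) : ℤ × ℤ).1 : ℝ), (((4, 4) : ℤ × ℤ).2 : ℝ))
    simp only [qq, qc, qz, k0, kp, k11, k13, k20, k21, k23, k24, k25, k32, k33, k34, k38, k39, k30, k36, k41,
      k42, k44, k46, k47, k49, k4A, k4C, k53, k54, k56, k57, k5D, k5E, pp, Pt.X, Pt.Y, z0, z2, ux_0, uy_0]
    norm_num

lemma W_z0_8 (i : Fin 6) : W z0 8 i = (((Wi 8 i).1 : ℝ), ((Wi 8 i).2 : ℝ)) := by
  fin_cases i
  · show (fun z : ℝ × D => qq (k56 z.1) z.1) z0 = ((((5, 12) : ℤ × ℤ).1 : ℝ), (((5, 12) : ℤ × ℤ).2 : ℝ))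
    simp only [qq, qc, qz, k0, kp, k11, k13, k20, k21, k23, k24, k25, k32, k33, k34, k38, k39, k30, k36, k41,
      k42, k44, k46, k47, k49, k4A, k4C, k53, k54, k56, k57, k5D, k5E, pp, Pt.X, Pt.Y, z0, z2, ux_0, uy_0]
    norm_num
  · show (fun z : ℝ × D => qq (k57 z.1) z.1) z0 = ((((5, 14) : ℤ × ℤ).1 : ℝ), (((5, 14) : ℤ × ℤ).2 : ℝ))
    simp only [qq, qc, qz, k0, kp, k11, k13, k20, k21, k23, k24, k25, k32, k33, k34, k38, k39, k30, k36, k41,
      k42, k44, k46, k47, k49, k4A, k4C, k53, k54, k56, k57, k5D, k5E, pp, Pt.X, Pt.Y, z0, z2, ux_0, uy_0]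
    norm_num
  · show (fun z : ℝ × D => qq (k46 z.1) z.1) z0 = ((((4, 12) : ℤ × ℤ).1 : ℝ), (((4, 12) : ℤ × ℤ).2 : ℝ))
    simp only [qq, qc, qz, k0, kp, k11, k13, k20, k21, k23, k24, k25, k32, k33, k34, k38, k39, k30, k36, k41,
      k42, k44, k46, k47, k49, k4A, k4C, k53, k54, k56, k57, k5D, k5E, pp, Pt.X, Pt.Y, z0, z2, ux_0, uy_0]
    norm_num
  · show (fun z : ℝ × D => qq (k34 z.1 z.2) z.1) z0 = ((((3, 8) : ℤ × ℤ).1 : ℝ), (((3, 8) : ℤ × ℤ).2 : ℝ))
    simp only [qq, qc, qz, k0, kp, k11, k13, k20, k21, k23, k24, k25, k32, k33, k34, k38, k39, k30, k36, k41,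
      k42, k44, k46, k47, k49, k4A, k4C, k53, k54, k56, k57, k5D, k5E, pp, Pt.X, Pt.Y, z0, z2, ux_0, uy_0]
    norm_num
  · show (fun z : ℝ × D => qq (k33 z.1 z.2) z.1) z0 = ((((3, 6) : ℤ × ℤ).1 : ℝ), (((3, 6) : ℤ × ℤ).2 : ℝ))
    simp only [qq, qc, qz, k0, kp, k11, k13, k20, k21, k23, k24, k25, k32, k33, k34, k38, k39, k30, k36, k41,
      k42, k44, k46, k47, k49, k4A, k4C, k53, k54, k56, k57, k5D, k5E, pp, Pt.X, Pt.Y, z0, z2, ux_0, uy_0]
    norm_num
  · show (fun z : ℝ × D => qq (k44 z.1) z.1) z0 = ((((4, 8) : ℤ × ℤ).1 : ℝ), (((4, 8) : ℤ × ℤ).2 : ℝ))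
    simp only [qq, qc, qz, k0, kp, k11, k13, k20, k21, k23, k24, k25, k32, k33, k34, k38, k39, k30, k36, k41,
      k42, k44, k46, k47, k49, k4A, k4C, k53, k54, k56, k57, k5D, k5E, pp, Pt.X, Pt.Y, z0, z2, ux_0, uy_0]
    norm_num

lemma W_z0_9 (i : Fin 6) : W z0 9 i = (((Wi 9 i).1 : ℝ), ((Wi 9 i).2 : ℝ)) := by
  fin_cases i
  · show (fun z : ℝ × D => qq (k5D z.1) z.1) z0 = ((((5, 26) : ℤ × ℤ).1 : ℝ), (((5, 26) : ℤ × ℤ).2 : ℝ))
    simp only [qq, qc, qz, k0, kp, k11, k13, k20, k21, k23, k24, k25, k32, k33, k34, k38, k39, k30, k36, k41,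
      k42, k44, k46, k47, k49, k4A, k4C, k53, k54, k56, k57, k5D, k5E, pp, Pt.X, Pt.Y, z0, z2, ux_0, uy_0]
    norm_num
  · show (fun z : ℝ × D => qq (k5E z.1) z.1) z0 = ((((5, 28) : ℤ × ℤ).1 : ℝ), (((5, 28) : ℤ × ℤ).2 : ℝ))
    simp only [qq, qc, qz, k0, kp, k11, k13, k20, k21, k23, k24, k25, k32, k33, k34, k38, k39, k30, k36, k41,
      k42, k44, k46, k47, k49, k4A, k4C, k53, k54, k56, k57, k5D, k5E, pp, Pt.X, Pt.Y, z0, z2, ux_0, uy_0]
    norm_num
  · show (fun z : ℝ × D => qq (k4C z.1) z.1) z0 = ((((4, 24) : ℤ × ℤ).1 : ℝ), (((4, 24) : ℤ × ℤ).2 : ℝ))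
    simp only [qq, qc, qz, k0, kp, k11, k13, k20, k21, k23, k24, k25, k32, k33, k34, k38, k39, k30, k36, k41,
      k42, k44, k46, k47, k49, k4A, k4C, k53, k54, k56, k57, k5D, k5E, pp, Pt.X, Pt.Y, z0, z2, ux_0, uy_0]
    norm_num
  · show (fun z : ℝ × D => qq (k39 z.1 z.2) z.1) z0 = ((((3, 18) : ℤ × ℤ).1 : ℝ), (((3, 18) : ℤ × ℤ).2 : ℝ))
    simp only [qq, qc, qz, k0, kp, k11, k13, k20, k21, k23, k24, k25, k32, k33, k34, k38, k39, k30, k36, k41,
      k42, k44, k46, k47, k49, k4A, k4C, k53, k54, k56, k57, k5D, k5E, pp, Pt.X, Pt.Y, z0, z2, ux_0, uy_0]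
    norm_num
  · show (fun z : ℝ × D => qq (k38 z.1 z.2) z.1) z0 = ((((3, 16) : ℤ × ℤ).1 : ℝ), (((3, 16) : ℤ × ℤ).2 : ℝ))
    simp only [qq, qc, qz, k0, kp, k11, k13, k20, k21, k23, k24, k25, k32, k33, k34, k38, k39, k30, k36, k41,
      k42, k44, k46, k47, k49, k4A, k4C, k53, k54, k56, k57, k5D, k5E, pp, Pt.X, Pt.Y, z0, z2, ux_0, uy_0]
    norm_num
  · show (fun z : ℝ × D => qq (k4A z.1) z.1) z0 = ((((4, 20) : ℤ × ℤ).1 : ℝ), (((4, 20) : ℤ × ℤ).2 : ℝ))
    simp only [qq, qc, qz, k0, kp, k11, k13, k20, k21, k23, k24, k25, k32, k33, k34, k38, k39, k30, k36, k41,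
      k42, k44, k46, k47, k49, k4A, k4C, k53, k54, k56, k57, k5D, k5E, pp, Pt.X, Pt.Y, z0, z2, ux_0, uy_0]
    norm_num

lemma W_z0 (t : Fin 10) (i : Fin 6) : W z0 t i = (((Wi t i).1 : ℝ), ((Wi t i).2 : ℝ)) := by
  fin_cases t
  · exact W_z0_0 i
  · exact W_z0_1 i
  · exact W_z0_2 i
  · exact W_z0_3 i
  · exact W_z0_4 i
  · exact W_z0_5 i
  · exact W_z0_6 i
  · exact W_z0_7 i
  · exact W_z0_8 i
  · exact W_z0_9 i

lemma Sm.cont {f : ℝ × D → ℝ} (h : Sm f) : ContinuousAt f z0 := ContDiffAt.continuousAt h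

lemma Sm.pos {f : ℝ × D → ℝ} (h : Sm f) (h0 : 0 < f z0) : ∀ᶠ z in 𝓝 z0, 0 < f z :=
  h.cont.eventually (lt_mem_nhds h0)

lemma oS_sm {f g h : ℝ × D → ℝ × ℝ} (hf : Sm2 f) (hg : Sm2 g) (hh : Sm2 h) :
    Sm (fun z => oS (f z) (g z) (h z)) := by
  unfold oS
  exact ((hg.1.sub hf.1).mul (hh.2.sub hf.2)).sub ((hg.2.sub hf.2).mul (hh.1.sub hf.1))

lemma nondeg (t : Fin 10) (i j : Fin 6) (h : 0 < oZ (Wi t i) (Wi t (i + 1)) (Wi t j)) :
    ∀ᶠ z in 𝓝 z0, 0 < oS (W z t i) (W z t (i + 1)) (W z t j) := by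
  apply Sm.pos (oS_sm (W_sm t i) (W_sm t (i + 1)) (W_sm t j))
  have e : oS (W z0 t i) (W z0 t (i + 1)) (W z0 t j)
      = ((oZ (Wi t i) (Wi t (i + 1)) (Wi t j) : ℤ) : ℝ) := by
    rw [W_z0, W_z0, W_z0]
    simp only [oS, oZ]
    push_cast
    ring
  show 0 < oS (W z0 t i) (W z0 t (i + 1)) (W z0 t j)
  rw [e]
  exact_mod_cast h

lemma d0_1 : d0 1 = 2/3 := rfl
lemma d0_2 : d0 2 = 2/3 := rfl
lemma d0_11 : d0 11 = 0 := rfl
lemma d0_13 : d0 13 = 0 := rfl
lemma d0_15 : d0 15 = 0 := rfl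
lemma d0_17 : d0 17 = -1 := rfl
lemma d0_18 : d0 18 = 0 := rfl
lemma d0_19 : d0 19 = 1 := rfl

lemma u_add (w : ℝ) (m n : ℕ) : ux (m + n) w = ux m w * ux n w - w * uy m w * uy n w ∧
    uy (m + n) w = ux m w * uy n w + uy m w * ux n w := by
  induction n with
  | zero => simp [ux_zero, uy_zero]
  | succ n ih =>
    rw [← add_assoc, ux_succ, uy_succ, ux_succ, uy_succ, fu, fu, ih.1, ih.2]
    constructor <;> ring

lemma u_six (w : ℝ) : ux 6 w = ux 3 w ^ 2 - w * uy 3 w ^ 2 ∧ uy 6 w = 2 * ux 3 w * uy 3 w := by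
  have h := u_add w 3 3
  norm_num at h
  constructor
  · rw [h.1]; ring
  · rw [h.2]; ring

lemma u_dot (t : ℝ) : ux 3 (t ^ 2) * ux 2 (t ^ 2) + t ^ 2 * uy 3 (t ^ 2) * uy 2 (t ^ 2)
    = 1 - t ^ 2 * sI (t ^ 2) := by
  have h2 := u_norm (sq_nonneg t) 2
  have e1 := ux_succ 2 (t ^ 2)
  have e2 := uy_succ 2 (t ^ 2)
  norm_num [fu] at e1 e2
  rw [e1, e2]
  linear_combination (1 - t ^ 2 * sI (t ^ 2)) * h2

/-- a degenerate triple: the orientation is `t² * E` with `E > 0` at the base point -/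
lemma deg_aux {f : ℝ × D → ℝ} {E : ℝ × D → ℝ} (hE : Sm E) (h0 : 0 < E z0)
    (h : ∀ z, f z = z.1 ^ 2 * E z) : ∀ᶠ z in 𝓝 z0, z.1 ≠ 0 → 0 < f z := by
  filter_upwards [hE.pos h0] with z hz hz1
  rw [h]
  positivity

lemma deg_0a : ∀ᶠ z in 𝓝 z0, z.1 ≠ 0 → 0 < oS (W z 0 0) (W z 0 (0 + 1)) (W z 0 2) := by
  apply deg_aux (E := fun z => (2 * (k21 z.1 z.2).Y z.1) * (- fu 0 (z.1 ^ 2) + z.2 1 - z.2 2))
  · simp only [qq, qc, qz, k0, kp, k11, k13, k20, k21, k23, k24, k25, k32, k33, k34, k38, k39, k30, k36, k41,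
      k42, k44, k46, k47, k49, k4A, k4C, k53, k54, k56, k57, k5D, k5E, pp, Pt.X, Pt.Y]
    repeat' first
      | exact Sm.const _
      | exact Sm.t
      | exact Sm.d _
      | exact Sm.ux _
      | exact Sm.uy _
      | exact Sm.fu _
      | exact Sm.sI
      | apply Sm.add
      | apply Sm.sub
      | apply Sm.mul
      | apply Sm.neg
      | apply Sm.pow
  · simp only [qq, qc, qz, k0, kp, k11, k13, k20, k21, k23, k24, k25, k32, k33, k34, k38, k39, k30, k36, k41,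
      k42, k44, k46, k47, k49, k4A, k4C, k53, k54, k56, k57, k5D, k5E, pp, Pt.X, Pt.Y, z0, z2, ux_0, uy_0, fu_0, sI_0, d0_1, d0_2, d0_11, d0_13, d0_15, d0_17, d0_18, d0_19]
    norm_num
  · intro z
    show oS (qc (k21 z.1 z.2) z.1) (qq (k20 z.1 z.2) z.1) (qq (k21 z.1 z.2) z.1) = _
    have h := ux_succ 0 (z.1 ^ 2)
    have e1 : (k20 z.1 z.2).X z.1 - (k21 z.1 z.2).X z.1 = z.1 ^ 2 * (- fu 0 (z.1 ^ 2) + z.2 1 - z.2 2) := by
      norm_num [k20, k21, pp, Pt.X] at h ⊢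
      linear_combination -h
    have e2 : (k20 z.1 z.2).Y z.1 = 0 := by
      norm_num [k20, pp, Pt.Y, uy_zero]
    simp only [oS, qq, qc]
    rw [e2]
    linear_combination (2 * (k21 z.1 z.2).Y z.1) * e1

lemma deg_0b : ∀ᶠ z in 𝓝 z0, z.1 ≠ 0 → 0 < oS (W z 0 1) (W z 0 (1 + 1)) (W z 0 0) := by
  apply deg_aux (E := fun z => (2 * (k21 z.1 z.2).Y z.1) * (- fu 0 (z.1 ^ 2) + z.2 1 - z.2 2))
  · simp only [qq, qc, qz, k0, kp, k11, k13, k20, k21, k23, k24, k25, k32, k33, k34, k38, k39, k30, k36, k41,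
      k42, k44, k46, k47, k49, k4A, k4C, k53, k54, k56, k57, k5D, k5E, pp, Pt.X, Pt.Y]
    repeat' first
      | exact Sm.const _
      | exact Sm.t
      | exact Sm.d _
      | exact Sm.ux _
      | exact Sm.uy _
      | exact Sm.fu _
      | exact Sm.sI
      | apply Sm.add
      | apply Sm.sub
      | apply Sm.mul
      | apply Sm.neg
      | apply Sm.pow
  · simp only [qq, qc, qz, k0, kp, k11, k13, k20, k21, k23, k24, k25, k32, k33, k34, k38, k39, k30, k36, k41,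
      k42, k44, k46, k47, k49, k4A, k4C, k53, k54, k56, k57, k5D, k5E, pp, Pt.X, Pt.Y, z0, z2, ux_0, uy_0, fu_0, sI_0, d0_1, d0_2, d0_11, d0_13, d0_15, d0_17, d0_18, d0_19]
    norm_num
  · intro z
    show oS (qq (k20 z.1 z.2) z.1) (qq (k21 z.1 z.2) z.1) (qc (k21 z.1 z.2) z.1) = _
    have h := ux_succ 0 (z.1 ^ 2)
    have e1 : (k20 z.1 z.2).X z.1 - (k21 z.1 z.2).X z.1 = z.1 ^ 2 * (- fu 0 (z.1 ^ 2) + z.2 1 - z.2 2) := by
      norm_num [k20, k21, pp, Pt.X] at h ⊢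
      linear_combination -h
    have e2 : (k20 z.1 z.2).Y z.1 = 0 := by
      norm_num [k20, pp, Pt.Y, uy_zero]
    simp only [oS, qq, qc]
    rw [e2]
    linear_combination (2 * (k21 z.1 z.2).Y z.1) * e1

lemma deg_2a : ∀ᶠ z in 𝓝 z0, z.1 ≠ 0 → 0 < oS (W z 2 0) (W z 2 (0 + 1)) (W z 2 2) := by
  apply deg_aux (E := fun z => (fu 0 (z.1 ^ 2) + z.2 13 - z.2 11) * ((k34 z.1 z.2).Y z.1 - (k32 z.1 z.2).Y z.1) - ((k33 z.1 z.2).Y z.1 - (k32 z.1 z.2).Y z.1) * (fu 0 (z.1 ^ 2) + fu 1 (z.1 ^ 2) + z.2 15 - z.2 11))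
  · simp only [qq, qc, qz, k0, kp, k11, k13, k20, k21, k23, k24, k25, k32, k33, k34, k38, k39, k30, k36, k41,
      k42, k44, k46, k47, k49, k4A, k4C, k53, k54, k56, k57, k5D, k5E, pp, Pt.X, Pt.Y]
    repeat' first
      | exact Sm.const _
      | exact Sm.t
      | exact Sm.d _
      | exact Sm.ux _
      | exact Sm.uy _
      | exact Sm.fu _
      | exact Sm.sI
      | apply Sm.add
      | apply Sm.sub
      | apply Sm.mul
      | apply Sm.neg
      | apply Sm.pow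
  · simp only [qq, qc, qz, k0, kp, k11, k13, k20, k21, k23, k24, k25, k32, k33, k34, k38, k39, k30, k36, k41,
      k42, k44, k46, k47, k49, k4A, k4C, k53, k54, k56, k57, k5D, k5E, pp, Pt.X, Pt.Y, z0, z2, ux_0, uy_0, fu_0, sI_0, d0_1, d0_2, d0_11, d0_13, d0_15, d0_17, d0_18, d0_19]
    norm_num
  · intro z
    show oS (qq (k32 z.1 z.2) z.1) (qq (k33 z.1 z.2) z.1) (qq (k34 z.1 z.2) z.1) = _
    have h := ux_succ 0 (z.1 ^ 2)
    have h' := ux_succ 1 (z.1 ^ 2)
    have e1 : (k33 z.1 z.2).X z.1 - (k32 z.1 z.2).X z.1 = z.1 ^ 2 * (fu 0 (z.1 ^ 2) + z.2 13 - z.2 11) := by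
      norm_num [k33, k32, pp, Pt.X] at h ⊢
      linear_combination h
    have e2 : (k34 z.1 z.2).X z.1 - (k32 z.1 z.2).X z.1
        = z.1 ^ 2 * (fu 0 (z.1 ^ 2) + fu 1 (z.1 ^ 2) + z.2 15 - z.2 11) := by
      norm_num [k34, k32, pp, Pt.X] at h h' ⊢
      linear_combination h + h'
    simp only [oS, qq, qc]
    linear_combination ((k34 z.1 z.2).Y z.1 - (k32 z.1 z.2).Y z.1) * e1 - ((k33 z.1 z.2).Y z.1 - (k32 z.1 z.2).Y z.1) * e2

lemma deg_2b : ∀ᶠ z in 𝓝 z0, z.1 ≠ 0 → 0 < oS (W z 2 1) (W z 2 (1 + 1)) (W z 2 0) := by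
  apply deg_aux (E := fun z => (fu 0 (z.1 ^ 2) + z.2 13 - z.2 11) * ((k34 z.1 z.2).Y z.1 - (k32 z.1 z.2).Y z.1) - ((k33 z.1 z.2).Y z.1 - (k32 z.1 z.2).Y z.1) * (fu 0 (z.1 ^ 2) + fu 1 (z.1 ^ 2) + z.2 15 - z.2 11))
  · simp only [qq, qc, qz, k0, kp, k11, k13, k20, k21, k23, k24, k25, k32, k33, k34, k38, k39, k30, k36, k41,
      k42, k44, k46, k47, k49, k4A, k4C, k53, k54, k56, k57, k5D, k5E, pp, Pt.X, Pt.Y]
    repeat' first
      | exact Sm.const _
      | exact Sm.t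
      | exact Sm.d _
      | exact Sm.ux _
      | exact Sm.uy _
      | exact Sm.fu _
      | exact Sm.sI
      | apply Sm.add
      | apply Sm.sub
      | apply Sm.mul
      | apply Sm.neg
      | apply Sm.pow
  · simp only [qq, qc, qz, k0, kp, k11, k13, k20, k21, k23, k24, k25, k32, k33, k34, k38, k39, k30, k36, k41,
      k42, k44, k46, k47, k49, k4A, k4C, k53, k54, k56, k57, k5D, k5E, pp, Pt.X, Pt.Y, z0, z2, ux_0, uy_0, fu_0, sI_0, d0_1, d0_2, d0_11, d0_13, d0_15, d0_17, d0_18, d0_19]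
    norm_num
  · intro z
    show oS (qq (k33 z.1 z.2) z.1) (qq (k34 z.1 z.2) z.1) (qq (k32 z.1 z.2) z.1) = _
    have h := ux_succ 0 (z.1 ^ 2)
    have h' := ux_succ 1 (z.1 ^ 2)
    have e1 : (k33 z.1 z.2).X z.1 - (k32 z.1 z.2).X z.1 = z.1 ^ 2 * (fu 0 (z.1 ^ 2) + z.2 13 - z.2 11) := by
      norm_num [k33, k32, pp, Pt.X] at h ⊢
      linear_combination h
    have e2 : (k34 z.1 z.2).X z.1 - (k32 z.1 z.2).X z.1
        = z.1 ^ 2 * (fu 0 (z.1 ^ 2) + fu 1 (z.1 ^ 2) + z.2 15 - z.2 11) := by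
      norm_num [k34, k32, pp, Pt.X] at h h' ⊢
      linear_combination h + h'
    simp only [oS, qq, qc]
    linear_combination ((k34 z.1 z.2).Y z.1 - (k32 z.1 z.2).Y z.1) * e1 - ((k33 z.1 z.2).Y z.1 - (k32 z.1 z.2).Y z.1) * e2

lemma deg_3a : ∀ᶠ z in 𝓝 z0, z.1 ≠ 0 → 0 < oS (W z 3 0) (W z 3 (0 + 1)) (W z 3 2) := by
  apply deg_aux (E := fun z => (-2) * (ux 3 (z.1 ^ 2) * (k38 z.1 z.2).Y z.1 - uy 3 (z.1 ^ 2) * (k38 z.1 z.2).X z.1) * (sI (z.1 ^ 2) + z.2 19 - ux 3 (z.1 ^ 2) * z.2 17 - z.1 * uy 3 (z.1 ^ 2) * z.2 18))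
  · simp only [qq, qc, qz, k0, kp, k11, k13, k20, k21, k23, k24, k25, k32, k33, k34, k38, k39, k30, k36, k41,
      k42, k44, k46, k47, k49, k4A, k4C, k53, k54, k56, k57, k5D, k5E, pp, Pt.X, Pt.Y]
    repeat' first
      | exact Sm.const _
      | exact Sm.t
      | exact Sm.d _
      | exact Sm.ux _
      | exact Sm.uy _
      | exact Sm.fu _
      | exact Sm.sI
      | apply Sm.add
      | apply Sm.sub
      | apply Sm.mul
      | apply Sm.neg
      | apply Sm.pow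
  · simp only [qq, qc, qz, k0, kp, k11, k13, k20, k21, k23, k24, k25, k32, k33, k34, k38, k39, k30, k36, k41,
      k42, k44, k46, k47, k49, k4A, k4C, k53, k54, k56, k57, k5D, k5E, pp, Pt.X, Pt.Y, z0, z2, ux_0, uy_0, fu_0, sI_0, d0_1, d0_2, d0_11, d0_13, d0_15, d0_17, d0_18, d0_19]
    norm_num
  · intro z
    show oS (qq (k38 z.1 z.2) z.1) (qq (k39 z.1 z.2) z.1) (qz (k38 z.1 z.2) z.1) = _
    have hN := u_norm (sq_nonneg z.1) 3
    have h6 := u_six (z.1 ^ 2)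
    have hc := u_dot z.1
    have er : (ux 3 (z.1 ^ 2) * (k38 z.1 z.2).X z.1 + z.1 ^ 2 * uy 3 (z.1 ^ 2) * (k38 z.1 z.2).Y z.1)
        = 3 + z.1 ^ 2 * z.2 19 - z.1 ^ 2 * (sI (z.1 ^ 2) + z.2 19 - ux 3 (z.1 ^ 2) * z.2 17
          - z.1 * uy 3 (z.1 ^ 2) * z.2 18) := by
      norm_num [k38, pp, Pt.X, Pt.Y]
      linear_combination hc + 2 * hN
    have e1 : (k39 z.1 z.2).X z.1 = (3 + z.1 ^ 2 * z.2 19) * ux 3 (z.1 ^ 2) := by
      norm_num [k39, pp, Pt.X]; ring
    have e2 : (k39 z.1 z.2).Y z.1 = (3 + z.1 ^ 2 * z.2 19) * uy 3 (z.1 ^ 2) := by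
      norm_num [k39, pp, Pt.Y]; ring
    simp only [oS, qq, qz]
    rw [e1, e2, h6.1, h6.2]
    generalize (k38 z.1 z.2).X z.1 = x at *
    generalize (k38 z.1 z.2).Y z.1 = y at *
    linear_combination (-(3 + z.1 ^ 2 * z.2 19) * (ux 3 (z.1 ^ 2) * y - uy 3 (z.1 ^ 2) * x)) * hN
      + (2 * (ux 3 (z.1 ^ 2) * y - uy 3 (z.1 ^ 2) * x)) * er

lemma deg_3b : ∀ᶠ z in 𝓝 z0, z.1 ≠ 0 → 0 < oS (W z 3 1) (W z 3 (1 + 1)) (W z 3 0) := by
  apply deg_aux (E := fun z => (-2) * (ux 3 (z.1 ^ 2) * (k38 z.1 z.2).Y z.1 - uy 3 (z.1 ^ 2) * (k38 z.1 z.2).X z.1) * (sI (z.1 ^ 2) + z.2 19 - ux 3 (z.1 ^ 2) * z.2 17 - z.1 * uy 3 (z.1 ^ 2) * z.2 18))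
  · simp only [qq, qc, qz, k0, kp, k11, k13, k20, k21, k23, k24, k25, k32, k33, k34, k38, k39, k30, k36, k41,
      k42, k44, k46, k47, k49, k4A, k4C, k53, k54, k56, k57, k5D, k5E, pp, Pt.X, Pt.Y]
    repeat' first
      | exact Sm.const _
      | exact Sm.t
      | exact Sm.d _
      | exact Sm.ux _
      | exact Sm.uy _
      | exact Sm.fu _
      | exact Sm.sI
      | apply Sm.add
      | apply Sm.sub
      | apply Sm.mul
      | apply Sm.neg
      | apply Sm.pow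
  · simp only [qq, qc, qz, k0, kp, k11, k13, k20, k21, k23, k24, k25, k32, k33, k34, k38, k39, k30, k36, k41,
      k42, k44, k46, k47, k49, k4A, k4C, k53, k54, k56, k57, k5D, k5E, pp, Pt.X, Pt.Y, z0, z2, ux_0, uy_0, fu_0, sI_0, d0_1, d0_2, d0_11, d0_13, d0_15, d0_17, d0_18, d0_19]
    norm_num
  · intro z
    show oS (qq (k39 z.1 z.2) z.1) (qz (k38 z.1 z.2) z.1) (qq (k38 z.1 z.2) z.1) = _
    have hN := u_norm (sq_nonneg z.1) 3
    have h6 := u_six (z.1 ^ 2)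
    have hc := u_dot z.1
    have er : (ux 3 (z.1 ^ 2) * (k38 z.1 z.2).X z.1 + z.1 ^ 2 * uy 3 (z.1 ^ 2) * (k38 z.1 z.2).Y z.1)
        = 3 + z.1 ^ 2 * z.2 19 - z.1 ^ 2 * (sI (z.1 ^ 2) + z.2 19 - ux 3 (z.1 ^ 2) * z.2 17
          - z.1 * uy 3 (z.1 ^ 2) * z.2 18) := by
      norm_num [k38, pp, Pt.X, Pt.Y]
      linear_combination hc + 2 * hN
    have e1 : (k39 z.1 z.2).X z.1 = (3 + z.1 ^ 2 * z.2 19) * ux 3 (z.1 ^ 2) := by
      norm_num [k39, pp, Pt.X]; ring
    have e2 : (k39 z.1 z.2).Y z.1 = (3 + z.1 ^ 2 * z.2 19) * uy 3 (z.1 ^ 2) := by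
      norm_num [k39, pp, Pt.Y]; ring
    simp only [oS, qq, qz]
    rw [e1, e2, h6.1, h6.2]
    generalize (k38 z.1 z.2).X z.1 = x at *
    generalize (k38 z.1 z.2).Y z.1 = y at *
    linear_combination (-(3 + z.1 ^ 2 * z.2 19) * (ux 3 (z.1 ^ 2) * y - uy 3 (z.1 ^ 2) * x)) * hN
      + (2 * (ux 3 (z.1 ^ 2) * y - uy 3 (z.1 ^ 2) * x)) * er

lemma deg_1a : ∀ᶠ z in 𝓝 z0, z.1 ≠ 0 → 0 < oS (W z 1 2) (W z 1 (2 + 1)) (W z 1 4) := by
  apply deg_aux (E := fun z => 2 * (k13 z.1 z.2).Y z.1)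
  · simp only [qq, qc, qz, k0, kp, k11, k13, k20, k21, k23, k24, k25, k32, k33, k34, k38, k39, k30, k36, k41,
      k42, k44, k46, k47, k49, k4A, k4C, k53, k54, k56, k57, k5D, k5E, pp, Pt.X, Pt.Y]
    repeat' first
      | exact Sm.const _
      | exact Sm.t
      | exact Sm.d _
      | exact Sm.ux _
      | exact Sm.uy _
      | exact Sm.fu _
      | exact Sm.sI
      | apply Sm.add
      | apply Sm.sub
      | apply Sm.mul
      | apply Sm.neg
      | apply Sm.pow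
  · simp only [qq, qc, qz, k0, kp, k11, k13, k20, k21, k23, k24, k25, k32, k33, k34, k38, k39, k30, k36, k41,
      k42, k44, k46, k47, k49, k4A, k4C, k53, k54, k56, k57, k5D, k5E, pp, Pt.X, Pt.Y, z0, z2, ux_0, uy_0, fu_0, sI_0, d0_1, d0_2, d0_11, d0_13, d0_15, d0_17, d0_18, d0_19]
    norm_num
  · intro z
    show oS (qq (k13 z.1 z.2) z.1) (qq (k0 z.1) z.1) (qq (kp z.1) z.1) = _
    simp only [oS, qq, qc, qz, k0, kp, k11, k13, k20, k21, k23, k24, k25, k32, k33, k34, k38, k39, k30, k36, k41,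
      k42, k44, k46, k47, k49, k4A, k4C, k53, k54, k56, k57, k5D, k5E, pp, Pt.X, Pt.Y]
    norm_num [ux_zero, uy_zero]
    try ring

lemma deg_1b0 : ∀ᶠ z in 𝓝 z0, z.1 ≠ 0 → 0 < oS (W z 1 3) (W z 1 (3 + 1)) (W z 1 0) := by
  apply deg_aux (E := fun z => 2 * (k23 z.1 z.2).Y z.1)
  · simp only [qq, qc, qz, k0, kp, k11, k13, k20, k21, k23, k24, k25, k32, k33, k34, k38, k39, k30, k36, k41,
      k42, k44, k46, k47, k49, k4A, k4C, k53, k54, k56, k57, k5D, k5E, pp, Pt.X, Pt.Y]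
    repeat' first
      | exact Sm.const _
      | exact Sm.t
      | exact Sm.d _
      | exact Sm.ux _
      | exact Sm.uy _
      | exact Sm.fu _
      | exact Sm.sI
      | apply Sm.add
      | apply Sm.sub
      | apply Sm.mul
      | apply Sm.neg
      | apply Sm.pow
  · simp only [qq, qc, qz, k0, kp, k11, k13, k20, k21, k23, k24, k25, k32, k33, k34, k38, k39, k30, k36, k41,
      k42, k44, k46, k47, k49, k4A, k4C, k53, k54, k56, k57, k5D, k5E, pp, Pt.X, Pt.Y, z0, z2, ux_0, uy_0, fu_0, sI_0, d0_1, d0_2, d0_11, d0_13, d0_15, d0_17, d0_18, d0_19]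
    norm_num
  · intro z
    show oS (qq (k0 z.1) z.1) (qq (kp z.1) z.1) (qq (k23 z.1 z.2) z.1) = _
    simp only [oS, qq, qc, qz, k0, kp, k11, k13, k20, k21, k23, k24, k25, k32, k33, k34, k38, k39, k30, k36, k41,
      k42, k44, k46, k47, k49, k4A, k4C, k53, k54, k56, k57, k5D, k5E, pp, Pt.X, Pt.Y]
    norm_num [ux_zero, uy_zero]
    try ring

lemma deg_1b1 : ∀ᶠ z in 𝓝 z0, z.1 ≠ 0 → 0 < oS (W z 1 3) (W z 1 (3 + 1)) (W z 1 1) := by
  apply deg_aux (E := fun z => 2 * (k25 z.1 z.2).Y z.1)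
  · simp only [qq, qc, qz, k0, kp, k11, k13, k20, k21, k23, k24, k25, k32, k33, k34, k38, k39, k30, k36, k41,
      k42, k44, k46, k47, k49, k4A, k4C, k53, k54, k56, k57, k5D, k5E, pp, Pt.X, Pt.Y]
    repeat' first
      | exact Sm.const _
      | exact Sm.t
      | exact Sm.d _
      | exact Sm.ux _
      | exact Sm.uy _
      | exact Sm.fu _
      | exact Sm.sI
      | apply Sm.add
      | apply Sm.sub
      | apply Sm.mul
      | apply Sm.neg
      | apply Sm.pow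
  · simp only [qq, qc, qz, k0, kp, k11, k13, k20, k21, k23, k24, k25, k32, k33, k34, k38, k39, k30, k36, k41,
      k42, k44, k46, k47, k49, k4A, k4C, k53, k54, k56, k57, k5D, k5E, pp, Pt.X, Pt.Y, z0, z2, ux_0, uy_0, fu_0, sI_0, d0_1, d0_2, d0_11, d0_13, d0_15, d0_17, d0_18, d0_19]
    norm_num
  · intro z
    show oS (qq (k0 z.1) z.1) (qq (kp z.1) z.1) (qq (k25 z.1 z.2) z.1) = _
    simp only [oS, qq, qc, qz, k0, kp, k11, k13, k20, k21, k23, k24, k25, k32, k33, k34, k38, k39, k30, k36, k41,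
      k42, k44, k46, k47, k49, k4A, k4C, k53, k54, k56, k57, k5D, k5E, pp, Pt.X, Pt.Y]
    norm_num [ux_zero, uy_zero]
    try ring

lemma deg_1b2 : ∀ᶠ z in 𝓝 z0, z.1 ≠ 0 → 0 < oS (W z 1 3) (W z 1 (3 + 1)) (W z 1 2) := by
  apply deg_aux (E := fun z => 2 * (k13 z.1 z.2).Y z.1)
  · simp only [qq, qc, qz, k0, kp, k11, k13, k20, k21, k23, k24, k25, k32, k33, k34, k38, k39, k30, k36, k41,
      k42, k44, k46, k47, k49, k4A, k4C, k53, k54, k56, k57, k5D, k5E, pp, Pt.X, Pt.Y]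
    repeat' first
      | exact Sm.const _
      | exact Sm.t
      | exact Sm.d _
      | exact Sm.ux _
      | exact Sm.uy _
      | exact Sm.fu _
      | exact Sm.sI
      | apply Sm.add
      | apply Sm.sub
      | apply Sm.mul
      | apply Sm.neg
      | apply Sm.pow
  · simp only [qq, qc, qz, k0, kp, k11, k13, k20, k21, k23, k24, k25, k32, k33, k34, k38, k39, k30, k36, k41,
      k42, k44, k46, k47, k49, k4A, k4C, k53, k54, k56, k57, k5D, k5E, pp, Pt.X, Pt.Y, z0, z2, ux_0, uy_0, fu_0, sI_0, d0_1, d0_2, d0_11, d0_13, d0_15, d0_17, d0_18, d0_19]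
    norm_num
  · intro z
    show oS (qq (k0 z.1) z.1) (qq (kp z.1) z.1) (qq (k13 z.1 z.2) z.1) = _
    simp only [oS, qq, qc, qz, k0, kp, k11, k13, k20, k21, k23, k24, k25, k32, k33, k34, k38, k39, k30, k36, k41,
      k42, k44, k46, k47, k49, k4A, k4C, k53, k54, k56, k57, k5D, k5E, pp, Pt.X, Pt.Y]
    norm_num [ux_zero, uy_zero]
    try ring

lemma deg_1b5 : ∀ᶠ z in 𝓝 z0, z.1 ≠ 0 → 0 < oS (W z 1 3) (W z 1 (3 + 1)) (W z 1 5) := by
  apply deg_aux (E := fun z => 2 * (k11 z.1 z.2).Y z.1)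
  · simp only [qq, qc, qz, k0, kp, k11, k13, k20, k21, k23, k24, k25, k32, k33, k34, k38, k39, k30, k36, k41,
      k42, k44, k46, k47, k49, k4A, k4C, k53, k54, k56, k57, k5D, k5E, pp, Pt.X, Pt.Y]
    repeat' first
      | exact Sm.const _
      | exact Sm.t
      | exact Sm.d _
      | exact Sm.ux _
      | exact Sm.uy _
      | exact Sm.fu _
      | exact Sm.sI
      | apply Sm.add
      | apply Sm.sub
      | apply Sm.mul
      | apply Sm.neg
      | apply Sm.pow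
  · simp only [qq, qc, qz, k0, kp, k11, k13, k20, k21, k23, k24, k25, k32, k33, k34, k38, k39, k30, k36, k41,
      k42, k44, k46, k47, k49, k4A, k4C, k53, k54, k56, k57, k5D, k5E, pp, Pt.X, Pt.Y, z0, z2, ux_0, uy_0, fu_0, sI_0, d0_1, d0_2, d0_11, d0_13, d0_15, d0_17, d0_18, d0_19]
    norm_num
  · intro z
    show oS (qq (k0 z.1) z.1) (qq (kp z.1) z.1) (qq (k11 z.1 z.2) z.1) = _
    simp only [oS, qq, qc, qz, k0, kp, k11, k13, k20, k21, k23, k24, k25, k32, k33, k34, k38, k39, k30, k36, k41,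
      k42, k44, k46, k47, k49, k4A, k4C, k53, k54, k56, k57, k5D, k5E, pp, Pt.X, Pt.Y]
    norm_num [ux_zero, uy_zero]
    try ring

lemma deg_1c : ∀ᶠ z in 𝓝 z0, z.1 ≠ 0 → 0 < oS (W z 1 4) (W z 1 (4 + 1)) (W z 1 3) := by
  apply deg_aux (E := fun z => 2 * (k11 z.1 z.2).Y z.1)
  · simp only [qq, qc, qz, k0, kp, k11, k13, k20, k21, k23, k24, k25, k32, k33, k34, k38, k39, k30, k36, k41,
      k42, k44, k46, k47, k49, k4A, k4C, k53, k54, k56, k57, k5D, k5E, pp, Pt.X, Pt.Y]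
    repeat' first
      | exact Sm.const _
      | exact Sm.t
      | exact Sm.d _
      | exact Sm.ux _
      | exact Sm.uy _
      | exact Sm.fu _
      | exact Sm.sI
      | apply Sm.add
      | apply Sm.sub
      | apply Sm.mul
      | apply Sm.neg
      | apply Sm.pow
  · simp only [qq, qc, qz, k0, kp, k11, k13, k20, k21, k23, k24, k25, k32, k33, k34, k38, k39, k30, k36, k41,
      k42, k44, k46, k47, k49, k4A, k4C, k53, k54, k56, k57, k5D, k5E, pp, Pt.X, Pt.Y, z0, z2, ux_0, uy_0, fu_0, sI_0, d0_1, d0_2, d0_11, d0_13, d0_15, d0_17, d0_18, d0_19]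
    norm_num
  · intro z
    show oS (qq (kp z.1) z.1) (qq (k11 z.1 z.2) z.1) (qq (k0 z.1) z.1) = _
    simp only [oS, qq, qc, qz, k0, kp, k11, k13, k20, k21, k23, k24, k25, k32, k33, k34, k38, k39, k30, k36, k41,
      k42, k44, k46, k47, k49, k4A, k4C, k53, k54, k56, k57, k5D, k5E, pp, Pt.X, Pt.Y]
    norm_num [ux_zero, uy_zero]
    try ring


/-- strict convexity of all modified tiles, in scaled coordinates -/
theorem conv_eventually : ∀ᶠ z in 𝓝 z0, z.1 ≠ 0 → ∀ t : Fin 10, ∀ i j : Fin 6, j ≠ i → j ≠ i + 1 →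
    0 < oS (W z t i) (W z t (i + 1)) (W z t j) := by
  have key : ∀ t : Fin 10, ∀ i j : Fin 6, ∀ᶠ z in 𝓝 z0, z.1 ≠ 0 → j ≠ i → j ≠ i + 1 →
      0 < oS (W z t i) (W z t (i + 1)) (W z t j) := by
    intro t i j
    by_cases h1 : j = i
    · exact Eventually.of_forall (fun z _ h => absurd h1 h)
    by_cases h2 : j = i + 1
    · exact Eventually.of_forall (fun z _ _ h => absurd h2 h)
    rcases oZ_pos t i j h1 h2 with h | h
    · filter_upwards [nondeg t i j h] with z hz _ _ _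
      exact hz
    · have : ∀ᶠ z in 𝓝 z0, z.1 ≠ 0 → 0 < oS (W z t i) (W z t (i + 1)) (W z t j) := by
        simp only [Deg, List.mem_cons, Prod.mk.injEq, List.not_mem_nil, or_false] at h
        rcases h with ⟨rfl, rfl, rfl⟩ | ⟨rfl, rfl, rfl⟩ | ⟨rfl, rfl, rfl⟩ | ⟨rfl, rfl, rfl⟩ |
          ⟨rfl, rfl, rfl⟩ | ⟨rfl, rfl, rfl⟩ | ⟨rfl, rfl, rfl⟩ | ⟨rfl, rfl, rfl⟩ | ⟨rfl, rfl, rfl⟩ |
          ⟨rfl, rfl, rfl⟩ | ⟨rfl, rfl, rfl⟩ | ⟨rfl, rfl, rfl⟩
        · exact deg_0a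
        · exact deg_0b
        · exact deg_2a
        · exact deg_2b
        · exact deg_3a
        · exact deg_3b
        · exact deg_1a
        · exact deg_1b0
        · exact deg_1b1
        · exact deg_1b2
        · exact deg_1b5
        · exact deg_1c
      filter_upwards [this] with z hz h0 _ _
      exact hz h0
  have key' : ∀ᶠ z in 𝓝 z0, ∀ t : Fin 10, ∀ i j : Fin 6, z.1 ≠ 0 → j ≠ i → j ≠ i + 1 →
      0 < oS (W z t i) (W z t (i + 1)) (W z t j) := by
    rw [eventually_all]; intro t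
    rw [eventually_all]; intro i
    rw [eventually_all]; intro j
    exact key t i j
  filter_upwards [key'] with z hz h0 t i j h1 h2
  exact hz t i j h0 h1 h2

/-- the second coordinates of the nodes 23, 24, 25 are increasing -/
theorem flat_eventually : ∀ᶠ z in 𝓝 z0, (k23 z.1 z.2).Y z.1 < (k24 z.1 z.2).Y z.1 ∧
    (k24 z.1 z.2).Y z.1 < (k25 z.1 z.2).Y z.1 ∧ 0 < (k24 z.1 z.2).Y z.1 := by
  have s23 : Sm (fun z => (k23 z.1 z.2).Y z.1) := (W_sm 1 0).2
  have s25 : Sm (fun z => (k25 z.1 z.2).Y z.1) := (W_sm 1 1).2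
  have s24 : Sm (fun z => (k24 z.1 z.2).Y z.1) := (W_sm 5 3).2
  have v23 : (k23 z0.1 z0.2).Y z0.1 = 6 := by
    have := congrArg Prod.snd (W_z0 1 0)
    refine this.trans ?_
    norm_num [Wi]
  have v25 : (k25 z0.1 z0.2).Y z0.1 = 10 := by
    have := congrArg Prod.snd (W_z0 1 1)
    refine this.trans ?_
    norm_num [Wi]
  have v24 : (k24 z0.1 z0.2).Y z0.1 = 8 := by
    have := congrArg Prod.snd (W_z0 5 3)
    refine this.trans ?_
    have h8 : (Wi 5 3).2 = 8 := rfl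
    show (((Wi 5 3).2 : ℤ) : ℝ) = 8
    rw [h8]; norm_num
  have e1 := (s24.sub s23).pos (by show 0 < (k24 z0.1 z0.2).Y z0.1 - (k23 z0.1 z0.2).Y z0.1; rw [v24, v23]; norm_num)
  have e2 := (s25.sub s24).pos (by show 0 < (k25 z0.1 z0.2).Y z0.1 - (k24 z0.1 z0.2).Y z0.1; rw [v24, v25]; norm_num)
  have e3 := s24.pos (by show 0 < (k24 z0.1 z0.2).Y z0.1; rw [v24]; norm_num)
  filter_upwards [e1, e2, e3] with z h1 h2 h3
  exact ⟨by linarith, by linarith, h3⟩

lemma tau_tendsto : Tendsto tau atTop (𝓝 0) := by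
  have h1 : Tendsto (fun c : ℕ => phi c / 2) atTop (𝓝 0) := by
    have : Tendsto (fun c : ℕ => (Real.pi / 6) * (1 / (c : ℝ))) atTop (𝓝 ((Real.pi / 6) * 0)) :=
      tendsto_one_div_atTop_nhds_zero_nat.const_mul _
    rw [mul_zero] at this
    refine this.congr (fun c => ?_)
    rw [phi]
    by_cases hc : (c : ℝ) = 0
    · simp [hc]
    · field_simp; norm_num
  have h2 : ContinuousAt Real.tan 0 := by
    apply Real.continuousAt_tan.mpr
    simp
  have h3 : Tendsto Real.tan (𝓝 0) (𝓝 0) := by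
    have := h2.tendsto
    rwa [Real.tan_zero] at this
  exact h3.comp h1

theorem exists_nodes : ∃ c₀ : ℕ, ∀ c : ℕ, c₀ ≤ c → ∃ N : Nodes, N.Symm c ∧
    (∀ t, SC (V c N t)) ∧ (∀ t, bd cr (V c N t) = 2) ∧ (∀ t, per (V c N t) = Per c) ∧
    N.n24 ∈ openSegment ℝ N.n23 N.n25 ∧ N.n24 ≠ 0 := by
  have h := exists_sol _ (conv_eventually.and flat_eventually)
  have h' := (tau_tendsto.eventually h).and (eventually_ge_atTop 1)
  obtain ⟨c₀, hc₀⟩ := eventually_atTop.mp h'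
  refine ⟨c₀, fun c hc => ?_⟩
  obtain ⟨⟨d, ⟨hconv, hfl⟩, hG⟩, hc1⟩ := hc₀ c hc
  have ht := tau_pos hc1
  have hm := n24_mem hc1 d (congrFun hG 19) hfl.1 hfl.2.1
  refine ⟨NN c d, NN_symm hc1 d, ?_, all_areas hc1 d hG hm, all_pers hc1 d hG hm, hm, ?_⟩
  · intro t i j h1 h2
    rw [V_eq hc1, V_eq hc1, V_eq hc1, ori_ps]
    have := hconv ht.ne' t i j h1 h2
    have he := el_pos hc1
    positivity
  · intro h0
    have h1 : (NN c d).n24.im = 0 := by rw [h0]; rfl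
    have h2 : (NN c d).n24.im = el c * (tau c * (k24 (tau c) d).Y (tau c)) := rfl
    have h3 := hfl.2.2
    have he := el_pos hc1
    have : 0 < (NN c d).n24.im := by rw [h2]; positivity
    linarith

end H52Hex
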