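import Pool.Agent.H52Hex.Defs

/-!
The system of equations for the modified node positions, in scaled coordinates.
-/

namespace H52Hex

open scoped BigOperators Topology

/-- `σ = 2/(1+w)`, so that `sin φ = τ σ`, `cos φ = 1 - w σ` for `τ = tan (φ/2)`, `w = τ²` -/
noncomputable def sI (w : ℝ) : ℝ := 2 / (1 + w)

/-- scaled coordinates of `om ^ n`: `om ^ n = UX n w + i τ UY n w` -/
noncomputable def UX : ℕ → ℝ → ℝ × ℝ
  | 0, _ => (1, 0)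
  | n + 1, w => ((UX n w).1 - w * sI w * ((UX n w).1 + (UX n w).2),
      sI w * (UX n w).1 + (1 - w * sI w) * (UX n w).2)

/-- first scaled coordinate of `om ^ n` -/
noncomputable def ux (n : ℕ) (w : ℝ) : ℝ := (UX n w).1

/-- second scaled coordinate of `om ^ n` -/
noncomputable def uy (n : ℕ) (w : ℝ) : ℝ := (UX n w).2

/-- `ux (n+1) = ux n + w * fu n` -/
noncomputable def fu (n : ℕ) (w : ℝ) : ℝ := - (sI w * (ux n w + uy n w))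

/-- `(√(1+uq) - 1)/u` -/
noncomputable def psi (u q : ℝ) : ℝ := q / (Real.sqrt (1 + u * q) + 1)

/-- `2/√(1+w)` -/
noncomputable def s0 (w : ℝ) : ℝ := 2 / Real.sqrt (1 + w)

/-- length correction of an edge parallel to `om ^ b` -/
noncomputable def rr (t : ℝ) (b : ℕ) (dx dy : ℝ) : ℝ :=
  psi (t ^ 2) (2 * ux b (t ^ 2) * dx + t ^ 2 * dx ^ 2 + 2 * t * uy b (t ^ 2) * dy + t ^ 2 * dy ^ 2)

/-- length correction of an edge parallel to `om ^ (b+1) - om ^ b` -/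
noncomputable def tt (t : ℝ) (b : ℕ) (dx dy : ℝ) : ℝ :=
  s0 (t ^ 2) * psi t ((1 + t ^ 2) / 4 * (2 * (uy (b + 1) (t ^ 2) - uy b (t ^ 2)) * dy + t * dy ^ 2
    + t * (2 * fu b (t ^ 2) * dx + dx ^ 2)))

/-- a node: base coordinates and scaled displacement -/
structure Pt where
  (x y a b : ℝ)

/-- the node `p·om^s + q·om^(s+1)` displaced by `(a, b)` -/
noncomputable def pp (t : ℝ) (s p q : ℕ) (a b : ℝ) : Pt :=
  ⟨p * ux s (t ^ 2) + q * ux (s + 1) (t ^ 2), p * uy s (t ^ 2) + q * uy (s + 1) (t ^ 2), a, b⟩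

/-- actual (scaled) first coordinate -/
def Pt.X (P : Pt) (t : ℝ) : ℝ := P.x + t ^ 2 * P.a

/-- actual (scaled) second coordinate -/
def Pt.Y (P : Pt) (t : ℝ) : ℝ := P.y + t * P.b

/-- area correction of a directed edge -/
def ee (t : ℝ) (A B : Pt) : ℝ :=
  A.x * B.b - B.x * A.b + t * (A.a * B.y - B.a * A.y) + t ^ 2 * (A.a * B.b - B.a * A.b)

noncomputable section

abbrev D := Fin 20 → ℝ

/-- unknowns: a13 a20 a21 b21 b11 a23 b23 a24 b24 a25 b25 a32 b32 a33 b33 a34 b34 a38 b38 a39 -/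
def k0 (t : ℝ) : Pt := pp t 0 0 0 0 0
def kp (t : ℝ) : Pt := pp t 0 0 0 2 0
def k11 (t : ℝ) (d : D) : Pt := pp t 1 1 0 0 (d 4)
def k13 (t : ℝ) (d : D) : Pt := pp t 3 1 0 (d 0 * ux 3 (t ^ 2)) (t * d 0 * uy 3 (t ^ 2))
def k20 (t : ℝ) (d : D) : Pt := pp t 0 2 0 (d 1) 0
def k21 (t : ℝ) (d : D) : Pt := pp t 0 1 1 (d 2) (d 3)
def k23 (t : ℝ) (d : D) : Pt := pp t 1 1 1 (d 5) (d 6)
def k24 (t : ℝ) (d : D) : Pt := pp t 2 2 0 (d 7) (d 8)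
def k25 (t : ℝ) (d : D) : Pt := pp t 2 1 1 (d 9) (d 10)
def k32 (t : ℝ) (d : D) : Pt := pp t 0 1 2 (d 11) (d 12)
def k33 (t : ℝ) (d : D) : Pt := pp t 1 3 0 (d 13) (d 14)
def k34 (t : ℝ) (d : D) : Pt := pp t 1 2 1 (d 15) (d 16)
def k38 (t : ℝ) (d : D) : Pt := pp t 2 1 2 (d 17) (d 18)
def k39 (t : ℝ) (d : D) : Pt := pp t 3 3 0 (d 19 * ux 3 (t ^ 2)) (t * d 19 * uy 3 (t ^ 2))
def k30 (t : ℝ) : Pt := pp t 0 3 0 0 0
def k36 (t : ℝ) : Pt := pp t 2 3 0 0 0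
def k41 (t : ℝ) : Pt := pp t 0 3 1 0 0
def k42 (t : ℝ) : Pt := pp t 0 2 2 0 0
def k44 (t : ℝ) : Pt := pp t 1 4 0 0 0
def k46 (t : ℝ) : Pt := pp t 1 2 2 0 0
def k47 (t : ℝ) : Pt := pp t 1 1 3 0 0
def k49 (t : ℝ) : Pt := pp t 2 3 1 0 0
def k4A (t : ℝ) : Pt := pp t 2 2 2 0 0
def k4C (t : ℝ) : Pt := pp t 3 4 0 0 0
def k53 (t : ℝ) : Pt := pp t 0 2 3 0 0
def k54 (t : ℝ) : Pt := pp t 0 1 4 0 0
def k56 (t : ℝ) : Pt := pp t 1 4 1 0 0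
def k57 (t : ℝ) : Pt := pp t 1 3 2 0 0
def k5D (t : ℝ) : Pt := pp t 2 2 3 0 0
def k5E (t : ℝ) : Pt := pp t 2 1 4 0 0

/-- length correction of the edge `A B` with `B - A` parallel to `om ^ b` -/
def er (t : ℝ) (b : ℕ) (A B : Pt) : ℝ := rr t b (B.a - A.a) (B.b - A.b)

/-- length correction of the edge `A B` with `B - A` parallel to `om ^ (b+1) - om ^ b` -/
def et (t : ℝ) (b : ℕ) (A B : Pt) : ℝ := tt t b (B.a - A.a) (B.b - A.b)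

/-! perimeters -/
def g0 (t : ℝ) (d : D) : ℝ :=
  et t 0 (k20 t d) (k21 t d) + er t 0 (k11 t d) (k21 t d) + er t 1 (kp t) (k11 t d)
def g1 (t : ℝ) (d : D) : ℝ :=
  et t 1 (k23 t d) (k24 t d) + et t 2 (k24 t d) (k25 t d) + er t 2 (k13 t d) (k25 t d)
    + er t 3 (k0 t) (k13 t d) + 2 + er t 1 (kp t) (k11 t d) + er t 2 (k11 t d) (k23 t d)
def g2 (t : ℝ) (d : D) : ℝ :=
  et t 0 (k32 t d) (k33 t d) + et t 1 (k33 t d) (k34 t d) + er t 1 (k23 t d) (k34 t d)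
    + er t 2 (k11 t d) (k23 t d) + er t 0 (k11 t d) (k21 t d) + er t 1 (k21 t d) (k32 t d)
def g3 (t : ℝ) (d : D) : ℝ :=
  er t 2 (k13 t d) (k25 t d) + er t 3 (k25 t d) (k38 t d) + et t 2 (k38 t d) (k39 t d)
def g4 (t : ℝ) (d : D) : ℝ :=
  er t 0 (k32 t d) (k42 t) + er t 1 (k21 t d) (k32 t d) + et t 0 (k20 t d) (k21 t d)
    + er t 0 (k20 t d) (k30 t)
def g5 (t : ℝ) (d : D) : ℝ :=
  er t 2 (k24 t d) (k36 t) + et t 1 (k23 t d) (k24 t d) + er t 1 (k23 t d) (k34 t d)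
    + er t 2 (k34 t d) (k46 t)
def g6 (t : ℝ) (d : D) : ℝ :=
  er t 2 (k38 t d) (k4A t) + er t 3 (k25 t d) (k38 t d) + et t 2 (k24 t d) (k25 t d)
    + er t 2 (k24 t d) (k36 t)
def g7 (t : ℝ) (d : D) : ℝ :=
  er t 1 (k33 t d) (k44 t) + et t 0 (k32 t d) (k33 t d) + er t 0 (k32 t d) (k42 t)
def g8 (t : ℝ) (d : D) : ℝ :=
  er t 2 (k34 t d) (k46 t) + et t 1 (k33 t d) (k34 t d) + er t 1 (k33 t d) (k44 t)
def g9 (t : ℝ) (d : D) : ℝ :=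
  er t 3 (k39 t d) (k4C t) + et t 2 (k38 t d) (k39 t d) + er t 2 (k38 t d) (k4A t)

/-! areas -/
def g10 (t : ℝ) (d : D) : ℝ :=
  ee t (k23 t d) (k24 t d) + ee t (k24 t d) (k25 t d) + ee t (k25 t d) (k13 t d)
    + ee t (kp t) (k11 t d) + ee t (k11 t d) (k23 t d)
def g11 (t : ℝ) (d : D) : ℝ :=
  ee t (k32 t d) (k33 t d) + ee t (k33 t d) (k34 t d) + ee t (k34 t d) (k23 t d)
    + ee t (k23 t d) (k11 t d) + ee t (k11 t d) (k21 t d) + ee t (k21 t d) (k32 t d)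
def g12 (t : ℝ) (d : D) : ℝ :=
  ee t (k13 t d) (k25 t d) + ee t (k25 t d) (k38 t d) + ee t (k38 t d) (k39 t d)
def g13 (t : ℝ) (d : D) : ℝ :=
  ee t (k42 t) (k32 t d) + ee t (k32 t d) (k21 t d) + ee t (k21 t d) (k20 t d)
def g14 (t : ℝ) (d : D) : ℝ :=
  ee t (k36 t) (k24 t d) + ee t (k24 t d) (k23 t d) + ee t (k23 t d) (k34 t d)
    + ee t (k34 t d) (k46 t)
def g15 (t : ℝ) (d : D) : ℝ :=
  ee t (k4A t) (k38 t d) + ee t (k38 t d) (k25 t d) + ee t (k25 t d) (k24 t d)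
    + ee t (k24 t d) (k36 t)
def g16 (t : ℝ) (d : D) : ℝ :=
  ee t (k44 t) (k33 t d) + ee t (k33 t d) (k32 t d) + ee t (k32 t d) (k42 t)
def g17 (t : ℝ) (d : D) : ℝ :=
  ee t (k46 t) (k34 t d) + ee t (k34 t d) (k33 t d) + ee t (k33 t d) (k44 t)

/-- area correction of half of the tile of type 0 -/
def gY (t : ℝ) (d : D) : ℝ :=
  ee t (k20 t d) (k21 t d) + ee t (k21 t d) (k11 t d) + ee t (k11 t d) (kp t)

/-- area correction of the tile of type 9 -/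
def gW (t : ℝ) (d : D) : ℝ :=
  ee t (k39 t d) (k38 t d) + ee t (k38 t d) (k4A t)

/-- bilinear part of an area correction -/
def bb (A B : Pt) : ℝ := A.a * B.b - B.a * A.b

/-- the moment equation, divided by `t` -/
def g18 (t : ℝ) (d : D) : ℝ :=
  t * (d 4 * (fu 0 (t ^ 2) + fu 1 (t ^ 2)) + 3 * d 3 * fu 0 (t ^ 2) + 3 * d 6 * fu 1 (t ^ 2)
    + 2 * d 8 * (fu 1 (t ^ 2) + fu 2 (t ^ 2)) + 3 * d 10 * fu 2 (t ^ 2) + 3 * d 12 * fu 0 (t ^ 2)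
    + 2 * d 14 * (fu 0 (t ^ 2) + fu 1 (t ^ 2)) + 3 * d 16 * fu 1 (t ^ 2) + 3 * d 18 * fu 2 (t ^ 2))
  - (3 * d 2 * (uy 1 (t ^ 2) - uy 0 (t ^ 2)) + 3 * d 5 * (uy 2 (t ^ 2) - uy 1 (t ^ 2))
    + 2 * d 7 * (uy 3 (t ^ 2) - uy 1 (t ^ 2)) + 3 * d 9 * (uy 3 (t ^ 2) - uy 2 (t ^ 2))
    + 3 * d 11 * (uy 1 (t ^ 2) - uy 0 (t ^ 2)) + 2 * d 13 * (uy 2 (t ^ 2) - uy 0 (t ^ 2))
    + 3 * d 15 * (uy 2 (t ^ 2) - uy 1 (t ^ 2)) + 3 * d 17 * (uy 3 (t ^ 2) - uy 2 (t ^ 2)))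
  - sI (t ^ 2) * (d 0 + 2 * d 19 + 2 * d 1)
  - t * (2 * bb (k20 t d) (k21 t d) + bb (k21 t d) (k11 t d) + 2 * bb (k23 t d) (k24 t d)
    + 2 * bb (k24 t d) (k25 t d) + bb (k25 t d) (k13 t d) + bb (k11 t d) (k23 t d)
    + 2 * bb (k32 t d) (k33 t d) + 2 * bb (k33 t d) (k34 t d) + bb (k34 t d) (k23 t d)
    + bb (k21 t d) (k32 t d) + bb (k25 t d) (k38 t d) + 2 * bb (k38 t d) (k39 t d))

/-- flatness at `k24` -/
def g19 (t : ℝ) (d : D) : ℝ :=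
  (- fu 1 (t ^ 2) + d 5 - d 7) * ((k25 t d).Y t - (k24 t d).Y t)
    - ((k23 t d).Y t - (k24 t d).Y t) * (fu 2 (t ^ 2) + d 9 - d 7)

/-- the whole system -/
def G (t : ℝ) (d : D) : Fin 20 → ℝ :=
  ![g0 t d, g1 t d, g2 t d, g3 t d, g4 t d, g5 t d, g6 t d, g7 t d, g8 t d, g9 t d,
    g10 t d, g11 t d, g12 t d, g13 t d, g14 t d, g15 t d, g16 t d, g17 t d, g18 t d, g19 t d]

/-- the base solution -/
def d0 : D := ![-1, 2/3, 2/3, 4/3, -2/3, 0, 4/3, -4/3, 0, 4/3, 0, 0, -2/3, 0, -2/3, 0, -2/3, -1, 0, 1]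

end

end H52Hex
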