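import Pool.Agent.H52Hex.Defs
import Pool.Agent.H52Hex.Sector

/-!
The modified patch around the origin and the combinatorial identity.
-/

namespace H52Hex

open scoped BigOperators ComplexConjugate

variable {c : ℕ}

/-- rotation by six sectors, `2π/c` -/
noncomputable def zt (c : ℕ) : ℂ := om c ^ 6

/-- lattice node number `y` of level `n`, in the half-sector `0 ≤ y ≤ 3n` (sectors 0,1,2 and ray 3) -/
noncomputable def nd (c : ℕ) (n y : ℕ) : ℂ :=
  el c * om c ^ (y / n) * (((n - y % n : ℕ) : ℂ) + ((y % n : ℕ) : ℂ) * om c)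

/-- positions of the moved nodes in the half-sector -/
structure Nodes where
  (p1 e1 e3 n20 n21 n23 n24 n25 n32 n33 n34 n38 n39 : ℂ)

/-- the symmetry assumptions: `p1`, `n20` on the real axis, `e3`, `n39` on ray 3 -/
structure Nodes.Symm (c : ℕ) (N : Nodes) : Prop where
  hp1 : conj N.p1 = N.p1
  h20 : conj N.n20 = N.n20
  he3 : zt c * conj N.e3 = N.e3
  h39 : zt c * conj N.n39 = N.n39

/-- the ten types of modified tiles -/
noncomputable def V (c : ℕ) (N : Nodes) : Fin 10 → Fin 6 → ℂ :=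
  ![![conj N.n21, N.n20, N.n21, N.e1, N.p1, conj N.e1],
    ![N.n23, N.n25, N.e3, 0, N.p1, N.e1],
    ![N.n32, N.n33, N.n34, N.n23, N.e1, N.n21],
    ![N.n38, N.n39, zt c * conj N.n38, zt c * conj N.n25, N.e3, N.n25],
    ![nd c 4 1, nd c 4 2, N.n32, N.n21, N.n20, nd c 3 0],
    ![nd c 4 6, nd c 4 7, nd c 3 6, N.n24, N.n23, N.n34],
    ![nd c 4 9, nd c 4 10, N.n38, N.n25, N.n24, nd c 3 6],
    ![nd c 5 3, nd c 5 4, nd c 4 4, N.n33, N.n32, nd c 4 2],
    ![nd c 5 6, nd c 5 7, nd c 4 6, N.n34, N.n33, nd c 4 4],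
    ![nd c 5 13, nd c 5 14, nd c 4 12, N.n39, N.n38, nd c 4 10]]

/-- the types whose mirror images are further tiles -/
def mt : Fin 8 → Fin 10 := ![1, 2, 4, 5, 6, 7, 8, 9]

/-- the modified tiles: rotated copies of all ten types, and of the mirror images of eight of them
(traversed backwards, to keep them counterclockwise) -/
noncomputable def modV (c : ℕ) (N : Nodes) : ZMod c × (Fin 10 ⊕ Fin 8) → Fin 6 → ℂ
  | (j, Sum.inl t) => fun i => zt c ^ j.val * V c N t i
  | (j, Sum.inr t) => fun i => zt c ^ j.val * conj (V c N (mt t) (-i))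

/-- the centers of the base tiles that are replaced -/
def affT {c : ℕ} (a : Sec c) (k : Fin 3) : Sec c × ℕ × ℕ :=
  (a, if ev a then ![(1, 0), (2, 1), (1, 3)] k else ![(2, 0), (1, 2), (3, 1)] k)

lemma affT_injective : Function.Injective (fun x : Sec c × Fin 3 => affT x.1 x.2) := by
  rintro ⟨a, k⟩ ⟨b, l⟩ h
  simp only [affT, Prod.mk.injEq] at h
  obtain ⟨rfl, h⟩ := h
  refine Prod.ext rfl ?_
  simp only
  by_cases he : ev a
  · rw [if_pos he, if_pos he] at h
    revert h
    revert k l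
    decide
  · rw [if_neg he, if_neg he] at h
    revert h
    revert k l
    decide

lemma affT_ctr (a : Sec c) (k : Fin 3) : IsCtr (affT a k) := by
  unfold IsCtr affT
  by_cases he : ev a
  · simp only [he, if_true]
    revert k
    decide
  · simp only [he]
    revert k
    decide

private lemma patch_bd (F : ℂ → ℂ → ℝ) (v : Fin 6 → ℂ) :
    bd F v = F (v 0) (v 1) + F (v 1) (v 2) + F (v 2) (v 3) + F (v 3) (v 4) + F (v 4) (v 5)
      + F (v 5) (v 0) := by
  unfold bd
  rw [Fin.sum_univ_six]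
  rfl

/-- first half boundary -/
private def patch_h0 (N : Nodes) (G : ℂ → ℂ → ℝ) : ℝ :=
  G N.n20 N.n21 + G N.n21 N.e1 + G N.e1 N.p1

/-- second half boundary -/
private def patch_h3 (N : Nodes) (G : ℂ → ℂ → ℝ) : ℝ :=
  G N.n38 N.n39 + G N.e3 N.n25 + G N.n25 N.n38

/-- the first full tile with the extra vertex -/
private def patch_s1 (N : Nodes) (G : ℂ → ℂ → ℝ) : ℝ :=
  G N.n23 N.n24 + G N.n24 N.n25 + G N.n25 N.e3 + G N.e3 0 + G 0 N.p1 + G N.p1 N.e1 + G N.e1 N.n23

/-- the full tiles -/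
private noncomputable def patch_core (c : ℕ) (N : Nodes) (G : ℂ → ℂ → ℝ) : ℝ :=
  patch_s1 N G + bd G (V c N 2) + bd G (V c N 4) + bd G (V c N 5) + bd G (V c N 6)
    + bd G (V c N 7) + bd G (V c N 8) + bd G (V c N 9)

/-- the fixed edges -/
private noncomputable def patch_fix (c : ℕ) (G : ℂ → ℂ → ℝ) : ℝ :=
  G (nd c 4 1) (nd c 4 2) + G (nd c 3 0) (nd c 4 1) + G (nd c 4 6) (nd c 4 7)
    + G (nd c 4 7) (nd c 3 6) + G (nd c 4 9) (nd c 4 10) + G (nd c 3 6) (nd c 4 9)
    + G (nd c 5 3) (nd c 5 4) + G (nd c 5 4) (nd c 4 4) + G (nd c 4 2) (nd c 5 3)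
    + G (nd c 5 6) (nd c 5 7) + G (nd c 5 7) (nd c 4 6) + G (nd c 4 4) (nd c 5 6)
    + G (nd c 5 13) (nd c 5 14) + G (nd c 5 14) (nd c 4 12) + G (nd c 4 10) (nd c 5 13)

private lemma patch_cancel (c : ℕ) (N : Nodes) (G : ℂ → ℂ → ℝ) (hG : ∀ a b, G b a = - G a b) :
    patch_core c N G + patch_h0 N G + patch_h3 N G = patch_fix c G + G 0 N.p1
      + G N.n20 (nd c 3 0) + G N.e3 0 + G (nd c 4 12) N.n39 := by
  unfold patch_core patch_h0 patch_h3 patch_s1 patch_fix
  simp only [patch_bd]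
  simp only [V, Matrix.cons_val_zero, Matrix.cons_val_one, Matrix.cons_val]
  linarith [hG N.n23 N.n24, hG N.n24 N.n25, hG N.n25 N.e3, hG N.p1 N.e1, hG N.e1 N.n23,
    hG N.n32 N.n33, hG N.n33 N.n34, hG N.n34 N.n23, hG N.e1 N.n21, hG N.n21 N.n32,
    hG (nd c 4 2) N.n32, hG N.n21 N.n20, hG (nd c 3 6) N.n24, hG N.n34 (nd c 4 6),
    hG (nd c 4 10) N.n38, hG N.n38 N.n25, hG (nd c 4 4) N.n33, hG N.n39 N.n38]

/-- the function seen through the rotation `j` -/
private noncomputable def patch_P (c : ℕ) (F : ℂ → ℂ → ℝ) (j : ZMod c) (a b : ℂ) : ℝ :=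
  F (zt c ^ j.val * a) (zt c ^ j.val * b)

/-- the function seen through the reflection `j` -/
private noncomputable def patch_M (c : ℕ) (F : ℂ → ℂ → ℝ) (j : ZMod c) (a b : ℂ) : ℝ :=
  F (zt c ^ j.val * conj a) (zt c ^ j.val * conj b)

private lemma patch_P_anti {F : ℂ → ℂ → ℝ} (hF : ∀ a b, F b a = - F a b) (j : ZMod c) (a b : ℂ) :
    patch_P c F j b a = - patch_P c F j a b := hF _ _

private lemma patch_M_anti {F : ℂ → ℂ → ℝ} (hF : ∀ a b, F b a = - F a b) (j : ZMod c) (a b : ℂ) :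
    patch_M c F j b a = - patch_M c F j a b := hF _ _

private lemma patch_zt_succ [NeZero c] (j : ZMod c) :
    zt c ^ (j + 1).val = zt c * zt c ^ j.val := by
  have hc : 1 ≤ c := Nat.one_le_iff_ne_zero.mpr (NeZero.ne c)
  have h1 : zt c ^ c = 1 := by
    unfold zt
    rw [← pow_mul]
    exact om_pow hc
  have h2 : (j + 1).val = (j.val + 1) % c := by
    rw [ZMod.val_add, ZMod.val_one_eq_one_mod, Nat.add_mod_mod]
  rw [h2, ← pow_eq_pow_mod _ h1, pow_succ, mul_comm]

private lemma patch_mirror {F : ℂ → ℂ → ℝ} (hF : ∀ a b, F b a = - F a b) (j : ZMod c)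
    (v : Fin 6 → ℂ) :
    bd F (fun i => zt c ^ j.val * conj (v (-i))) = - bd (patch_M c F j) v := by
  rw [patch_bd, patch_bd]
  unfold patch_M
  have e0 : (-0 : Fin 6) = 0 := rfl
  have e1 : (-1 : Fin 6) = 5 := rfl
  have e2 : (-2 : Fin 6) = 4 := rfl
  have e3 : (-3 : Fin 6) = 3 := rfl
  have e4 : (-4 : Fin 6) = 2 := rfl
  have e5 : (-5 : Fin 6) = 1 := rfl
  rw [e0, e1, e2, e3, e4, e5]
  linarith [hF (zt c ^ j.val * conj (v 0)) (zt c ^ j.val * conj (v 1)),
    hF (zt c ^ j.val * conj (v 1)) (zt c ^ j.val * conj (v 2)),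
    hF (zt c ^ j.val * conj (v 2)) (zt c ^ j.val * conj (v 3)),
    hF (zt c ^ j.val * conj (v 3)) (zt c ^ j.val * conj (v 4)),
    hF (zt c ^ j.val * conj (v 4)) (zt c ^ j.val * conj (v 5)),
    hF (zt c ^ j.val * conj (v 5)) (zt c ^ j.val * conj (v 0))]

private lemma patch_mirror1 {F : ℂ → ℂ → ℝ} (hF : ∀ a b, F b a = - F a b) (j : ZMod c)
    (v : Fin 6 → ℂ) :
    bd F (fun i => zt c ^ j.val * conj (v (1 - i))) = - bd (patch_M c F j) v := by
  rw [patch_bd, patch_bd]
  unfold patch_M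
  have e0 : (1 - 0 : Fin 6) = 1 := rfl
  have e1 : (1 - 1 : Fin 6) = 0 := rfl
  have e2 : (1 - 2 : Fin 6) = 5 := rfl
  have e3 : (1 - 3 : Fin 6) = 4 := rfl
  have e4 : (1 - 4 : Fin 6) = 3 := rfl
  have e5 : (1 - 5 : Fin 6) = 2 := rfl
  rw [e0, e1, e2, e3, e4, e5]
  linarith [hF (zt c ^ j.val * conj (v 0)) (zt c ^ j.val * conj (v 1)),
    hF (zt c ^ j.val * conj (v 1)) (zt c ^ j.val * conj (v 2)),
    hF (zt c ^ j.val * conj (v 2)) (zt c ^ j.val * conj (v 3)),
    hF (zt c ^ j.val * conj (v 3)) (zt c ^ j.val * conj (v 4)),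
    hF (zt c ^ j.val * conj (v 4)) (zt c ^ j.val * conj (v 5)),
    hF (zt c ^ j.val * conj (v 5)) (zt c ^ j.val * conj (v 0))]

private lemma patch_mirror2 {F : ℂ → ℂ → ℝ} (hF : ∀ a b, F b a = - F a b) (j : ZMod c)
    (v : Fin 6 → ℂ) :
    bd F (fun i => zt c ^ j.val * conj (v (2 - i))) = - bd (patch_M c F j) v := by
  rw [patch_bd, patch_bd]
  unfold patch_M
  have e0 : (2 - 0 : Fin 6) = 2 := rfl
  have e1 : (2 - 1 : Fin 6) = 1 := rfl
  have e2 : (2 - 2 : Fin 6) = 0 := rfl
  have e3 : (2 - 3 : Fin 6) = 5 := rfl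
  have e4 : (2 - 4 : Fin 6) = 4 := rfl
  have e5 : (2 - 5 : Fin 6) = 3 := rfl
  rw [e0, e1, e2, e3, e4, e5]
  linarith [hF (zt c ^ j.val * conj (v 0)) (zt c ^ j.val * conj (v 1)),
    hF (zt c ^ j.val * conj (v 1)) (zt c ^ j.val * conj (v 2)),
    hF (zt c ^ j.val * conj (v 2)) (zt c ^ j.val * conj (v 3)),
    hF (zt c ^ j.val * conj (v 3)) (zt c ^ j.val * conj (v 4)),
    hF (zt c ^ j.val * conj (v 4)) (zt c ^ j.val * conj (v 5)),
    hF (zt c ^ j.val * conj (v 5)) (zt c ^ j.val * conj (v 0))]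

private lemma patch_type0 {N : Nodes} (hN : N.Symm c) {F : ℂ → ℂ → ℝ}
    (hF : ∀ a b, F b a = - F a b) (j : ZMod c) :
    bd (patch_P c F j) (V c N 0) = patch_h0 N (patch_P c F j) - patch_h0 N (patch_M c F j) := by
  rw [patch_bd]
  simp only [V, Matrix.cons_val_zero, Matrix.cons_val_one, Matrix.cons_val]
  unfold patch_h0 patch_P patch_M
  rw [hN.h20, hN.hp1]
  linarith [hF (zt c ^ j.val * conj N.n21) (zt c ^ j.val * N.n20),
    hF (zt c ^ j.val * conj N.e1) (zt c ^ j.val * N.p1),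
    hF (zt c ^ j.val * conj N.n21) (zt c ^ j.val * conj N.e1)]

private lemma patch_type3 [NeZero c] {N : Nodes} (hN : N.Symm c) {F : ℂ → ℂ → ℝ}
    (hF : ∀ a b, F b a = - F a b) (j : ZMod c) :
    bd (patch_P c F j) (V c N 3) = patch_h3 N (patch_P c F j) - patch_h3 N (patch_M c F (j + 1)) := by
  rw [patch_bd]
  simp only [V, Matrix.cons_val_zero, Matrix.cons_val_one, Matrix.cons_val]
  unfold patch_h3 patch_P patch_M
  rw [patch_zt_succ]
  have e1 : ∀ z : ℂ, zt c * zt c ^ j.val * conj z = zt c ^ j.val * (zt c * conj z) := by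
    intro z; ring
  simp only [e1]
  rw [hN.he3, hN.h39]
  linarith [hF (zt c ^ j.val * N.n39) (zt c ^ j.val * (zt c * conj N.n38)),
    hF (zt c ^ j.val * (zt c * conj N.n38)) (zt c ^ j.val * (zt c * conj N.n25)),
    hF (zt c ^ j.val * (zt c * conj N.n25)) (zt c ^ j.val * N.e3)]

private lemma patch_conj_om (c : ℕ) : conj (om c) = (om c)⁻¹ :=
  (Complex.inv_eq_conj (norm_om c)).symm

private lemma patch_shift [NeZero c] (f : ZMod c → ℝ) : ∑ j : ZMod c, f (j + 1) = ∑ j, f j :=
  Equiv.sum_comp (Equiv.addRight (1 : ZMod c)) f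

/-- the total depends only on the fixed edges -/
private lemma patch_total [NeZero c] {N : Nodes} (hN : N.Symm c) {F : ℂ → ℂ → ℝ}
    (hF : ∀ a b, F b a = - F a b) :
    ∑ j : ZMod c, ((patch_core c N (patch_P c F j) + patch_h0 N (patch_P c F j)
        + patch_h3 N (patch_P c F j))
      - (patch_core c N (patch_M c F j) + patch_h0 N (patch_M c F j) + patch_h3 N (patch_M c F j)))
      = ∑ j : ZMod c, (patch_fix c (patch_P c F j) - patch_fix c (patch_M c F j)) := by
  have hom := om_ne_zero c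
  have h1 : ∀ j : ZMod c, patch_P c F j 0 N.p1 = patch_M c F j 0 N.p1 := by
    intro j
    unfold patch_P patch_M
    rw [hN.hp1, map_zero]
  have h2 : ∀ j : ZMod c, patch_P c F j N.n20 (nd c 3 0) = patch_M c F j N.n20 (nd c 3 0) := by
    intro j
    unfold patch_P patch_M
    have : conj (nd c 3 0) = nd c 3 0 := by
      simp [nd, Complex.conj_ofReal, map_ofNat]
    rw [hN.h20, this]
  have h3 : ∀ j : ZMod c, patch_P c F j N.e3 0 = patch_M c F (j + 1) N.e3 0 := by
    intro j
    unfold patch_P patch_M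
    rw [patch_zt_succ, map_zero, mul_zero, mul_zero]
    have : zt c * zt c ^ j.val * conj N.e3 = zt c ^ j.val * (zt c * conj N.e3) := by ring
    rw [this, hN.he3]
  have h4 : ∀ j : ZMod c, patch_P c F j (nd c 4 12) N.n39 = patch_M c F (j + 1) (nd c 4 12) N.n39 := by
    intro j
    unfold patch_P patch_M
    rw [patch_zt_succ]
    have e1 : ∀ z : ℂ, zt c * zt c ^ j.val * conj z = zt c ^ j.val * (zt c * conj z) := by
      intro z; ring
    have e2 : zt c * conj (nd c 4 12) = nd c 4 12 := by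
      simp only [nd, zt]
      norm_num [Complex.conj_ofReal, map_ofNat]
      rw [patch_conj_om]
      field_simp
    rw [e1, e1, hN.h39, e2]
  have hs3 := patch_shift (fun j : ZMod c => patch_M c F j N.e3 0)
  have hs4 := patch_shift (fun j : ZMod c => patch_M c F j (nd c 4 12) N.n39)
  simp only [← h3] at hs3
  simp only [← h4] at hs4
  have hj : ∀ j : ZMod c, ((patch_core c N (patch_P c F j) + patch_h0 N (patch_P c F j)
        + patch_h3 N (patch_P c F j))
      - (patch_core c N (patch_M c F j) + patch_h0 N (patch_M c F j) + patch_h3 N (patch_M c F j)))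
      = (patch_fix c (patch_P c F j) - patch_fix c (patch_M c F j))
        + (patch_P c F j N.e3 0 - patch_M c F j N.e3 0)
        + (patch_P c F j (nd c 4 12) N.n39 - patch_M c F j (nd c 4 12) N.n39) := by
    intro j
    rw [patch_cancel c N _ (patch_P_anti hF j), patch_cancel c N _ (patch_M_anti hF j)]
    linarith [h1 j, h2 j]
  simp only [hj, Finset.sum_add_distrib, Finset.sum_sub_distrib]
  linarith

/-- the unmoved nodes -/
private noncomputable def patch_Nb (c : ℕ) : Nodes where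
  p1 := 0
  e1 := nd c 1 1
  e3 := nd c 1 3
  n20 := nd c 2 0
  n21 := nd c 2 1
  n23 := nd c 2 3
  n24 := nd c 2 4
  n25 := nd c 2 5
  n32 := nd c 3 2
  n33 := nd c 3 3
  n34 := nd c 3 4
  n38 := nd c 3 8
  n39 := nd c 3 9

private lemma patch_Nb_symm (c : ℕ) : (patch_Nb c).Symm c where
  hp1 := by simp [patch_Nb]
  h20 := by simp [patch_Nb, nd, Complex.conj_ofReal, map_ofNat]
  he3 := by
    have hom := om_ne_zero c
    simp only [patch_Nb, nd, zt]
    norm_num [Complex.conj_ofReal, map_ofNat]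
    rw [patch_conj_om]
    field_simp
  h39 := by
    have hom := om_ne_zero c
    simp only [patch_Nb, nd, zt]
    norm_num [Complex.conj_ofReal, map_ofNat]
    rw [patch_conj_om]
    field_simp

private lemma patch_rot (j : ZMod c) (r : Fin 6) :
    rot c (j, r) = zt c ^ j.val * om c ^ r.val := by
  unfold rot zt
  rw [pow_add, pow_mul]

/-- the unmodified first tile -/
private noncomputable def patch_V1 (c : ℕ) : Fin 6 → ℂ :=
  ![nd c 2 3, nd c 2 4, nd c 2 5, nd c 1 3, 0, nd c 1 1]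

private lemma patch_V1_bd (c : ℕ) (G : ℂ → ℂ → ℝ) (hG : ∀ a b, G b a = - G a b) :
    bd G (patch_V1 c) = patch_s1 (patch_Nb c) G := by
  have h0 : G 0 0 = 0 := by linarith [hG 0 0]
  rw [patch_bd]
  unfold patch_s1 patch_V1 patch_Nb
  simp only [Matrix.cons_val_zero, Matrix.cons_val_one, Matrix.cons_val]
  linarith

private lemma patch_b20 (j : ZMod c) :
    baseV c (affT (j, 2) 0) = fun i => zt c ^ j.val * patch_V1 c i := by
  have hom := om_ne_zero c
  rw [show affT ((j, 2) : Sec c) 0 = ((j, 2), 1, 0) from by simp [affT, ev]]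
  funext i
  fin_cases i <;> simp [baseV, patch_rot, shape0, nd, patch_V1] <;> field_simp <;> ring

private lemma patch_b40 [NeZero c] (j : ZMod c) :
    baseV c (affT (j, 4) 0) = fun i => zt c ^ (j + 1).val * conj (patch_V1 c (2 - i)) := by
  have hom := om_ne_zero c
  rw [show affT ((j, 4) : Sec c) 0 = ((j, 4), 1, 0) from by simp [affT, ev], patch_zt_succ]
  funext i
  fin_cases i <;> simp [baseV, patch_rot, shape0, nd, patch_V1, Complex.conj_ofReal, map_ofNat,
    patch_conj_om, zt] <;> field_simp <;> ring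

private lemma patch_b00 (j : ZMod c) :
    baseV c (affT (j, 0) 0) = fun i => zt c ^ j.val * V c (patch_Nb c) 0 i := by
  have hom := om_ne_zero c
  rw [show affT ((j, 0) : Sec c) 0 = ((j, 0), 1, 0) from by simp [affT, ev],
    show V c (patch_Nb c) 0 = ![conj (nd c 2 1), nd c 2 0, nd c 2 1, nd c 1 1, 0, conj (nd c 1 1)] from rfl]
  funext i
  fin_cases i <;> simp [baseV, patch_rot, shape0, nd, Complex.conj_ofReal, map_ofNat,
    patch_conj_om, zt] <;> field_simp <;> ring

private lemma patch_b01 (j : ZMod c) :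
    baseV c (affT (j, 0) 1) = fun i => zt c ^ j.val * V c (patch_Nb c) 4 i := by
  have hom := om_ne_zero c
  rw [show affT ((j, 0) : Sec c) 1 = ((j, 0), 2, 1) from by simp [affT, ev],
    show V c (patch_Nb c) 4 = ![nd c 4 1, nd c 4 2, nd c 3 2, nd c 2 1, nd c 2 0, nd c 3 0] from rfl]
  funext i
  fin_cases i <;> simp [baseV, patch_rot, shape1, nd, Complex.conj_ofReal, map_ofNat,
    patch_conj_om, zt] <;> field_simp <;> ring

private lemma patch_b02 (j : ZMod c) :
    baseV c (affT (j, 0) 2) = fun i => zt c ^ j.val * V c (patch_Nb c) 7 i := by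
  have hom := om_ne_zero c
  rw [show affT ((j, 0) : Sec c) 2 = ((j, 0), 1, 3) from by simp [affT, ev],
    show V c (patch_Nb c) 7 = ![nd c 5 3, nd c 5 4, nd c 4 4, nd c 3 3, nd c 3 2, nd c 4 2] from rfl]
  funext i
  fin_cases i <;> simp [baseV, patch_rot, shape1, nd, Complex.conj_ofReal, map_ofNat,
    patch_conj_om, zt] <;> field_simp <;> ring

private lemma patch_b10 (j : ZMod c) :
    baseV c (affT (j, 1) 0) = fun i => zt c ^ j.val * V c (patch_Nb c) 2 i := by
  have hom := om_ne_zero c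
  rw [show affT ((j, 1) : Sec c) 0 = ((j, 1), 2, 0) from by simp [affT, ev],
    show V c (patch_Nb c) 2 = ![nd c 3 2, nd c 3 3, nd c 3 4, nd c 2 3, nd c 1 1, nd c 2 1] from rfl]
  funext i
  fin_cases i <;> simp [baseV, patch_rot, shape0, nd, Complex.conj_ofReal, map_ofNat,
    patch_conj_om, zt] <;> field_simp <;> ring

private lemma patch_b11 (j : ZMod c) :
    baseV c (affT (j, 1) 1) = fun i => zt c ^ j.val * V c (patch_Nb c) 5 i := by
  have hom := om_ne_zero c
  rw [show affT ((j, 1) : Sec c) 1 = ((j, 1), 1, 2) from by simp [affT, ev],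
    show V c (patch_Nb c) 5 = ![nd c 4 6, nd c 4 7, nd c 3 6, nd c 2 4, nd c 2 3, nd c 3 4] from rfl]
  funext i
  fin_cases i <;> simp [baseV, patch_rot, shape1, nd, Complex.conj_ofReal, map_ofNat,
    patch_conj_om, zt] <;> field_simp <;> ring

private lemma patch_b12 (j : ZMod c) :
    baseV c (affT (j, 1) 2) = fun i => zt c ^ j.val * V c (patch_Nb c) 8 i := by
  have hom := om_ne_zero c
  rw [show affT ((j, 1) : Sec c) 2 = ((j, 1), 3, 1) from by simp [affT, ev],
    show V c (patch_Nb c) 8 = ![nd c 5 6, nd c 5 7, nd c 4 6, nd c 3 4, nd c 3 3, nd c 4 4] from rfl]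
  funext i
  fin_cases i <;> simp [baseV, patch_rot, shape1, nd, Complex.conj_ofReal, map_ofNat,
    patch_conj_om, zt] <;> field_simp <;> ring

private lemma patch_b21 (j : ZMod c) :
    baseV c (affT (j, 2) 1) = fun i => zt c ^ j.val * V c (patch_Nb c) 6 i := by
  have hom := om_ne_zero c
  rw [show affT ((j, 2) : Sec c) 1 = ((j, 2), 2, 1) from by simp [affT, ev],
    show V c (patch_Nb c) 6 = ![nd c 4 9, nd c 4 10, nd c 3 8, nd c 2 5, nd c 2 4, nd c 3 6] from rfl]
  funext i
  fin_cases i <;> simp [baseV, patch_rot, shape1, nd, Complex.conj_ofReal, map_ofNat,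
    patch_conj_om, zt] <;> field_simp <;> ring

private lemma patch_b22 (j : ZMod c) :
    baseV c (affT (j, 2) 2) = fun i => zt c ^ j.val * V c (patch_Nb c) 9 i := by
  have hom := om_ne_zero c
  rw [show affT ((j, 2) : Sec c) 2 = ((j, 2), 1, 3) from by simp [affT, ev],
    show V c (patch_Nb c) 9 = ![nd c 5 13, nd c 5 14, nd c 4 12, nd c 3 9, nd c 3 8, nd c 4 10] from rfl]
  funext i
  fin_cases i <;> simp [baseV, patch_rot, shape1, nd, Complex.conj_ofReal, map_ofNat,
    patch_conj_om, zt] <;> field_simp <;> ring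

private lemma patch_b30 (j : ZMod c) :
    baseV c (affT (j, 3) 0) = fun i => zt c ^ j.val * V c (patch_Nb c) 3 i := by
  have hom := om_ne_zero c
  rw [show affT ((j, 3) : Sec c) 0 = ((j, 3), 2, 0) from by simp [affT, ev],
    show V c (patch_Nb c) 3 = ![nd c 3 8, nd c 3 9, zt c * conj (nd c 3 8), zt c * conj (nd c 2 5), nd c 1 3, nd c 2 5] from rfl]
  funext i
  fin_cases i <;> simp [baseV, patch_rot, shape0, nd, Complex.conj_ofReal, map_ofNat,
    patch_conj_om, zt] <;> field_simp <;> ring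

private lemma patch_b31 [NeZero c] (j : ZMod c) :
    baseV c (affT (j, 3) 1) = fun i => zt c ^ (j + 1).val * conj (V c (patch_Nb c) 6 (1 - i)) := by
  have hom := om_ne_zero c
  rw [show affT ((j, 3) : Sec c) 1 = ((j, 3), 1, 2) from by simp [affT, ev],
    show V c (patch_Nb c) 6 = ![nd c 4 9, nd c 4 10, nd c 3 8, nd c 2 5, nd c 2 4, nd c 3 6] from rfl, patch_zt_succ]
  funext i
  fin_cases i <;> simp [baseV, patch_rot, shape1, nd, Complex.conj_ofReal, map_ofNat,
    patch_conj_om, zt] <;> field_simp <;> ring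

private lemma patch_b32 [NeZero c] (j : ZMod c) :
    baseV c (affT (j, 3) 2) = fun i => zt c ^ (j + 1).val * conj (V c (patch_Nb c) 9 (1 - i)) := by
  have hom := om_ne_zero c
  rw [show affT ((j, 3) : Sec c) 2 = ((j, 3), 3, 1) from by simp [affT, ev],
    show V c (patch_Nb c) 9 = ![nd c 5 13, nd c 5 14, nd c 4 12, nd c 3 9, nd c 3 8, nd c 4 10] from rfl, patch_zt_succ]
  funext i
  fin_cases i <;> simp [baseV, patch_rot, shape1, nd, Complex.conj_ofReal, map_ofNat,
    patch_conj_om, zt] <;> field_simp <;> ring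

private lemma patch_b41 [NeZero c] (j : ZMod c) :
    baseV c (affT (j, 4) 1) = fun i => zt c ^ (j + 1).val * conj (V c (patch_Nb c) 5 (1 - i)) := by
  have hom := om_ne_zero c
  rw [show affT ((j, 4) : Sec c) 1 = ((j, 4), 2, 1) from by simp [affT, ev],
    show V c (patch_Nb c) 5 = ![nd c 4 6, nd c 4 7, nd c 3 6, nd c 2 4, nd c 2 3, nd c 3 4] from rfl, patch_zt_succ]
  funext i
  fin_cases i <;> simp [baseV, patch_rot, shape1, nd, Complex.conj_ofReal, map_ofNat,
    patch_conj_om, zt] <;> field_simp <;> ring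

private lemma patch_b42 [NeZero c] (j : ZMod c) :
    baseV c (affT (j, 4) 2) = fun i => zt c ^ (j + 1).val * conj (V c (patch_Nb c) 8 (1 - i)) := by
  have hom := om_ne_zero c
  rw [show affT ((j, 4) : Sec c) 2 = ((j, 4), 1, 3) from by simp [affT, ev],
    show V c (patch_Nb c) 8 = ![nd c 5 6, nd c 5 7, nd c 4 6, nd c 3 4, nd c 3 3, nd c 4 4] from rfl, patch_zt_succ]
  funext i
  fin_cases i <;> simp [baseV, patch_rot, shape1, nd, Complex.conj_ofReal, map_ofNat,
    patch_conj_om, zt] <;> field_simp <;> ring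

private lemma patch_b50 [NeZero c] (j : ZMod c) :
    baseV c (affT (j, 5) 0) = fun i => zt c ^ (j + 1).val * conj (V c (patch_Nb c) 2 (2 - i)) := by
  have hom := om_ne_zero c
  rw [show affT ((j, 5) : Sec c) 0 = ((j, 5), 2, 0) from by simp [affT, ev],
    show V c (patch_Nb c) 2 = ![nd c 3 2, nd c 3 3, nd c 3 4, nd c 2 3, nd c 1 1, nd c 2 1] from rfl, patch_zt_succ]
  funext i
  fin_cases i <;> simp [baseV, patch_rot, shape0, nd, Complex.conj_ofReal, map_ofNat,
    patch_conj_om, zt] <;> field_simp <;> ring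

private lemma patch_b51 [NeZero c] (j : ZMod c) :
    baseV c (affT (j, 5) 1) = fun i => zt c ^ (j + 1).val * conj (V c (patch_Nb c) 4 (1 - i)) := by
  have hom := om_ne_zero c
  rw [show affT ((j, 5) : Sec c) 1 = ((j, 5), 1, 2) from by simp [affT, ev],
    show V c (patch_Nb c) 4 = ![nd c 4 1, nd c 4 2, nd c 3 2, nd c 2 1, nd c 2 0, nd c 3 0] from rfl, patch_zt_succ]
  funext i
  fin_cases i <;> simp [baseV, patch_rot, shape1, nd, Complex.conj_ofReal, map_ofNat,
    patch_conj_om, zt] <;> field_simp <;> ring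

private lemma patch_b52 [NeZero c] (j : ZMod c) :
    baseV c (affT (j, 5) 2) = fun i => zt c ^ (j + 1).val * conj (V c (patch_Nb c) 7 (1 - i)) := by
  have hom := om_ne_zero c
  rw [show affT ((j, 5) : Sec c) 2 = ((j, 5), 3, 1) from by simp [affT, ev],
    show V c (patch_Nb c) 7 = ![nd c 5 3, nd c 5 4, nd c 4 4, nd c 3 3, nd c 3 2, nd c 4 2] from rfl, patch_zt_succ]
  funext i
  fin_cases i <;> simp [baseV, patch_rot, shape1, nd, Complex.conj_ofReal, map_ofNat,
    patch_conj_om, zt] <;> field_simp <;> ring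

private lemma patch_sum10 (f : Fin 10 → ℝ) : ∑ t, f t = f 0 + f 1 + f 2 + f 3 + f 4 + f 5 + f 6
    + f 7 + f 8 + f 9 := by
  rw [Fin.sum_univ_castSucc, Fin.sum_univ_castSucc, Fin.sum_univ_eight]
  rfl

private lemma patch_lhs [NeZero c] {N : Nodes} (hN : N.Symm c) (F : ℂ → ℂ → ℝ)
    (hF : ∀ a b, F b a = - F a b)
    (hg : ∀ j : ZMod c, F (zt c ^ j.val * N.n23) (zt c ^ j.val * N.n25) =
      F (zt c ^ j.val * N.n23) (zt c ^ j.val * N.n24)
        + F (zt c ^ j.val * N.n24) (zt c ^ j.val * N.n25))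
    (hg' : ∀ j : ZMod c, F (zt c ^ j.val * conj N.n23) (zt c ^ j.val * conj N.n25) =
      F (zt c ^ j.val * conj N.n23) (zt c ^ j.val * conj N.n24)
        + F (zt c ^ j.val * conj N.n24) (zt c ^ j.val * conj N.n25)) :
    ∑ m : ZMod c × (Fin 10 ⊕ Fin 8), bd F (modV c N m)
      = ∑ j : ZMod c, (patch_fix c (patch_P c F j) - patch_fix c (patch_M c F j)) := by
  rw [← patch_total hN hF, Fintype.sum_prod_type]
  have hP1 : ∀ j : ZMod c, bd (patch_P c F j) (V c N 1) = patch_s1 N (patch_P c F j) := by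
    intro j
    rw [patch_bd]
    simp only [V, Matrix.cons_val_zero, Matrix.cons_val_one, Matrix.cons_val]
    unfold patch_s1
    have := hg j
    change patch_P c F j N.n23 N.n25 = patch_P c F j N.n23 N.n24 + patch_P c F j N.n24 N.n25 at this
    linarith
  have hM1 : ∀ j : ZMod c, bd (patch_M c F j) (V c N 1) = patch_s1 N (patch_M c F j) := by
    intro j
    rw [patch_bd]
    simp only [V, Matrix.cons_val_zero, Matrix.cons_val_one, Matrix.cons_val]
    unfold patch_s1
    have := hg' j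
    change patch_M c F j N.n23 N.n25 = patch_M c F j N.n23 N.n24 + patch_M c F j N.n24 N.n25 at this
    linarith
  have hj : ∀ j : ZMod c, ∑ t : Fin 10 ⊕ Fin 8, bd F (modV c N (j, t))
      = ((patch_core c N (patch_P c F j) + patch_h0 N (patch_P c F j) + patch_h3 N (patch_P c F j))
      - (patch_core c N (patch_M c F j) + patch_h0 N (patch_M c F j)))
        - patch_h3 N (patch_M c F (j + 1)) := by
    intro j
    rw [Fintype.sum_sum_type, patch_sum10, Fin.sum_univ_eight]
    have hl : ∀ t : Fin 10, bd F (modV c N (j, Sum.inl t)) = bd (patch_P c F j) (V c N t) :=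
      fun t => rfl
    have hr : ∀ t : Fin 8, bd F (modV c N (j, Sum.inr t)) = - bd (patch_M c F j) (V c N (mt t)) :=
      fun t => patch_mirror hF j (V c N (mt t))
    simp only [hl, hr]
    rw [patch_type0 hN hF, patch_type3 hN hF, hP1]
    rw [show mt 0 = 1 from rfl, show mt 1 = 2 from rfl, show mt 2 = 4 from rfl,
      show mt 3 = 5 from rfl, show mt 4 = 6 from rfl, show mt 5 = 7 from rfl,
      show mt 6 = 8 from rfl, show mt 7 = 9 from rfl, hM1]
    unfold patch_core
    ring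
  simp only [hj]
  have hs := patch_shift (fun j : ZMod c => patch_h3 N (patch_M c F j))
  simp only [Finset.sum_add_distrib, Finset.sum_sub_distrib]
  rw [hs]
  ring

private lemma patch_rhs [NeZero c] (F : ℂ → ℂ → ℝ) (hF : ∀ a b, F b a = - F a b) :
    ∑ x : Sec c × Fin 3, bd F (baseV c (affT x.1 x.2))
      = ∑ j : ZMod c, (patch_fix c (patch_P c F j) - patch_fix c (patch_M c F j)) := by
  rw [← patch_total (patch_Nb_symm c) hF, Fintype.sum_prod_type, Fintype.sum_prod_type]
  have hj : ∀ j : ZMod c, ∑ r : Fin 6, ∑ k : Fin 3, bd F (baseV c (affT (j, r) k))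
      = (patch_core c (patch_Nb c) (patch_P c F j) + patch_h0 (patch_Nb c) (patch_P c F j)
        + patch_h3 (patch_Nb c) (patch_P c F j)) - patch_h0 (patch_Nb c) (patch_M c F j)
        - patch_core c (patch_Nb c) (patch_M c F (j + 1))
        - patch_h3 (patch_Nb c) (patch_M c F (j + 1)) := by
    intro j
    rw [Fin.sum_univ_six]
    simp only [Fin.sum_univ_three]
    rw [patch_b00, patch_b01, patch_b02, patch_b10, patch_b11, patch_b12, patch_b20, patch_b21,
      patch_b22, patch_b30, patch_b31, patch_b32, patch_b40, patch_b41, patch_b42, patch_b50,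
      patch_b51, patch_b52]
    rw [patch_mirror1 hF, patch_mirror1 hF, patch_mirror1 hF, patch_mirror1 hF, patch_mirror1 hF,
      patch_mirror1 hF, patch_mirror2 hF, patch_mirror2 hF, patch_V1_bd c _ (patch_M_anti hF (j + 1))]
    have hl : ∀ v : Fin 6 → ℂ, bd F (fun i => zt c ^ j.val * v i) = bd (patch_P c F j) v :=
      fun v => rfl
    simp only [hl]
    rw [patch_V1_bd c _ (patch_P_anti hF j), patch_type0 (patch_Nb_symm c) hF,
      patch_type3 (patch_Nb_symm c) hF]
    unfold patch_core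
    ring
  simp only [hj]
  have hs := patch_shift (fun j : ZMod c => patch_h3 (patch_Nb c) (patch_M c F j))
  have hs' := patch_shift (fun j : ZMod c => patch_core c (patch_Nb c) (patch_M c F j))
  simp only [Finset.sum_add_distrib, Finset.sum_sub_distrib]
  rw [hs, hs']
  ring

/-- the modified tiles and the replaced tiles have the same oriented boundary -/
theorem patch_identity [NeZero c] {N : Nodes} (hN : N.Symm c) (F : ℂ → ℂ → ℝ)
    (hF : ∀ a b, F b a = - F a b)
    (hg : ∀ j : ZMod c, F (zt c ^ j.val * N.n23) (zt c ^ j.val * N.n25) =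
      F (zt c ^ j.val * N.n23) (zt c ^ j.val * N.n24)
        + F (zt c ^ j.val * N.n24) (zt c ^ j.val * N.n25))
    (hg' : ∀ j : ZMod c, F (zt c ^ j.val * conj N.n23) (zt c ^ j.val * conj N.n25) =
      F (zt c ^ j.val * conj N.n23) (zt c ^ j.val * conj N.n24)
        + F (zt c ^ j.val * conj N.n24) (zt c ^ j.val * conj N.n25)) :
    ∑ m : ZMod c × (Fin 10 ⊕ Fin 8), bd F (modV c N m)
      = ∑ x : Sec c × Fin 3, bd F (baseV c (affT x.1 x.2)) := by
  rw [patch_lhs hN F hF hg hg', patch_rhs F hF]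

end H52Hex
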