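import Pool.Agent.H52Hex.ExAlg
import Pool.Agent.H52Hex.Patch

/-!
From the scaled coordinates to the plane.
-/

namespace H52Hex

set_option linter.unusedSimpArgs false
set_option linter.unusedVariables false

open scoped BigOperators ComplexConjugate

variable {c : ℕ}

/-- `tan (φ/2)` -/
noncomputable def tau (c : ℕ) : ℝ := Real.tan (phi c / 2)

/-- the point of the plane with scaled coordinates `(x, y)` -/
noncomputable def ps (c : ℕ) (x y : ℝ) : ℂ := ⟨el c * x, el c * (tau c * y)⟩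

/-- the position of a node -/
noncomputable def pos (c : ℕ) (P : Pt) : ℂ := ps c (P.X (tau c)) (P.Y (tau c))

lemma half_pos (hc : 1 ≤ c) : 0 < phi c / 2 := by
  have := phi_pos hc
  linarith

lemma half_lt (hc : 1 ≤ c) : phi c / 2 < Real.pi / 2 := by
  have := phi_le hc
  have := Real.pi_pos
  linarith

lemma cos_half_pos (hc : 1 ≤ c) : 0 < Real.cos (phi c / 2) :=
  Real.cos_pos_of_mem_Ioo ⟨by have := half_pos hc; have := Real.pi_pos; linarith, half_lt hc⟩

lemma tau_pos (hc : 1 ≤ c) : 0 < tau c :=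
  Real.tan_pos_of_pos_of_lt_pi_div_two (half_pos hc) (half_lt hc)

lemma one_add_tau (hc : 1 ≤ c) : (1 + tau c ^ 2) * Real.cos (phi c / 2) ^ 2 = 1 := by
  have h := cos_half_pos hc
  rw [tau, Real.tan_eq_sin_div_cos]
  have := Real.sin_sq_add_cos_sq (phi c / 2)
  field_simp
  linarith

lemma cos_phi_eq (hc : 1 ≤ c) : Real.cos (phi c) = 1 - tau c ^ 2 * sI (tau c ^ 2) := by
  have h := cos_half_pos hc
  have h1 := one_add_tau hc
  have h2 : Real.cos (phi c) = 2 * Real.cos (phi c / 2) ^ 2 - 1 := by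
    rw [← Real.cos_two_mul]; ring_nf
  have h3 : (1 + tau c ^ 2) ≠ 0 := by positivity
  rw [h2, sI]
  field_simp
  linear_combination 2 * h1

lemma sin_phi_eq (hc : 1 ≤ c) : Real.sin (phi c) = tau c * sI (tau c ^ 2) := by
  have h := cos_half_pos hc
  have h1 := one_add_tau hc
  have h2 : Real.sin (phi c) = 2 * Real.sin (phi c / 2) * Real.cos (phi c / 2) := by
    rw [← Real.sin_two_mul]; ring_nf
  have h3 : (1 + tau c ^ 2) ≠ 0 := by positivity
  have h4 : Real.sin (phi c / 2) = tau c * Real.cos (phi c / 2) := by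
    rw [tau, Real.tan_eq_sin_div_cos]; field_simp
  rw [h2, sI, h4]
  field_simp
  linear_combination (tau c) * h1

lemma om_pow_eq (hc : 1 ≤ c) (n : ℕ) :
    om c ^ n = ⟨ux n (tau c ^ 2), tau c * uy n (tau c ^ 2)⟩ := by
  induction n with
  | zero => apply Complex.ext <;> simp [ux_zero, uy_zero]
  | succ n ih =>
    rw [pow_succ, ih]
    apply Complex.ext
    · rw [Complex.mul_re]
      simp only [om_re, om_im, cos_phi_eq hc, sin_phi_eq hc, ux_succ, fu]
      ring
    · rw [Complex.mul_im]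
      simp only [om_re, om_im, cos_phi_eq hc, sin_phi_eq hc, uy_succ]
      ring

lemma el_tau (hc : 1 ≤ c) : el c ^ 2 * tau c * sI (tau c ^ 2) = 1 / 3 := by
  rw [mul_assoc, ← sin_phi_eq hc]; exact el_sq hc

/-- lattice nodes in scaled coordinates -/
lemma nd_eq (hc : 1 ≤ c) (s p q n y : ℕ) (h1 : y / n = s) (h2 : n - y % n = p) (h3 : y % n = q) :
    nd c n y = pos c (pp (tau c) s p q 0 0) := by
  rw [nd, h1, h2, h3]
  have hs := om_pow_eq hc s
  have hs1 := om_pow_eq hc (s + 1)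
  have : (el c : ℂ) * om c ^ s * ((p : ℂ) + (q : ℂ) * om c)
      = el c * (p * om c ^ s + q * om c ^ (s + 1)) := by ring
  rw [this, hs, hs1]
  apply Complex.ext
  · simp only [pos, ps, pp, Pt.X, Pt.Y, Complex.mul_re, Complex.add_re, Complex.add_im,
      Complex.ofReal_re, Complex.ofReal_im, Complex.natCast_re, Complex.natCast_im, Complex.mul_im]
    ring
  · simp only [pos, ps, pp, Pt.X, Pt.Y, Complex.mul_re, Complex.add_re, Complex.add_im,
      Complex.ofReal_re, Complex.ofReal_im, Complex.natCast_re, Complex.natCast_im, Complex.mul_im]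
    ring

/-- cross product of positions -/
lemma cr_ps (x y x' y' : ℝ) :
    cr (ps c x y) (ps c x' y') = el c ^ 2 * tau c * (x * y' - x' * y) := by
  simp only [cr, ps]; ring

lemma cr_pos (A B : Pt) : cr (pos c A) (pos c B) = el c ^ 2 * tau c *
    ((A.x * B.y - B.x * A.y) + tau c * ee (tau c) A B) := by
  rw [pos, pos, cr_ps]; simp only [Pt.X, Pt.Y, ee]; ring

lemma dist_ps (x y x' y' : ℝ) : dist (ps c x y) (ps c x' y') =
    |el c| * Real.sqrt ((x' - x) ^ 2 + tau c ^ 2 * (y' - y) ^ 2) := by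
  rw [Complex.dist_eq, Complex.norm_def, Complex.normSq_apply]
  have : (ps c x y - ps c x' y').re * (ps c x y - ps c x' y').re
      + (ps c x y - ps c x' y').im * (ps c x y - ps c x' y').im
      = el c ^ 2 * ((x' - x) ^ 2 + tau c ^ 2 * (y' - y) ^ 2) := by
    simp only [Complex.sub_re, Complex.sub_im, ps]; ring
  rw [this, Real.sqrt_mul (sq_nonneg _), Real.sqrt_sq_eq_abs]

lemma psi_spec {u q : ℝ} (h : 0 ≤ 1 + u * q) : Real.sqrt (1 + u * q) = 1 + u * psi u q := by
  have h0 : 0 < Real.sqrt (1 + u * q) + 1 := by positivity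
  have h1 : Real.sqrt (1 + u * q) ^ 2 = 1 + u * q := Real.sq_sqrt h
  rw [psi]
  field_simp
  nlinarith [h1]

/-- length of a radial edge -/
lemma dist_rad (hc : 1 ≤ c) (b : ℕ) (A B : Pt) (hx : B.x - A.x = ux b (tau c ^ 2))
    (hy : B.y - A.y = uy b (tau c ^ 2)) :
    dist (pos c A) (pos c B) = el c * (1 + tau c ^ 2 * er (tau c) b A B) := by
  have hn := u_norm (sq_nonneg (tau c)) b
  rw [pos, pos, dist_ps, abs_of_pos (el_pos hc)]
  congr 1
  rw [er, rr, ← psi_spec]
  · congr 1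
    simp only [Pt.X, Pt.Y]
    linear_combination hn + (2 * tau c ^ 2 * (B.a - A.a) + (B.x - A.x) + ux b (tau c ^ 2)) * hx
      + (tau c ^ 2 * (2 * tau c * (B.b - A.b) + (B.y - A.y) + uy b (tau c ^ 2))) * hy
  · have : 1 + tau c ^ 2 * (2 * ux b (tau c ^ 2) * (B.a - A.a) + tau c ^ 2 * (B.a - A.a) ^ 2
        + 2 * tau c * uy b (tau c ^ 2) * (B.b - A.b) + tau c ^ 2 * (B.b - A.b) ^ 2)
        = (ux b (tau c ^ 2) + tau c ^ 2 * (B.a - A.a)) ^ 2
          + (tau c * (uy b (tau c ^ 2) + tau c * (B.b - A.b))) ^ 2 := by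
      linear_combination - hn
    rw [this]; positivity

lemma norm_om_sub (hc : 1 ≤ c) : ‖om c - 1‖ = tau c * s0 (tau c ^ 2) := by
  have ht := tau_pos hc
  rw [Complex.norm_def, Complex.normSq_apply]
  have h0 : (0 : ℝ) < 1 + tau c ^ 2 := by positivity
  have : (om c - 1).re * (om c - 1).re + (om c - 1).im * (om c - 1).im
      = (tau c * s0 (tau c ^ 2)) ^ 2 := by
    simp only [Complex.sub_re, Complex.sub_im, Complex.one_re, Complex.one_im, om_re, om_im,
      cos_phi_eq hc, sin_phi_eq hc, s0, sI]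
    rw [mul_pow, div_pow, Real.sq_sqrt h0.le]
    field_simp
    ring
  rw [this, Real.sqrt_sq]
  rw [s0]; positivity

/-- length of a transverse edge -/
lemma dist_tr (hc : 1 ≤ c) (b : ℕ) (A B : Pt)
    (hx : B.x - A.x = tau c ^ 2 * fu b (tau c ^ 2))
    (hy : B.y - A.y = uy (b + 1) (tau c ^ 2) - uy b (tau c ^ 2)) :
    dist (pos c A) (pos c B) = el c * (‖om c - 1‖ + tau c ^ 2 * et (tau c) b A B) := by
  have ht := tau_pos hc
  have h0 : (0 : ℝ) < 1 + tau c ^ 2 := by positivity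
  have hn := u_norm (sq_nonneg (tau c)) b
  have hn1 := u_norm (sq_nonneg (tau c)) (b + 1)
  have hI := sI_mul (sq_nonneg (tau c))
  -- the base length
  have hbase : (1 + tau c ^ 2) * (tau c ^ 2 * fu b (tau c ^ 2) ^ 2
      + (uy (b + 1) (tau c ^ 2) - uy b (tau c ^ 2)) ^ 2) = 4 := by
    rw [uy_succ, fu]
    linear_combination (sI (tau c ^ 2) ^ 2 * (1 + tau c ^ 2) ^ 2) * hn
      + (sI (tau c ^ 2) * (1 + tau c ^ 2) + 2) * hI
  rw [pos, pos, dist_ps, abs_of_pos (el_pos hc), norm_om_sub hc]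
  congr 1
  set Q := (1 + tau c ^ 2) / 4 * (2 * (uy (b + 1) (tau c ^ 2) - uy b (tau c ^ 2)) * (B.b - A.b)
    + tau c * (B.b - A.b) ^ 2
    + tau c * (2 * fu b (tau c ^ 2) * (B.a - A.a) + (B.a - A.a) ^ 2)) with hQ
  have hs0 : s0 (tau c ^ 2) ^ 2 * (1 + tau c ^ 2) = 4 := by
    rw [s0, div_pow, Real.sq_sqrt h0.le]; field_simp; norm_num
  have hs0p : 0 < s0 (tau c ^ 2) := by rw [s0]; positivity
  have key : (B.X (tau c) - A.X (tau c)) ^ 2 + tau c ^ 2 * (B.Y (tau c) - A.Y (tau c)) ^ 2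
      = (tau c * s0 (tau c ^ 2)) ^ 2 * (1 + tau c * Q) := by
    have e1 : (tau c * s0 (tau c ^ 2)) ^ 2 = tau c ^ 2 * (4 / (1 + tau c ^ 2)) := by
      rw [mul_pow]; congr 1; field_simp; exact hs0
    rw [e1, hQ]
    simp only [Pt.X, Pt.Y]
    field_simp
    have e2 : B.x + tau c ^ 2 * B.a - (A.x + tau c ^ 2 * A.a)
        = tau c ^ 2 * (fu b (tau c ^ 2) + (B.a - A.a)) := by linear_combination hx
    have e3 : B.y + tau c * B.b - (A.y + tau c * A.b)
        = (uy (b + 1) (tau c ^ 2) - uy b (tau c ^ 2)) + tau c * (B.b - A.b) := by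
      linear_combination hy
    rw [e2, e3]
    linear_combination (tau c ^ 2) * hbase
  rw [key, Real.sqrt_mul (sq_nonneg _), Real.sqrt_sq (by positivity)]
  have hnn : 0 ≤ 1 + tau c * Q := by
    have h1 : 0 ≤ (tau c * s0 (tau c ^ 2)) ^ 2 * (1 + tau c * Q) := by
      rw [← key]; positivity
    have h2 : 0 < (tau c * s0 (tau c ^ 2)) ^ 2 := by positivity
    exact nonneg_of_mul_nonneg_right h1 h2
  rw [psi_spec hnn, et, tt, ← hQ]
  ring

end H52Hex
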