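import Pool.Agent.H52Hex.ExAlg

/-!
The system at `t = 0` is affine; it is invertible there; smoothness; implicit function theorem.
-/

namespace H52Hex

set_option linter.unusedSimpArgs false
set_option linter.unusedVariables false

open scoped Topology
open Filter

lemma sI_0 : sI 0 = 2 := by norm_num [sI]

lemma ux_0 (n : ℕ) : ux n 0 = 1 := by
  induction n with
  | zero => rfl
  | succ n ih => rw [ux_succ, ih]; ring

lemma uy_0 (n : ℕ) : uy n 0 = 2 * n := by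
  induction n with
  | zero => simp [uy_zero]
  | succ n ih => rw [uy_succ, ih, ux_0, sI_0]; push_cast; ring

lemma fu_0 (n : ℕ) : fu n 0 = - (2 * (1 + 2 * n)) := by
  rw [fu, ux_0, uy_0, sI_0]

lemma psi_0 (q : ℝ) : psi 0 q = q / 2 := by
  norm_num [psi]

lemma s0_0 : s0 0 = 2 := by norm_num [s0]

lemma rr_0 (b : ℕ) (dx dy : ℝ) : rr 0 b dx dy = dx := by
  simp only [rr]; norm_num [psi_0, ux_0]

lemma tt_0 (b : ℕ) (dx dy : ℝ) : tt 0 b dx dy = dy := by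
  simp only [tt]; norm_num [psi_0, s0_0, uy_0]; ring

lemma z2 : (0 : ℝ) ^ 2 = 0 := by norm_num

lemma g0_z (d : D) : g0 0 d = d 3 + d 2 - 2 := by
  simp only [g0, er, et, rr_0, tt_0, ee, bb, k0, kp, k11, k13, k20, k21, k23, k24, k25, k32, k33, k34,
    k38, k39, k30, k36, k41, k42, k44, k46, k47, k49, k4A, k4C, pp, Pt.X, Pt.Y, z2, ux_0, uy_0, fu_0, sI_0]
  norm_num
  try ring

lemma g1_z (d : D) : g1 0 d = d 10 - d 6 + d 9 + d 5 := by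
  simp only [g1, er, et, rr_0, tt_0, ee, bb, k0, kp, k11, k13, k20, k21, k23, k24, k25, k32, k33, k34,
    k38, k39, k30, k36, k41, k42, k44, k46, k47, k49, k4A, k4C, pp, Pt.X, Pt.Y, z2, ux_0, uy_0, fu_0, sI_0]
  norm_num
  try ring

lemma g2_z (d : D) : g2 0 d = d 16 - d 12 + d 15 + d 11 := by
  simp only [g2, er, et, rr_0, tt_0, ee, bb, k0, kp, k11, k13, k20, k21, k23, k24, k25, k32, k33, k34,
    k38, k39, k30, k36, k41, k42, k44, k46, k47, k49, k4A, k4C, pp, Pt.X, Pt.Y, z2, ux_0, uy_0, fu_0, sI_0]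
  norm_num
  try ring

lemma g3_z (d : D) : g3 0 d = d 17 - d 0 - d 18 := by
  simp only [g3, er, et, rr_0, tt_0, ee, bb, k0, kp, k11, k13, k20, k21, k23, k24, k25, k32, k33, k34,
    k38, k39, k30, k36, k41, k42, k44, k46, k47, k49, k4A, k4C, pp, Pt.X, Pt.Y, z2, ux_0, uy_0, fu_0, sI_0]
  norm_num
  try ring

lemma g4_z (d : D) : g4 0 d = - d 2 + d 3 - d 1 := by
  simp only [g4, er, et, rr_0, tt_0, ee, bb, k0, kp, k11, k13, k20, k21, k23, k24, k25, k32, k33, k34,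
    k38, k39, k30, k36, k41, k42, k44, k46, k47, k49, k4A, k4C, pp, Pt.X, Pt.Y, z2, ux_0, uy_0, fu_0, sI_0]
  norm_num
  try ring

lemma g5_z (d : D) : g5 0 d = - d 7 + d 8 - d 6 - d 5 := by
  simp only [g5, er, et, rr_0, tt_0, ee, bb, k0, kp, k11, k13, k20, k21, k23, k24, k25, k32, k33, k34,
    k38, k39, k30, k36, k41, k42, k44, k46, k47, k49, k4A, k4C, pp, Pt.X, Pt.Y, z2, ux_0, uy_0, fu_0, sI_0]
  norm_num
  try ring

lemma g6_z (d : D) : g6 0 d = - d 9 + d 10 - d 8 - d 7 := by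
  simp only [g6, er, et, rr_0, tt_0, ee, bb, k0, kp, k11, k13, k20, k21, k23, k24, k25, k32, k33, k34,
    k38, k39, k30, k36, k41, k42, k44, k46, k47, k49, k4A, k4C, pp, Pt.X, Pt.Y, z2, ux_0, uy_0, fu_0, sI_0]
  norm_num
  try ring

lemma g7_z (d : D) : g7 0 d = - d 13 + d 14 - d 12 - d 11 := by
  simp only [g7, er, et, rr_0, tt_0, ee, bb, k0, kp, k11, k13, k20, k21, k23, k24, k25, k32, k33, k34,
    k38, k39, k30, k36, k41, k42, k44, k46, k47, k49, k4A, k4C, pp, Pt.X, Pt.Y, z2, ux_0, uy_0, fu_0, sI_0]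
  norm_num
  try ring

lemma g8_z (d : D) : g8 0 d = - d 15 + d 16 - d 14 - d 13 := by
  simp only [g8, er, et, rr_0, tt_0, ee, bb, k0, kp, k11, k13, k20, k21, k23, k24, k25, k32, k33, k34,
    k38, k39, k30, k36, k41, k42, k44, k46, k47, k49, k4A, k4C, pp, Pt.X, Pt.Y, z2, ux_0, uy_0, fu_0, sI_0]
  norm_num
  try ring

lemma g9_z (d : D) : g9 0 d = - d 19 - d 18 - d 17 := by
  simp only [g9, er, et, rr_0, tt_0, ee, bb, k0, kp, k11, k13, k20, k21, k23, k24, k25, k32, k33, k34,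
    k38, k39, k30, k36, k41, k42, k44, k46, k47, k49, k4A, k4C, pp, Pt.X, Pt.Y, z2, ux_0, uy_0, fu_0, sI_0]
  norm_num
  try ring

lemma g10_z (d : D) : g10 0 d = - d 6 + d 10 - 2 * d 4 := by
  simp only [g10, er, et, rr_0, tt_0, ee, bb, k0, kp, k11, k13, k20, k21, k23, k24, k25, k32, k33, k34,
    k38, k39, k30, k36, k41, k42, k44, k46, k47, k49, k4A, k4C, pp, Pt.X, Pt.Y, z2, ux_0, uy_0, fu_0, sI_0]
  norm_num
  try ring

lemma g11_z (d : D) : g11 0 d = - d 12 + d 16 + 2 * d 6 - 2 * d 3 := by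
  simp only [g11, er, et, rr_0, tt_0, ee, bb, k0, kp, k11, k13, k20, k21, k23, k24, k25, k32, k33, k34,
    k38, k39, k30, k36, k41, k42, k44, k46, k47, k49, k4A, k4C, pp, Pt.X, Pt.Y, z2, ux_0, uy_0, fu_0, sI_0]
  norm_num
  try ring

lemma g12_z (d : D) : g12 0 d = - 2 * d 10 - d 18 := by
  simp only [g12, er, et, rr_0, tt_0, ee, bb, k0, kp, k11, k13, k20, k21, k23, k24, k25, k32, k33, k34,
    k38, k39, k30, k36, k41, k42, k44, k46, k47, k49, k4A, k4C, pp, Pt.X, Pt.Y, z2, ux_0, uy_0, fu_0, sI_0]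
  norm_num
  try ring

lemma g13_z (d : D) : g13 0 d = 2 * d 12 + d 3 := by
  simp only [g13, er, et, rr_0, tt_0, ee, bb, k0, kp, k11, k13, k20, k21, k23, k24, k25, k32, k33, k34,
    k38, k39, k30, k36, k41, k42, k44, k46, k47, k49, k4A, k4C, pp, Pt.X, Pt.Y, z2, ux_0, uy_0, fu_0, sI_0]
  norm_num
  try ring

lemma g14_z (d : D) : g14 0 d = d 8 - d 6 - 2 * d 16 := by
  simp only [g14, er, et, rr_0, tt_0, ee, bb, k0, kp, k11, k13, k20, k21, k23, k24, k25, k32, k33, k34,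
    k38, k39, k30, k36, k41, k42, k44, k46, k47, k49, k4A, k4C, pp, Pt.X, Pt.Y, z2, ux_0, uy_0, fu_0, sI_0]
  norm_num
  try ring

lemma g15_z (d : D) : g15 0 d = 2 * d 18 + d 10 - d 8 := by
  simp only [g15, er, et, rr_0, tt_0, ee, bb, k0, kp, k11, k13, k20, k21, k23, k24, k25, k32, k33, k34,
    k38, k39, k30, k36, k41, k42, k44, k46, k47, k49, k4A, k4C, pp, Pt.X, Pt.Y, z2, ux_0, uy_0, fu_0, sI_0]
  norm_num
  try ring

lemma g16_z (d : D) : g16 0 d = d 14 - d 12 := by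
  simp only [g16, er, et, rr_0, tt_0, ee, bb, k0, kp, k11, k13, k20, k21, k23, k24, k25, k32, k33, k34,
    k38, k39, k30, k36, k41, k42, k44, k46, k47, k49, k4A, k4C, pp, Pt.X, Pt.Y, z2, ux_0, uy_0, fu_0, sI_0]
  norm_num
  try ring

lemma g17_z (d : D) : g17 0 d = d 16 - d 14 := by
  simp only [g17, er, et, rr_0, tt_0, ee, bb, k0, kp, k11, k13, k20, k21, k23, k24, k25, k32, k33, k34,
    k38, k39, k30, k36, k41, k42, k44, k46, k47, k49, k4A, k4C, pp, Pt.X, Pt.Y, z2, ux_0, uy_0, fu_0, sI_0]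
  norm_num
  try ring

lemma g18_z (d : D) : g18 0 d = - (6 * d 2 + 6 * d 5 + 8 * d 7 + 6 * d 9 + 6 * d 11 + 8 * d 13 + 6 * d 15 + 6 * d 17) - 2 * d 0 - 4 * d 19 - 4 * d 1 := by
  simp only [g18, er, et, rr_0, tt_0, ee, bb, k0, kp, k11, k13, k20, k21, k23, k24, k25, k32, k33, k34,
    k38, k39, k30, k36, k41, k42, k44, k46, k47, k49, k4A, k4C, pp, Pt.X, Pt.Y, z2, ux_0, uy_0, fu_0, sI_0]
  norm_num
  try ring

lemma g19_z (d : D) : g19 0 d = 2 * (d 5 + d 9 - 2 * d 7 - 4) := by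
  simp only [g19, er, et, rr_0, tt_0, ee, bb, k0, kp, k11, k13, k20, k21, k23, k24, k25, k32, k33, k34,
    k38, k39, k30, k36, k41, k42, k44, k46, k47, k49, k4A, k4C, pp, Pt.X, Pt.Y, z2, ux_0, uy_0, fu_0, sI_0]
  norm_num
  try ring

/-- the affine system at `t = 0` -/
lemma G_zero (d : D) : G 0 d = ![
    d 3 + d 2 - 2,
    d 10 - d 6 + d 9 + d 5,
    d 16 - d 12 + d 15 + d 11,
    d 17 - d 0 - d 18,
    - d 2 + d 3 - d 1,
    - d 7 + d 8 - d 6 - d 5,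
    - d 9 + d 10 - d 8 - d 7,
    - d 13 + d 14 - d 12 - d 11,
    - d 15 + d 16 - d 14 - d 13,
    - d 19 - d 18 - d 17,
    - d 6 + d 10 - 2 * d 4,
    - d 12 + d 16 + 2 * d 6 - 2 * d 3,
    - 2 * d 10 - d 18,
    2 * d 12 + d 3,
    d 8 - d 6 - 2 * d 16,
    2 * d 18 + d 10 - d 8,
    d 14 - d 12,
    d 16 - d 14,
    - (6 * d 2 + 6 * d 5 + 8 * d 7 + 6 * d 9 + 6 * d 11 + 8 * d 13 + 6 * d 15 + 6 * d 17) - 2 * d 0 - 4 * d 19 - 4 * d 1,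
    2 * (d 5 + d 9 - 2 * d 7 - 4)] := by
  simp only [G, g0_z, g1_z, g2_z, g3_z, g4_z, g5_z, g6_z, g7_z, g8_z, g9_z, g10_z, g11_z, g12_z, g13_z, g14_z, g15_z, g16_z, g17_z, g18_z, g19_z]

/-- the linear part -/
def Lin (d : D) : Fin 20 → ℝ := ![
    d 3 + d 2,
    d 10 - d 6 + d 9 + d 5,
    d 16 - d 12 + d 15 + d 11,
    d 17 - d 0 - d 18,
    - d 2 + d 3 - d 1,
    - d 7 + d 8 - d 6 - d 5,
    - d 9 + d 10 - d 8 - d 7,
    - d 13 + d 14 - d 12 - d 11,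
    - d 15 + d 16 - d 14 - d 13,
    - d 19 - d 18 - d 17,
    - d 6 + d 10 - 2 * d 4,
    - d 12 + d 16 + 2 * d 6 - 2 * d 3,
    - 2 * d 10 - d 18,
    2 * d 12 + d 3,
    d 8 - d 6 - 2 * d 16,
    2 * d 18 + d 10 - d 8,
    d 14 - d 12,
    d 16 - d 14,
    - (6 * d 2 + 6 * d 5 + 8 * d 7 + 6 * d 9 + 6 * d 11 + 8 * d 13 + 6 * d 15 + 6 * d 17) - 2 * d 0 - 4 * d 19 - 4 * d 1,
    2 * (d 5 + d 9 - 2 * d 7)]

/-- the inverse of the linear part -/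
noncomputable def Inv (y : Fin 20 → ℝ) : D := ![
    (-1/2) * y 0 + (-1/2) * y 1 + (-1/2) * y 2 + (-1/2) * y 3 + (1) * y 4 + (1) * y 5 + (1) *
      y 6 + (1) * y 7 + (1) * y 8 + (1) * y 9 + (1/2) * y 11 + (1/2) * y 12 + (1/2) * y 13 +
      (1/2) * y 14 + (1/2) * y 15 + (-1/4) * y 18,
    (-1) * y 0 + (-4/3) * y 1 + (-1) * y 4 + (-2/3) * y 5 + (-2/3) * y 6 + (-4/3) * y 11 +
      (-4/3) * y 12 + (-2/3) * y 13 + (-2/3) * y 14 + (-2/3) * y 15 + (1/3) * y 19,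
    (1) * y 0 + (2/3) * y 1 + (1/3) * y 5 + (1/3) * y 6 + (2/3) * y 11 + (2/3) * y 12 + (1/3)
      * y 13 + (1/3) * y 14 + (1/3) * y 15 + (-1/6) * y 19,
    (-2/3) * y 1 + (-1/3) * y 5 + (-1/3) * y 6 + (-2/3) * y 11 + (-2/3) * y 12 + (-1/3) * y 13
      + (-1/3) * y 14 + (-1/3) * y 15 + (1/6) * y 19,
    (1/3) * y 1 + (1/6) * y 5 + (1/6) * y 6 + (-1/2) * y 10 + (-1/12) * y 19,
    (1/2) * y 1 + (-1/2) * y 5 + (1/2) * y 6 + (2/3) * y 11 + (2/3) * y 12 + (4/3) * y 13 +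
      (4/3) * y 14 + (1/3) * y 15 + (2) * y 16 + (2) * y 17,
    (-2/3) * y 1 + (-1/3) * y 5 + (-1/3) * y 6 + (-1/6) * y 11 + (-2/3) * y 12 + (-1/3) * y 13
      + (-1/3) * y 14 + (-1/3) * y 15 + (-1/2) * y 16 + (-1/2) * y 17 + (1/6) * y 19,
    (1/6) * y 1 + (-1/6) * y 5 + (-1/6) * y 6 + (-1/6) * y 19,
    (1/2) * y 11 + (1) * y 13 + (1) * y 14 + (3/2) * y 16 + (3/2) * y 17,
    (-1/6) * y 1 + (1/6) * y 5 + (-5/6) * y 6 + (-2/3) * y 11 + (-2/3) * y 12 + (-4/3) * y 13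
      + (-4/3) * y 14 + (-1/3) * y 15 + (-2) * y 16 + (-2) * y 17 + (1/6) * y 19,
    (-1/6) * y 11 + (-2/3) * y 12 + (-1/3) * y 13 + (-1/3) * y 14 + (-1/3) * y 15 + (-1/2) * y
      16 + (-1/2) * y 17,
    (1/2) * y 2 + (-1/2) * y 7 + (1/2) * y 8 + (-1) * y 17,
    (1/3) * y 1 + (1/6) * y 5 + (1/6) * y 6 + (1/3) * y 11 + (1/3) * y 12 + (2/3) * y 13 +
      (1/6) * y 14 + (1/6) * y 15 + (-1/12) * y 19,
    (-1/2) * y 2 + (-1/2) * y 7 + (-1/2) * y 8 + (1) * y 16 + (1) * y 17,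
    (1/3) * y 1 + (1/6) * y 5 + (1/6) * y 6 + (1/3) * y 11 + (1/3) * y 12 + (2/3) * y 13 +
      (1/6) * y 14 + (1/6) * y 15 + (1) * y 16 + (-1/12) * y 19,
    (1/2) * y 2 + (1/2) * y 7 + (-1/2) * y 8 + (-1) * y 16,
    (1/3) * y 1 + (1/6) * y 5 + (1/6) * y 6 + (1/3) * y 11 + (1/3) * y 12 + (2/3) * y 13 +
      (1/6) * y 14 + (1/6) * y 15 + (1) * y 16 + (1) * y 17 + (-1/12) * y 19,
    (-1/2) * y 0 + (-1/2) * y 1 + (-1/2) * y 2 + (1/2) * y 3 + (1) * y 4 + (1) * y 5 + (1) * y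
      6 + (1) * y 7 + (1) * y 8 + (1) * y 9 + (5/6) * y 11 + (5/6) * y 12 + (7/6) * y 13 + (7/6)
      * y 14 + (7/6) * y 15 + (1) * y 16 + (1) * y 17 + (-1/4) * y 18,
    (1/3) * y 11 + (1/3) * y 12 + (2/3) * y 13 + (2/3) * y 14 + (2/3) * y 15 + (1) * y 16 +
      (1) * y 17,
    (1/2) * y 0 + (1/2) * y 1 + (1/2) * y 2 + (-1/2) * y 3 + (-1) * y 4 + (-1) * y 5 + (-1) *
      y 6 + (-1) * y 7 + (-1) * y 8 + (-2) * y 9 + (-7/6) * y 11 + (-7/6) * y 12 + (-11/6) * y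
      13 + (-11/6) * y 14 + (-11/6) * y 15 + (-2) * y 16 + (-2) * y 17 + (1/4) * y 18]

lemma G_zero_line (d v : D) (s : ℝ) : G 0 (d + s • v) = G 0 d + s • Lin v := by
  rw [G_zero, G_zero]
  funext i
  fin_cases i <;>
  · simp [Lin, Matrix.cons_val]
    try ring

lemma Inv_0 (y : Fin 20 → ℝ) : Inv y 0 =
      (-1/2) * y 0 + (-1/2) * y 1 + (-1/2) * y 2 + (-1/2) * y 3 + (1) * y 4 + (1) * y 5 + (1) *
      y 6 + (1) * y 7 + (1) * y 8 + (1) * y 9 + (1/2) * y 11 + (1/2) * y 12 + (1/2) * y 13 +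
      (1/2) * y 14 + (1/2) * y 15 + (-1/4) * y 18 := rfl

lemma Inv_1 (y : Fin 20 → ℝ) : Inv y 1 =
      (-1) * y 0 + (-4/3) * y 1 + (-1) * y 4 + (-2/3) * y 5 + (-2/3) * y 6 + (-4/3) * y 11 +
      (-4/3) * y 12 + (-2/3) * y 13 + (-2/3) * y 14 + (-2/3) * y 15 + (1/3) * y 19 := rfl

lemma Inv_2 (y : Fin 20 → ℝ) : Inv y 2 =
      (1) * y 0 + (2/3) * y 1 + (1/3) * y 5 + (1/3) * y 6 + (2/3) * y 11 + (2/3) * y 12 + (1/3)
      * y 13 + (1/3) * y 14 + (1/3) * y 15 + (-1/6) * y 19 := rfl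

lemma Inv_3 (y : Fin 20 → ℝ) : Inv y 3 =
      (-2/3) * y 1 + (-1/3) * y 5 + (-1/3) * y 6 + (-2/3) * y 11 + (-2/3) * y 12 + (-1/3) * y 13
      + (-1/3) * y 14 + (-1/3) * y 15 + (1/6) * y 19 := rfl

lemma Inv_4 (y : Fin 20 → ℝ) : Inv y 4 =
      (1/3) * y 1 + (1/6) * y 5 + (1/6) * y 6 + (-1/2) * y 10 + (-1/12) * y 19 := rfl

lemma Inv_5 (y : Fin 20 → ℝ) : Inv y 5 =
      (1/2) * y 1 + (-1/2) * y 5 + (1/2) * y 6 + (2/3) * y 11 + (2/3) * y 12 + (4/3) * y 13 +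
      (4/3) * y 14 + (1/3) * y 15 + (2) * y 16 + (2) * y 17 := rfl

lemma Inv_6 (y : Fin 20 → ℝ) : Inv y 6 =
      (-2/3) * y 1 + (-1/3) * y 5 + (-1/3) * y 6 + (-1/6) * y 11 + (-2/3) * y 12 + (-1/3) * y 13
      + (-1/3) * y 14 + (-1/3) * y 15 + (-1/2) * y 16 + (-1/2) * y 17 + (1/6) * y 19 := rfl

lemma Inv_7 (y : Fin 20 → ℝ) : Inv y 7 =
      (1/6) * y 1 + (-1/6) * y 5 + (-1/6) * y 6 + (-1/6) * y 19 := rfl

lemma Inv_8 (y : Fin 20 → ℝ) : Inv y 8 =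
      (1/2) * y 11 + (1) * y 13 + (1) * y 14 + (3/2) * y 16 + (3/2) * y 17 := rfl

lemma Inv_9 (y : Fin 20 → ℝ) : Inv y 9 =
      (-1/6) * y 1 + (1/6) * y 5 + (-5/6) * y 6 + (-2/3) * y 11 + (-2/3) * y 12 + (-4/3) * y 13
      + (-4/3) * y 14 + (-1/3) * y 15 + (-2) * y 16 + (-2) * y 17 + (1/6) * y 19 := rfl

lemma Inv_10 (y : Fin 20 → ℝ) : Inv y 10 =
      (-1/6) * y 11 + (-2/3) * y 12 + (-1/3) * y 13 + (-1/3) * y 14 + (-1/3) * y 15 + (-1/2) * y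
      16 + (-1/2) * y 17 := rfl

lemma Inv_11 (y : Fin 20 → ℝ) : Inv y 11 =
      (1/2) * y 2 + (-1/2) * y 7 + (1/2) * y 8 + (-1) * y 17 := rfl

lemma Inv_12 (y : Fin 20 → ℝ) : Inv y 12 =
      (1/3) * y 1 + (1/6) * y 5 + (1/6) * y 6 + (1/3) * y 11 + (1/3) * y 12 + (2/3) * y 13 +
      (1/6) * y 14 + (1/6) * y 15 + (-1/12) * y 19 := rfl

lemma Inv_13 (y : Fin 20 → ℝ) : Inv y 13 =
      (-1/2) * y 2 + (-1/2) * y 7 + (-1/2) * y 8 + (1) * y 16 + (1) * y 17 := rfl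

lemma Inv_14 (y : Fin 20 → ℝ) : Inv y 14 =
      (1/3) * y 1 + (1/6) * y 5 + (1/6) * y 6 + (1/3) * y 11 + (1/3) * y 12 + (2/3) * y 13 +
      (1/6) * y 14 + (1/6) * y 15 + (1) * y 16 + (-1/12) * y 19 := rfl

lemma Inv_15 (y : Fin 20 → ℝ) : Inv y 15 =
      (1/2) * y 2 + (1/2) * y 7 + (-1/2) * y 8 + (-1) * y 16 := rfl

lemma Inv_16 (y : Fin 20 → ℝ) : Inv y 16 =
      (1/3) * y 1 + (1/6) * y 5 + (1/6) * y 6 + (1/3) * y 11 + (1/3) * y 12 + (2/3) * y 13 +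
      (1/6) * y 14 + (1/6) * y 15 + (1) * y 16 + (1) * y 17 + (-1/12) * y 19 := rfl

lemma Inv_17 (y : Fin 20 → ℝ) : Inv y 17 =
      (-1/2) * y 0 + (-1/2) * y 1 + (-1/2) * y 2 + (1/2) * y 3 + (1) * y 4 + (1) * y 5 + (1) * y
      6 + (1) * y 7 + (1) * y 8 + (1) * y 9 + (5/6) * y 11 + (5/6) * y 12 + (7/6) * y 13 + (7/6)
      * y 14 + (7/6) * y 15 + (1) * y 16 + (1) * y 17 + (-1/4) * y 18 := rfl

lemma Inv_18 (y : Fin 20 → ℝ) : Inv y 18 =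
      (1/3) * y 11 + (1/3) * y 12 + (2/3) * y 13 + (2/3) * y 14 + (2/3) * y 15 + (1) * y 16 +
      (1) * y 17 := rfl

lemma Inv_19 (y : Fin 20 → ℝ) : Inv y 19 =
      (1/2) * y 0 + (1/2) * y 1 + (1/2) * y 2 + (-1/2) * y 3 + (-1) * y 4 + (-1) * y 5 + (-1) *
      y 6 + (-1) * y 7 + (-1) * y 8 + (-2) * y 9 + (-7/6) * y 11 + (-7/6) * y 12 + (-11/6) * y
      13 + (-11/6) * y 14 + (-11/6) * y 15 + (-2) * y 16 + (-2) * y 17 + (1/4) * y 18 := rfl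

lemma li_0 (y : Fin 20 → ℝ) : Lin (Inv y) 0 = y 0 := by
  change Inv y 3 + Inv y 2 = y 0
  rw [Inv_2, Inv_3]
  ring

lemma li_1 (y : Fin 20 → ℝ) : Lin (Inv y) 1 = y 1 := by
  change Inv y 10 - Inv y 6 + Inv y 9 + Inv y 5 = y 1
  rw [Inv_5, Inv_6, Inv_9, Inv_10]
  ring

lemma li_2 (y : Fin 20 → ℝ) : Lin (Inv y) 2 = y 2 := by
  change Inv y 16 - Inv y 12 + Inv y 15 + Inv y 11 = y 2
  rw [Inv_11, Inv_12, Inv_15, Inv_16]
  ring

lemma li_3 (y : Fin 20 → ℝ) : Lin (Inv y) 3 = y 3 := by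
  change Inv y 17 - Inv y 0 - Inv y 18 = y 3
  rw [Inv_0, Inv_17, Inv_18]
  ring

lemma li_4 (y : Fin 20 → ℝ) : Lin (Inv y) 4 = y 4 := by
  change - Inv y 2 + Inv y 3 - Inv y 1 = y 4
  rw [Inv_1, Inv_2, Inv_3]
  ring

lemma li_5 (y : Fin 20 → ℝ) : Lin (Inv y) 5 = y 5 := by
  change - Inv y 7 + Inv y 8 - Inv y 6 - Inv y 5 = y 5
  rw [Inv_5, Inv_6, Inv_7, Inv_8]
  ring

lemma li_6 (y : Fin 20 → ℝ) : Lin (Inv y) 6 = y 6 := by
  change - Inv y 9 + Inv y 10 - Inv y 8 - Inv y 7 = y 6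
  rw [Inv_7, Inv_8, Inv_9, Inv_10]
  ring

lemma li_7 (y : Fin 20 → ℝ) : Lin (Inv y) 7 = y 7 := by
  change - Inv y 13 + Inv y 14 - Inv y 12 - Inv y 11 = y 7
  rw [Inv_11, Inv_12, Inv_13, Inv_14]
  ring

lemma li_8 (y : Fin 20 → ℝ) : Lin (Inv y) 8 = y 8 := by
  change - Inv y 15 + Inv y 16 - Inv y 14 - Inv y 13 = y 8
  rw [Inv_13, Inv_14, Inv_15, Inv_16]
  ring

lemma li_9 (y : Fin 20 → ℝ) : Lin (Inv y) 9 = y 9 := by
  change - Inv y 19 - Inv y 18 - Inv y 17 = y 9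
  rw [Inv_17, Inv_18, Inv_19]
  ring

lemma li_10 (y : Fin 20 → ℝ) : Lin (Inv y) 10 = y 10 := by
  change - Inv y 6 + Inv y 10 - 2 * Inv y 4 = y 10
  rw [Inv_4, Inv_6, Inv_10]
  ring

lemma li_11 (y : Fin 20 → ℝ) : Lin (Inv y) 11 = y 11 := by
  change - Inv y 12 + Inv y 16 + 2 * Inv y 6 - 2 * Inv y 3 = y 11
  rw [Inv_3, Inv_6, Inv_12, Inv_16]
  ring

lemma li_12 (y : Fin 20 → ℝ) : Lin (Inv y) 12 = y 12 := by
  change - 2 * Inv y 10 - Inv y 18 = y 12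
  rw [Inv_10, Inv_18]
  ring

lemma li_13 (y : Fin 20 → ℝ) : Lin (Inv y) 13 = y 13 := by
  change 2 * Inv y 12 + Inv y 3 = y 13
  rw [Inv_3, Inv_12]
  ring

lemma li_14 (y : Fin 20 → ℝ) : Lin (Inv y) 14 = y 14 := by
  change Inv y 8 - Inv y 6 - 2 * Inv y 16 = y 14
  rw [Inv_6, Inv_8, Inv_16]
  ring

lemma li_15 (y : Fin 20 → ℝ) : Lin (Inv y) 15 = y 15 := by
  change 2 * Inv y 18 + Inv y 10 - Inv y 8 = y 15
  rw [Inv_8, Inv_10, Inv_18]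
  ring

lemma li_16 (y : Fin 20 → ℝ) : Lin (Inv y) 16 = y 16 := by
  change Inv y 14 - Inv y 12 = y 16
  rw [Inv_12, Inv_14]
  ring

lemma li_17 (y : Fin 20 → ℝ) : Lin (Inv y) 17 = y 17 := by
  change Inv y 16 - Inv y 14 = y 17
  rw [Inv_14, Inv_16]
  ring

lemma li_18 (y : Fin 20 → ℝ) : Lin (Inv y) 18 = y 18 := by
  change - (6 * Inv y 2 + 6 * Inv y 5 + 8 * Inv y 7 + 6 * Inv y 9 + 6 * Inv y 11 + 8 * Inv y 13 + 6 * Inv y 15 + 6 * Inv y 17) - 2 * Inv y 0 - 4 * Inv y 19 - 4 * Inv y 1 = y 18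
  rw [Inv_0, Inv_1, Inv_2, Inv_5, Inv_7, Inv_9, Inv_11, Inv_13, Inv_15, Inv_17, Inv_19]
  ring

lemma li_19 (y : Fin 20 → ℝ) : Lin (Inv y) 19 = y 19 := by
  change 2 * (Inv y 5 + Inv y 9 - 2 * Inv y 7) = y 19
  rw [Inv_5, Inv_7, Inv_9]
  ring

lemma Lin_Inv (y : Fin 20 → ℝ) : Lin (Inv y) = y := by
  funext i
  fin_cases i
  · exact li_0 y
  · exact li_1 y
  · exact li_2 y
  · exact li_3 y
  · exact li_4 y
  · exact li_5 y
  · exact li_6 y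
  · exact li_7 y
  · exact li_8 y
  · exact li_9 y
  · exact li_10 y
  · exact li_11 y
  · exact li_12 y
  · exact li_13 y
  · exact li_14 y
  · exact li_15 y
  · exact li_16 y
  · exact li_17 y
  · exact li_18 y
  · exact li_19 y

lemma G_d0 : G 0 d0 = 0 := by
  rw [G_zero]
  funext i
  fin_cases i <;>
  · simp [d0, Matrix.cons_val]
    try norm_num

end H52Hex
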