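import Pool.Agent.H52Hex.ExGeo

/-!
The modified tiles given by a solution of the system: perimeters and areas.
-/

namespace H52Hex

set_option linter.unusedSimpArgs false
set_option linter.unusedVariables false
set_option linter.unusedTactic false
set_option linter.unreachableTactic false

open scoped BigOperators ComplexConjugate

variable {c : ℕ}

/-- the modified nodes -/
noncomputable def NN (c : ℕ) (d : D) : Nodes where
  p1 := pos c (kp (tau c))
  e1 := pos c (k11 (tau c) d)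
  e3 := pos c (k13 (tau c) d)
  n20 := pos c (k20 (tau c) d)
  n21 := pos c (k21 (tau c) d)
  n23 := pos c (k23 (tau c) d)
  n24 := pos c (k24 (tau c) d)
  n25 := pos c (k25 (tau c) d)
  n32 := pos c (k32 (tau c) d)
  n33 := pos c (k33 (tau c) d)
  n34 := pos c (k34 (tau c) d)
  n38 := pos c (k38 (tau c) d)
  n39 := pos c (k39 (tau c) d)

lemma er_same {t : ℝ} {b : ℕ} {A B : Pt} (h1 : B.a = A.a) (h2 : B.b = A.b) : er t b A B = 0 := by
  simp [er, rr, psi, h1, h2]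

lemma et_same {t : ℝ} {b : ℕ} {A B : Pt} (h1 : B.a = A.a) (h2 : B.b = A.b) : et t b A B = 0 := by
  simp [et, tt, psi, h1, h2]

lemma per6 (v : Fin 6 → ℂ) : per v = dist (v 0) (v 1) + dist (v 1) (v 2) + dist (v 2) (v 3)
    + dist (v 3) (v 4) + dist (v 4) (v 5) + dist (v 5) (v 0) := by
  simp only [per, bd, Fin.sum_univ_six]; rfl

lemma bd6 (F : ℂ → ℂ → ℝ) (v : Fin 6 → ℂ) : bd F v = F (v 0) (v 1) + F (v 1) (v 2) + F (v 2) (v 3)
    + F (v 3) (v 4) + F (v 4) (v 5) + F (v 5) (v 0) := by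
  simp only [bd, Fin.sum_univ_six]; rfl

lemma nd_30 (hc : 1 ≤ c) : nd c 3 0 = pos c (k30 (tau c)) :=
  nd_eq hc 0 3 0 3 0 (by norm_num) (by norm_num) (by norm_num)

lemma nd_36 (hc : 1 ≤ c) : nd c 3 6 = pos c (k36 (tau c)) :=
  nd_eq hc 2 3 0 3 6 (by norm_num) (by norm_num) (by norm_num)

lemma nd_41 (hc : 1 ≤ c) : nd c 4 1 = pos c (k41 (tau c)) :=
  nd_eq hc 0 3 1 4 1 (by norm_num) (by norm_num) (by norm_num)

lemma nd_42 (hc : 1 ≤ c) : nd c 4 2 = pos c (k42 (tau c)) :=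
  nd_eq hc 0 2 2 4 2 (by norm_num) (by norm_num) (by norm_num)

lemma nd_44 (hc : 1 ≤ c) : nd c 4 4 = pos c (k44 (tau c)) :=
  nd_eq hc 1 4 0 4 4 (by norm_num) (by norm_num) (by norm_num)

lemma nd_46 (hc : 1 ≤ c) : nd c 4 6 = pos c (k46 (tau c)) :=
  nd_eq hc 1 2 2 4 6 (by norm_num) (by norm_num) (by norm_num)

lemma nd_47 (hc : 1 ≤ c) : nd c 4 7 = pos c (k47 (tau c)) :=
  nd_eq hc 1 1 3 4 7 (by norm_num) (by norm_num) (by norm_num)

lemma nd_49 (hc : 1 ≤ c) : nd c 4 9 = pos c (k49 (tau c)) :=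
  nd_eq hc 2 3 1 4 9 (by norm_num) (by norm_num) (by norm_num)

lemma nd_4A (hc : 1 ≤ c) : nd c 4 10 = pos c (k4A (tau c)) :=
  nd_eq hc 2 2 2 4 10 (by norm_num) (by norm_num) (by norm_num)

lemma nd_4C (hc : 1 ≤ c) : nd c 4 12 = pos c (k4C (tau c)) :=
  nd_eq hc 3 4 0 4 12 (by norm_num) (by norm_num) (by norm_num)

lemma nd_53 (hc : 1 ≤ c) : nd c 5 3 = pos c (k53 (tau c)) :=
  nd_eq hc 0 2 3 5 3 (by norm_num) (by norm_num) (by norm_num)

lemma nd_54 (hc : 1 ≤ c) : nd c 5 4 = pos c (k54 (tau c)) :=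
  nd_eq hc 0 1 4 5 4 (by norm_num) (by norm_num) (by norm_num)

lemma nd_56 (hc : 1 ≤ c) : nd c 5 6 = pos c (k56 (tau c)) :=
  nd_eq hc 1 4 1 5 6 (by norm_num) (by norm_num) (by norm_num)

lemma nd_57 (hc : 1 ≤ c) : nd c 5 7 = pos c (k57 (tau c)) :=
  nd_eq hc 1 3 2 5 7 (by norm_num) (by norm_num) (by norm_num)

lemma nd_5D (hc : 1 ≤ c) : nd c 5 13 = pos c (k5D (tau c)) :=
  nd_eq hc 2 2 3 5 13 (by norm_num) (by norm_num) (by norm_num)

lemma nd_5E (hc : 1 ≤ c) : nd c 5 14 = pos c (k5E (tau c)) :=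
  nd_eq hc 2 1 4 5 14 (by norm_num) (by norm_num) (by norm_num)

lemma dE_20_21 (hc : 1 ≤ c) (d : D) : dist (pos c (k20 (tau c) d)) (pos c (k21 (tau c) d)) =
    el c * (‖om c - 1‖ + tau c ^ 2 * et (tau c) 0 (k20 (tau c) d) (k21 (tau c) d)) :=
  dist_tr hc 0 (k20 (tau c) d) (k21 (tau c) d)
    (by have h := ux_succ 0 (tau c ^ 2); norm_num [k20, k21, pp] at h ⊢; linear_combination h)
    (by norm_num [k20, k21, pp]; try ring)

lemma dE_11_21 (hc : 1 ≤ c) (d : D) : dist (pos c (k11 (tau c) d)) (pos c (k21 (tau c) d)) =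
    el c * (1 + tau c ^ 2 * er (tau c) 0 (k11 (tau c) d) (k21 (tau c) d)) :=
  dist_rad hc 0 (k11 (tau c) d) (k21 (tau c) d) (by norm_num [k11, k21, pp, ux_zero, uy_zero]; try ring)
    (by norm_num [k11, k21, pp, ux_zero, uy_zero]; try ring)

lemma dE_p_11 (hc : 1 ≤ c) (d : D) : dist (pos c (kp (tau c))) (pos c (k11 (tau c) d)) =
    el c * (1 + tau c ^ 2 * er (tau c) 1 (kp (tau c)) (k11 (tau c) d)) :=
  dist_rad hc 1 (kp (tau c)) (k11 (tau c) d) (by norm_num [kp, k11, pp, ux_zero, uy_zero]; try ring)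
    (by norm_num [kp, k11, pp, ux_zero, uy_zero]; try ring)

lemma dE_23_24 (hc : 1 ≤ c) (d : D) : dist (pos c (k23 (tau c) d)) (pos c (k24 (tau c) d)) =
    el c * (‖om c - 1‖ + tau c ^ 2 * et (tau c) 1 (k23 (tau c) d) (k24 (tau c) d)) :=
  dist_tr hc 1 (k23 (tau c) d) (k24 (tau c) d)
    (by have h := ux_succ 1 (tau c ^ 2); norm_num [k23, k24, pp] at h ⊢; linear_combination h)
    (by norm_num [k23, k24, pp]; try ring)

lemma dE_24_25 (hc : 1 ≤ c) (d : D) : dist (pos c (k24 (tau c) d)) (pos c (k25 (tau c) d)) =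
    el c * (‖om c - 1‖ + tau c ^ 2 * et (tau c) 2 (k24 (tau c) d) (k25 (tau c) d)) :=
  dist_tr hc 2 (k24 (tau c) d) (k25 (tau c) d)
    (by have h := ux_succ 2 (tau c ^ 2); norm_num [k24, k25, pp] at h ⊢; linear_combination h)
    (by norm_num [k24, k25, pp]; try ring)

lemma dE_13_25 (hc : 1 ≤ c) (d : D) : dist (pos c (k13 (tau c) d)) (pos c (k25 (tau c) d)) =
    el c * (1 + tau c ^ 2 * er (tau c) 2 (k13 (tau c) d) (k25 (tau c) d)) :=
  dist_rad hc 2 (k13 (tau c) d) (k25 (tau c) d) (by norm_num [k13, k25, pp, ux_zero, uy_zero]; try ring)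
    (by norm_num [k13, k25, pp, ux_zero, uy_zero]; try ring)

lemma dE_0_13 (hc : 1 ≤ c) (d : D) : dist (pos c (k0 (tau c))) (pos c (k13 (tau c) d)) =
    el c * (1 + tau c ^ 2 * er (tau c) 3 (k0 (tau c)) (k13 (tau c) d)) :=
  dist_rad hc 3 (k0 (tau c)) (k13 (tau c) d) (by norm_num [k0, k13, pp, ux_zero, uy_zero]; try ring)
    (by norm_num [k0, k13, pp, ux_zero, uy_zero]; try ring)

lemma dE_11_23 (hc : 1 ≤ c) (d : D) : dist (pos c (k11 (tau c) d)) (pos c (k23 (tau c) d)) =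
    el c * (1 + tau c ^ 2 * er (tau c) 2 (k11 (tau c) d) (k23 (tau c) d)) :=
  dist_rad hc 2 (k11 (tau c) d) (k23 (tau c) d) (by norm_num [k11, k23, pp, ux_zero, uy_zero]; try ring)
    (by norm_num [k11, k23, pp, ux_zero, uy_zero]; try ring)

lemma dE_32_33 (hc : 1 ≤ c) (d : D) : dist (pos c (k32 (tau c) d)) (pos c (k33 (tau c) d)) =
    el c * (‖om c - 1‖ + tau c ^ 2 * et (tau c) 0 (k32 (tau c) d) (k33 (tau c) d)) :=
  dist_tr hc 0 (k32 (tau c) d) (k33 (tau c) d)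
    (by have h := ux_succ 0 (tau c ^ 2); norm_num [k32, k33, pp] at h ⊢; linear_combination h)
    (by norm_num [k32, k33, pp]; try ring)

lemma dE_33_34 (hc : 1 ≤ c) (d : D) : dist (pos c (k33 (tau c) d)) (pos c (k34 (tau c) d)) =
    el c * (‖om c - 1‖ + tau c ^ 2 * et (tau c) 1 (k33 (tau c) d) (k34 (tau c) d)) :=
  dist_tr hc 1 (k33 (tau c) d) (k34 (tau c) d)
    (by have h := ux_succ 1 (tau c ^ 2); norm_num [k33, k34, pp] at h ⊢; linear_combination h)
    (by norm_num [k33, k34, pp]; try ring)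

lemma dE_23_34 (hc : 1 ≤ c) (d : D) : dist (pos c (k23 (tau c) d)) (pos c (k34 (tau c) d)) =
    el c * (1 + tau c ^ 2 * er (tau c) 1 (k23 (tau c) d) (k34 (tau c) d)) :=
  dist_rad hc 1 (k23 (tau c) d) (k34 (tau c) d) (by norm_num [k23, k34, pp, ux_zero, uy_zero]; try ring)
    (by norm_num [k23, k34, pp, ux_zero, uy_zero]; try ring)

lemma dE_21_32 (hc : 1 ≤ c) (d : D) : dist (pos c (k21 (tau c) d)) (pos c (k32 (tau c) d)) =
    el c * (1 + tau c ^ 2 * er (tau c) 1 (k21 (tau c) d) (k32 (tau c) d)) :=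
  dist_rad hc 1 (k21 (tau c) d) (k32 (tau c) d) (by norm_num [k21, k32, pp, ux_zero, uy_zero]; try ring)
    (by norm_num [k21, k32, pp, ux_zero, uy_zero]; try ring)

lemma dE_25_38 (hc : 1 ≤ c) (d : D) : dist (pos c (k25 (tau c) d)) (pos c (k38 (tau c) d)) =
    el c * (1 + tau c ^ 2 * er (tau c) 3 (k25 (tau c) d) (k38 (tau c) d)) :=
  dist_rad hc 3 (k25 (tau c) d) (k38 (tau c) d) (by norm_num [k25, k38, pp, ux_zero, uy_zero]; try ring)
    (by norm_num [k25, k38, pp, ux_zero, uy_zero]; try ring)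

lemma dE_38_39 (hc : 1 ≤ c) (d : D) : dist (pos c (k38 (tau c) d)) (pos c (k39 (tau c) d)) =
    el c * (‖om c - 1‖ + tau c ^ 2 * et (tau c) 2 (k38 (tau c) d) (k39 (tau c) d)) :=
  dist_tr hc 2 (k38 (tau c) d) (k39 (tau c) d)
    (by have h := ux_succ 2 (tau c ^ 2); norm_num [k38, k39, pp] at h ⊢; linear_combination h)
    (by norm_num [k38, k39, pp]; try ring)

lemma dE_32_42 (hc : 1 ≤ c) (d : D) : dist (pos c (k32 (tau c) d)) (pos c (k42 (tau c))) =
    el c * (1 + tau c ^ 2 * er (tau c) 0 (k32 (tau c) d) (k42 (tau c))) :=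
  dist_rad hc 0 (k32 (tau c) d) (k42 (tau c)) (by norm_num [k32, k42, pp, ux_zero, uy_zero]; try ring)
    (by norm_num [k32, k42, pp, ux_zero, uy_zero]; try ring)

lemma dE_20_30 (hc : 1 ≤ c) (d : D) : dist (pos c (k20 (tau c) d)) (pos c (k30 (tau c))) =
    el c * (1 + tau c ^ 2 * er (tau c) 0 (k20 (tau c) d) (k30 (tau c))) :=
  dist_rad hc 0 (k20 (tau c) d) (k30 (tau c)) (by norm_num [k20, k30, pp, ux_zero, uy_zero]; try ring)
    (by norm_num [k20, k30, pp, ux_zero, uy_zero]; try ring)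

lemma dE_24_36 (hc : 1 ≤ c) (d : D) : dist (pos c (k24 (tau c) d)) (pos c (k36 (tau c))) =
    el c * (1 + tau c ^ 2 * er (tau c) 2 (k24 (tau c) d) (k36 (tau c))) :=
  dist_rad hc 2 (k24 (tau c) d) (k36 (tau c)) (by norm_num [k24, k36, pp, ux_zero, uy_zero]; try ring)
    (by norm_num [k24, k36, pp, ux_zero, uy_zero]; try ring)

lemma dE_34_46 (hc : 1 ≤ c) (d : D) : dist (pos c (k34 (tau c) d)) (pos c (k46 (tau c))) =
    el c * (1 + tau c ^ 2 * er (tau c) 2 (k34 (tau c) d) (k46 (tau c))) :=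
  dist_rad hc 2 (k34 (tau c) d) (k46 (tau c)) (by norm_num [k34, k46, pp, ux_zero, uy_zero]; try ring)
    (by norm_num [k34, k46, pp, ux_zero, uy_zero]; try ring)

lemma dE_38_4A (hc : 1 ≤ c) (d : D) : dist (pos c (k38 (tau c) d)) (pos c (k4A (tau c))) =
    el c * (1 + tau c ^ 2 * er (tau c) 2 (k38 (tau c) d) (k4A (tau c))) :=
  dist_rad hc 2 (k38 (tau c) d) (k4A (tau c)) (by norm_num [k38, k4A, pp, ux_zero, uy_zero]; try ring)
    (by norm_num [k38, k4A, pp, ux_zero, uy_zero]; try ring)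

lemma dE_33_44 (hc : 1 ≤ c) (d : D) : dist (pos c (k33 (tau c) d)) (pos c (k44 (tau c))) =
    el c * (1 + tau c ^ 2 * er (tau c) 1 (k33 (tau c) d) (k44 (tau c))) :=
  dist_rad hc 1 (k33 (tau c) d) (k44 (tau c)) (by norm_num [k33, k44, pp, ux_zero, uy_zero]; try ring)
    (by norm_num [k33, k44, pp, ux_zero, uy_zero]; try ring)

lemma dE_39_4C (hc : 1 ≤ c) (d : D) : dist (pos c (k39 (tau c) d)) (pos c (k4C (tau c))) =
    el c * (1 + tau c ^ 2 * er (tau c) 3 (k39 (tau c) d) (k4C (tau c))) :=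
  dist_rad hc 3 (k39 (tau c) d) (k4C (tau c)) (by norm_num [k39, k4C, pp, ux_zero, uy_zero]; try ring)
    (by norm_num [k39, k4C, pp, ux_zero, uy_zero]; try ring)

lemma dE_41_42 (hc : 1 ≤ c) : dist (pos c (k41 (tau c))) (pos c (k42 (tau c))) =
    el c * ‖om c - 1‖ := by
  rw [dist_tr hc 0 (k41 (tau c)) (k42 (tau c))
    (by have h := ux_succ 0 (tau c ^ 2); norm_num [k41, k42, pp] at h ⊢; linear_combination h)
    (by norm_num [k41, k42, pp]; try ring), et_same (by simp [k41, k42, pp]) (by simp [k41, k42, pp])]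
  ring

lemma dE_30_41 (hc : 1 ≤ c) : dist (pos c (k30 (tau c))) (pos c (k41 (tau c))) =
    el c := by
  rw [dist_rad hc 1 (k30 (tau c)) (k41 (tau c)) (by norm_num [k30, k41, pp, ux_zero, uy_zero]; try ring)
    (by norm_num [k30, k41, pp, ux_zero, uy_zero]; try ring), er_same (by simp [k30, k41, pp]) (by simp [k30, k41, pp])]
  ring

lemma dE_46_47 (hc : 1 ≤ c) : dist (pos c (k46 (tau c))) (pos c (k47 (tau c))) =
    el c * ‖om c - 1‖ := by
  rw [dist_tr hc 1 (k46 (tau c)) (k47 (tau c))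
    (by have h := ux_succ 1 (tau c ^ 2); norm_num [k46, k47, pp] at h ⊢; linear_combination h)
    (by norm_num [k46, k47, pp]; try ring), et_same (by simp [k46, k47, pp]) (by simp [k46, k47, pp])]
  ring

lemma dE_36_47 (hc : 1 ≤ c) : dist (pos c (k36 (tau c))) (pos c (k47 (tau c))) =
    el c := by
  rw [dist_rad hc 1 (k36 (tau c)) (k47 (tau c)) (by norm_num [k36, k47, pp, ux_zero, uy_zero]; try ring)
    (by norm_num [k36, k47, pp, ux_zero, uy_zero]; try ring), er_same (by simp [k36, k47, pp]) (by simp [k36, k47, pp])]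
  ring

lemma dE_49_4A (hc : 1 ≤ c) : dist (pos c (k49 (tau c))) (pos c (k4A (tau c))) =
    el c * ‖om c - 1‖ := by
  rw [dist_tr hc 2 (k49 (tau c)) (k4A (tau c))
    (by have h := ux_succ 2 (tau c ^ 2); norm_num [k49, k4A, pp] at h ⊢; linear_combination h)
    (by norm_num [k49, k4A, pp]; try ring), et_same (by simp [k49, k4A, pp]) (by simp [k49, k4A, pp])]
  ring

lemma dE_36_49 (hc : 1 ≤ c) : dist (pos c (k36 (tau c))) (pos c (k49 (tau c))) =
    el c := by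
  rw [dist_rad hc 3 (k36 (tau c)) (k49 (tau c)) (by norm_num [k36, k49, pp, ux_zero, uy_zero]; try ring)
    (by norm_num [k36, k49, pp, ux_zero, uy_zero]; try ring), er_same (by simp [k36, k49, pp]) (by simp [k36, k49, pp])]
  ring

lemma dE_53_54 (hc : 1 ≤ c) : dist (pos c (k53 (tau c))) (pos c (k54 (tau c))) =
    el c * ‖om c - 1‖ := by
  rw [dist_tr hc 0 (k53 (tau c)) (k54 (tau c))
    (by have h := ux_succ 0 (tau c ^ 2); norm_num [k53, k54, pp] at h ⊢; linear_combination h)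
    (by norm_num [k53, k54, pp]; try ring), et_same (by simp [k53, k54, pp]) (by simp [k53, k54, pp])]
  ring

lemma dE_44_54 (hc : 1 ≤ c) : dist (pos c (k44 (tau c))) (pos c (k54 (tau c))) =
    el c := by
  rw [dist_rad hc 0 (k44 (tau c)) (k54 (tau c)) (by norm_num [k44, k54, pp, ux_zero, uy_zero]; try ring)
    (by norm_num [k44, k54, pp, ux_zero, uy_zero]; try ring), er_same (by simp [k44, k54, pp]) (by simp [k44, k54, pp])]
  ring

lemma dE_42_53 (hc : 1 ≤ c) : dist (pos c (k42 (tau c))) (pos c (k53 (tau c))) =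
    el c := by
  rw [dist_rad hc 1 (k42 (tau c)) (k53 (tau c)) (by norm_num [k42, k53, pp, ux_zero, uy_zero]; try ring)
    (by norm_num [k42, k53, pp, ux_zero, uy_zero]; try ring), er_same (by simp [k42, k53, pp]) (by simp [k42, k53, pp])]
  ring

lemma dE_56_57 (hc : 1 ≤ c) : dist (pos c (k56 (tau c))) (pos c (k57 (tau c))) =
    el c * ‖om c - 1‖ := by
  rw [dist_tr hc 1 (k56 (tau c)) (k57 (tau c))
    (by have h := ux_succ 1 (tau c ^ 2); norm_num [k56, k57, pp] at h ⊢; linear_combination h)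
    (by norm_num [k56, k57, pp]; try ring), et_same (by simp [k56, k57, pp]) (by simp [k56, k57, pp])]
  ring

lemma dE_46_57 (hc : 1 ≤ c) : dist (pos c (k46 (tau c))) (pos c (k57 (tau c))) =
    el c := by
  rw [dist_rad hc 1 (k46 (tau c)) (k57 (tau c)) (by norm_num [k46, k57, pp, ux_zero, uy_zero]; try ring)
    (by norm_num [k46, k57, pp, ux_zero, uy_zero]; try ring), er_same (by simp [k46, k57, pp]) (by simp [k46, k57, pp])]
  ring

lemma dE_44_56 (hc : 1 ≤ c) : dist (pos c (k44 (tau c))) (pos c (k56 (tau c))) =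
    el c := by
  rw [dist_rad hc 2 (k44 (tau c)) (k56 (tau c)) (by norm_num [k44, k56, pp, ux_zero, uy_zero]; try ring)
    (by norm_num [k44, k56, pp, ux_zero, uy_zero]; try ring), er_same (by simp [k44, k56, pp]) (by simp [k44, k56, pp])]
  ring

lemma dE_5D_5E (hc : 1 ≤ c) : dist (pos c (k5D (tau c))) (pos c (k5E (tau c))) =
    el c * ‖om c - 1‖ := by
  rw [dist_tr hc 2 (k5D (tau c)) (k5E (tau c))
    (by have h := ux_succ 2 (tau c ^ 2); norm_num [k5D, k5E, pp] at h ⊢; linear_combination h)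
    (by norm_num [k5D, k5E, pp]; try ring), et_same (by simp [k5D, k5E, pp]) (by simp [k5D, k5E, pp])]
  ring

lemma dE_4C_5E (hc : 1 ≤ c) : dist (pos c (k4C (tau c))) (pos c (k5E (tau c))) =
    el c := by
  rw [dist_rad hc 2 (k4C (tau c)) (k5E (tau c)) (by norm_num [k4C, k5E, pp, ux_zero, uy_zero]; try ring)
    (by norm_num [k4C, k5E, pp, ux_zero, uy_zero]; try ring), er_same (by simp [k4C, k5E, pp]) (by simp [k4C, k5E, pp])]
  ring

lemma dE_4A_5D (hc : 1 ≤ c) : dist (pos c (k4A (tau c))) (pos c (k5D (tau c))) =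
    el c := by
  rw [dist_rad hc 3 (k4A (tau c)) (k5D (tau c)) (by norm_num [k4A, k5D, pp, ux_zero, uy_zero]; try ring)
    (by norm_num [k4A, k5D, pp, ux_zero, uy_zero]; try ring), er_same (by simp [k4A, k5D, pp]) (by simp [k4A, k5D, pp])]
  ring

lemma per_V4 (hc : 1 ≤ c) (d : D) (h : g4 (tau c) d = 0) : per (V c (NN c d) 4) = Per c := by
  have e : per (V c (NN c d) 4) = dist (nd c 4 1) (nd c 4 2) + dist (nd c 4 2) (NN c d).n32 + dist (NN c d).n32 (NN c d).n21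
      + dist (NN c d).n21 (NN c d).n20 + dist (NN c d).n20 (nd c 3 0) + dist (nd c 3 0) (nd c 4 1) := by
    rw [per6]; rfl
  have h0 : dist (nd c 4 1) (nd c 4 2) = el c * ‖om c - 1‖ := by
    rw [nd_41 hc, nd_42 hc]
    exact dE_41_42 hc
  have h1 : dist (nd c 4 2) (NN c d).n32 = el c * (1 + tau c ^ 2 * er (tau c) 0 (k32 (tau c) d) (k42 (tau c))) := by
    rw [nd_42 hc, dist_comm]
    exact dE_32_42 hc d
  have h2 : dist (NN c d).n32 (NN c d).n21 = el c * (1 + tau c ^ 2 * er (tau c) 1 (k21 (tau c) d) (k32 (tau c) d)) := by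
    rw [dist_comm]
    exact dE_21_32 hc d
  have h3 : dist (NN c d).n21 (NN c d).n20 = el c * (‖om c - 1‖ + tau c ^ 2 * et (tau c) 0 (k20 (tau c) d) (k21 (tau c) d)) := by
    rw [dist_comm]
    exact dE_20_21 hc d
  have h4 : dist (NN c d).n20 (nd c 3 0) = el c * (1 + tau c ^ 2 * er (tau c) 0 (k20 (tau c) d) (k30 (tau c))) := by
    rw [nd_30 hc]
    exact dE_20_30 hc d
  have h5 : dist (nd c 3 0) (nd c 4 1) = el c := by
    rw [nd_30 hc, nd_41 hc]
    exact dE_30_41 hc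
  rw [e, h0, h1, h2, h3, h4, h5, Per]
  rw [g4] at h
  linear_combination (el c * tau c ^ 2) * h

lemma per_V5 (hc : 1 ≤ c) (d : D) (h : g5 (tau c) d = 0) : per (V c (NN c d) 5) = Per c := by
  have e : per (V c (NN c d) 5) = dist (nd c 4 6) (nd c 4 7) + dist (nd c 4 7) (nd c 3 6) + dist (nd c 3 6) (NN c d).n24
      + dist (NN c d).n24 (NN c d).n23 + dist (NN c d).n23 (NN c d).n34 + dist (NN c d).n34 (nd c 4 6) := by
    rw [per6]; rfl
  have h0 : dist (nd c 4 6) (nd c 4 7) = el c * ‖om c - 1‖ := by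
    rw [nd_46 hc, nd_47 hc]
    exact dE_46_47 hc
  have h1 : dist (nd c 4 7) (nd c 3 6) = el c := by
    rw [nd_47 hc, nd_36 hc, dist_comm]
    exact dE_36_47 hc
  have h2 : dist (nd c 3 6) (NN c d).n24 = el c * (1 + tau c ^ 2 * er (tau c) 2 (k24 (tau c) d) (k36 (tau c))) := by
    rw [nd_36 hc, dist_comm]
    exact dE_24_36 hc d
  have h3 : dist (NN c d).n24 (NN c d).n23 = el c * (‖om c - 1‖ + tau c ^ 2 * et (tau c) 1 (k23 (tau c) d) (k24 (tau c) d)) := by
    rw [dist_comm]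
    exact dE_23_24 hc d
  have h4 : dist (NN c d).n23 (NN c d).n34 = el c * (1 + tau c ^ 2 * er (tau c) 1 (k23 (tau c) d) (k34 (tau c) d)) := dE_23_34 hc d
  have h5 : dist (NN c d).n34 (nd c 4 6) = el c * (1 + tau c ^ 2 * er (tau c) 2 (k34 (tau c) d) (k46 (tau c))) := by
    rw [nd_46 hc]
    exact dE_34_46 hc d
  rw [e, h0, h1, h2, h3, h4, h5, Per]
  rw [g5] at h
  linear_combination (el c * tau c ^ 2) * h

lemma per_V6 (hc : 1 ≤ c) (d : D) (h : g6 (tau c) d = 0) : per (V c (NN c d) 6) = Per c := by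
  have e : per (V c (NN c d) 6) = dist (nd c 4 9) (nd c 4 10) + dist (nd c 4 10) (NN c d).n38 + dist (NN c d).n38 (NN c d).n25
      + dist (NN c d).n25 (NN c d).n24 + dist (NN c d).n24 (nd c 3 6) + dist (nd c 3 6) (nd c 4 9) := by
    rw [per6]; rfl
  have h0 : dist (nd c 4 9) (nd c 4 10) = el c * ‖om c - 1‖ := by
    rw [nd_49 hc, nd_4A hc]
    exact dE_49_4A hc
  have h1 : dist (nd c 4 10) (NN c d).n38 = el c * (1 + tau c ^ 2 * er (tau c) 2 (k38 (tau c) d) (k4A (tau c))) := by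
    rw [nd_4A hc, dist_comm]
    exact dE_38_4A hc d
  have h2 : dist (NN c d).n38 (NN c d).n25 = el c * (1 + tau c ^ 2 * er (tau c) 3 (k25 (tau c) d) (k38 (tau c) d)) := by
    rw [dist_comm]
    exact dE_25_38 hc d
  have h3 : dist (NN c d).n25 (NN c d).n24 = el c * (‖om c - 1‖ + tau c ^ 2 * et (tau c) 2 (k24 (tau c) d) (k25 (tau c) d)) := by
    rw [dist_comm]
    exact dE_24_25 hc d
  have h4 : dist (NN c d).n24 (nd c 3 6) = el c * (1 + tau c ^ 2 * er (tau c) 2 (k24 (tau c) d) (k36 (tau c))) := by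
    rw [nd_36 hc]
    exact dE_24_36 hc d
  have h5 : dist (nd c 3 6) (nd c 4 9) = el c := by
    rw [nd_36 hc, nd_49 hc]
    exact dE_36_49 hc
  rw [e, h0, h1, h2, h3, h4, h5, Per]
  rw [g6] at h
  linear_combination (el c * tau c ^ 2) * h

lemma per_V7 (hc : 1 ≤ c) (d : D) (h : g7 (tau c) d = 0) : per (V c (NN c d) 7) = Per c := by
  have e : per (V c (NN c d) 7) = dist (nd c 5 3) (nd c 5 4) + dist (nd c 5 4) (nd c 4 4) + dist (nd c 4 4) (NN c d).n33
      + dist (NN c d).n33 (NN c d).n32 + dist (NN c d).n32 (nd c 4 2) + dist (nd c 4 2) (nd c 5 3) := by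
    rw [per6]; rfl
  have h0 : dist (nd c 5 3) (nd c 5 4) = el c * ‖om c - 1‖ := by
    rw [nd_53 hc, nd_54 hc]
    exact dE_53_54 hc
  have h1 : dist (nd c 5 4) (nd c 4 4) = el c := by
    rw [nd_54 hc, nd_44 hc, dist_comm]
    exact dE_44_54 hc
  have h2 : dist (nd c 4 4) (NN c d).n33 = el c * (1 + tau c ^ 2 * er (tau c) 1 (k33 (tau c) d) (k44 (tau c))) := by
    rw [nd_44 hc, dist_comm]
    exact dE_33_44 hc d
  have h3 : dist (NN c d).n33 (NN c d).n32 = el c * (‖om c - 1‖ + tau c ^ 2 * et (tau c) 0 (k32 (tau c) d) (k33 (tau c) d)) := by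
    rw [dist_comm]
    exact dE_32_33 hc d
  have h4 : dist (NN c d).n32 (nd c 4 2) = el c * (1 + tau c ^ 2 * er (tau c) 0 (k32 (tau c) d) (k42 (tau c))) := by
    rw [nd_42 hc]
    exact dE_32_42 hc d
  have h5 : dist (nd c 4 2) (nd c 5 3) = el c := by
    rw [nd_42 hc, nd_53 hc]
    exact dE_42_53 hc
  rw [e, h0, h1, h2, h3, h4, h5, Per]
  rw [g7] at h
  linear_combination (el c * tau c ^ 2) * h

lemma per_V8 (hc : 1 ≤ c) (d : D) (h : g8 (tau c) d = 0) : per (V c (NN c d) 8) = Per c := by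
  have e : per (V c (NN c d) 8) = dist (nd c 5 6) (nd c 5 7) + dist (nd c 5 7) (nd c 4 6) + dist (nd c 4 6) (NN c d).n34
      + dist (NN c d).n34 (NN c d).n33 + dist (NN c d).n33 (nd c 4 4) + dist (nd c 4 4) (nd c 5 6) := by
    rw [per6]; rfl
  have h0 : dist (nd c 5 6) (nd c 5 7) = el c * ‖om c - 1‖ := by
    rw [nd_56 hc, nd_57 hc]
    exact dE_56_57 hc
  have h1 : dist (nd c 5 7) (nd c 4 6) = el c := by
    rw [nd_57 hc, nd_46 hc, dist_comm]
    exact dE_46_57 hc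
  have h2 : dist (nd c 4 6) (NN c d).n34 = el c * (1 + tau c ^ 2 * er (tau c) 2 (k34 (tau c) d) (k46 (tau c))) := by
    rw [nd_46 hc, dist_comm]
    exact dE_34_46 hc d
  have h3 : dist (NN c d).n34 (NN c d).n33 = el c * (‖om c - 1‖ + tau c ^ 2 * et (tau c) 1 (k33 (tau c) d) (k34 (tau c) d)) := by
    rw [dist_comm]
    exact dE_33_34 hc d
  have h4 : dist (NN c d).n33 (nd c 4 4) = el c * (1 + tau c ^ 2 * er (tau c) 1 (k33 (tau c) d) (k44 (tau c))) := by
    rw [nd_44 hc]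
    exact dE_33_44 hc d
  have h5 : dist (nd c 4 4) (nd c 5 6) = el c := by
    rw [nd_44 hc, nd_56 hc]
    exact dE_44_56 hc
  rw [e, h0, h1, h2, h3, h4, h5, Per]
  rw [g8] at h
  linear_combination (el c * tau c ^ 2) * h

lemma per_V9 (hc : 1 ≤ c) (d : D) (h : g9 (tau c) d = 0) : per (V c (NN c d) 9) = Per c := by
  have e : per (V c (NN c d) 9) = dist (nd c 5 13) (nd c 5 14) + dist (nd c 5 14) (nd c 4 12) + dist (nd c 4 12) (NN c d).n39
      + dist (NN c d).n39 (NN c d).n38 + dist (NN c d).n38 (nd c 4 10) + dist (nd c 4 10) (nd c 5 13) := by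
    rw [per6]; rfl
  have h0 : dist (nd c 5 13) (nd c 5 14) = el c * ‖om c - 1‖ := by
    rw [nd_5D hc, nd_5E hc]
    exact dE_5D_5E hc
  have h1 : dist (nd c 5 14) (nd c 4 12) = el c := by
    rw [nd_5E hc, nd_4C hc, dist_comm]
    exact dE_4C_5E hc
  have h2 : dist (nd c 4 12) (NN c d).n39 = el c * (1 + tau c ^ 2 * er (tau c) 3 (k39 (tau c) d) (k4C (tau c))) := by
    rw [nd_4C hc, dist_comm]
    exact dE_39_4C hc d
  have h3 : dist (NN c d).n39 (NN c d).n38 = el c * (‖om c - 1‖ + tau c ^ 2 * et (tau c) 2 (k38 (tau c) d) (k39 (tau c) d)) := by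
    rw [dist_comm]
    exact dE_38_39 hc d
  have h4 : dist (NN c d).n38 (nd c 4 10) = el c * (1 + tau c ^ 2 * er (tau c) 2 (k38 (tau c) d) (k4A (tau c))) := by
    rw [nd_4A hc]
    exact dE_38_4A hc d
  have h5 : dist (nd c 4 10) (nd c 5 13) = el c := by
    rw [nd_4A hc, nd_5D hc]
    exact dE_4A_5D hc
  rw [e, h0, h1, h2, h3, h4, h5, Per]
  rw [g9] at h
  linear_combination (el c * tau c ^ 2) * h

lemma per_V2 (hc : 1 ≤ c) (d : D) (h : g2 (tau c) d = 0) : per (V c (NN c d) 2) = Per c := by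
  have e : per (V c (NN c d) 2) = dist (NN c d).n32 (NN c d).n33 + dist (NN c d).n33 (NN c d).n34 + dist (NN c d).n34 (NN c d).n23
      + dist (NN c d).n23 (NN c d).e1 + dist (NN c d).e1 (NN c d).n21 + dist (NN c d).n21 (NN c d).n32 := by
    rw [per6]; rfl
  have h0 : dist (NN c d).n32 (NN c d).n33 = el c * (‖om c - 1‖ + tau c ^ 2 * et (tau c) 0 (k32 (tau c) d) (k33 (tau c) d)) := dE_32_33 hc d
  have h1 : dist (NN c d).n33 (NN c d).n34 = el c * (‖om c - 1‖ + tau c ^ 2 * et (tau c) 1 (k33 (tau c) d) (k34 (tau c) d)) := dE_33_34 hc d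
  have h2 : dist (NN c d).n34 (NN c d).n23 = el c * (1 + tau c ^ 2 * er (tau c) 1 (k23 (tau c) d) (k34 (tau c) d)) := by
    rw [dist_comm]
    exact dE_23_34 hc d
  have h3 : dist (NN c d).n23 (NN c d).e1 = el c * (1 + tau c ^ 2 * er (tau c) 2 (k11 (tau c) d) (k23 (tau c) d)) := by
    rw [dist_comm]
    exact dE_11_23 hc d
  have h4 : dist (NN c d).e1 (NN c d).n21 = el c * (1 + tau c ^ 2 * er (tau c) 0 (k11 (tau c) d) (k21 (tau c) d)) := dE_11_21 hc d
  have h5 : dist (NN c d).n21 (NN c d).n32 = el c * (1 + tau c ^ 2 * er (tau c) 1 (k21 (tau c) d) (k32 (tau c) d)) := dE_21_32 hc d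
  rw [e, h0, h1, h2, h3, h4, h5, Per]
  rw [g2] at h
  linear_combination (el c * tau c ^ 2) * h

end H52Hex
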