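import Pool.Agent.H52Hex.ExTiles

/-!
Symmetry, the special tiles (types 0, 1, 3), flatness, and the areas.
-/

namespace H52Hex

set_option linter.unusedSimpArgs false
set_option linter.unusedVariables false
set_option linter.unusedTactic false
set_option linter.unreachableTactic false

open scoped BigOperators ComplexConjugate

variable {c : ℕ}

lemma pos_real {P : Pt} (h : P.Y (tau c) = 0) : conj (pos c P) = pos c P := by
  apply Complex.ext
  · simp [pos, ps]
  · simp [pos, ps, h]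

lemma conj_om (c : ℕ) : conj (om c) = (om c)⁻¹ := (Complex.inv_eq_conj (norm_om c)).symm

lemma refl_ray (r : ℝ) : zt c * conj ((r : ℂ) * om c ^ 3) = (r : ℂ) * om c ^ 3 := by
  have h := om_ne_zero c
  rw [map_mul, map_pow, conj_om, Complex.conj_ofReal, zt]
  field_simp

lemma norm_zt (c : ℕ) : ‖zt c‖ = 1 := by rw [zt, norm_pow, norm_om, one_pow]

lemma pos_ray (hc : 1 ≤ c) (n : ℕ) (a : ℝ) :
    pos c (pp (tau c) 3 n 0 (a * ux 3 (tau c ^ 2)) (tau c * a * uy 3 (tau c ^ 2)))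
      = ((el c * (n + tau c ^ 2 * a) : ℝ) : ℂ) * om c ^ 3 := by
  rw [om_pow_eq hc 3]
  apply Complex.ext
  · simp only [pos, ps, pp, Pt.X, Pt.Y, Complex.mul_re, Complex.ofReal_re, Complex.ofReal_im]
    push_cast; ring
  · simp only [pos, ps, pp, Pt.X, Pt.Y, Complex.mul_im, Complex.ofReal_re, Complex.ofReal_im]
    push_cast; ring

lemma NN_symm (hc : 1 ≤ c) (d : D) : (NN c d).Symm c where
  hp1 := pos_real (by simp [kp, pp, Pt.Y, uy_zero])
  h20 := pos_real (by simp [k20, pp, Pt.Y, uy_zero])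
  he3 := by
    have h := pos_ray hc 1 (d 0)
    have h' : (NN c d).e3 = ((el c * ((1 : ℕ) + tau c ^ 2 * d 0) : ℝ) : ℂ) * om c ^ 3 := by
      rw [← h]; rfl
    rw [h']; exact refl_ray _
  h39 := by
    have h := pos_ray hc 3 (d 19)
    have h' : (NN c d).n39 = ((el c * ((3 : ℕ) + tau c ^ 2 * d 19) : ℝ) : ℂ) * om c ^ 3 := by
      rw [← h]; rfl
    rw [h']; exact refl_ray _

lemma dist_conj_conj' (a b : ℂ) : dist (conj a) (conj b) = dist a b := by
  rw [Complex.dist_eq, Complex.dist_eq, ← map_sub, Complex.norm_conj]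

lemma dist_zt (a b : ℂ) : dist (zt c * conj a) (zt c * conj b) = dist a b := by
  rw [Complex.dist_eq, Complex.dist_eq, ← mul_sub, ← map_sub, norm_mul, norm_zt, one_mul,
    Complex.norm_conj]

lemma cr_conj' (a b : ℂ) : cr (conj a) (conj b) = - cr a b := by
  simp only [cr, Complex.conj_re, Complex.conj_im]; ring

lemma cr_mul (z a b : ℂ) : cr (z * a) (z * b) = ‖z‖ ^ 2 * cr a b := by
  rw [Complex.sq_norm, Complex.normSq_apply]
  simp only [cr, Complex.mul_re, Complex.mul_im]; ring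

lemma cr_zt (a b : ℂ) : cr (zt c * conj a) (zt c * conj b) = - cr a b := by
  rw [cr_mul, norm_zt, cr_conj']; ring

lemma cr_anti (a b : ℂ) : cr b a = - cr a b := by simp only [cr]; ring

/-! ### tiles 0 and 3 -/

lemma per_V0 (hc : 1 ≤ c) (d : D) (h : g0 (tau c) d = 0) : per (V c (NN c d) 0) = Per c := by
  have s1 := (NN_symm hc d).hp1
  have s2 := (NN_symm hc d).h20
  have e : per (V c (NN c d) 0) = dist (conj (NN c d).n21) (NN c d).n20
      + dist (NN c d).n20 (NN c d).n21 + dist (NN c d).n21 (NN c d).e1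
      + dist (NN c d).e1 (NN c d).p1 + dist (NN c d).p1 (conj (NN c d).e1)
      + dist (conj (NN c d).e1) (conj (NN c d).n21) := by
    rw [per6]; rfl
  have m0 : dist (conj (NN c d).n21) (NN c d).n20 = dist (NN c d).n20 (NN c d).n21 := by
    nth_rewrite 1 [← s2]; rw [dist_conj_conj', dist_comm]
  have m4 : dist (NN c d).p1 (conj (NN c d).e1) = dist (NN c d).e1 (NN c d).p1 := by
    nth_rewrite 1 [← s1]; rw [dist_conj_conj', dist_comm]
  have m5 : dist (conj (NN c d).e1) (conj (NN c d).n21) = dist (NN c d).n21 (NN c d).e1 := by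
    rw [dist_conj_conj', dist_comm]
  have h0 : dist (NN c d).n20 (NN c d).n21 = el c * (‖om c - 1‖ + tau c ^ 2 * et (tau c) 0 (k20 (tau c) d) (k21 (tau c) d)) :=
    dE_20_21 hc d
  have h1 : dist (NN c d).n21 (NN c d).e1 = el c * (1 + tau c ^ 2 * er (tau c) 0 (k11 (tau c) d) (k21 (tau c) d)) := by
    rw [dist_comm]; exact dE_11_21 hc d
  have h2 : dist (NN c d).e1 (NN c d).p1 = el c * (1 + tau c ^ 2 * er (tau c) 1 (kp (tau c)) (k11 (tau c) d)) := by
    rw [dist_comm]; exact dE_p_11 hc d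
  rw [e, m0, m4, m5, h0, h1, h2, Per]
  rw [g0] at h
  linear_combination (2 * el c * tau c ^ 2) * h

lemma per_V3 (hc : 1 ≤ c) (d : D) (h : g3 (tau c) d = 0) : per (V c (NN c d) 3) = Per c := by
  have s1 := (NN_symm hc d).he3
  have s2 := (NN_symm hc d).h39
  have e : per (V c (NN c d) 3) = dist (NN c d).n38 (NN c d).n39
      + dist (NN c d).n39 (zt c * conj (NN c d).n38) + dist (zt c * conj (NN c d).n38) (zt c * conj (NN c d).n25)
      + dist (zt c * conj (NN c d).n25) (NN c d).e3 + dist (NN c d).e3 (NN c d).n25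
      + dist (NN c d).n25 (NN c d).n38 := by
    rw [per6]; rfl
  have m1 : dist (NN c d).n39 (zt c * conj (NN c d).n38) = dist (NN c d).n38 (NN c d).n39 := by
    nth_rewrite 1 [← s2]; rw [dist_zt, dist_comm]
  have m2 : dist (zt c * conj (NN c d).n38) (zt c * conj (NN c d).n25) = dist (NN c d).n25 (NN c d).n38 := by
    rw [dist_zt, dist_comm]
  have m3 : dist (zt c * conj (NN c d).n25) (NN c d).e3 = dist (NN c d).e3 (NN c d).n25 := by
    nth_rewrite 1 [← s1]; rw [dist_zt, dist_comm]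
  have h0 : dist (NN c d).n38 (NN c d).n39 = el c * (‖om c - 1‖ + tau c ^ 2 * et (tau c) 2 (k38 (tau c) d) (k39 (tau c) d)) :=
    dE_38_39 hc d
  have h1 : dist (NN c d).e3 (NN c d).n25 = el c * (1 + tau c ^ 2 * er (tau c) 2 (k13 (tau c) d) (k25 (tau c) d)) :=
    dE_13_25 hc d
  have h2 : dist (NN c d).n25 (NN c d).n38 = el c * (1 + tau c ^ 2 * er (tau c) 3 (k25 (tau c) d) (k38 (tau c) d)) :=
    dE_25_38 hc d
  rw [e, m1, m2, m3, h0, h1, h2, Per]
  rw [g3] at h
  linear_combination (2 * el c * tau c ^ 2) * h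

/-! ### flatness -/

/-- the three nodes 23, 24, 25 are collinear -/
lemma flat_eq (d : D) (h : g19 (tau c) d = 0) (ht : 0 < tau c) :
    ((k23 (tau c) d).X (tau c) - (k24 (tau c) d).X (tau c))
        * ((k25 (tau c) d).Y (tau c) - (k24 (tau c) d).Y (tau c))
      = ((k23 (tau c) d).Y (tau c) - (k24 (tau c) d).Y (tau c))
        * ((k25 (tau c) d).X (tau c) - (k24 (tau c) d).X (tau c)) := by
  have e1 : (k23 (tau c) d).X (tau c) - (k24 (tau c) d).X (tau c)
      = tau c ^ 2 * (- fu 1 (tau c ^ 2) + d 5 - d 7) := by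
    have h := ux_succ 1 (tau c ^ 2)
    norm_num [k23, k24, pp, Pt.X] at h ⊢
    linear_combination -h
  have e2 : (k25 (tau c) d).X (tau c) - (k24 (tau c) d).X (tau c)
      = tau c ^ 2 * (fu 2 (tau c ^ 2) + d 9 - d 7) := by
    have h := ux_succ 2 (tau c ^ 2)
    norm_num [k25, k24, pp, Pt.X] at h ⊢
    linear_combination h
  rw [g19] at h
  rw [e1, e2]
  linear_combination (tau c ^ 2) * h

lemma n24_mem (hc : 1 ≤ c) (d : D) (h : g19 (tau c) d = 0)
    (h1 : (k23 (tau c) d).Y (tau c) < (k24 (tau c) d).Y (tau c))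
    (h2 : (k24 (tau c) d).Y (tau c) < (k25 (tau c) d).Y (tau c)) :
    (NN c d).n24 ∈ openSegment ℝ (NN c d).n23 (NN c d).n25 := by
  have hf := flat_eq d h (tau_pos hc)
  set x1 := (k23 (tau c) d).X (tau c)
  set x2 := (k24 (tau c) d).X (tau c)
  set x3 := (k25 (tau c) d).X (tau c)
  set y1 := (k23 (tau c) d).Y (tau c) with hy1
  set y2 := (k24 (tau c) d).Y (tau c) with hy2
  set y3 := (k25 (tau c) d).Y (tau c) with hy3
  have h31 : 0 < y3 - y1 := by linarith
  refine ⟨(y3 - y2) / (y3 - y1), (y2 - y1) / (y3 - y1), by apply div_pos <;> linarith,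
    by apply div_pos <;> linarith, by field_simp; ring, ?_⟩
  have e1 : (NN c d).n23 = ps c x1 y1 := rfl
  have e2 : (NN c d).n24 = ps c x2 y2 := rfl
  have e3 : (NN c d).n25 = ps c x3 y3 := rfl
  rw [e1, e2, e3]
  apply Complex.ext
  · simp only [ps, Complex.add_re, Complex.real_smul, Complex.mul_re, Complex.ofReal_re,
      Complex.ofReal_im]
    field_simp
    linear_combination (el c) * hf
  · simp only [ps, Complex.add_im, Complex.real_smul, Complex.mul_im, Complex.ofReal_re,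
      Complex.ofReal_im]
    field_simp
    ring

lemma dist_flat {a g b : ℂ} (h : g ∈ openSegment ℝ a b) : dist a b = dist a g + dist g b :=
  (dist_add_dist_of_mem_segment (openSegment_subset_segment ℝ a b h)).symm

lemma per_V1 (hc : 1 ≤ c) (d : D) (h : g1 (tau c) d = 0)
    (hm : (NN c d).n24 ∈ openSegment ℝ (NN c d).n23 (NN c d).n25) :
    per (V c (NN c d) 1) = Per c := by
  have e : per (V c (NN c d) 1) = dist (NN c d).n23 (NN c d).n25
      + dist (NN c d).n25 (NN c d).e3 + dist (NN c d).e3 0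
      + dist 0 (NN c d).p1 + dist (NN c d).p1 (NN c d).e1
      + dist (NN c d).e1 (NN c d).n23 := by
    rw [per6]; rfl
  have hz : (0 : ℂ) = pos c (k0 (tau c)) := by
    apply Complex.ext <;> simp [pos, ps, k0, pp, Pt.X, Pt.Y]
  have h0 : dist (NN c d).n23 (NN c d).n24 = el c * (‖om c - 1‖ + tau c ^ 2 * et (tau c) 1 (k23 (tau c) d) (k24 (tau c) d)) :=
    dE_23_24 hc d
  have h0' : dist (NN c d).n24 (NN c d).n25 = el c * (‖om c - 1‖ + tau c ^ 2 * et (tau c) 2 (k24 (tau c) d) (k25 (tau c) d)) :=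
    dE_24_25 hc d
  have h1 : dist (NN c d).n25 (NN c d).e3 = el c * (1 + tau c ^ 2 * er (tau c) 2 (k13 (tau c) d) (k25 (tau c) d)) := by
    rw [dist_comm]; exact dE_13_25 hc d
  have h2 : dist (NN c d).e3 0 = el c * (1 + tau c ^ 2 * er (tau c) 3 (k0 (tau c)) (k13 (tau c) d)) := by
    rw [dist_comm, hz]; exact dE_0_13 hc d
  have h3 : dist 0 (NN c d).p1 = el c * (2 * tau c ^ 2) := by
    have e0 : (NN c d).p1 = ps c (2 * tau c ^ 2) 0 := by
      apply Complex.ext <;> simp only [NN, pos, ps, kp, pp, Pt.X, Pt.Y, uy_zero] <;> push_cast <;> ring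
    have e1 : (0 : ℂ) = ps c 0 0 := by apply Complex.ext <;> simp [ps]
    rw [e0, e1, dist_ps, abs_of_pos (el_pos hc)]
    congr 1
    rw [show (2 * tau c ^ 2 - 0) ^ 2 + tau c ^ 2 * (0 - 0) ^ 2 = (2 * tau c ^ 2) ^ 2 by ring]
    exact Real.sqrt_sq (by positivity)
  have h4 : dist (NN c d).p1 (NN c d).e1 = el c * (1 + tau c ^ 2 * er (tau c) 1 (kp (tau c)) (k11 (tau c) d)) :=
    dE_p_11 hc d
  have h5 : dist (NN c d).e1 (NN c d).n23 = el c * (1 + tau c ^ 2 * er (tau c) 2 (k11 (tau c) d) (k23 (tau c) d)) :=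
    dE_11_23 hc d
  rw [e, dist_flat hm, h0, h0', h1, h2, h3, h4, h5, Per]
  rw [g1] at h
  linear_combination (el c * tau c ^ 2) * h

/-! ### areas -/

lemma ee_fix {t : ℝ} {A B : Pt} (h1 : A.a = 0) (h2 : A.b = 0) (h3 : B.a = 0) (h4 : B.b = 0) :
    ee t A B = 0 := by simp [ee, h1, h2, h3, h4]

lemma area_V4 (hc : 1 ≤ c) (d : D) (h : g13 (tau c) d = 0) : bd cr (V c (NN c d) 4) = 2 := by
  have e : bd cr (V c (NN c d) 4) = cr (nd c 4 1) (nd c 4 2) + cr (nd c 4 2) (NN c d).n32 + cr (NN c d).n32 (NN c d).n21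
      + cr (NN c d).n21 (NN c d).n20 + cr (NN c d).n20 (nd c 3 0) + cr (nd c 3 0) (nd c 4 1) := by
    rw [bd6]; rfl
  have hel := el_tau hc
  have c0 := u_cross (sq_nonneg (tau c)) 0
  have c1 := u_cross (sq_nonneg (tau c)) 1
  have c2 := u_cross (sq_nonneg (tau c)) 2
  have c3 := u_cross (sq_nonneg (tau c)) 3
  have e' : bd cr (V c (NN c d) 4) = el c ^ 2 * tau c * (6 * sI (tau c ^ 2) + tau c * g13 (tau c) d) := by
    rw [e]
    rw [nd_41 hc, nd_42 hc, nd_30 hc]
    simp only [NN, cr_pos]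
    rw [g13]
    simp only [ee, k41, k42, k32, k21, k20, k30, pp]
    norm_num [ux_zero, uy_zero] at c0 c1 c2 c3 ⊢
    linear_combination (6 * el c ^ 2 * tau c) * c0
  rw [e', h]
  linear_combination 6 * hel

lemma area_V5 (hc : 1 ≤ c) (d : D) (h : g14 (tau c) d = 0) : bd cr (V c (NN c d) 5) = 2 := by
  have e : bd cr (V c (NN c d) 5) = cr (nd c 4 6) (nd c 4 7) + cr (nd c 4 7) (nd c 3 6) + cr (nd c 3 6) (NN c d).n24
      + cr (NN c d).n24 (NN c d).n23 + cr (NN c d).n23 (NN c d).n34 + cr (NN c d).n34 (nd c 4 6) := by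
    rw [bd6]; rfl
  have hel := el_tau hc
  have c0 := u_cross (sq_nonneg (tau c)) 0
  have c1 := u_cross (sq_nonneg (tau c)) 1
  have c2 := u_cross (sq_nonneg (tau c)) 2
  have c3 := u_cross (sq_nonneg (tau c)) 3
  have e' : bd cr (V c (NN c d) 5) = el c ^ 2 * tau c * (6 * sI (tau c ^ 2) + tau c * g14 (tau c) d) := by
    rw [e]
    rw [nd_46 hc, nd_47 hc, nd_36 hc]
    simp only [NN, cr_pos]
    rw [g14]
    simp only [ee, k46, k47, k36, k24, k23, k34, pp]
    norm_num [ux_zero, uy_zero] at c0 c1 c2 c3 ⊢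
    linear_combination (6 * el c ^ 2 * tau c) * c1
  rw [e', h]
  linear_combination 6 * hel

lemma area_V6 (hc : 1 ≤ c) (d : D) (h : g15 (tau c) d = 0) : bd cr (V c (NN c d) 6) = 2 := by
  have e : bd cr (V c (NN c d) 6) = cr (nd c 4 9) (nd c 4 10) + cr (nd c 4 10) (NN c d).n38 + cr (NN c d).n38 (NN c d).n25
      + cr (NN c d).n25 (NN c d).n24 + cr (NN c d).n24 (nd c 3 6) + cr (nd c 3 6) (nd c 4 9) := by
    rw [bd6]; rfl
  have hel := el_tau hc
  have c0 := u_cross (sq_nonneg (tau c)) 0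
  have c1 := u_cross (sq_nonneg (tau c)) 1
  have c2 := u_cross (sq_nonneg (tau c)) 2
  have c3 := u_cross (sq_nonneg (tau c)) 3
  have e' : bd cr (V c (NN c d) 6) = el c ^ 2 * tau c * (6 * sI (tau c ^ 2) + tau c * g15 (tau c) d) := by
    rw [e]
    rw [nd_49 hc, nd_4A hc, nd_36 hc]
    simp only [NN, cr_pos]
    rw [g15]
    simp only [ee, k49, k4A, k38, k25, k24, k36, pp]
    norm_num [ux_zero, uy_zero] at c0 c1 c2 c3 ⊢
    linear_combination (6 * el c ^ 2 * tau c) * c2
  rw [e', h]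
  linear_combination 6 * hel

lemma area_V7 (hc : 1 ≤ c) (d : D) (h : g16 (tau c) d = 0) : bd cr (V c (NN c d) 7) = 2 := by
  have e : bd cr (V c (NN c d) 7) = cr (nd c 5 3) (nd c 5 4) + cr (nd c 5 4) (nd c 4 4) + cr (nd c 4 4) (NN c d).n33
      + cr (NN c d).n33 (NN c d).n32 + cr (NN c d).n32 (nd c 4 2) + cr (nd c 4 2) (nd c 5 3) := by
    rw [bd6]; rfl
  have hel := el_tau hc
  have c0 := u_cross (sq_nonneg (tau c)) 0
  have c1 := u_cross (sq_nonneg (tau c)) 1
  have c2 := u_cross (sq_nonneg (tau c)) 2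
  have c3 := u_cross (sq_nonneg (tau c)) 3
  have e' : bd cr (V c (NN c d) 7) = el c ^ 2 * tau c * (6 * sI (tau c ^ 2) + tau c * g16 (tau c) d) := by
    rw [e]
    rw [nd_53 hc, nd_54 hc, nd_44 hc, nd_42 hc]
    simp only [NN, cr_pos]
    rw [g16]
    simp only [ee, k53, k54, k44, k33, k32, k42, pp]
    norm_num [ux_zero, uy_zero] at c0 c1 c2 c3 ⊢
    linear_combination (6 * el c ^ 2 * tau c) * c0
  rw [e', h]
  linear_combination 6 * hel

lemma area_V8 (hc : 1 ≤ c) (d : D) (h : g17 (tau c) d = 0) : bd cr (V c (NN c d) 8) = 2 := by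
  have e : bd cr (V c (NN c d) 8) = cr (nd c 5 6) (nd c 5 7) + cr (nd c 5 7) (nd c 4 6) + cr (nd c 4 6) (NN c d).n34
      + cr (NN c d).n34 (NN c d).n33 + cr (NN c d).n33 (nd c 4 4) + cr (nd c 4 4) (nd c 5 6) := by
    rw [bd6]; rfl
  have hel := el_tau hc
  have c0 := u_cross (sq_nonneg (tau c)) 0
  have c1 := u_cross (sq_nonneg (tau c)) 1
  have c2 := u_cross (sq_nonneg (tau c)) 2
  have c3 := u_cross (sq_nonneg (tau c)) 3
  have e' : bd cr (V c (NN c d) 8) = el c ^ 2 * tau c * (6 * sI (tau c ^ 2) + tau c * g17 (tau c) d) := by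
    rw [e]
    rw [nd_56 hc, nd_57 hc, nd_46 hc, nd_44 hc]
    simp only [NN, cr_pos]
    rw [g17]
    simp only [ee, k56, k57, k46, k34, k33, k44, pp]
    norm_num [ux_zero, uy_zero] at c0 c1 c2 c3 ⊢
    linear_combination (6 * el c ^ 2 * tau c) * c1
  rw [e', h]
  linear_combination 6 * hel

lemma area_V9 (hc : 1 ≤ c) (d : D) (h : gW (tau c) d = 0) : bd cr (V c (NN c d) 9) = 2 := by
  have e : bd cr (V c (NN c d) 9) = cr (nd c 5 13) (nd c 5 14) + cr (nd c 5 14) (nd c 4 12) + cr (nd c 4 12) (NN c d).n39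
      + cr (NN c d).n39 (NN c d).n38 + cr (NN c d).n38 (nd c 4 10) + cr (nd c 4 10) (nd c 5 13) := by
    rw [bd6]; rfl
  have hel := el_tau hc
  have c0 := u_cross (sq_nonneg (tau c)) 0
  have c1 := u_cross (sq_nonneg (tau c)) 1
  have c2 := u_cross (sq_nonneg (tau c)) 2
  have c3 := u_cross (sq_nonneg (tau c)) 3
  have e' : bd cr (V c (NN c d) 9) = el c ^ 2 * tau c * (6 * sI (tau c ^ 2) + tau c * gW (tau c) d) := by
    rw [e]
    rw [nd_5D hc, nd_5E hc, nd_4C hc, nd_4A hc]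
    simp only [NN, cr_pos]
    rw [gW]
    simp only [ee, k5D, k5E, k4C, k39, k38, k4A, pp]
    norm_num [ux_zero, uy_zero] at c0 c1 c2 c3 ⊢
    linear_combination (6 * el c ^ 2 * tau c) * c2
  rw [e', h]
  linear_combination 6 * hel

lemma area_V2 (hc : 1 ≤ c) (d : D) (h : g11 (tau c) d = 0) : bd cr (V c (NN c d) 2) = 2 := by
  have e : bd cr (V c (NN c d) 2) = cr (NN c d).n32 (NN c d).n33 + cr (NN c d).n33 (NN c d).n34 + cr (NN c d).n34 (NN c d).n23
      + cr (NN c d).n23 (NN c d).e1 + cr (NN c d).e1 (NN c d).n21 + cr (NN c d).n21 (NN c d).n32 := by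
    rw [bd6]; rfl
  have hel := el_tau hc
  have c0 := u_cross (sq_nonneg (tau c)) 0
  have c1 := u_cross (sq_nonneg (tau c)) 1
  have c2 := u_cross (sq_nonneg (tau c)) 2
  have c3 := u_cross (sq_nonneg (tau c)) 3
  have e' : bd cr (V c (NN c d) 2) = el c ^ 2 * tau c * (6 * sI (tau c ^ 2) + tau c * g11 (tau c) d) := by
    rw [e]
    skip
    simp only [NN, cr_pos]
    rw [g11]
    simp only [ee, k32, k33, k34, k23, k11, k21, pp]
    norm_num [ux_zero, uy_zero] at c0 c1 c2 c3 ⊢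
    linear_combination (3 * el c ^ 2 * tau c) * (c0 + c1)
  rw [e', h]
  linear_combination 6 * hel

/-- area of tile 0 -/
lemma area_V0 (hc : 1 ≤ c) (d : D) (h : gY (tau c) d = 0) : bd cr (V c (NN c d) 0) = 2 := by
  have s1 := (NN_symm hc d).hp1
  have s2 := (NN_symm hc d).h20
  have e : bd cr (V c (NN c d) 0) = cr (conj (NN c d).n21) (NN c d).n20
      + cr (NN c d).n20 (NN c d).n21 + cr (NN c d).n21 (NN c d).e1
      + cr (NN c d).e1 (NN c d).p1 + cr (NN c d).p1 (conj (NN c d).e1)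
      + cr (conj (NN c d).e1) (conj (NN c d).n21) := by
    rw [bd6]; rfl
  have m0 : cr (conj (NN c d).n21) (NN c d).n20 = cr (NN c d).n20 (NN c d).n21 := by
    nth_rewrite 1 [← s2]; rw [cr_conj', cr_anti]; ring
  have m4 : cr (NN c d).p1 (conj (NN c d).e1) = cr (NN c d).e1 (NN c d).p1 := by
    nth_rewrite 1 [← s1]; rw [cr_conj', cr_anti]; ring
  have m5 : cr (conj (NN c d).e1) (conj (NN c d).n21) = cr (NN c d).n21 (NN c d).e1 := by
    rw [cr_conj', cr_anti]; ring
  have hel := el_tau hc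
  have c0 := u_cross (sq_nonneg (tau c)) 0
  have e' : bd cr (V c (NN c d) 0) = el c ^ 2 * tau c * (6 * sI (tau c ^ 2) + 2 * tau c * gY (tau c) d) := by
    rw [e, m0, m4, m5]
    simp only [NN, cr_pos]
    rw [gY]
    simp only [ee, kp, k11, k20, k21, pp]
    norm_num [ux_zero, uy_zero] at c0 ⊢
    linear_combination (6 * el c ^ 2 * tau c) * c0
  rw [e', h]
  linear_combination 6 * hel

/-- area of tile 3 -/
lemma area_V3 (hc : 1 ≤ c) (d : D) (h : g12 (tau c) d = 0) : bd cr (V c (NN c d) 3) = 2 := by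
  have s1 := (NN_symm hc d).he3
  have s2 := (NN_symm hc d).h39
  have e : bd cr (V c (NN c d) 3) = cr (NN c d).n38 (NN c d).n39
      + cr (NN c d).n39 (zt c * conj (NN c d).n38) + cr (zt c * conj (NN c d).n38) (zt c * conj (NN c d).n25)
      + cr (zt c * conj (NN c d).n25) (NN c d).e3 + cr (NN c d).e3 (NN c d).n25
      + cr (NN c d).n25 (NN c d).n38 := by
    rw [bd6]; rfl
  have m1 : cr (NN c d).n39 (zt c * conj (NN c d).n38) = cr (NN c d).n38 (NN c d).n39 := by
    nth_rewrite 1 [← s2]; rw [cr_zt, cr_anti]; ring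
  have m2 : cr (zt c * conj (NN c d).n38) (zt c * conj (NN c d).n25) = cr (NN c d).n25 (NN c d).n38 := by
    rw [cr_zt, cr_anti]; ring
  have m3 : cr (zt c * conj (NN c d).n25) (NN c d).e3 = cr (NN c d).e3 (NN c d).n25 := by
    nth_rewrite 1 [← s1]; rw [cr_zt, cr_anti]; ring
  have hel := el_tau hc
  have c2 := u_cross (sq_nonneg (tau c)) 2
  have e' : bd cr (V c (NN c d) 3) = el c ^ 2 * tau c * (6 * sI (tau c ^ 2) + 2 * tau c * g12 (tau c) d) := by
    rw [e, m1, m2, m3]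
    simp only [NN, cr_pos]
    rw [g12]
    simp only [ee, k13, k25, k38, k39, pp]
    norm_num [ux_zero, uy_zero] at c2 ⊢
    linear_combination (6 * el c ^ 2 * tau c) * c2
  rw [e', h]
  linear_combination 6 * hel

lemma cr_flat {a g b : ℂ} (h : g ∈ openSegment ℝ a b) : cr a b = cr a g + cr g b := by
  obtain ⟨s, t, hs, ht, hst, rfl⟩ := h
  simp only [cr, Complex.add_re, Complex.add_im, Complex.real_smul, Complex.mul_re, Complex.mul_im,
    Complex.ofReal_re, Complex.ofReal_im]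
  have : s = 1 - t := by linarith
  subst this
  ring

/-- area of tile 1 -/
lemma area_V1 (hc : 1 ≤ c) (d : D) (h : g10 (tau c) d = 0)
    (hm : (NN c d).n24 ∈ openSegment ℝ (NN c d).n23 (NN c d).n25) :
    bd cr (V c (NN c d) 1) = 2 := by
  have e : bd cr (V c (NN c d) 1) = cr (NN c d).n23 (NN c d).n25
      + cr (NN c d).n25 (NN c d).e3 + cr (NN c d).e3 0
      + cr 0 (NN c d).p1 + cr (NN c d).p1 (NN c d).e1
      + cr (NN c d).e1 (NN c d).n23 := by
    rw [bd6]; rfl
  have z1 : cr (NN c d).e3 0 = 0 := by simp [cr]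
  have z2 : cr 0 (NN c d).p1 = 0 := by simp [cr]
  have hel := el_tau hc
  have c1 := u_cross (sq_nonneg (tau c)) 1
  have c2 := u_cross (sq_nonneg (tau c)) 2
  have e' : bd cr (V c (NN c d) 1) = el c ^ 2 * tau c * (6 * sI (tau c ^ 2) + tau c * g10 (tau c) d) := by
    rw [e, cr_flat hm, z1, z2]
    simp only [NN, cr_pos]
    rw [g10]
    simp only [ee, kp, k11, k13, k23, k24, k25, pp]
    norm_num [ux_zero, uy_zero] at c1 c2 ⊢
    linear_combination (3 * el c ^ 2 * tau c) * (c1 + c2)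
  rw [e', h]
  linear_combination 6 * hel

/-- all equations together -/
lemma all_areas (hc : 1 ≤ c) (d : D) (h : G (tau c) d = 0)
    (hm : (NN c d).n24 ∈ openSegment ℝ (NN c d).n23 (NN c d).n25) :
    ∀ t, bd cr (V c (NN c d) t) = 2 := by
  have q10 : g10 (tau c) d = 0 := congrFun h 10
  have q11 : g11 (tau c) d = 0 := congrFun h 11
  have q12 : g12 (tau c) d = 0 := congrFun h 12
  have q13 : g13 (tau c) d = 0 := congrFun h 13
  have q14 : g14 (tau c) d = 0 := congrFun h 14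
  have q15 : g15 (tau c) d = 0 := congrFun h 15
  have q16 : g16 (tau c) d = 0 := congrFun h 16
  have q17 : g17 (tau c) d = 0 := congrFun h 17
  have q18 : g18 (tau c) d = 0 := congrFun h 18
  have i1 := total_id (tau c) d
  have i2 := mom_id (tau c) d
  rw [q10, q11, q12, q13, q14, q15, q16, q17] at i1 i2
  rw [q18] at i2
  have qW : gW (tau c) d = 0 := by linarith
  have qY : gY (tau c) d = 0 := by linarith
  intro t
  fin_cases t
  · exact area_V0 hc d qY
  · exact area_V1 hc d q10 hm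
  · exact area_V2 hc d q11
  · exact area_V3 hc d q12
  · exact area_V4 hc d q13
  · exact area_V5 hc d q14
  · exact area_V6 hc d q15
  · exact area_V7 hc d q16
  · exact area_V8 hc d q17
  · exact area_V9 hc d qW

lemma all_pers (hc : 1 ≤ c) (d : D) (h : G (tau c) d = 0)
    (hm : (NN c d).n24 ∈ openSegment ℝ (NN c d).n23 (NN c d).n25) :
    ∀ t, per (V c (NN c d) t) = Per c := by
  intro t
  fin_cases t
  · exact per_V0 hc d (congrFun h 0)
  · exact per_V1 hc d (congrFun h 1) hm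
  · exact per_V2 hc d (congrFun h 2)
  · exact per_V3 hc d (congrFun h 3)
  · exact per_V4 hc d (congrFun h 4)
  · exact per_V5 hc d (congrFun h 5)
  · exact per_V6 hc d (congrFun h 6)
  · exact per_V7 hc d (congrFun h 7)
  · exact per_V8 hc d (congrFun h 8)
  · exact per_V9 hc d (congrFun h 9)

end H52Hex
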