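import Pool.Agent.H52Hex.Area
import Pool.Agent.H52Hex.Base
import Pool.Agent.H52Hex.Patch
import Pool.Agent.H52Hex.Exist

/-!
Assembly.
-/

namespace H52Hex

open scoped BigOperators ComplexConjugate
open MeasureTheory

/-! ### Rotated copies and mirror images -/

private lemma main_SC_rot {v : Fin 6 → ℂ} (hv : SC v) {z : ℂ} (hz : z ≠ 0) :
    SC (fun i => z * v i) := by
  have h := SC_affine hv 0 z hz
  simpa using h

private lemma main_cr_rot {v : Fin 6 → ℂ} {z : ℂ} (hz : ‖z‖ = 1) :
    bd cr (fun i => z * v i) = bd cr v := by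
  have h := bd_cr_affine v 0 z
  simpa [hz] using h

private lemma main_per_rot {v : Fin 6 → ℂ} {z : ℂ} (hz : ‖z‖ = 1) :
    per (fun i => z * v i) = per v := by
  have h := per_affine v 0 z
  simpa [hz] using h

private lemma main_cr_conj (a b : ℂ) : cr (conj a) (conj b) = - cr a b := by
  simp only [cr, Complex.conj_re, Complex.conj_im]
  ring

private lemma main_ori_conj (a b d : ℂ) : ori (conj a) (conj b) (conj d) = ori b a d := by
  simp only [ori, cr, Complex.sub_re, Complex.sub_im, Complex.conj_re, Complex.conj_im]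
  ring

private lemma main_SC_mir {v : Fin 6 → ℂ} (hv : SC v) : SC (fun i => conj (v (-i))) := by
  intro i j h1 h2
  simp only
  rw [main_ori_conj]
  have h3 := hv (-(i + 1)) (-j) (by
    intro h
    exact h2 (neg_injective h)) (by
    intro h
    apply h1
    have : -j = -i := by
      rw [h]
      abel
    exact neg_injective this)
  have h4 : -(i + 1) + 1 = -i := by abel
  rw [h4] at h3
  exact h3

private lemma main_bd_mir {F : ℂ → ℂ → ℝ} {v : Fin 6 → ℂ}
    (hF : ∀ a b, F (conj a) (conj b) = F b a) : bd F (fun i => conj (v (-i))) = bd F v := by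
  unfold bd
  simp only [hF]
  rw [← Equiv.sum_comp ((Equiv.addRight (1 : Fin 6)).trans (Equiv.neg (Fin 6)))
    (fun i => F (v i) (v (i + 1)))]
  refine Finset.sum_congr rfl fun i _ => ?_
  have h4 : -(i + 1) + 1 = -i := by abel
  simp only [Equiv.trans_apply, Equiv.coe_addRight, Equiv.neg_apply, h4]

private lemma main_cr_mir {v : Fin 6 → ℂ} : bd cr (fun i => conj (v (-i))) = bd cr v := by
  apply main_bd_mir
  intro a b
  rw [main_cr_conj]
  unfold cr
  ring

private lemma main_per_mir {v : Fin 6 → ℂ} : per (fun i => conj (v (-i))) = per v := by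
  unfold per
  apply main_bd_mir
  intro a b
  rw [Complex.dist_conj_conj, dist_comm]

private lemma main_norm_zt (c n : ℕ) : ‖zt c ^ n‖ = 1 := by
  unfold zt
  rw [norm_pow, norm_pow, norm_om, one_pow, one_pow]

private lemma main_zt_ne (c n : ℕ) : zt c ^ n ≠ 0 := by
  intro h
  have := main_norm_zt c n
  rw [h, norm_zero] at this
  exact zero_ne_one this

variable {c : ℕ}

private lemma main_mod_SC {N : Nodes} (h : ∀ t, SC (V c N t)) (m : ZMod c × (Fin 10 ⊕ Fin 8)) :
    SC (modV c N m) := by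
  obtain ⟨j, t | t⟩ := m
  · exact main_SC_rot (h t) (main_zt_ne c _)
  · exact main_SC_rot (main_SC_mir (h (mt t))) (main_zt_ne c _)

private lemma main_mod_cr {N : Nodes} (h : ∀ t, bd cr (V c N t) = 2)
    (m : ZMod c × (Fin 10 ⊕ Fin 8)) : bd cr (modV c N m) = 2 := by
  obtain ⟨j, t | t⟩ := m
  · exact (main_cr_rot (main_norm_zt c _)).trans (h t)
  · exact ((main_cr_rot (main_norm_zt c _)).trans main_cr_mir).trans (h (mt t))

private lemma main_mod_per {N : Nodes} (h : ∀ t, per (V c N t) = Per c)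
    (m : ZMod c × (Fin 10 ⊕ Fin 8)) : per (modV c N m) = Per c := by
  obtain ⟨j, t | t⟩ := m
  · exact (main_per_rot (main_norm_zt c _)).trans (h t)
  · exact ((main_per_rot (main_norm_zt c _)).trans main_per_mir).trans (h (mt t))

/-! ### The tiles -/

/-- The index set of the tiles. -/
private abbrev mainI (c : ℕ) : Type :=
  {T : Sec c × ℕ × ℕ // IsCtr T ∧ T ∉ Set.range (fun x : Sec c × Fin 3 => affT x.1 x.2)} ⊕
    (ZMod c × (Fin 10 ⊕ Fin 8))

/-- The vertices of the tiles. -/
private noncomputable def mainV (c : ℕ) (N : Nodes) : mainI c → Fin 6 → ℂ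
  | Sum.inl T => baseV c T.1
  | Sum.inr m => modV c N m

/-- All the vertices. -/
private def mainS (c : ℕ) (N : Nodes) : Set ℂ :=
  latSet c ∪ Set.range (fun x : (ZMod c × (Fin 10 ⊕ Fin 8)) × Fin 6 => modV c N x.1 x.2)

private lemma main_countable [NeZero c] (N : Nodes) : (mainS c N).Countable := by
  unfold mainS
  apply Set.Countable.union
  · have h : latSet c = Set.range (fun x : Sec c × ℕ × ℕ => lat c x.1 x.2.1 x.2.2) := by
      ext z
      constructor
      · rintro ⟨a, p, q, rfl⟩
        exact ⟨(a, p, q), rfl⟩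
      · rintro ⟨⟨a, p, q⟩, rfl⟩
        exact ⟨a, p, q, rfl⟩
    rw [h]
    exact Set.countable_range _
  · exact Set.countable_range _

private lemma main_gen_mono {S T : Set ℂ} (h : T ⊆ S) {x : ℂ} (hx : Gen S x) : Gen T x :=
  ⟨fun a ha => hx.1 a (h ha), fun a ha b hb => hx.2 a (h ha) b (h hb)⟩

private lemma main_gen_mod {N : Nodes} {x : ℂ} (hx : Gen (mainS c N) x)
    (m : ZMod c × (Fin 10 ⊕ Fin 8)) : Gen (Set.range (modV c N m)) x := by
  refine main_gen_mono ?_ hx
  rintro z ⟨i, rfl⟩
  exact Or.inr ⟨(m, i), rfl⟩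

private lemma main_gen_base [NeZero c] {N : Nodes} {x : ℂ} (hx : Gen (mainS c N) x)
    {T : Sec c × ℕ × ℕ} (hT : IsCtr T) : Gen (Set.range (baseV c T)) x := by
  refine main_gen_mono ?_ hx
  rintro z ⟨i, rfl⟩
  exact Or.inl (baseV_mem hT i)

private lemma main_seg_rot {a g b : ℂ} (h : g ∈ openSegment ℝ a b) (z : ℂ) :
    z * g ∈ openSegment ℝ (z * a) (z * b) := by
  obtain ⟨s, t, hs, ht, hst, rfl⟩ := h
  refine ⟨s, t, hs, ht, hst, ?_⟩
  rw [mul_add, mul_smul_comm, mul_smul_comm]

private lemma main_seg_conj {a g b : ℂ} (h : g ∈ openSegment ℝ a b) :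
    conj g ∈ openSegment ℝ (conj a) (conj b) := by
  obtain ⟨s, t, hs, ht, hst, rfl⟩ := h
  refine ⟨s, t, hs, ht, hst, ?_⟩
  simp

open scoped Classical in
/-- The number of modified tiles over a generic point equals the number of replaced tiles. -/
private lemma main_sum [NeZero c] {N : Nodes} (hN : N.Symm c) (hSC : ∀ t, SC (V c N t))
    (h24 : N.n24 ∈ openSegment ℝ N.n23 N.n25) {x : ℂ} (hx : Gen (mainS c N) x) :
    ∑ m : ZMod c × (Fin 10 ⊕ Fin 8),
        (if x ∈ convexHull ℝ (Set.range (modV c N m)) then (1 : ℝ) else 0)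
      = ∑ y : Sec c × Fin 3,
        (if x ∈ convexHull ℝ (Set.range (baseV c (affT y.1 y.2))) then (1 : ℝ) else 0) := by
  have hc : 1 ≤ c := Nat.one_le_iff_ne_zero.mpr (NeZero.ne c)
  have him : ∀ (m : ZMod c × (Fin 10 ⊕ Fin 8)) (i : Fin 6), (modV c N m i).im ≠ x.im := by
    intro m i
    exact hx.1 _ (Or.inr ⟨(m, i), rfl⟩)
  have key := patch_identity hN (sg x) (sg_anti x) ?_ ?_
  · rw [Finset.sum_congr rfl fun m _ =>
      (bd_sg_hex (main_mod_SC hSC m) (main_gen_mod hx m)).symm, key]
    exact Finset.sum_congr rfl fun y _ =>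
      bd_sg_hex (base_SC hc _) (main_gen_base hx (affT_ctr y.1 y.2))
  · intro j
    apply sg_add _ _ _ _ (main_seg_rot h24 _)
    · exact him (j, Sum.inl 1) 0
    · exact him (j, Sum.inl 1) 1
    · exact him (j, Sum.inl 5) 3
  · intro j
    apply sg_add _ _ _ _ (main_seg_rot (main_seg_conj h24) _)
    · exact him (j, Sum.inr 0) 0
    · exact him (j, Sum.inr 0) 5
    · exact him (j, Sum.inr 3) 3

private lemma main_unique_of_sum {α : Type} [Fintype α] {p : α → Prop} [DecidablePred p]
    (h : ∑ a : α, (if p a then (1 : ℝ) else 0) = 1) : ∃! a, p a := by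
  rw [Finset.sum_boole] at h
  have h1 : (Finset.univ.filter p).card = 1 := by exact_mod_cast h
  rw [Finset.card_eq_one] at h1
  obtain ⟨a, ha⟩ := h1
  refine ⟨a, ?_, ?_⟩
  · have : a ∈ Finset.univ.filter p := by
      rw [ha]
      exact Finset.mem_singleton_self a
    exact (Finset.mem_filter.1 this).2
  · intro b hb
    have : b ∈ Finset.univ.filter p := Finset.mem_filter.2 ⟨Finset.mem_univ b, hb⟩
    rw [ha] at this
    exact Finset.mem_singleton.1 this

/-- Every generic point lies in exactly one tile. -/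
private lemma main_existsUnique [NeZero c] {N : Nodes} (hN : N.Symm c) (hSC : ∀ t, SC (V c N t))
    (h24 : N.n24 ∈ openSegment ℝ N.n23 N.n25) {x : ℂ} (hx : Gen (mainS c N) x) :
    ∃! i : mainI c, x ∈ convexHull ℝ (Set.range (mainV c N i)) := by
  classical
  have hsum := main_sum hN hSC h24 hx
  obtain ⟨T₀, ⟨hT1, hT2⟩, hT3⟩ :=
    base_unique (c := c) (x := x) (main_gen_mono Set.subset_union_left hx)
  have hT3' : ∀ T : Sec c × ℕ × ℕ, IsCtr T → x ∈ convexHull ℝ (Set.range (baseV c T)) →
      T = T₀ := fun T h1 h2 => hT3 T ⟨h1, h2⟩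
  by_cases hr : T₀ ∈ Set.range (fun x : Sec c × Fin 3 => affT x.1 x.2)
  · obtain ⟨y₀, hy₀⟩ := hr
    have h1 : ∑ y : Sec c × Fin 3,
        (if x ∈ convexHull ℝ (Set.range (baseV c (affT y.1 y.2))) then (1 : ℝ) else 0) = 1 := by
      rw [Finset.sum_eq_single y₀]
      · rw [if_pos]
        have h2 : affT y₀.1 y₀.2 = T₀ := hy₀
        rw [h2]
        exact hT2
      · intro y _ hy
        rw [if_neg]
        intro h2
        apply hy
        apply affT_injective
        exact (hT3' _ (affT_ctr y.1 y.2) h2).trans hy₀.symm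
      · intro h2
        exact absurd (Finset.mem_univ _) h2
    rw [h1] at hsum
    obtain ⟨m, hm1, hm2⟩ := main_unique_of_sum hsum
    refine ⟨Sum.inr m, hm1, ?_⟩
    rintro (T | m') hi
    · exfalso
      apply T.2.2
      exact ⟨y₀, hy₀.trans (hT3' T.1 T.2.1 hi).symm⟩
    · exact congrArg Sum.inr (hm2 m' hi)
  · have h1 : ∑ y : Sec c × Fin 3,
        (if x ∈ convexHull ℝ (Set.range (baseV c (affT y.1 y.2))) then (1 : ℝ) else 0) = 0 := by
      apply Finset.sum_eq_zero
      intro y _
      rw [if_neg]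
      intro h2
      exact hr ⟨y, hT3' _ (affT_ctr y.1 y.2) h2⟩
    rw [h1] at hsum
    have h2 : ∀ m, ¬ x ∈ convexHull ℝ (Set.range (modV c N m)) := by
      intro m hm
      have h3 := (Finset.sum_eq_zero_iff_of_nonneg (fun m _ => by
        split_ifs <;> norm_num)).1 hsum m (Finset.mem_univ m)
      rw [if_pos hm] at h3
      exact one_ne_zero h3
    refine ⟨Sum.inl ⟨T₀, hT1, hr⟩, hT2, ?_⟩
    rintro (T | m') hi
    · congr 1
      exact Subtype.ext (hT3' T.1 T.2.1 hi)
    · exact absurd hi (h2 m')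

private lemma main_compact (v : Fin 6 → ℂ) : IsCompact (convexHull ℝ (Set.range v)) :=
  (Set.finite_range v).isCompact_convexHull ℝ

private lemma main_locallyFinite [NeZero c] (N : Nodes) :
    LocallyFinite (fun i : mainI c => convexHull ℝ (Set.range (mainV c N i))) := by
  intro z
  refine ⟨Metric.ball z 1, Metric.ball_mem_nhds z one_pos, ?_⟩
  have hfin := base_finite (c := c) (‖z‖ + 1)
  have hsub : {i : mainI c | (convexHull ℝ (Set.range (mainV c N i)) ∩
      Metric.ball z 1).Nonempty} ⊆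
      (Sum.inl '' ((fun T : {T : Sec c × ℕ × ℕ // IsCtr T ∧
        T ∉ Set.range (fun x : Sec c × Fin 3 => affT x.1 x.2)} => T.1) ⁻¹'
        {T : Sec c × ℕ × ℕ | (convexHull ℝ (Set.range (baseV c T)) ∩
          Metric.closedBall 0 (‖z‖ + 1)).Nonempty})) ∪ Set.range Sum.inr := by
    rintro (T | m) hi
    · left
      refine ⟨T, ?_, rfl⟩
      obtain ⟨w, hw1, hw2⟩ := hi
      refine ⟨w, hw1, ?_⟩
      rw [Metric.mem_closedBall, dist_zero_right]
      rw [Metric.mem_ball, dist_eq_norm] at hw2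
      have := norm_sub_norm_le w z
      linarith
    · right
      exact ⟨m, rfl⟩
  refine Set.Finite.subset ?_ hsub
  apply Set.Finite.union
  · apply Set.Finite.image
    exact hfin.preimage Subtype.val_injective.injOn
  · exact Set.finite_range _

private lemma main_zt_inj [NeZero c] {z : ℂ} (hz : z ≠ 0) :
    Function.Injective (fun j : ZMod c => zt c ^ j.val * z) := by
  intro i j hij
  have h1 : zt c ^ i.val = zt c ^ j.val := mul_right_cancel₀ hz hij
  have h2 : IsPrimitiveRoot (zt c) c := by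
    have h3 := Complex.isPrimitiveRoot_exp c (NeZero.ne c)
    have h4 : zt c = Complex.exp (2 * Real.pi * Complex.I / c) := by
      unfold zt
      rw [sector_om_pow]
      congr 1
      unfold phi
      have hc : (c : ℂ) ≠ 0 := by exact_mod_cast NeZero.ne c
      push_cast
      field_simp
      ring
    rw [h4]
    exact h3
  exact ZMod.val_injective c (h2.pow_inj (ZMod.val_lt i) (ZMod.val_lt j) h1)

/-- the main theorem, for hexagons given by vertex lists -/
theorem main (k : ℕ) : ∃ (ι : Type) (_ : Countable ι) (v : ι → Fin 6 → ℂ) (P : ℝ),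
    (∀ i, SC (v i)) ∧
    (∀ i, volume (convexHull ℝ (Set.range (v i))) = 1) ∧
    (∀ i, per (v i) = P) ∧
    (⋃ i, convexHull ℝ (Set.range (v i))) = Set.univ ∧
    (∀ i j, i ≠ j → Disjoint (interior (convexHull ℝ (Set.range (v i))))
      (interior (convexHull ℝ (Set.range (v j))))) ∧
    ∃ S : Finset ℂ, k ≤ S.card ∧ ∀ p ∈ S, ∃ i j, i ≠ j ∧ p ∈ Set.range (v i) ∧
      ∃ s, p ∈ openSegment ℝ (v j s) (v j (s + 1)) := by
  obtain ⟨c₀, hc₀⟩ := exists_nodes
  obtain ⟨c, hck, hcc, hc1⟩ : ∃ c : ℕ, k ≤ c ∧ c₀ ≤ c ∧ 1 ≤ c :=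
    ⟨max (max k c₀) 1, by omega, by omega, by omega⟩
  have : NeZero c := ⟨by omega⟩
  obtain ⟨N, hN, hSC, hcr, hper, h24, h24'⟩ := hc₀ c hcc
  have hSCall : ∀ i : mainI c, SC (mainV c N i) := by
    rintro (T | m)
    · exact base_SC hc1 T.1
    · exact main_mod_SC hSC m
  have huniq := fun {x : ℂ} (hx : Gen (mainS c N) x) => main_existsUnique hN hSC h24 hx
  refine ⟨mainI c, inferInstance, mainV c N, Per c, hSCall, ?_, ?_, ?_, ?_, ?_⟩
  · intro i
    rw [volume_hex (hSCall i)]
    have : bd cr (mainV c N i) = 2 := by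
      rcases i with T | m
      · exact base_area hc1 T.1
      · exact main_mod_cr hcr m
    rw [this]
    norm_num
  · rintro (T | m)
    · exact base_per hc1 T.1
    · exact main_mod_per hper m
  · by_contra hne
    have hclosed : IsClosed (⋃ i, convexHull ℝ (Set.range (mainV c N i))) :=
      (main_locallyFinite (c := c) N).isClosed_iUnion fun i => (main_compact _).isClosed
    have hne' : ((⋃ i, convexHull ℝ (Set.range (mainV c N i)))ᶜ).Nonempty := by
      rw [Set.nonempty_compl]
      exact hne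
    obtain ⟨x, hx1, hx2⟩ := exists_gen (main_countable (c := c) N) hclosed.isOpen_compl hne'
    obtain ⟨i, hi, -⟩ := huniq hx2
    exact hx1 (Set.mem_iUnion.2 ⟨i, hi⟩)
  · intro i j hij
    rw [Set.disjoint_iff_inter_eq_empty]
    by_contra hne
    rw [← ne_eq, ← Set.nonempty_iff_ne_empty] at hne
    obtain ⟨x, hx1, hx2⟩ := exists_gen (main_countable (c := c) N)
      (isOpen_interior.inter isOpen_interior) hne
    exact hij ((huniq hx2).unique (interior_subset hx1.1) (interior_subset hx1.2))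
  · classical
    refine ⟨Finset.univ.image (fun j : ZMod c => zt c ^ j.val * N.n24), ?_, ?_⟩
    · rw [Finset.card_image_of_injective _ (main_zt_inj h24'), Finset.card_univ, ZMod.card]
      exact hck
    · intro p hp
      rw [Finset.mem_image] at hp
      obtain ⟨j, -, rfl⟩ := hp
      refine ⟨Sum.inr (j, Sum.inl 5), Sum.inr (j, Sum.inl 1), ?_, ⟨3, rfl⟩, 0, ?_⟩
      · intro h
        have h1 := Sum.inr_injective h
        have h2 := (Prod.ext_iff.1 h1).2
        have h3 := Sum.inl_injective h2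
        exact absurd h3 (by decide)
      · exact main_seg_rot h24 _

end H52Hex
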