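import Pool.Agent.H52Hex.Defs

/-!
Ray casting for triangles and convex hexagons.
-/

namespace H52Hex

open scoped BigOperators

lemma ray_ori_eq (a b c : ℂ) :
    ori a b c = (b.re - a.re) * (c.im - a.im) - (b.im - a.im) * (c.re - a.re) := by
  simp [ori, cr]

lemma ori_swap (a b c : ℂ) : ori b a c = - ori a b c := by
  simp only [ray_ori_eq]
  ring

lemma sg_anti (x a b : ℂ) : sg x b a = - sg x a b := by
  unfold sg
  rw [ori_swap a b x]
  split_ifs <;> first | rfl | (exfalso; grind) | norm_num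

private lemma ray_add_aux (A B t c : ℝ) (ht0 : 0 < t) (ht1 : t < 1) (hA : A ≠ 0) (hB : B ≠ 0)
    (hG : A + t * (B - A) ≠ 0) :
    (if A < 0 ∧ 0 < B ∧ 0 < c then (1 : ℝ) else if B < 0 ∧ 0 < A ∧ c < 0 then -1 else 0)
    = (if A < 0 ∧ 0 < A + t * (B - A) ∧ 0 < t * c then (1 : ℝ) else
        if A + t * (B - A) < 0 ∧ 0 < A ∧ t * c < 0 then -1 else 0)
      + (if A + t * (B - A) < 0 ∧ 0 < B ∧ 0 < (1 - t) * c then (1 : ℝ) else
        if B < 0 ∧ 0 < A + t * (B - A) ∧ (1 - t) * c < 0 then -1 else 0) := by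
  have h1t : 0 < 1 - t := by linarith
  have e1 : 0 < t * c ↔ 0 < c := by
    constructor
    · intro h; exact (mul_pos_iff_of_pos_left ht0).1 h
    · intro h; exact mul_pos ht0 h
  have e2 : 0 < (1 - t) * c ↔ 0 < c := by
    constructor
    · intro h; exact (mul_pos_iff_of_pos_left h1t).1 h
    · intro h; exact mul_pos h1t h
  have e3 : t * c < 0 ↔ c < 0 := by
    constructor
    · intro h; by_contra hc; push Not at hc; nlinarith
    · intro h; nlinarith
  have e4 : (1 - t) * c < 0 ↔ c < 0 := by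
    constructor
    · intro h; by_contra hc; push Not at hc; nlinarith
    · intro h; nlinarith
  simp only [e1, e2, e3, e4]
  rcases lt_or_gt_of_ne hA with hA' | hA' <;> rcases lt_or_gt_of_ne hB with hB' | hB' <;>
    rcases lt_or_gt_of_ne hG with hG' | hG'
  · simp [hA', hB', hG', hA'.not_gt, hB'.not_gt, hG'.not_gt]
  · exfalso; nlinarith
  · simp [hA', hB', hG', hA'.not_gt, hB'.not_gt, hG'.not_gt]
  · simp [hA', hB', hG', hA'.not_gt, hB'.not_gt, hG'.not_gt]
  · simp [hA', hB', hG', hA'.not_gt, hB'.not_gt, hG'.not_gt]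
  · simp [hA', hB', hG', hA'.not_gt, hB'.not_gt, hG'.not_gt]
  · exfalso; nlinarith
  · simp [hA', hB', hG', hA'.not_gt, hB'.not_gt, hG'.not_gt]

lemma sg_add (x a g b : ℂ) (hg : g ∈ openSegment ℝ a b) (ha : a.im ≠ x.im) (hb : b.im ≠ x.im)
    (hgx : g.im ≠ x.im) : sg x a b = sg x a g + sg x g b := by
  obtain ⟨s, t, hs, ht, hst, rfl⟩ := hg
  have hs' : s = 1 - t := by linarith
  subst hs'
  have hre : (((1 - t) • a + t • b : ℂ)).re = a.re + t * (b.re - a.re) := by
    simp; ring
  have him : (((1 - t) • a + t • b : ℂ)).im = a.im + t * (b.im - a.im) := by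
    simp; ring
  have o1 : ori a ((1 - t) • a + t • b) x = t * ori a b x := by
    simp only [ray_ori_eq, hre, him]; ring
  have o2 : ori ((1 - t) • a + t • b) b x = (1 - t) * ori a b x := by
    simp only [ray_ori_eq, hre, him]; ring
  have key := ray_add_aux (a.im - x.im) (b.im - x.im) t (ori a b x) ht (by linarith)
    (sub_ne_zero.2 ha) (sub_ne_zero.2 hb) (by
      intro h
      apply hgx
      rw [him]
      linarith)
  have q1 : (a.im - x.im < 0) = (a.im < x.im) := by rw [sub_neg]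
  have q2 : (0 < a.im - x.im) = (x.im < a.im) := by rw [sub_pos]
  have q3 : (b.im - x.im < 0) = (b.im < x.im) := by rw [sub_neg]
  have q4 : (0 < b.im - x.im) = (x.im < b.im) := by rw [sub_pos]
  have q0 : a.im - x.im + t * (b.im - x.im - (a.im - x.im))
      = (((1 - t) • a + t • b : ℂ)).im - x.im := by rw [him]; ring
  have q5 : ((((1 - t) • a + t • b : ℂ)).im - x.im < 0) = ((((1 - t) • a + t • b : ℂ)).im < x.im) := by
    rw [sub_neg]
  have q6 : (0 < (((1 - t) • a + t • b : ℂ)).im - x.im) = (x.im < (((1 - t) • a + t • b : ℂ)).im) := by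
    rw [sub_pos]
  rw [q0] at key
  simp only [q1, q2, q3, q4, q5, q6] at key
  unfold sg
  rw [o1, o2]
  exact key

private lemma ray_tri_aux (A B C c1 c2 c3 : ℝ) (hA : A ≠ 0) (hB : B ≠ 0) (hC : C ≠ 0)
    (h1 : c1 ≠ 0) (h2 : c2 ≠ 0) (h3 : c3 ≠ 0) (hD : 0 < c1 + c2 + c3)
    (hid : c2 * A + c3 * B + c1 * C = 0) :
    (if A < 0 ∧ 0 < B ∧ 0 < c1 then (1 : ℝ) else if B < 0 ∧ 0 < A ∧ c1 < 0 then -1 else 0)
    + (if B < 0 ∧ 0 < C ∧ 0 < c2 then (1 : ℝ) else if C < 0 ∧ 0 < B ∧ c2 < 0 then -1 else 0)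
    + (if C < 0 ∧ 0 < A ∧ 0 < c3 then (1 : ℝ) else if A < 0 ∧ 0 < C ∧ c3 < 0 then -1 else 0)
    = if 0 < c1 ∧ 0 < c2 ∧ 0 < c3 then 1 else 0 := by
  rcases lt_or_gt_of_ne hA with hA' | hA' <;> rcases lt_or_gt_of_ne hB with hB' | hB' <;>
    rcases lt_or_gt_of_ne hC with hC' | hC' <;>
    rcases lt_or_gt_of_ne h1 with h1' | h1' <;> rcases lt_or_gt_of_ne h2 with h2' | h2' <;>
    rcases lt_or_gt_of_ne h3 with h3' | h3' <;>
    first
    | (simp [hA', hB', hC', hA'.not_gt, hB'.not_gt, hC'.not_gt, h1', h2', h3', h1'.not_gt,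
        h2'.not_gt, h3'.not_gt]; done)
    | (exfalso; linarith)
    | (exfalso; nlinarith)

open Classical in
lemma sg_tri (x a b c : ℂ) (h : 0 < ori a b c) (ha : a.im ≠ x.im) (hb : b.im ≠ x.im)
    (hc : c.im ≠ x.im) (hab : ori a b x ≠ 0) (hbc : ori b c x ≠ 0) (hca : ori c a x ≠ 0) :
    sg x a b + sg x b c + sg x c a = if InTri x a b c then 1 else 0 := by
  have key := ray_tri_aux (a.im - x.im) (b.im - x.im) (c.im - x.im) (ori a b x) (ori b c x)
    (ori c a x) (sub_ne_zero.2 ha) (sub_ne_zero.2 hb) (sub_ne_zero.2 hc) hab hbc hca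
    (by
      have : ori a b x + ori b c x + ori c a x = ori a b c := by
        simp only [ray_ori_eq]; ring
      rw [this]; exact h)
    (by simp only [ray_ori_eq]; ring)
  have q1 : (a.im - x.im < 0) = (a.im < x.im) := by rw [sub_neg]
  have q2 : (0 < a.im - x.im) = (x.im < a.im) := by rw [sub_pos]
  have q3 : (b.im - x.im < 0) = (b.im < x.im) := by rw [sub_neg]
  have q4 : (0 < b.im - x.im) = (x.im < b.im) := by rw [sub_pos]
  have q5 : (c.im - x.im < 0) = (c.im < x.im) := by rw [sub_neg]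
  have q6 : (0 < c.im - x.im) = (x.im < c.im) := by rw [sub_pos]
  simp only [q1, q2, q3, q4, q5, q6] at key
  unfold sg
  rw [key]
  unfold InTri
  congr

/-- a point of an open triangle is a convex combination with positive weights -/
lemma InTri.mem_hull {x a b c : ℂ} (hx : InTri x a b c) : x ∈ convexHull ℝ {a, b, c} := by
  obtain ⟨h1, h2, h3⟩ := hx
  have hsum : ori a b x + ori b c x + ori c a x = ori a b c := by
    simp only [ray_ori_eq]; ring
  have hD : 0 < ori a b c := by rw [← hsum]; positivity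
  have hxe : x = (ori b c x / ori a b c) • a + (ori c a x / ori a b c) • b
      + (ori a b x / ori a b c) • c := by
    have hre : ori b c x * a.re + ori c a x * b.re + ori a b x * c.re = ori a b c * x.re := by
      simp only [ray_ori_eq]; ring
    have him : ori b c x * a.im + ori c a x * b.im + ori a b x * c.im = ori a b c * x.im := by
      simp only [ray_ori_eq]; ring
    apply Complex.ext
    · simp only [Complex.add_re, Complex.real_smul, Complex.re_ofReal_mul]
      field_simp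
      linarith
    · simp only [Complex.add_im, Complex.real_smul, Complex.im_ofReal_mul]
      field_simp
      linarith
  rw [hxe]
  have hconv := convex_convexHull ℝ ({a, b, c} : Set ℂ)
  have ma : a ∈ convexHull ℝ ({a, b, c} : Set ℂ) := subset_convexHull ℝ _ (by simp)
  have mb : b ∈ convexHull ℝ ({a, b, c} : Set ℂ) := subset_convexHull ℝ _ (by simp)
  have mc : c ∈ convexHull ℝ ({a, b, c} : Set ℂ) := subset_convexHull ℝ _ (by simp)
  have := hconv.sum_mem (t := (Finset.univ : Finset (Fin 3)))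
      (w := ![ori b c x / ori a b c, ori c a x / ori a b c, ori a b x / ori a b c])
      (z := ![a, b, c]) (by
        intro i _
        fin_cases i
        · exact (div_pos h2 hD).le
        · exact (div_pos h3 hD).le
        · exact (div_pos h1 hD).le) (by
        simp [Fin.sum_univ_three]
        field_simp
        linarith) (by
        intro i _
        fin_cases i
        · exact ma
        · exact mb
        · exact mc)
  simpa [Fin.sum_univ_three] using this

/-- every vertex of a strictly convex hexagon is different from the others -/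
lemma SC.injective {v : Fin 6 → ℂ} (hv : SC v) : Function.Injective v := by
  intro i j hij
  by_contra hne
  by_cases h1 : j = i + 1
  · have := hv i (i + 2) (by grind) (by grind)
    rw [← h1, ← hij, ray_ori_eq] at this
    simp at this
  · have := hv i j (Ne.symm hne) h1
    rw [← hij, ray_ori_eq] at this
    simp at this

lemma ray_convex (a b : ℂ) : Convex ℝ {x : ℂ | 0 ≤ ori a b x} := by
  intro x hx y hy s t hs ht hst
  simp only [Set.mem_ofPred_eq] at *
  have : ori a b (s • x + t • y) = s * ori a b x + t * ori a b y := by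
    have hs' : s = 1 - t := by linarith
    subst hs'
    simp only [ray_ori_eq, Complex.add_re, Complex.add_im, Complex.real_smul,
      Complex.re_ofReal_mul, Complex.im_ofReal_mul]
    ring
  rw [this]
  positivity

private lemma ray_ne {v : Fin 6 → ℂ} (hv : SC v) {x : ℂ} (hx : Gen (Set.range v) x) {i j : Fin 6}
    (hij : i ≠ j) : ori (v i) (v j) x ≠ 0 :=
  hx.2 _ ⟨i, rfl⟩ _ ⟨j, rfl⟩ (fun h => hij (hv.injective h))

private lemma ray_pos_of_mem {v : Fin 6 → ℂ} (hv : SC v) {x : ℂ} (hx : Gen (Set.range v) x)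
    (hm : x ∈ convexHull ℝ (Set.range v)) (i : Fin 6) : 0 < ori (v i) (v (i + 1)) x := by
  have h1 : x ∈ {x : ℂ | 0 ≤ ori (v i) (v (i + 1)) x} := by
    refine convexHull_min ?_ (ray_convex _ _) hm
    rintro y ⟨j, rfl⟩
    simp only [Set.mem_ofPred_eq]
    by_cases hj : j = i
    · rw [hj, ray_ori_eq]; simp
    · by_cases hj' : j = i + 1
      · rw [hj', ray_ori_eq]
        apply le_of_eq
        ring
      · exact (hv i j hj hj').le
  have h2 : ori (v i) (v (i + 1)) x ≠ 0 := ray_ne hv hx (by grind)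
  exact lt_of_le_of_ne h1 (Ne.symm h2)

private lemma ray_plu (o a b c x : ℂ) :
    ori o a b * ori o c x - ori o a c * ori o b x + ori o b c * ori o a x = 0 := by
  simp only [ray_ori_eq]; ring

private lemma ray_plu4 (o a b c d : ℂ) :
    ori o a c * ori o b d = ori o a b * ori o c d + ori o a d * ori o b c := by
  simp only [ray_ori_eq]; ring

private lemma ray_cyc (a b c : ℂ) : ori a b c = ori b c a := by
  simp only [ray_ori_eq]; ring

private lemma ray_d {v : Fin 6 → ℂ} (hv : SC v) :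
    0 < ori (v 0) (v 1) (v 2) ∧ 0 < ori (v 0) (v 1) (v 3) ∧ 0 < ori (v 0) (v 1) (v 4) ∧
    0 < ori (v 0) (v 1) (v 5) ∧ 0 < ori (v 0) (v 2) (v 3) ∧ 0 < ori (v 0) (v 2) (v 4) ∧
    0 < ori (v 0) (v 2) (v 5) ∧ 0 < ori (v 0) (v 3) (v 4) ∧ 0 < ori (v 0) (v 3) (v 5) ∧
    0 < ori (v 0) (v 4) (v 5) := by
  have h12 := hv 0 2 (by decide) (by decide)
  have h13 := hv 0 3 (by decide) (by decide)
  have h14 := hv 0 4 (by decide) (by decide)
  have h15 := hv 0 5 (by decide) (by decide)
  have h23 := hv 2 0 (by decide) (by decide)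
  have h34 := hv 3 0 (by decide) (by decide)
  have h45 := hv 4 0 (by decide) (by decide)
  have h25 := hv 5 2 (by decide) (by decide)
  have h35 := hv 5 3 (by decide) (by decide)
  simp only [show (0 : Fin 6) + 1 = 1 from rfl, show (2 : Fin 6) + 1 = 3 from rfl,
    show (3 : Fin 6) + 1 = 4 from rfl, show (4 : Fin 6) + 1 = 5 from rfl,
    show (5 : Fin 6) + 1 = 0 from rfl] at h12 h13 h14 h15 h23 h34 h45 h25 h35
  rw [← ray_cyc] at h23 h34 h45
  rw [ray_cyc] at h25 h35
  have h24 : 0 < ori (v 0) (v 2) (v 4) := by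
    have := ray_plu4 (v 0) (v 2) (v 3) (v 4) (v 5)
    have hp : 0 < ori (v 0) (v 2) (v 4) * ori (v 0) (v 3) (v 5) := by
      rw [this]; positivity
    exact (mul_pos_iff_of_pos_right h35).1 hp
  exact ⟨h12, h13, h14, h15, h23, h24, h25, h34, h35, h45⟩

private lemma ray_intri_mem {v : Fin 6 → ℂ} {x : ℂ} {i j k : Fin 6}
    (h : InTri x (v i) (v j) (v k)) : x ∈ convexHull ℝ (Set.range v) := by
  refine convexHull_mono ?_ h.mem_hull
  rintro y (rfl | rfl | rfl)
  · exact ⟨i, rfl⟩
  · exact ⟨j, rfl⟩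
  · exact ⟨k, rfl⟩

lemma mem_hull_iff {v : Fin 6 → ℂ} (hv : SC v) {x : ℂ} (hx : Gen (Set.range v) x) :
    x ∈ convexHull ℝ (Set.range v) ↔ ∀ i, 0 < ori (v i) (v (i + 1)) x := by
  constructor
  · intro hm i
    exact ray_pos_of_mem hv hx hm i
  · intro h
    have e0 : 0 < ori (v 0) (v 1) x := h 0
    have e1 : 0 < ori (v 1) (v 2) x := h 1
    have e2 : 0 < ori (v 2) (v 3) x := h 2
    have e3 : 0 < ori (v 3) (v 4) x := h 3
    have e4 : 0 < ori (v 4) (v 5) x := h 4
    have e5 : 0 < ori (v 5) (v 0) x := h 5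
    rcases lt_or_gt_of_ne (ray_ne hv hx (i := 0) (j := 2) (by decide)) with k2 | k2
    · exact ray_intri_mem (i := 0) (j := 1) (k := 2) ⟨e0, e1, by rw [ori_swap]; linarith⟩
    rcases lt_or_gt_of_ne (ray_ne hv hx (i := 0) (j := 3) (by decide)) with k3 | k3
    · exact ray_intri_mem (i := 0) (j := 2) (k := 3) ⟨k2, e2, by rw [ori_swap]; linarith⟩
    rcases lt_or_gt_of_ne (ray_ne hv hx (i := 0) (j := 4) (by decide)) with k4 | k4
    · exact ray_intri_mem (i := 0) (j := 3) (k := 4) ⟨k3, e3, by rw [ori_swap]; linarith⟩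
    · exact ray_intri_mem (i := 0) (j := 4) (k := 5) ⟨k4, e4, e5⟩

open Classical in
/-- fan decomposition from `v 0`, pointwise -/
lemma fan_count {v : Fin 6 → ℂ} (hv : SC v) {x : ℂ} (hx : Gen (Set.range v) x) :
    (if InTri x (v 0) (v 1) (v 2) then (1 : ℝ) else 0) + (if InTri x (v 0) (v 2) (v 3) then 1 else 0)
      + (if InTri x (v 0) (v 3) (v 4) then 1 else 0) + (if InTri x (v 0) (v 4) (v 5) then 1 else 0)
      = if x ∈ convexHull ℝ (Set.range v) then 1 else 0 := by
  by_cases hm : x ∈ convexHull ℝ (Set.range v)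
  · rw [if_pos hm]
    have h := (mem_hull_iff hv hx).1 hm
    have e0 : 0 < ori (v 0) (v 1) x := h 0
    have e1 : 0 < ori (v 1) (v 2) x := h 1
    have e2 : 0 < ori (v 2) (v 3) x := h 2
    have e3 : 0 < ori (v 3) (v 4) x := h 3
    have e4 : 0 < ori (v 4) (v 5) x := h 4
    have e5 : 0 < ori (v 5) (v 0) x := h 5
    obtain ⟨h12, h13, h14, h15, h23, h24, h25, h34, h35, h45⟩ := ray_d hv
    have s2 : ori (v 2) (v 0) x = - ori (v 0) (v 2) x := ori_swap _ _ _
    have s3 : ori (v 3) (v 0) x = - ori (v 0) (v 3) x := ori_swap _ _ _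
    have s4 : ori (v 4) (v 0) x = - ori (v 0) (v 4) x := ori_swap _ _ _
    have s5 : ori (v 5) (v 0) x = - ori (v 0) (v 5) x := ori_swap _ _ _
    have k5 : ori (v 0) (v 5) x < 0 := by rw [s5] at e5; linarith
    have n2 := ray_ne hv hx (i := 0) (j := 2) (by decide)
    have n3 := ray_ne hv hx (i := 0) (j := 3) (by decide)
    have n4 := ray_ne hv hx (i := 0) (j := 4) (by decide)
    have p123 := ray_plu (v 0) (v 1) (v 2) (v 3) x
    have p124 := ray_plu (v 0) (v 1) (v 2) (v 4) x
    have p234 := ray_plu (v 0) (v 2) (v 3) (v 4) x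
    have p134 := ray_plu (v 0) (v 1) (v 3) (v 4) x
    unfold InTri
    rw [s2, s3, s4, s5]
    simp only [e0, e1, e2, e3, e4, true_and, Left.neg_pos_iff, k5, and_true]
    generalize ori (v 0) (v 1) x = k1 at *
    generalize ori (v 0) (v 2) x = k2 at *
    generalize ori (v 0) (v 3) x = k3 at *
    generalize ori (v 0) (v 4) x = k4 at *
    rcases lt_or_gt_of_ne n2 with q2 | q2 <;> rcases lt_or_gt_of_ne n3 with q3 | q3 <;>
      rcases lt_or_gt_of_ne n4 with q4 | q4
    · simp [q2, q3, q4, q2.not_gt, q3.not_gt, q4.not_gt]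
    · -- k1>0, k2<0, k4>0 : p124 : d12 k4 - d14 k2 + d24 k1 = 0
      exfalso
      have a1 := mul_pos h12 q4
      have a2 := mul_pos h14 (neg_pos.2 q2)
      have a3 := mul_pos h24 e0
      linarith
    · exfalso
      have a1 := mul_pos h12 q3
      have a2 := mul_pos h13 (neg_pos.2 q2)
      have a3 := mul_pos h23 e0
      linarith
    · exfalso
      have a1 := mul_pos h12 q3
      have a2 := mul_pos h13 (neg_pos.2 q2)
      have a3 := mul_pos h23 e0
      linarith
    · simp [q2, q3, q4, q2.not_gt, q3.not_gt, q4.not_gt]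
    · -- k2>0,k3<0,k4>0
      exfalso
      have a1 := mul_pos h23 q4
      have a2 := mul_pos h24 (neg_pos.2 q3)
      have a3 := mul_pos h34 q2
      linarith
    · simp [q2, q3, q4, q2.not_gt, q3.not_gt, q4.not_gt]
    · simp [q2, q3, q4, q2.not_gt, q3.not_gt, q4.not_gt]
  · rw [if_neg hm]
    rw [if_neg (fun h => hm (ray_intri_mem h)), if_neg (fun h => hm (ray_intri_mem h)),
      if_neg (fun h => hm (ray_intri_mem h)), if_neg (fun h => hm (ray_intri_mem h))]
    norm_num

open Classical in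
/-- the ray-casting sum of a strictly convex hexagon is the indicator of the hexagon -/
lemma bd_sg_hex {v : Fin 6 → ℂ} (hv : SC v) {x : ℂ} (hx : Gen (Set.range v) x) :
    bd (sg x) v = if x ∈ convexHull ℝ (Set.range v) then 1 else 0 := by
  rw [← fan_count hv hx]
  obtain ⟨h12, h13, h14, h15, h23, h24, h25, h34, h35, h45⟩ := ray_d hv
  have him : ∀ i, (v i).im ≠ x.im := fun i => hx.1 _ ⟨i, rfl⟩
  rw [← sg_tri x (v 0) (v 1) (v 2) h12 (him 0) (him 1) (him 2)
      (ray_ne hv hx (by decide)) (ray_ne hv hx (by decide)) (ray_ne hv hx (by decide)),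
    ← sg_tri x (v 0) (v 2) (v 3) h23 (him 0) (him 2) (him 3)
      (ray_ne hv hx (by decide)) (ray_ne hv hx (by decide)) (ray_ne hv hx (by decide)),
    ← sg_tri x (v 0) (v 3) (v 4) h34 (him 0) (him 3) (him 4)
      (ray_ne hv hx (by decide)) (ray_ne hv hx (by decide)) (ray_ne hv hx (by decide)),
    ← sg_tri x (v 0) (v 4) (v 5) h45 (him 0) (him 4) (him 5)
      (ray_ne hv hx (by decide)) (ray_ne hv hx (by decide)) (ray_ne hv hx (by decide))]
  unfold bd
  rw [Fin.sum_univ_six]
  simp only [show (0 : Fin 6) + 1 = 1 from rfl, show (1 : Fin 6) + 1 = 2 from rfl,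
    show (2 : Fin 6) + 1 = 3 from rfl,
    show (3 : Fin 6) + 1 = 4 from rfl, show (4 : Fin 6) + 1 = 5 from rfl,
    show (5 : Fin 6) + 1 = 0 from rfl]
  rw [sg_anti x (v 0) (v 2), sg_anti x (v 0) (v 3), sg_anti x (v 0) (v 4)]
  ring

open Classical in
/-- decomposition of a hexagon into six triangles around an inner point -/
lemma bd_sg_center {v : Fin 6 → ℂ} {C : ℂ} (hC : ∀ i, 0 < ori C (v i) (v (i + 1))) {S : Set ℂ}
    {x : ℂ} (hx : Gen S x) (hCS : C ∈ S) (hvS : ∀ i, v i ∈ S) :
    bd (sg x) v = ∑ i : Fin 6, if InTri x C (v i) (v (i + 1)) then 1 else 0 := by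
  have hne : ∀ i, C ≠ v i := by
    intro i h
    have := hC i
    rw [← h, ray_ori_eq] at this
    simp at this
  have hne2 : ∀ i, v i ≠ v (i + 1) := by
    intro i h
    have := hC i
    rw [← h, ray_ori_eq] at this
    have h0 : (v i).re * (v i).im - (v i).im * (v i).re = 0 := by ring
    nlinarith
  have hi : ∀ i, (if InTri x C (v i) (v (i + 1)) then (1 : ℝ) else 0)
      = sg x C (v i) + sg x (v i) (v (i + 1)) - sg x C (v (i + 1)) := by
    intro i
    rw [← sg_tri x C (v i) (v (i + 1)) (hC i) (hx.1 _ hCS) (hx.1 _ (hvS _)) (hx.1 _ (hvS _))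
      (hx.2 _ hCS _ (hvS _) (hne _)) (hx.2 _ (hvS _) _ (hvS _) (hne2 _))
      (hx.2 _ (hvS _) _ hCS (Ne.symm (hne _)))]
    rw [sg_anti x C (v (i + 1))]
    ring
  rw [Finset.sum_congr rfl (fun i _ => hi i)]
  unfold bd
  rw [Fin.sum_univ_six, Fin.sum_univ_six]
  simp only [show (0 : Fin 6) + 1 = 1 from rfl, show (1 : Fin 6) + 1 = 2 from rfl,
    show (2 : Fin 6) + 1 = 3 from rfl,
    show (3 : Fin 6) + 1 = 4 from rfl, show (4 : Fin 6) + 1 = 5 from rfl,
    show (5 : Fin 6) + 1 = 0 from rfl]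
  ring

end H52Hex
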